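import Pool.Agent.Lib.MP_33650d_pr.Y.Defs

namespace Pool.Agent.Lib.MP_33650d_pr.Y
open MeasureTheory ProbabilityTheory Real X

/-- Two more bounds for the modulus, with the second order term. -/
structure Modu3 (f : ℝ → ℂ) (N J : ℝ) : Prop where
  c2 : ∀ t : ℝ, 1 ≤ t → t ≤ 2.3 →
    ‖f t‖ ≤ exp (-(((1 - cos t) + 0.22 * (1 - cos t) ^ 2) * N) + 2 * t ^ 3 * J)
  t3 : ∀ t : ℝ, 4.5 ≤ t → t ≤ 5.3 →
    ‖f t‖ ≤ exp (-(((1 - cos t) + 0.22 * (1 - cos t) ^ 2) * N) + (2 + 48 * (5.3 - t)) * J)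

end Pool.Agent.Lib.MP_33650d_pr.Y
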