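import Pool.Agent.Lib.MP_33650d_pr.X.Basic
import Pool.Agent.Lib.MP_33650d_pr.X.DefsL

namespace Pool.Agent.Lib.MP_33650d_pr.Y
open MeasureTheory ProbabilityTheory Real X

/-- The convex penalty `g`, its derivative and the weight `z ^ 2 g z`. -/
noncomputable def gf (z : ℝ) : ℝ := 2 / 5 * (z - 1) ^ 2 / max z 1
noncomputable def gd (z : ℝ) : ℝ := if z ≤ 1 then -(4 / 5) * (1 - z) else 2 / 5 * (1 - 1 / z ^ 2)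
noncomputable def Gw (z : ℝ) : ℝ := 2 / 5 * z * (z - 1) ^ 2 * min z 1

/-- Data of one centred summand `X` with independent copy `X'`: variance, `m = E X₊`,
`yp = E X₊ ^ 2 / m`, `ym = E X₋ ^ 2 / m`, excess `b` of the third absolute moment, `P2`,
`P3 = E Gw |X - X'| / 2` and the characteristic function. -/
structure SD where
  s : ℝ
  m : ℝ
  yp : ℝ
  ym : ℝ
  b : ℝ
  P2 : ℝ
  P3 : ℝ
  f : ℝ → ℂ

def SD.beta (d : SD) : ℝ := d.m * (d.yp ^ 2 + d.ym ^ 2) + d.b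
/-- `E |X - X'| ^ 3 / 2`. -/
def SD.Z (d : SD) : ℝ := d.beta + 2 * d.m * d.s - d.P2
def SD.K (d : SD) : ℝ := d.s * (d.yp - d.ym)
def SD.L (d : SD) : ℝ := d.Z - d.s - 2 * d.P3
noncomputable def SD.J (d : SD) : ℝ := Cp * d.beta - d.K / 6 - d.Z / 2 + d.P3

/-- Characteristic function of the law on `yp, 0, -ym`. -/
noncomputable def lazy (m yp ym t : ℝ) : ℂ :=
  1 + ((m / yp : ℝ) : ℂ) * (Complex.exp (((t * yp : ℝ) : ℂ) * Complex.I) - 1)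
    + ((m / ym : ℝ) : ℂ) * (Complex.exp (((-(t * ym) : ℝ) : ℂ) * Complex.I) - 1)

structure SD.Ok (d : SD) : Prop where
  mpos : 0 < d.m
  ppos : 0 < d.yp
  npos : 0 < d.ym
  hs : d.s = d.m * (d.yp + d.ym)
  lz : d.s ≤ d.yp * d.ym
  bnn : 0 ≤ d.b
  pnn : 0 ≤ d.P2
  norm : ∀ t, ‖d.f t‖ ≤ 1
  close : ∀ t, 0 < t → ‖d.f t - lazy d.m d.yp d.ym t‖ ≤ t ^ 3 * d.b / 6
  zlin : ∀ t c A B C : ℝ,
    (∀ z : ℝ, 0 ≤ z → 0 ≤ c * (1 - cos (t * z)) + A * z ^ 2 + B * z ^ 3 + C * Gw z) →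
    0 ≤ c * (1 - ‖d.f t‖ ^ 2) + 2 * (A * d.s + B * d.Z + C * d.P3)

/-- The scale functional of a law at scale `ρ`. -/
noncomputable def Lf (μ : Measure ℝ) (ρ : ℝ) : ℝ :=
  (∫ p : ℝ × ℝ, ((ρ * |p.1 - p.2|) ^ 3 - (ρ * |p.1 - p.2|) ^ 2 - 2 * Gw (ρ * |p.1 - p.2|))
    ∂(μ.prod μ)) / 2

noncomputable def cJ : ℝ := (3 + r10) / 12
noncomputable def A4 : ℝ := -(1 + 3 * dE ^ 2) / 2
noncomputable def B4 : ℝ := 3 * dE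
noncomputable def A5 : ℝ := -6 * dE ^ 3
noncomputable def B5 : ℝ := 9 * dE ^ 2 - 2
noncomputable def C5 : ℝ := -4 * dE
noncomputable def A6 : ℝ := 1 + 15 / 2 * dE ^ 2 - 45 / 2 * dE ^ 4
noncomputable def B6 : ℝ := 30 * dE ^ 3 - 15 * dE
noncomputable def C6 : ℝ := 4 - 15 * dE ^ 2

/-- The exponent of the comparison function; it is linear in `(N, K, L)`. -/
noncomputable def Wf (N K L t : ℝ) : ℂ :=
  ((-(N * t ^ 2 / 2) + (A4 * N + B4 * K - L) * t ^ 4 / 24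
      - (A6 * N + B6 * K + C6 * L) * t ^ 6 / 720 : ℝ) : ℂ)
    + ((-(K * t ^ 3 / 6) + (A5 * N + B5 * K + C5 * L) * t ^ 5 / 120 : ℝ) : ℂ) * Complex.I

noncomputable def th0 (t : ℝ) : ℝ := 0.45 + 0.21 * t + 0.18 * t ^ 2 + 0.22 * t ^ 6
noncomputable def thE (t : ℝ) : ℝ := 0.45 + 0.3 * t + 0.21 * t ^ 2 + 0.22 * t ^ 6
noncomputable def etaE (t : ℝ) : ℝ :=
  0.0003 * t ^ 7 + 0.00055 * t ^ 8 + 0.00005 * t ^ 9 + 0.0001 * t ^ 10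

/-- The characteristic function lies in a disc around the comparison function. -/
def Disc (f : ℝ → ℂ) (N K J : ℝ) : Prop :=
  ∀ t : ℝ, 0 < t → t ≤ 8 / 5 → ‖f t - Complex.exp (Wf N K 0 t)‖
    ≤ ‖Complex.exp (Wf N K 0 t)‖ * (exp (thE t * t ^ 3 * J + etaE t * N) - 1)

/-- Bounds for the modulus. -/
structure Modu (f : ℝ → ℂ) (N J : ℝ) : Prop where
  b : ∀ t : ℝ, 0 < t → ‖f t‖ ≤ exp (-(t ^ 2 * (1 / 2 - t / 10) * N) + t ^ 3 / 5 * J)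
  z1 : ∀ t : ℝ, 0 < t → t ≤ 2 → ‖f t‖ ≤ exp (-(t ^ 2 * (0.285 - 0.065 * t) * N))
  z2 : ∀ t : ℝ, 2 ≤ t → t ≤ 5 → ‖f t‖ ≤ exp (-(0.6 * N))
  c : ∀ t : ℝ, 1 ≤ t → t ≤ 5 → ‖f t‖ ≤ exp (-(0.99 * (1 - cos t) * N) + 0.4 * t ^ 3 * J)
  t1 : ∀ t : ℝ, 5 ≤ t → t < 2 * π → ‖f t‖ ≤ exp (-((1 - cos t) * N))
  t2 : ∀ t : ℝ, 5.3 ≤ t → t < 2 * π →
    ‖f t‖ ≤ exp (-(((1 - cos t) + 0.22 * (1 - cos t) ^ 2) * N) + 5 * (1 - cos t) ^ 2 * J)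

/-- The range of `K`. -/
def KR (N K J : ℝ) : Prop :=
  0 ≤ J ∧ (∀ b : ℝ, 1 + dE ≤ b → K ≤ (dE + 3 * dE / b) * N + b * J) ∧
    ∀ b : ℝ, 1 - dE ≤ b → -K ≤ (-dE + 3 * dE / b) * N + b * J

/-- An entry for all summands: one multiplier of `L` for all of them. -/
def Entry (t α θ : ℝ) : Prop :=
  ∃ μ : ℝ, ∀ d : SD, d.Ok → ‖d.f t‖ ≤ exp (-(α * d.s) + μ * d.L + θ * d.J)

/-! Normalised parameters of the three-point law: `y = yp + ym`, `κ = (yp - ym) / y`,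
`s = ((1 - κ ^ 2) / 4 - ν) y ^ 2`. -/

structure Par (y κ ν : ℝ) : Prop where
  y0 : 0 < y
  k0 : -1 ≤ κ
  k1 : κ ≤ 1
  n0 : 0 ≤ ν
  n1 : ν ≤ (1 - κ ^ 2) / 4

noncomputable def vs (y κ ν : ℝ) : ℝ := ((1 - κ ^ 2) / 4 - ν) * y ^ 2

noncomputable def F0 (u κ ν : ℝ) : ℂ :=
  1 + ((2 * ((1 - κ ^ 2) / 4 - ν) / (1 + κ) : ℝ) : ℂ)
      * (Complex.exp (((u * (1 + κ) / 2 : ℝ) : ℂ) * Complex.I) - 1)
    + ((2 * ((1 - κ ^ 2) / 4 - ν) / (1 - κ) : ℝ) : ℂ)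
      * (Complex.exp (((-(u * (1 - κ) / 2) : ℝ) : ℂ) * Complex.I) - 1)

noncomputable def W0 (t y κ ν : ℝ) : ℂ :=
  Wf (vs y κ ν) (vs y κ ν * (κ * y)) (vs y κ ν * (y * (1 - 2 * ν) - 1)) t

noncomputable def gh (y : ℝ) : ℝ := if y ≤ 0.85 then 0.111 - 0.12 * y else gf y
noncomputable def wv (y : ℝ) : ℝ := if y ≤ 1 then 1 else 0.2 + 0.8 / y ^ 2
noncomputable def cbv (y : ℝ) : ℝ := if y ≤ 1 then r10 / 6 - 0.12 else r10 / 6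
noncomputable def Dp (y κ ν : ℝ) : ℝ := cJ * y * (κ - dE) ^ 2 + ν * y * wv y + gh y

noncomputable def m4 (y κ : ℝ) : ℝ := y ^ 2 * (1 + 3 * κ ^ 2) / 4
noncomputable def m5 (y κ : ℝ) : ℝ := y ^ 3 * κ * (1 + κ ^ 2) / 2
noncomputable def m6 (y κ : ℝ) : ℝ := y ^ 4 * (1 + 10 * κ ^ 2 + 5 * κ ^ 4) / 16
noncomputable def m7 (y κ : ℝ) : ℝ := y ^ 5 * κ * (3 + 10 * κ ^ 2 + 3 * κ ^ 4) / 16
noncomputable def m8 (y κ : ℝ) : ℝ := y ^ 6 * (1 + 21 * κ ^ 2 + 35 * κ ^ 4 + 7 * κ ^ 6) / 64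
noncomputable def be3 (y κ : ℝ) : ℝ := y * (1 + κ ^ 2) / 2
noncomputable def be5 (y κ : ℝ) : ℝ := y ^ 3 * (1 + 6 * κ ^ 2 + κ ^ 4) / 8
noncomputable def be7 (y κ : ℝ) : ℝ := y ^ 5 * (1 + 15 * κ ^ 2 + 15 * κ ^ 4 + κ ^ 6) / 32

/-- Cumulants divided by the variance. -/
noncomputable def c4 (y κ ν : ℝ) : ℝ := m4 y κ - 3 * vs y κ ν
noncomputable def c5 (y κ ν : ℝ) : ℝ := m5 y κ - 10 * vs y κ ν * (κ * y)
noncomputable def c6 (y κ ν : ℝ) : ℝ :=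
  m6 y κ - 15 * vs y κ ν * m4 y κ - 10 * vs y κ ν * (κ * y) ^ 2 + 30 * vs y κ ν ^ 2
noncomputable def c7 (y κ ν : ℝ) : ℝ :=
  m7 y κ - 21 * vs y κ ν * m5 y κ - 35 * vs y κ ν * m4 y κ * (κ * y)
    + 210 * vs y κ ν ^ 2 * (κ * y)
noncomputable def p8 (y κ ν : ℝ) : ℝ :=
  m8 y κ / 40320 + vs y κ ν * (m6 y κ / 1440 + |κ| * y * be5 y κ / 720 + m4 y κ ^ 2 / 1152)
    + vs y κ ν ^ 2 * (m4 y κ / 96 + (κ * y) ^ 2 / 72) + vs y κ ν ^ 3 / 64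
noncomputable def p9 (y κ ν : ℝ) : ℝ :=
  vs y κ ν ^ 2 * (|κ| * y * m4 y κ / 144 + be3 y κ ^ 3 / 648)
noncomputable def p10 (y κ ν : ℝ) : ℝ := vs y κ ν ^ 2 * m4 y κ ^ 2 / 1152 + vs y κ ν ^ 4 / 50

/-- The tangent planes. -/
noncomputable def a4 (y κ ν : ℝ) : ℝ := A4 + B4 * (κ * y) - (y * (1 - 2 * ν) - 1)
noncomputable def a5 (y κ ν : ℝ) : ℝ := A5 + B5 * (κ * y) + C5 * (y * (1 - 2 * ν) - 1)
noncomputable def a6 (y κ ν : ℝ) : ℝ := A6 + B6 * (κ * y) + C6 * (y * (1 - 2 * ν) - 1)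

noncomputable def thL (t U : ℝ) : ℝ :=
  0.1 * t + 0.058 * U + 0.04 * t ^ 2 + 0.0128 * (U + 0.6 * t) ^ 2 + 0.0058 * (U + 0.65 * t) ^ 3
    + 0.031 * t ^ 4 + 0.0016 * (U + 0.5 * t) ^ 4 + 0.046 * t ^ 5 + 0.00124 * (U + 0.55 * t) ^ 5
    + 0.000155 * (U + 0.55 * t) ^ 6 + 0.004 * t ^ 7 + 0.00021 * (U + 0.55 * t) ^ 7

noncomputable def GG (u : ℝ) : ℝ := min (0.062 + 0.042 * (u - 2)) 0.16
noncomputable def tau0 (t y : ℝ) : ℝ :=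
  t * (0.922 - 0.46 / y) / 24 + t ^ 2 * (0.936 - 0.623 / y) / 120
    + t ^ 3 * (3.232 - 2.42 / y) / 720
noncomputable def tau1 (t : ℝ) : ℝ := 0.488 * t / 24 + 1.764 * t ^ 2 / 120 + 2.307 * t ^ 3 / 720

end Pool.Agent.Lib.MP_33650d_pr.Y
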