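import Pool.Agent.Lib.MP_33650d_pr.Y.Defs
import Pool.Agent.Lib.MP_33650d_pr.Lane

/-! A small interval checker for the inequality of `Far3`. -/

namespace Pool.Agent.Lib.MP_33650d_pr.Y
open Real X

/-- A lower bound in fixed point form. -/
def Lo_far3 (x : ℝ) (a : ℕ) : Prop := (a : ℝ) ≤ x * 4294967296
/-- An upper bound in fixed point form. -/
def Up_far3 (x : ℝ) (a : ℕ) : Prop := 0 ≤ x ∧ x * 4294967296 ≤ a

def mD_far3 (a b : ℕ) : ℕ := Nat.div (Nat.mul a b) 4294967296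
def mU_far3 (a b : ℕ) : ℕ := Nat.succ (Nat.div (Nat.mul a b) 4294967296)
def dU_far3 (a n : ℕ) : ℕ := Nat.succ (Nat.div a n)
noncomputable def ab_far3 (xl xh yl yh : ℕ) : ℕ :=
  force (Nat.sub xh yl) fun a => Nat.add a (Nat.sub (Nat.sub yh xl) a)

variable {x y : ℝ} {a b xl xh yl yh : ℕ}

theorem Lo_far3.nn (h : Lo_far3 x a) : 0 ≤ x := by
  have h1 : (0 : ℝ) ≤ x * 4294967296 := (Nat.cast_nonneg a).trans h
  linarith

theorem div_lo_far3 (a : ℕ) (n : ℕ) : ((Nat.div a n : ℕ) : ℝ) ≤ a / n := Nat.cast_div_le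

theorem div_up_far3 (a : ℕ) {n : ℕ} (hn : 0 < n) : (a : ℝ) / n ≤ (Nat.succ (Nat.div a n) : ℕ) := by
  have h1 : a < (a / n + 1) * n := by
    have := Nat.lt_div_mul_add (a := a) hn
    rw [add_mul, one_mul]
    exact this
  have h2 : (a : ℝ) ≤ ((a / n + 1 : ℕ) : ℝ) * n := by exact_mod_cast h1.le
  rw [div_le_iff₀ (by exact_mod_cast hn)]
  exact h2

theorem Lo_far3.mul (hx : Lo_far3 x a) (hy : Lo_far3 y b) : Lo_far3 (x * y) (mD_far3 a b) := by
  have h1 := div_lo_far3 (a * b) 4294967296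
  have h2 := mul_le_mul hx hy (Nat.cast_nonneg b) ((Nat.cast_nonneg a).trans hx)
  refine le_trans h1 ?_
  push_cast
  rw [div_le_iff₀ (by norm_num)]
  linarith

theorem Up_far3.mul (hx : Up_far3 x a) (hy : Up_far3 y b) : Up_far3 (x * y) (mU_far3 a b) := by
  refine ⟨mul_nonneg hx.1 hy.1, le_trans ?_ (div_up_far3 (a * b) (n := 4294967296) (by norm_num))⟩
  have h2 := mul_le_mul hx.2 hy.2 (mul_nonneg hy.1 (by norm_num)) (Nat.cast_nonneg a)
  push_cast
  rw [le_div_iff₀ (by norm_num)]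
  linarith

theorem Lo_far3.add (hx : Lo_far3 x a) (hy : Lo_far3 y b) : Lo_far3 (x + y) (Nat.add a b) := by
  unfold Lo_far3 at *
  rw [Nat.add_eq]
  push_cast
  linarith

theorem Up_far3.add (hx : Up_far3 x a) (hy : Up_far3 y b) : Up_far3 (x + y) (Nat.add a b) := by
  refine ⟨add_nonneg hx.1 hy.1, ?_⟩
  rw [Nat.add_eq]
  push_cast
  linarith [hx.2, hy.2]

theorem Lo_far3.div (hx : Lo_far3 x a) (n : ℕ) : Lo_far3 (x / n) (Nat.div a n) := by
  refine le_trans (div_lo_far3 a n) ?_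
  rw [div_mul_eq_mul_div]
  exact div_le_div_of_nonneg_right hx (Nat.cast_nonneg n)

theorem Up_far3.div (hx : Up_far3 x a) (n : ℕ) [hn : NeZero n] :
    Up_far3 (x / n) (dU_far3 a n) := by
  refine ⟨div_nonneg hx.1 (Nat.cast_nonneg n), le_trans ?_ (div_up_far3 a (Nat.pos_of_ne_zero hn.out))⟩
  rw [div_mul_eq_mul_div]
  exact div_le_div_of_nonneg_right hx.2 (Nat.cast_nonneg n)

theorem Lo_far3.nat (hx : Lo_far3 x a) (n : ℕ) : Lo_far3 (n * x) (Nat.mul n a) := by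
  unfold Lo_far3 at *
  rw [Nat.mul_eq, mul_assoc]
  push_cast
  exact mul_le_mul_of_nonneg_left hx (Nat.cast_nonneg n)

theorem Up_far3.nat (hx : Up_far3 x a) (n : ℕ) : Up_far3 (n * x) (Nat.mul n a) := by
  refine ⟨mul_nonneg (Nat.cast_nonneg n) hx.1, ?_⟩
  rw [Nat.mul_eq, mul_assoc]
  push_cast
  exact mul_le_mul_of_nonneg_left hx.2 (Nat.cast_nonneg n)

theorem lo_c_far3 (n : ℕ) : Lo_far3 (n / 4294967296) n := by
  unfold Lo_far3
  rw [div_mul_cancel₀ _ (by norm_num)]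

theorem Lo_far3.mono (hx : Lo_far3 x a) (h : x ≤ y) : Lo_far3 y a := by
  unfold Lo_far3 at *
  linarith

theorem Up_far3.mono (hx : Up_far3 x a) (h0 : 0 ≤ y) (h : y ≤ x) : Up_far3 y a :=
  ⟨h0, by linarith [hx.2]⟩

theorem sub_lo_far3 {z : ℝ} (h0 : 0 ≤ z) (h : (a : ℝ) - b ≤ z) : ((Nat.sub a b : ℕ) : ℝ) ≤ z := by
  rw [Nat.sub_eq]
  rcases le_total b a with h1 | h1
  · rw [Nat.cast_sub h1]
    exact h
  · rw [Nat.sub_eq_zero_of_le h1, Nat.cast_zero]
    exact h0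

theorem sub_up_far3 (a b : ℕ) : (a : ℝ) - b ≤ ((Nat.sub a b : ℕ) : ℝ) := by
  rw [Nat.sub_eq]
  rcases le_total b a with h1 | h1
  · rw [Nat.cast_sub h1]
  · rw [Nat.sub_eq_zero_of_le h1, Nat.cast_zero]
    have : (a : ℝ) ≤ b := by exact_mod_cast h1
    linarith

theorem Lo_far3.sub (hx : Lo_far3 x a) (hy : Up_far3 y b) (h0 : 0 ≤ x - y) :
    Lo_far3 (x - y) (Nat.sub a b) := by
  refine sub_lo_far3 (by positivity) ?_
  unfold Lo_far3 at hx
  linarith [hy.2]

theorem Lo_far3.min (hx : Lo_far3 x a) (hy : Lo_far3 y b) :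
    Lo_far3 (min x y) (Nat.sub a (Nat.sub a b)) := by
  have h1 : Nat.sub a (Nat.sub a b) ≤ a := Nat.sub_le _ _
  have h2 : Nat.sub a (Nat.sub a b) ≤ b := by
    simp only [Nat.sub_eq]
    omega
  rcases le_total x y with h | h
  · rw [min_eq_left h]
    exact le_trans (by exact_mod_cast h1) hx
  · rw [min_eq_right h]
    exact le_trans (by exact_mod_cast h2) hy

theorem ab_up_far3 (h1 : Lo_far3 x xl) (h2 : Up_far3 x xh) (h3 : Lo_far3 y yl)
    (h4 : Up_far3 y yh) : Up_far3 |x - y| (ab_far3 xl xh yl yh) := by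
  refine ⟨abs_nonneg _, ?_⟩
  rw [ab_far3, force_eq, Nat.add_eq]
  have a1 := sub_up_far3 xh yl
  have a2 := sub_up_far3 yh xl
  have a3 := sub_up_far3 (Nat.sub yh xl) (Nat.sub xh yl)
  have a4 : (0 : ℝ) ≤ ((Nat.sub (Nat.sub yh xl) (Nat.sub xh yl) : ℕ) : ℝ) := Nat.cast_nonneg _
  unfold Lo_far3 at h1 h3
  rw [Nat.cast_add]
  rcases abs_cases (x - y) with ⟨e, -⟩ | ⟨e, -⟩ <;> rw [e] <;> linarith [h2.2, h4.2]

theorem ab_lo_far3 (h1 : Lo_far3 x xl) (h2 : Up_far3 x xh) (h3 : Lo_far3 y yl)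
    (h4 : Up_far3 y yh) : Lo_far3 |x - y| (Nat.add (Nat.sub xl yh) (Nat.sub yl xh)) := by
  unfold Lo_far3 at *
  rw [Nat.add_eq, Nat.cast_add]
  rcases abs_cases (x - y) with ⟨e, e'⟩ | ⟨e, e'⟩ <;> rw [e]
  · have a1 : ((Nat.sub xl yh : ℕ) : ℝ) ≤ (x - y) * 4294967296 :=
      sub_lo_far3 (by positivity) (by linarith [h4.2])
    have a2 : ((Nat.sub yl xh : ℕ) : ℝ) ≤ 0 := sub_lo_far3 le_rfl (by linarith [h2.2])
    linarith
  · have a1 : ((Nat.sub yl xh : ℕ) : ℝ) ≤ -(x - y) * 4294967296 :=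
      sub_lo_far3 (by nlinarith) (by linarith [h2.2])
    have a2 : ((Nat.sub xl yh : ℕ) : ℝ) ≤ 0 := sub_lo_far3 le_rfl (by linarith [h4.2])
    linarith

theorem le_of_far3 (hx : Up_far3 x a) (hy : Lo_far3 y b) (h : Nat.ble a b = true) : x ≤ y := by
  have h1 : (a : ℝ) ≤ b := by exact_mod_cast Nat.le_of_ble_eq_true h
  unfold Lo_far3 at hy
  linarith [hx.2]

theorem lo_n_far3 (n : ℕ) : Lo_far3 n (Nat.mul n 4294967296) := by
  unfold Lo_far3
  rw [Nat.mul_eq]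
  push_cast
  exact le_rfl

theorem up_n_far3 (n : ℕ) : Up_far3 n (Nat.mul n 4294967296) := by
  refine ⟨Nat.cast_nonneg n, ?_⟩
  rw [Nat.mul_eq]
  push_cast
  exact le_rfl

/-! The real functions. -/

/-- An upper bound of `exp a` on `[0, 1]`. -/
noncomputable def e_far3 (a : ℝ) : ℝ := 1 + a * (1 + a * (48 + a * (16 + 5 * a)) / 96)
noncomputable def E_far3 (g : ℝ) : ℝ :=
  (e_far3 (g / 8) * e_far3 (g / 8)) * (e_far3 (g / 8) * e_far3 (g / 8))
noncomputable def R_far3 (x : ℝ) : ℝ := 1 + x * (60 + x * (20 + x * (5 + x))) / 120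
noncomputable def B_far3 (u k q S : ℝ) : ℝ :=
  u * (min (42 * (u - 1) / 1000 + 1 / 50) (4 / 25)
    + (2259 * (|k - dE| * |k - dE|) / 10000 + 22 * (1 - (q + 4 * S)) / 1000))
noncomputable def Ap_far3 (v q g c : ℝ) : ℝ := v * (1 + 3 * q) / 96 + g * (24 * c + g) / 48
noncomputable def Am_far3 (v q g c : ℝ) : ℝ :=
  v * v * (1 + q * (10 + 5 * q)) / 11520 + g * (1 + 2 * (g * c)) / 8
noncomputable def Ip_far3 (v q g : ℝ) : ℝ := v * (1 + q) / 240 + g * g / 48
noncomputable def Im_far3 (g c : ℝ) : ℝ := g * (3 + g * c) / 36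
noncomputable def T1_far3 (u k v q g c w : ℝ) : ℝ :=
  |Ap_far3 v q g c - Am_far3 v q g c| + k * u * |Ip_far3 v q g - Im_far3 g c|
    + (u * (v * v) * (1 + q * (15 + q * (15 + q))) / 161280 + g * (w * w) / 24)
noncomputable def T2_far3 (u q w : ℝ) : ℝ := u * (1 + q) / 10 + w / 2

/-- The inequality at a point. -/
def G_far3 (u k v q g c w B : ℝ) : Prop :=
  T1_far3 u k v q g c w * E_far3 g ≤ B * R_far3 (g * B) ∨
    T2_far3 u q w * E_far3 g ≤ B * R_far3 (g * B) ∨ 1 + E_far3 g ≤ g * B * R_far3 (g * B)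

def Goal_far3 (u k S : ℝ) : Prop :=
  G_far3 u k (u * u) (k * k) (S * (u * u)) (k * k * (u * u) / 36)
    (S * (u * u) * (1 / 4 + k * k * (u * u) / 36)) (B_far3 u k (k * k) S)

/-! The fixed point functions. -/

noncomputable def eU_far3 (g : ℕ) : ℕ :=
  force (dU_far3 g 8) fun a =>
  force (Nat.add 4294967296 (mU_far3 a (Nat.add 4294967296 (dU_far3 (mU_far3 a
    (Nat.add 206158430208 (mU_far3 a (Nat.add 68719476736 (Nat.mul 5 a))))) 96)))) fun e =>
  force (mU_far3 e e) fun f => mU_far3 f f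

def rD_far3 (x : ℕ) : ℕ :=
  Nat.add 4294967296 (Nat.div (mD_far3 x (Nat.add 257698037760 (mD_far3 x
    (Nat.add 85899345920 (mD_far3 x (Nat.add 21474836480 x)))))) 120)

noncomputable def bD_far3 (ul kl kh qh sh : ℕ) : ℕ :=
  force (Nat.add (Nat.div (Nat.mul 42 (Nat.sub ul 4294967296)) 1000) 85899345) fun a =>
  force (Nat.add (Nat.sub kl 696978000) (Nat.sub 696977000 kh)) fun z =>
  mD_far3 ul (Nat.add (Nat.sub a (Nat.sub a 687194767))
    (Nat.add (Nat.div (Nat.mul 2259 (mD_far3 z z)) 10000)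
      (Nat.div (Nat.mul 22 (Nat.sub 4294967296 (Nat.add qh (Nat.mul 4 sh)))) 1000)))

def apD_far3 (v q g c : ℕ) : ℕ :=
  Nat.add (Nat.div (mD_far3 v (Nat.add 4294967296 (Nat.mul 3 q))) 96)
    (Nat.div (mD_far3 g (Nat.add (Nat.mul 24 c) g)) 48)
def apU_far3 (v q g c : ℕ) : ℕ :=
  Nat.add (dU_far3 (mU_far3 v (Nat.add 4294967296 (Nat.mul 3 q))) 96)
    (dU_far3 (mU_far3 g (Nat.add (Nat.mul 24 c) g)) 48)
def amD_far3 (v q g c : ℕ) : ℕ :=
  Nat.add (Nat.div (mD_far3 (mD_far3 v v) (Nat.add 4294967296 (mD_far3 q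
      (Nat.add 42949672960 (Nat.mul 5 q))))) 11520)
    (Nat.div (mD_far3 g (Nat.add 4294967296 (Nat.mul 2 (mD_far3 g c)))) 8)
def amU_far3 (v q g c : ℕ) : ℕ :=
  Nat.add (dU_far3 (mU_far3 (mU_far3 v v) (Nat.add 4294967296 (mU_far3 q
      (Nat.add 42949672960 (Nat.mul 5 q))))) 11520)
    (dU_far3 (mU_far3 g (Nat.add 4294967296 (Nat.mul 2 (mU_far3 g c)))) 8)
def ipD_far3 (v q g : ℕ) : ℕ :=
  Nat.add (Nat.div (mD_far3 v (Nat.add 4294967296 q)) 240) (Nat.div (mD_far3 g g) 48)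
def ipU_far3 (v q g : ℕ) : ℕ :=
  Nat.add (dU_far3 (mU_far3 v (Nat.add 4294967296 q)) 240) (dU_far3 (mU_far3 g g) 48)
def imD_far3 (g c : ℕ) : ℕ := Nat.div (mD_far3 g (Nat.add 12884901888 (mD_far3 g c))) 36
def imU_far3 (g c : ℕ) : ℕ := dU_far3 (mU_far3 g (Nat.add 12884901888 (mU_far3 g c))) 36

noncomputable def t1U_far3 (uh kh vl vh ql qh gl gh cl ch w : ℕ) : ℕ :=
  force (apD_far3 vl ql gl cl) fun a1 => force (apU_far3 vh qh gh ch) fun a2 =>
  force (amD_far3 vl ql gl cl) fun a3 => force (amU_far3 vh qh gh ch) fun a4 =>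
  force (ipD_far3 vl ql gl) fun b1 => force (ipU_far3 vh qh gh) fun b2 =>
  force (imD_far3 gl cl) fun b3 => force (imU_far3 gh ch) fun b4 =>
  Nat.add (Nat.add (ab_far3 a1 a2 a3 a4) (mU_far3 (mU_far3 kh uh) (ab_far3 b1 b2 b3 b4)))
    (Nat.add (dU_far3 (mU_far3 (mU_far3 uh (mU_far3 vh vh)) (Nat.add 4294967296 (mU_far3 qh
        (Nat.add 64424509440 (mU_far3 qh (Nat.add 64424509440 qh)))))) 161280)
      (dU_far3 (mU_far3 gh (mU_far3 w w)) 24))

def t2U_far3 (uh qh w : ℕ) : ℕ :=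
  Nat.add (dU_far3 (mU_far3 uh (Nat.add 4294967296 qh)) 10) (dU_far3 w 2)

noncomputable def leaf_far3 (ul uh kl kh sl sh : ℕ) : Bool :=
  force (mD_far3 kl kl) fun ql =>
  bor (Nat.ble 4294967297 (Nat.add ql (Nat.mul 4 sl))) <|
  force (mU_far3 kh kh) fun qh =>
  force (mD_far3 ul ul) fun vl => force (mU_far3 uh uh) fun vh =>
  force (mD_far3 sl vl) fun gl => force (mU_far3 sh vh) fun gh =>
  force (Nat.div (mD_far3 ql vl) 36) fun cl => force (dU_far3 (mU_far3 qh vh) 36) fun ch =>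
  force (eU_far3 gh) fun E =>
  force (bD_far3 ul kl kh qh sh) fun B =>
  force (mD_far3 gl B) fun x =>
  force (rD_far3 x) fun r =>
  force (mD_far3 B r) fun rhs =>
  force (mU_far3 gh (Nat.add 1073741824 ch)) fun w =>
  bor (Nat.ble (mU_far3 (t1U_far3 uh kh vl vh ql qh gl gh cl ch w) E) rhs)
    (bor (Nat.ble (mU_far3 (t2U_far3 uh qh w) E) rhs)
      (Nat.ble (Nat.add 4294967296 E) (mD_far3 x r)))

theorem lc_far3 (x : ℝ) (a : ℕ) (h : (a : ℝ) ≤ x * 4294967296) : Lo_far3 x a := h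

theorem uc_far3 (x : ℝ) (a : ℕ) (h0 : 0 ≤ x)
    (h : x * 4294967296 ≤ (a : ℝ)) : Up_far3 x a := ⟨h0, h⟩

theorem eU_ok_far3 {g : ℝ} {gh : ℕ} (h : Up_far3 g gh) : Up_far3 (E_far3 g) (eU_far3 gh) := by
  have ha := h.div 8
  have he := (uc_far3 1 4294967296 (by norm_num) (by norm_num)).add (ha.mul ((uc_far3 1 4294967296 (by norm_num) (by norm_num)).add ((ha.mul
    ((uc_far3 48 206158430208 (by norm_num) (by norm_num)).add (ha.mul ((uc_far3 16 68719476736 (by norm_num) (by norm_num)).add (ha.nat 5))))).div 96)))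
  have := (he.mul he).mul (he.mul he)
  simp only [eU_far3, force_eq, E_far3, e_far3]
  simpa only [Nat.cast_ofNat] using this

theorem rD_ok_far3 (h : Lo_far3 x a) : Lo_far3 (R_far3 x) (rD_far3 a) := by
  have := (lc_far3 1 4294967296 (by norm_num)).add ((h.mul ((lc_far3 60 257698037760 (by norm_num)).add (h.mul
    ((lc_far3 20 85899345920 (by norm_num)).add (h.mul ((lc_far3 5 21474836480 (by norm_num)).add h)))))).div 120)
  simp only [rD_far3, R_far3]
  simpa only [Nat.cast_ofNat] using this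

theorem bD_ok_far3 {u k q S : ℝ} {ul kl kh qh sh : ℕ} (h1 : Lo_far3 u ul) (h2 : Lo_far3 k kl)
    (h3 : Up_far3 k kh) (h4 : Up_far3 q qh) (h5 : Up_far3 S sh) (hu : 1 ≤ u)
    (hn : q + 4 * S ≤ 1) : Lo_far3 (B_far3 u k q S) (bD_far3 ul kl kh qh sh) := by
  have d1 : Lo_far3 dE 696977000 := by
    unfold Lo_far3 dE
    push_cast
    linarith [r10_lo]
  have d2 : Up_far3 dE 696978000 := by
    unfold Up_far3 dE
    push_cast
    constructor <;> linarith [r10_lo, r10_hi]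
  have ha := (((h1.sub (uc_far3 1 4294967296 (by norm_num) (by norm_num)) (by linarith)).nat 42).div 1000).add
    (lc_far3 (1 / 50) 85899345 (by norm_num))
  have hz := ab_lo_far3 h2 h3 d1 d2
  have := h1.mul ((ha.min (lc_far3 (4 / 25) 687194767 (by norm_num))).add ((((hz.mul hz).nat 2259).div 10000).add
    ((((lc_far3 1 4294967296 (by norm_num)).sub (h4.add (h5.nat 4)) (by push_cast; linarith)).nat 22).div 1000)))
  simp only [bD_far3, force_eq, B_far3]
  simpa only [Nat.cast_ofNat] using this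

section
variable {u k v q g c w : ℝ} {uh kh vl vh ql qh gl gh cl ch wh : ℕ}

theorem t1U_ok_far3 (u2 : Up_far3 u uh) (k2 : Up_far3 k kh) (v1 : Lo_far3 v vl)
    (v2 : Up_far3 v vh) (q1 : Lo_far3 q ql) (q2 : Up_far3 q qh) (g1 : Lo_far3 g gl)
    (g2 : Up_far3 g gh) (c1 : Lo_far3 c cl) (c2 : Up_far3 c ch) (w2 : Up_far3 w wh) :
    Up_far3 (T1_far3 u k v q g c w) (t1U_far3 uh kh vl vh ql qh gl gh cl ch wh) := by
  have o1 := lc_far3 1 4294967296 (by norm_num)
  have o2 := uc_far3 1 4294967296 (by norm_num) (by norm_num)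
  have a1 : Lo_far3 (Ap_far3 v q g c) (apD_far3 vl ql gl cl) := by
    simpa only [Nat.cast_ofNat, Ap_far3, apD_far3] using
      ((v1.mul (o1.add (q1.nat 3))).div 96).add ((g1.mul ((c1.nat 24).add g1)).div 48)
  have a2 : Up_far3 (Ap_far3 v q g c) (apU_far3 vh qh gh ch) := by
    simpa only [Nat.cast_ofNat, Ap_far3, apU_far3] using
      ((v2.mul (o2.add (q2.nat 3))).div 96).add ((g2.mul ((c2.nat 24).add g2)).div 48)
  have a3 : Lo_far3 (Am_far3 v q g c) (amD_far3 vl ql gl cl) := by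
    simpa only [Nat.cast_ofNat, Am_far3, amD_far3] using
      (((v1.mul v1).mul (o1.add (q1.mul ((lc_far3 10 42949672960 (by norm_num)).add (q1.nat 5))))).div 11520).add
        ((g1.mul (o1.add ((g1.mul c1).nat 2))).div 8)
  have a4 : Up_far3 (Am_far3 v q g c) (amU_far3 vh qh gh ch) := by
    simpa only [Nat.cast_ofNat, Am_far3, amU_far3] using
      (((v2.mul v2).mul (o2.add (q2.mul ((uc_far3 10 42949672960 (by norm_num) (by norm_num)).add (q2.nat 5))))).div 11520).add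
        ((g2.mul (o2.add ((g2.mul c2).nat 2))).div 8)
  have b1 : Lo_far3 (Ip_far3 v q g) (ipD_far3 vl ql gl) := by
    simpa only [Nat.cast_ofNat, Ip_far3, ipD_far3] using ((v1.mul (o1.add q1)).div 240).add ((g1.mul g1).div 48)
  have b2 : Up_far3 (Ip_far3 v q g) (ipU_far3 vh qh gh) := by
    simpa only [Nat.cast_ofNat, Ip_far3, ipU_far3] using ((v2.mul (o2.add q2)).div 240).add ((g2.mul g2).div 48)
  have b3 : Lo_far3 (Im_far3 g c) (imD_far3 gl cl) := by
    simpa only [Nat.cast_ofNat, Im_far3, imD_far3] using (g1.mul ((lc_far3 3 12884901888 (by norm_num)).add (g1.mul c1))).div 36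
  have b4 : Up_far3 (Im_far3 g c) (imU_far3 gh ch) := by
    simpa only [Nat.cast_ofNat, Im_far3, imU_far3] using (g2.mul ((uc_far3 3 12884901888 (by norm_num) (by norm_num)).add (g2.mul c2))).div 36
  have f := uc_far3 15 64424509440 (by norm_num) (by norm_num)
  have := ((ab_up_far3 a1 a2 a3 a4).add ((k2.mul u2).mul (ab_up_far3 b1 b2 b3 b4))).add
    ((((u2.mul (v2.mul v2)).mul (o2.add (q2.mul (f.add (q2.mul (f.add q2)))))).div 161280).add
      ((g2.mul (w2.mul w2)).div 24))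
  simp only [t1U_far3, force_eq, T1_far3]
  simpa only [Nat.cast_ofNat] using this

theorem t2U_ok_far3 (u2 : Up_far3 u uh) (q2 : Up_far3 q qh) (w2 : Up_far3 w wh) :
    Up_far3 (T2_far3 u q w) (t2U_far3 uh qh wh) := by
  simpa only [Nat.cast_ofNat, T2_far3, t2U_far3] using
    ((u2.mul ((uc_far3 1 4294967296 (by norm_num) (by norm_num)).add q2)).div 10).add (w2.div 2)

end

theorem leaf_ok_far3 {u k S : ℝ} {ul uh kl kh sl sh : ℕ} (h : leaf_far3 ul uh kl kh sl sh = true)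
    (u1 : Lo_far3 u ul) (u2 : Up_far3 u uh) (k1 : Lo_far3 k kl) (k2 : Up_far3 k kh)
    (s1 : Lo_far3 S sl) (s2 : Up_far3 S sh) (hu : 1 ≤ u) (hn : k * k + 4 * S ≤ 1) :
    Goal_far3 u k S := by
  simp only [leaf_far3, force_eq, bor_eq] at h
  have q1 := k1.mul k1
  have q2 := k2.mul k2
  have v1 := u1.mul u1
  have v2 := u2.mul u2
  have g1 := s1.mul v1
  have g2 := s2.mul v2
  have c1 := (q1.mul v1).div 36
  have c2 := (q2.mul v2).div 36
  rw [Nat.cast_ofNat] at c1 c2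
  have hE := eU_ok_far3 g2
  have hB := bD_ok_far3 u1 k1 k2 q2 s2 hu hn
  have hx := g1.mul hB
  have hr := rD_ok_far3 hx
  have hw := g2.mul ((uc_far3 (1 / 4) 1073741824 (by norm_num) (by norm_num)).add c2)
  rcases h with h | h | h | h
  · exfalso
    have h1 := q1.add (s1.nat 4)
    have h2 : ((4294967297 : ℕ) : ℝ) ≤ _ := Nat.cast_le.2 (Nat.le_of_ble_eq_true h)
    have h3 := h2.trans h1
    push_cast at h3
    linarith
  · exact Or.inl (le_of_far3 ((t1U_ok_far3 u2 k2 v1 v2 q1 q2 g1 g2 c1 c2 hw).mul hE) (hB.mul hr) h)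
  · exact Or.inr (Or.inl (le_of_far3 ((t2U_ok_far3 u2 q2 hw).mul hE) (hB.mul hr) h))
  · exact Or.inr (Or.inr (le_of_far3 ((uc_far3 1 4294967296 (by norm_num) (by norm_num)).add hE) (hx.mul hr) h))

/-- Adaptive bisection. -/
noncomputable def go_far3 (fuel : ℕ) : ℕ → ℕ → ℕ → ℕ → ℕ → ℕ → Bool :=
  Nat.rec (motive := fun _ => ℕ → ℕ → ℕ → ℕ → ℕ → ℕ → Bool) (fun _ _ _ _ _ _ => false)
    (fun _ ih ul uh kl kh sl sh => bor (leaf_far3 ul uh kl kh sl sh)
      (force (Nat.sub uh ul) fun du => force (Nat.sub kh kl) fun dk =>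
        force (Nat.mul 8 (Nat.sub sh sl)) fun ds =>
        ite' (band (Nat.ble dk du) (Nat.ble ds du))
          (force (Nat.div (Nat.add ul uh) 2) fun m =>
            band (ih ul m kl kh sl sh) (ih m uh kl kh sl sh))
          (ite' (Nat.ble ds dk)
            (force (Nat.div (Nat.add kl kh) 2) fun m =>
              band (ih ul uh kl m sl sh) (ih ul uh m kh sl sh))
            (force (Nat.div (Nat.add sl sh) 2) fun m =>
              band (ih ul uh kl kh sl m) (ih ul uh kl kh m sh))))) fuel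

theorem cut_far3 (h : Lo_far3 x a) (m : ℕ) : Up_far3 x m ∨ Lo_far3 x m := by
  rcases le_total (x * 4294967296) m with h1 | h1
  · exact Or.inl ⟨h.nn, h1⟩
  · exact Or.inr h1

theorem ite_true_far3 {c p r : Bool} (h : ite' c p r = true) : p = true ∨ r = true := by
  cases c
  · exact Or.inr h
  · exact Or.inl h

theorem go_ok_far3 {u k S : ℝ} (hu : 1 ≤ u) (hn : k * k + 4 * S ≤ 1) (fuel : ℕ) :
    ∀ ul uh kl kh sl sh : ℕ, go_far3 fuel ul uh kl kh sl sh = true → Lo_far3 u ul → Up_far3 u uh →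
      Lo_far3 k kl → Up_far3 k kh → Lo_far3 S sl → Up_far3 S sh → Goal_far3 u k S := by
  induction fuel with
  | zero => intro _ _ _ _ _ _ h; exact absurd h Bool.false_ne_true
  | succ n ih =>
    intro ul uh kl kh sl sh h u1 u2 k1 k2 s1 s2
    rcases (bor_eq _ _).1 h with h | h
    · exact leaf_ok_far3 h u1 u2 k1 k2 s1 s2 hu hn
    rw [force_eq, force_eq, force_eq] at h
    rcases ite_true_far3 h with h | h
    · rw [force_eq, band_eq] at h
      rcases cut_far3 u1 (Nat.div (Nat.add ul uh) 2) with c | c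
      · exact ih _ _ _ _ _ _ h.1 u1 c k1 k2 s1 s2
      · exact ih _ _ _ _ _ _ h.2 c u2 k1 k2 s1 s2
    rcases ite_true_far3 h with h | h
    · rw [force_eq, band_eq] at h
      rcases cut_far3 k1 (Nat.div (Nat.add kl kh) 2) with c | c
      · exact ih _ _ _ _ _ _ h.1 u1 u2 k1 c s1 s2
      · exact ih _ _ _ _ _ _ h.2 u1 u2 c k2 s1 s2
    · rw [force_eq, band_eq] at h
      rcases cut_far3 s1 (Nat.div (Nat.add sl sh) 2) with c | c
      · exact ih _ _ _ _ _ _ h.1 u1 u2 k1 k2 s1 c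
      · exact ih _ _ _ _ _ _ h.2 u1 u2 k1 k2 c s2

theorem run1_far3 : go_far3 30 8589934592 12884901888 0 4294967296 0 1073741824 = true := by
  decide +kernel

theorem run2_far3 : go_far3 30 12884901888 17179869184 0 4294967296 0 1073741824 = true := by
  decide +kernel

theorem run3_far3 : go_far3 30 17179869184 21474836480 0 4294967296 0 1073741824 = true := by
  decide +kernel

theorem goal_far3 {u k S : ℝ} (h2 : 2 ≤ u) (h5 : u ≤ 5) (k0 : 0 ≤ k) (k1 : k ≤ 1) (s0 : 0 ≤ S)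
    (hn : k * k + 4 * S ≤ 1) : Goal_far3 u k S := by
  have a1 : Lo_far3 k 0 := lc_far3 _ _ (by push_cast; positivity)
  have a2 : Up_far3 k 4294967296 := uc_far3 _ _ k0 (by push_cast; linarith)
  have a3 : Lo_far3 S 0 := lc_far3 _ _ (by push_cast; positivity)
  have a4 : Up_far3 S 1073741824 := uc_far3 _ _ s0 (by push_cast; nlinarith)
  have u1 : Lo_far3 u 8589934592 := lc_far3 _ _ (by push_cast; linarith)
  have u2 : Up_far3 u 21474836480 := uc_far3 _ _ (by linarith) (by push_cast; linarith)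
  have hu : 1 ≤ u := by linarith
  rcases cut_far3 u1 12884901888 with c | c
  · exact go_ok_far3 hu hn _ _ _ _ _ _ _ run1_far3 u1 c a1 a2 a3 a4
  rcases cut_far3 u1 17179869184 with c' | c'
  · exact go_ok_far3 hu hn _ _ _ _ _ _ _ run2_far3 c c' a1 a2 a3 a4
  · exact go_ok_far3 hu hn _ _ _ _ _ _ _ run3_far3 c' u2 a1 a2 a3 a4

end Pool.Agent.Lib.MP_33650d_pr.Y
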