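import Pool.Agent.Lib.MP_33650d_pr.Y.Tay
import Pool.Agent.Lib.MP_33650d_pr.Y.Far3a

namespace Pool.Agent.Lib.MP_33650d_pr.Y
open MeasureTheory ProbabilityTheory Real X

theorem rem_far3 {w : ℂ} (hw : w.re ≤ 0) (n : ℕ) {x : ℝ} (h0 : 0 ≤ x) (h1 : x ≤ 1) :
    ‖Complex.exp ((x : ℂ) * w) - ∑ j ∈ Finset.range n, ((x : ℂ) * w) ^ j / (j.factorial : ℂ)‖
      ≤ ‖w‖ ^ n * x ^ n / n.factorial := by
  have hd : ∀ (n : ℕ) (x : ℝ), HasDerivAt (fun x : ℝ => Complex.exp ((x : ℂ) * w)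
      - ∑ j ∈ Finset.range (n + 1), ((x : ℂ) * w) ^ j / (j.factorial : ℂ))
      (w * (Complex.exp ((x : ℂ) * w)
        - ∑ j ∈ Finset.range n, ((x : ℂ) * w) ^ j / (j.factorial : ℂ))) x := by
    intro n x
    have a0 : HasDerivAt (fun x : ℝ => (x : ℂ) * w) w x := by
      simpa using (Complex.ofRealCLM.hasDerivAt (x := x)).mul_const w
    induction n with
    | zero =>
      refine ((a0.cexp.sub_const 1).congr_deriv (by simp [mul_comm])).congr_of_eventuallyEq ?_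
      exact Filter.Eventually.of_forall fun y => by simp
    | succ n ih =>
      refine ((ih.sub ((a0.pow (n + 1)).div_const
        ((n + 1).factorial : ℂ))).congr_deriv ?_).congr_of_eventuallyEq ?_
      · have h2 : (n.factorial : ℂ) ≠ 0 := Nat.cast_ne_zero.2 n.factorial_ne_zero
        have h3 : ((n : ℂ) + 1) ≠ 0 := by exact_mod_cast n.succ_ne_zero
        rw [Finset.sum_range_succ, Nat.factorial_succ, Nat.add_sub_cancel]
        push_cast
        field_simp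
        ring
      · refine Filter.Eventually.of_forall fun y => ?_
        simp only [Finset.sum_range_succ _ (n + 1), Pi.sub_apply, Pi.pow_apply]
        ring
  induction n generalizing x with
  | zero =>
    have h2 : ((x : ℂ) * w).re ≤ 0 := by
      rw [Complex.re_ofReal_mul]; exact mul_nonpos_of_nonneg_of_nonpos h0 hw
    simpa [Complex.norm_exp] using h2
  | succ n ih =>
    refine image_norm_le_of_norm_deriv_right_le_deriv_boundary (a := 0) (b := 1)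
      (f := fun x : ℝ => Complex.exp ((x : ℂ) * w)
        - ∑ j ∈ Finset.range (n + 1), ((x : ℂ) * w) ^ j / (j.factorial : ℂ))
      (f' := fun x => w * (Complex.exp ((x : ℂ) * w)
        - ∑ j ∈ Finset.range n, ((x : ℂ) * w) ^ j / (j.factorial : ℂ)))
      (B := fun x => ‖w‖ ^ (n + 1) * x ^ (n + 1) / (n + 1).factorial)
      (B' := fun x => ‖w‖ * (‖w‖ ^ n * x ^ n / n.factorial))
      (fun z _ => (hd n z).continuousAt.continuousWithinAt)
      (fun z _ => (hd n z).hasDerivWithinAt) ?_ (fun z => ?_) (fun z hz => ?_) ⟨h0, h1⟩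
    · simp [Finset.sum_range_succ']
    · refine (((hasDerivAt_pow (n + 1) z).const_mul (‖w‖ ^ (n + 1))).div_const _).congr_deriv ?_
      have h3 : (n.factorial : ℝ) ≠ 0 := Nat.cast_ne_zero.2 n.factorial_ne_zero
      rw [Nat.factorial_succ, Nat.add_sub_cancel]
      push_cast
      field_simp
      ring
    · rw [norm_mul]
      exact mul_le_mul_of_nonneg_left (ih hz.1 hz.2.le) (norm_nonneg w)

theorem rem2_far3 {w : ℂ} (hw : w.re ≤ 0) : ‖Complex.exp w - 1 - w‖ ≤ ‖w‖ ^ 2 / 2 := by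
  have h := rem_far3 hw 2 zero_le_one le_rfl
  simp only [Finset.sum_range_succ, Finset.sum_range_zero, Nat.factorial] at h
  norm_num at h
  rwa [sub_sub]

theorem rem4_far3 {w : ℂ} (hw : w.re ≤ 0) :
    ‖Complex.exp w - 1 - w - w ^ 2 / 2 - w ^ 3 / 6‖ ≤ (‖w‖ ^ 2) ^ 2 / 24 := by
  have h := rem_far3 hw 4 zero_le_one le_rfl
  simp only [Finset.sum_range_succ, Finset.sum_range_zero, Nat.factorial] at h
  norm_num at h
  rw [← pow_mul, sub_sub, sub_sub, sub_sub, ← add_assoc, ← add_assoc]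
  exact h

theorem E_ok_far3 {g : ℝ} (h0 : 0 ≤ g) (h1 : g ≤ 8) : exp (g / 2) ≤ E_far3 g := by
  have h2 := Real.exp_bound' (x := g / 8) (by linarith) (by linarith) (n := 4) (by norm_num)
  simp only [Finset.sum_range_succ, Finset.sum_range_zero, Nat.factorial] at h2
  have h3 : exp (g / 8) ≤ e_far3 (g / 8) := by
    refine h2.trans (le_of_eq ?_)
    unfold e_far3
    push_cast
    ring
  have h4 : exp (g / 2) = exp (g / 8) ^ 4 := by
    rw [← Real.exp_nat_mul]; congr 1; push_cast; ring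
  rw [h4]
  refine (pow_le_pow_left₀ (exp_pos _).le h3 4).trans (le_of_eq ?_)
  unfold E_far3
  ring

theorem R_ok_far3 {x : ℝ} (h0 : 0 ≤ x) : 1 + x * R_far3 x ≤ exp x := by
  have h := Real.sum_le_exp_of_nonneg h0 6
  simp only [Finset.sum_range_succ, Finset.sum_range_zero, Nat.factorial] at h
  refine le_trans (le_of_eq ?_) h
  unfold R_far3
  push_cast
  ring

theorem far3 {u κ ν : ℝ} (h : Par 1 κ ν) (k0 : -1 < κ) (k1 : κ < 1) (h2 : 2 ≤ u) (h5 : u ≤ 5) :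
    1 + ‖F0 u κ ν * Complex.exp (-(zt u 1 κ ν 2 1 + zt u 1 κ ν 3 κ)) - 1‖
      ≤ exp (vs 1 κ ν * u ^ 3 * (GG u + 0.44 * (cJ * (κ - dE) ^ 2 + 0.2 * ν))) := by
  have u0 : 0 < u := by linarith
  obtain ⟨t1, -, -, t4, -, -, -, t8, -⟩ := tay (t := u) h k0 k1 u0
  simp only [mul_one] at t1 t4 t8
  have hS : vs 1 κ ν = (1 - κ ^ 2) / 4 - ν := by unfold vs; ring
  have S0 : 0 ≤ vs 1 κ ν := by rw [hS]; linarith [h.n1]
  obtain ⟨S, hSd⟩ : ∃ S, S = vs 1 κ ν := ⟨_, rfl⟩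
  obtain ⟨w, hw⟩ : ∃ w, w = zt u 1 κ ν 2 1 + zt u 1 κ ν 3 κ := ⟨_, rfl⟩
  obtain ⟨g, hg⟩ : ∃ g, g = S * (u * u) := ⟨_, rfl⟩
  have i3 : Complex.I ^ 3 = -Complex.I := by simp
  have hw2 : w = ((-(g / 2) : ℝ) : ℂ) + ((-(g * u * κ / 6) : ℝ) : ℂ) * Complex.I := by
    rw [hw, hg, hSd]
    unfold zt
    rw [Complex.I_sq, i3]
    simp only [Nat.factorial]
    push_cast
    ring
  have wre : w.re = -(g / 2) := by
    rw [hw2]
    simp only [Complex.add_re, Complex.ofReal_re, Complex.re_ofReal_mul, Complex.I_re]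
    ring
  have kk : |κ| * |κ| = κ ^ 2 := by rw [abs_mul_abs_self, sq]
  obtain ⟨c, hc⟩ : ∃ c, c = κ ^ 2 * (u * u) / 36 := ⟨_, rfl⟩
  have wn : ‖w‖ ^ 2 = g * (g * (1 / 4 + c)) := by
    rw [hw2, Complex.sq_norm, Complex.normSq_add_mul_I, hc]
    ring
  have hP : zt u 1 κ ν 4 (m4 1 κ) + zt u 1 κ ν 5 (m5 1 κ) + zt u 1 κ ν 6 (m6 1 κ)
      - w ^ 2 / 2 - w ^ 3 / 6
      = ((g * (Ap_far3 (u * u) (κ ^ 2) g c - Am_far3 (u * u) (κ ^ 2) g c) : ℝ) : ℂ)
        + ((g * (κ * u * (Ip_far3 (u * u) (κ ^ 2) g - Im_far3 g c)) : ℝ) : ℂ) * Complex.I := by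
    have i4 : Complex.I ^ 4 = 1 := Complex.I_pow_four
    have i5 : Complex.I ^ 5 = Complex.I := by rw [pow_succ, i4, one_mul]
    have i6 : Complex.I ^ 6 = -1 := by rw [pow_succ, i5, Complex.I_mul_I]
    rw [hw2]
    unfold zt Ap_far3 Am_far3 Ip_far3 Im_far3 m4 m5 m6
    rw [i4, i5, i6, ← hSd, hc]
    simp only [Nat.factorial]
    have hg' : (g : ℂ) = S * (u * u) := by rw [hg]; push_cast; ring
    push_cast
    linear_combination (-((u : ℂ) ^ 2 * (1 + 3 * κ ^ 2) / 96) + (u : ℂ) ^ 4 *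
        (1 + 10 * κ ^ 2 + 5 * κ ^ 4) / 11520 - (u : ℂ) ^ 3 * κ * (1 + κ ^ 2) / 240 * Complex.I) * hg'
      + (-((g : ℂ) * u * κ) ^ 2 / 72 + (g : ℂ) * (g * u * κ) ^ 2 / 144
        + ((g : ℂ) * u * κ) ^ 3 / 1296 * Complex.I) * Complex.I_sq
  rw [← hw, ← hSd]
  rw [← hSd] at S0 hS t4 t8
  have n0 := h.n0
  have g0 : 0 ≤ g := by rw [hg]; positivity
  have g8 : g ≤ 8 := by
    have a1 : S ≤ 1 / 4 := by nlinarith [sq_nonneg κ]
    have a2 : u * u ≤ 25 := by nlinarith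
    rw [hg]
    nlinarith
  have en : ‖Complex.exp (-w)‖ = exp (g / 2) := by
    rw [Complex.norm_exp, Complex.neg_re, wre, neg_neg]
  have hE := E_ok_far3 g0 g8
  have hG := goal_far3 h2 h5 (abs_nonneg κ) (abs_le.2 ⟨h.k0, h.k1⟩) S0 (by rw [kk]; linarith)
  unfold Goal_far3 at hG
  rw [kk, ← hg, ← hc] at hG
  obtain ⟨B, hB⟩ : ∃ B, B = B_far3 u |κ| (κ ^ 2) S := ⟨_, rfl⟩
  rw [← hB] at hG
  have d0 : 0 ≤ dE := by unfold dE; linarith [r10_lo]
  have hm : min (42 * (u - 1) / 1000 + 1 / 50) (4 / 25) = GG u := by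
    unfold GG
    congr 1 <;> ring
  have G0 : 0 ≤ GG u := le_min (by linarith) (by norm_num)
  have cj : 0.5135 ≤ cJ := by unfold cJ; linarith [r10_lo]
  have hz : |(|κ| - dE)| * |(|κ| - dE)| ≤ (κ - dE) ^ 2 := by
    rw [abs_mul_abs_self]
    nlinarith [mul_nonneg (sub_nonneg.2 (le_abs_self κ)) d0]
  have cz : 0.5135 * (κ - dE) ^ 2 ≤ cJ * (κ - dE) ^ 2 := mul_le_mul_of_nonneg_right cj (sq_nonneg _)
  have z0 : 0 ≤ |(|κ| - dE)| * |(|κ| - dE)| := mul_self_nonneg _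
  have B0 : 0 ≤ B := by
    rw [hB, B_far3, hm]
    exact mul_nonneg u0.le (by linarith)
  have B1 : B ≤ u * (GG u + 0.44 * (cJ * (κ - dE) ^ 2 + 0.2 * ν)) := by
    rw [hB, B_far3, hm]
    exact mul_le_mul_of_nonneg_left (by linarith) u0.le
  have hx : g * B ≤ S * u ^ 3 * (GG u + 0.44 * (cJ * (κ - dE) ^ 2 + 0.2 * ν)) := by
    refine (mul_le_mul_of_nonneg_left B1 g0).trans (le_of_eq ?_)
    rw [hg]
    ring
  refine le_trans ?_ ((R_ok_far3 (mul_nonneg g0 B0)).trans (exp_le_exp.2 hx))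
  refine add_le_add le_rfl ?_
  have e1 : F0 u κ ν * Complex.exp (-w) - 1 = Complex.exp (-w) * (F0 u κ ν - Complex.exp w) := by
    have a : Complex.exp (-w) * Complex.exp w = 1 := by rw [← Complex.exp_add]; simp
    linear_combination a
  have wr : w.re ≤ 0 := by rw [wre]; linarith
  have fin : ∀ T : ℝ, ‖F0 u κ ν - Complex.exp w‖ ≤ g * T → T * E_far3 g ≤ B * R_far3 (g * B) →
      ‖F0 u κ ν * Complex.exp (-w) - 1‖ ≤ g * B * R_far3 (g * B) := by
    intro T a1 a2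
    rw [e1, norm_mul, en]
    have a3 := mul_le_mul hE a1 (norm_nonneg _) ((exp_pos _).le.trans hE)
    have a4 := mul_le_mul_of_nonneg_left a2 g0
    linarith
  rcases hG with hG | hG | hG
  · refine fin _ ?_ hG
    have e2 : F0 u κ ν - Complex.exp w =
        (F0 u κ ν - 1 - zt u 1 κ ν 2 1 - zt u 1 κ ν 3 κ - zt u 1 κ ν 4 (m4 1 κ)
          - zt u 1 κ ν 5 (m5 1 κ) - zt u 1 κ ν 6 (m6 1 κ))
        + (zt u 1 κ ν 4 (m4 1 κ) + zt u 1 κ ν 5 (m5 1 κ) + zt u 1 κ ν 6 (m6 1 κ)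
          - w ^ 2 / 2 - w ^ 3 / 6)
        - (Complex.exp w - 1 - w - w ^ 2 / 2 - w ^ 3 / 6) := by
      linear_combination (-1 : ℂ) * hw
    have r4 := rem4_far3 wr
    rw [wn] at r4
    have r5 : ‖zt u 1 κ ν 4 (m4 1 κ) + zt u 1 κ ν 5 (m5 1 κ) + zt u 1 κ ν 6 (m6 1 κ)
        - w ^ 2 / 2 - w ^ 3 / 6‖ ≤ g * |Ap_far3 (u * u) (κ ^ 2) g c - Am_far3 (u * u) (κ ^ 2) g c|
          + g * (|κ| * u * |Ip_far3 (u * u) (κ ^ 2) g - Im_far3 g c|) := by
      rw [hP]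
      refine (norm_add_le _ _).trans (le_of_eq ?_)
      rw [norm_mul, Complex.norm_I, mul_one, Complex.norm_real, Complex.norm_real, norm_eq_abs,
        norm_eq_abs, abs_mul, abs_mul, abs_mul, abs_mul, abs_of_nonneg g0, abs_of_pos u0]
    have r6 : S * u ^ 7 * be7 1 κ / 5040 =
        g * (u * (u * u * (u * u)) * (1 + κ ^ 2 * (15 + κ ^ 2 * (15 + κ ^ 2))) / 161280) := by
      rw [hg, be7]
      ring
    rw [e2]
    refine (norm_sub_le _ _).trans ((add_le_add (norm_add_le _ _) le_rfl).trans ?_)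
    unfold T1_far3
    linarith
  · refine fin _ ?_ hG
    have e2 : F0 u κ ν - Complex.exp w =
        (F0 u κ ν - 1 - zt u 1 κ ν 2 1 - zt u 1 κ ν 3 κ) - (Complex.exp w - 1 - w) := by
      linear_combination (-1 : ℂ) * hw
    have r2 := rem2_far3 wr
    rw [wn] at r2
    have r6 : S * u ^ 3 * be3 1 κ / 5 = g * (u * (1 + κ ^ 2) / 10) := by
      rw [hg, be3]
      ring
    rw [e2]
    refine (norm_sub_le _ _).trans ?_
    unfold T2_far3
    linarith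
  · refine (norm_sub_le _ _).trans (le_trans ?_ hG)
    rw [norm_mul, en, norm_one]
    nlinarith [exp_pos (g / 2)]

end Pool.Agent.Lib.MP_33650d_pr.Y
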