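import Pool.Agent.Lib.MP_33650d_pr.Y.Tay

namespace Pool.Agent.Lib.MP_33650d_pr.Y
open MeasureTheory ProbabilityTheory Real X

theorem dexp_far5 (w : ℂ) (t : ℝ) :
    HasDerivAt (fun s : ℝ => Complex.exp ((s : ℂ) * w)) (Complex.exp ((t : ℂ) * w) * w) t := by
  have h1 : HasDerivAt (fun s : ℝ => (s : ℂ) * w) w t := by
    simpa using (Complex.ofRealCLM.hasDerivAt (x := t)).mul_const w
  exact h1.cexp

theorem exp1_far5 {w : ℂ} (hw : w.re ≤ 0) {t : ℝ} (h0 : 0 ≤ t) (h1 : t ≤ 1) :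
    ‖Complex.exp ((t : ℂ) * w) - 1‖ ≤ ‖w‖ * t := by
  have hd : ∀ s : ℝ, HasDerivAt (fun s : ℝ => Complex.exp ((s : ℂ) * w) - 1)
      (Complex.exp ((s : ℂ) * w) * w) s := fun s => (dexp_far5 w s).sub_const 1
  refine image_norm_le_of_norm_deriv_right_le_deriv_boundary (a := 0) (b := 1)
    (f := fun s : ℝ => Complex.exp ((s : ℂ) * w) - 1)
    (f' := fun s : ℝ => Complex.exp ((s : ℂ) * w) * w)
    (fun s _ => (hd s).continuousAt.continuousWithinAt)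
    (fun s _ => (hd s).hasDerivWithinAt) (B := fun s => ‖w‖ * s) (B' := fun _ => ‖w‖)
    (by simp) (fun s => by simpa using (hasDerivAt_id s).const_mul ‖w‖) ?_ ⟨h0, h1⟩
  intro s hs
  rw [norm_mul, Complex.norm_exp]
  have h2 : ((s : ℂ) * w).re ≤ 0 := by
    rw [Complex.re_ofReal_mul]; exact mul_nonpos_of_nonneg_of_nonpos hs.1 hw
  have h3 : exp (((s : ℂ) * w).re) ≤ 1 := exp_le_one_iff.2 h2
  nlinarith [norm_nonneg w, exp_pos (((s : ℂ) * w).re)]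

theorem exp2_far5 {w : ℂ} (hw : w.re ≤ 0) : ‖Complex.exp w - 1 - w‖ ≤ ‖w‖ ^ 2 / 2 := by
  have hd : ∀ s : ℝ, HasDerivAt (fun s : ℝ => Complex.exp ((s : ℂ) * w) - 1 - (s : ℂ) * w)
      ((Complex.exp ((s : ℂ) * w) - 1) * w) s := by
    intro s
    have h1 : HasDerivAt (fun s : ℝ => (s : ℂ) * w) w s := by
      simpa using (Complex.ofRealCLM.hasDerivAt (x := s)).mul_const w
    have h2 := ((dexp_far5 w s).sub_const 1).sub h1
    rw [sub_mul, one_mul]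
    exact h2
  have key := image_norm_le_of_norm_deriv_right_le_deriv_boundary (a := 0) (b := 1)
    (f := fun s : ℝ => Complex.exp ((s : ℂ) * w) - 1 - (s : ℂ) * w)
    (f' := fun s : ℝ => (Complex.exp ((s : ℂ) * w) - 1) * w)
    (fun s _ => (hd s).continuousAt.continuousWithinAt)
    (fun s _ => (hd s).hasDerivWithinAt) (B := fun s => ‖w‖ ^ 2 / 2 * s ^ 2)
    (B' := fun s => ‖w‖ ^ 2 * s) (by simp)
    (fun s => by
      have := (hasDerivAt_pow 2 s).const_mul (‖w‖ ^ 2 / 2)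
      have e : ‖w‖ ^ 2 / 2 * (((2 : ℕ) : ℝ) * s ^ (2 - 1)) = ‖w‖ ^ 2 * s := by
        norm_num
        ring
      rw [e] at this
      exact this)
    (fun s hs => by
      rw [norm_mul]
      have := exp1_far5 hw hs.1 hs.2.le
      nlinarith [norm_nonneg w]) (x := 1) ⟨zero_le_one, le_rfl⟩
  simpa using key

theorem expn_far5 {t : ℝ} (h : 0 ≤ t) (h1 : t ≤ 1) :
    exp (-t) ≤ 1 - t + t ^ 2 / 2 - t ^ 3 / 6 + t ^ 4 / 19 := by
  have h2 : |(-t)| ≤ 1 := by rw [abs_neg, abs_of_nonneg h]; exact h1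
  have h3 := Real.exp_bound h2 (n := 5) (by norm_num)
  have h4 := (abs_le.1 h3).2
  rw [abs_neg, abs_of_nonneg h] at h4
  simp only [Finset.sum_range_succ, Finset.sum_range_zero, Nat.factorial] at h4
  norm_num at h4
  have h5 : t ^ 5 ≤ t ^ 4 := by nlinarith [pow_nonneg h 4]
  have h6 : (-t) ^ 3 = -t ^ 3 := by ring
  rw [h6] at h4
  linarith [pow_nonneg h 4]

theorem expp_far5 {t : ℝ} (h : 0 ≤ t) : 1 + t + t ^ 2 / 2 + t ^ 3 / 6 ≤ exp t := by
  have h3 := Real.sum_le_exp_of_nonneg h 4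
  simp only [Finset.sum_range_succ, Finset.sum_range_zero, Nat.factorial] at h3
  norm_num at h3
  linarith

/-- Large variance: the trivial bound. -/
theorem big_far5 {s x : ℝ} (hs : 1.92 ≤ s) (hx : 0.8 * s ≤ x) : 2 + exp (s / 2) ≤ exp x := by
  have h1 : (1.2104 : ℝ) ≤ exp (s / 10) := by
    have h2 := Real.quadratic_le_exp_of_nonneg (x := s / 10) (by linarith)
    nlinarith
  have e5 : exp (s / 2) = exp (s / 10) ^ 5 := by
    rw [← Real.exp_nat_mul]; congr 1; push_cast; ring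
  have e8 : exp (0.8 * s) = exp (s / 10) ^ 8 := by
    rw [← Real.exp_nat_mul]; congr 1; push_cast; ring
  have h3 : exp (0.8 * s) ≤ exp x := exp_le_exp.2 hx
  have p5 : (1.2104 : ℝ) ^ 5 ≤ exp (s / 10) ^ 5 := pow_le_pow_left₀ (by norm_num) h1 5
  have p3 : (1.2104 : ℝ) ^ 3 ≤ exp (s / 10) ^ 3 := pow_le_pow_left₀ (by norm_num) h1 3
  have e : exp (s / 10) ^ 8 = exp (s / 10) ^ 5 * exp (s / 10) ^ 3 := by ring
  have q5 : (2.598 : ℝ) ≤ exp (s / 10) ^ 5 := le_trans (by norm_num) p5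
  have q3 : (1.773 : ℝ) ≤ exp (s / 10) ^ 3 := le_trans (by norm_num) p3
  rw [e5]
  rw [e8, e] at h3
  nlinarith [mul_nonneg (sub_nonneg.2 q5) (sub_nonneg.2 q3)]

/-- The order zero inequality. -/
theorem ord0_far5 {s q c : ℝ} (s0 : 0 ≤ s) (s1 : s ≤ 1.92) (q0 : 0 ≤ q)
    (hc : c = 0.357 + 0.61 * q - 0.0176 * s) :
    exp (-(s / 2)) + s * ((1 + q) / 2 + s / 8 + 25 * s * q / 72) ≤ exp (s * c) := by
  have c0 : 0 ≤ c := by rw [hc]; linarith
  have h1 := expp_far5 (mul_nonneg s0 c0)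
  have h2 := expn_far5 (t := s / 2) (by linarith) (by linarith)
  have t2 : 0.08 + 0.4 * (c - 0.4) ≤ c ^ 2 / 2 := by nlinarith [sq_nonneg (c - 0.4)]
  have t3 : 0.064 / 6 + 0.08 * (c - 0.4) ≤ c ^ 3 / 6 := by
    nlinarith [mul_nonneg (sq_nonneg (c - 0.4)) (show 0 ≤ c + 0.8 by linarith)]
  have a0 : 0 ≤ 0.357 - 0.2048 * s + 0.02102 * s ^ 2 - 0.0047 * s ^ 3 := by
    nlinarith [mul_nonneg s0 (sub_nonneg.2 s1), mul_nonneg (mul_nonneg s0 s0) (sub_nonneg.2 s1)]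
  have a1 : 0 ≤ 0.11 - 0.1033 * s + 0.0488 * s ^ 2 := by nlinarith [sq_nonneg (s - 1.05)]
  have key : (1 + q) / 2 + s / 8 + 25 * s * q / 72
      ≤ c + s * (0.08 + 0.4 * (c - 0.4)) + s ^ 2 * (0.064 / 6 + 0.08 * (c - 0.4))
        + 1 / 2 - s / 8 + s ^ 2 / 48 - s ^ 3 / 304 := by
    rw [hc]
    nlinarith [mul_nonneg q0 a1, mul_nonneg q0 s0, pow_nonneg s0 2, pow_nonneg s0 3]
  have k2 := mul_le_mul_of_nonneg_left t2 (pow_nonneg s0 2)
  have k3 := mul_le_mul_of_nonneg_left t3 (pow_nonneg s0 3)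
  have k1 := mul_le_mul_of_nonneg_left key s0
  nlinarith

/-- Small variance: the Taylor bound. -/
theorem small_far5 {s q u x : ℝ} (s0 : 0 ≤ s) (s1 : s ≤ 1.92) (q0 : 0 ≤ q) (h5 : 5 ≤ u)
    (hx : s * u * ((0.857 + 0.61 * q - 0.0176 * s) / 5) ≤ x) :
    1 + exp (s / 2) * (s * (u * (1 + q) / 10 + s / 8 + s * q * u ^ 2 / 72)) ≤ exp x := by
  obtain ⟨v, rfl⟩ : ∃ v, u = 5 + v := ⟨u - 5, by ring⟩
  have v0 : 0 ≤ v := by linarith
  obtain ⟨c, hc⟩ : ∃ c : ℝ, c = 0.357 + 0.61 * q - 0.0176 * s := ⟨_, rfl⟩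
  obtain ⟨G, hG⟩ : ∃ G : ℝ, G = (0.857 + 0.61 * q - 0.0176 * s) / 5 := ⟨_, rfl⟩
  have c1 : 0.323 + 0.61 * q ≤ c := by rw [hc]; linarith
  have G1 : 0.1646 + 0.122 * q ≤ G := by rw [hG]; linarith
  have c0 : 0 ≤ c := by linarith
  have G0 : 0 ≤ G := by linarith
  have ex : s * (5 + v) * ((0.857 + 0.61 * q - 0.0176 * s) / 5) = s / 2 + s * c + s * G * v := by
    rw [hc, hG]; ring
  have h1 : exp (s / 2) * (exp (s * c) * exp (s * G * v)) ≤ exp x := by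
    rw [← exp_add, ← exp_add]
    exact exp_le_exp.2 (by linarith)
  have h2 := Real.quadratic_le_exp_of_nonneg (mul_nonneg (mul_nonneg s0 G0) v0)
  have h3 : 1 + s * c ≤ exp (s * c) := by linarith [add_one_le_exp (s * c)]
  have h0 := ord0_far5 s0 s1 q0 hc
  have cG : 10 * q / 72 ≤ c * G := by
    have := mul_le_mul c1 G1 (by linarith) c0
    nlinarith [sq_nonneg q]
  have GG2 : q / 36 ≤ G ^ 2 := by
    have := pow_le_pow_left₀ (by linarith) G1 2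
    nlinarith [sq_nonneg q]
  have sc0 : 0 ≤ s * c := mul_nonneg s0 c0
  have o1 : (1 + q) / 10 + 10 * s * q / 72 ≤ exp (s * c) * G := by
    have a := mul_le_mul_of_nonneg_right h3 G0
    have b := mul_le_mul_of_nonneg_left cG s0
    nlinarith
  have o2 : q / 72 ≤ exp (s * c) * (G ^ 2 / 2) := by
    have a := mul_le_mul_of_nonneg_right (show 1 ≤ exp (s * c) by linarith)
      (show 0 ≤ G ^ 2 / 2 by positivity)
    linarith
  have b1 := mul_le_mul_of_nonneg_left o1 (mul_nonneg s0 v0)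
  have b2 := mul_le_mul_of_nonneg_left o2 (sq_nonneg (s * v))
  have b3 := mul_le_mul_of_nonneg_left h2 (exp_pos (s * c)).le
  have tot : exp (-(s / 2)) + s * ((5 + v) * (1 + q) / 10 + s / 8 + s * q * (5 + v) ^ 2 / 72)
      ≤ exp (s * c) * exp (s * G * v) := by
    have e1 : s * ((5 + v) * (1 + q) / 10 + s / 8 + s * q * (5 + v) ^ 2 / 72)
        = s * ((1 + q) / 2 + s / 8 + 25 * s * q / 72)
          + s * v * ((1 + q) / 10 + 10 * s * q / 72) + (s * v) ^ 2 * (q / 72) := by ring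
    have e2 : exp (s * c) * (1 + s * G * v + (s * G * v) ^ 2 / 2)
        = exp (s * c) + s * v * (exp (s * c) * G) + (s * v) ^ 2 * (exp (s * c) * (G ^ 2 / 2)) := by
      ring
    linarith
  have b4 := mul_le_mul_of_nonneg_left tot (exp_pos (s / 2)).le
  have e3 : exp (s / 2) * exp (-(s / 2)) = 1 := by rw [← exp_add]; simp
  rw [mul_add, e3] at b4
  linarith

theorem far5 {u κ ν : ℝ} (h : Par 1 κ ν) (k0 : -1 < κ) (k1 : κ < 1) (h5 : 5 ≤ u) :
    1 + ‖F0 u κ ν * Complex.exp (-(zt u 1 κ ν 2 1 + zt u 1 κ ν 3 κ)) - 1‖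
      ≤ exp (vs 1 κ ν * u ^ 3 * (0.16 + 0.44 * (cJ * (κ - dE) ^ 2 + 0.2 * ν))) := by
  have u0 : 0 < u := by linarith
  obtain ⟨t1, -, -, t4, -⟩ := tay (t := u) h k0 k1 u0
  simp only [mul_one] at t1 t4
  have hS : vs 1 κ ν = (1 - κ ^ 2) / 4 - ν := by unfold vs; ring
  have S0 : 0 ≤ vs 1 κ ν := by rw [hS]; linarith [h.n1]
  obtain ⟨S, hSd⟩ : ∃ S, S = vs 1 κ ν := ⟨_, rfl⟩
  obtain ⟨w, hw⟩ : ∃ w, w = zt u 1 κ ν 2 1 + zt u 1 κ ν 3 κ := ⟨_, rfl⟩
  have hw2 : w = ((-(S * u ^ 2 / 2) : ℝ) : ℂ) + ((-(S * u ^ 3 * κ / 6) : ℝ) : ℂ) * Complex.I := by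
    rw [hw, hSd]
    unfold zt
    have i3 : Complex.I ^ 3 = -Complex.I := by simp
    rw [Complex.I_sq, i3]
    simp only [Nat.factorial]
    push_cast
    ring
  have wre : w.re = -(S * u ^ 2 / 2) := by
    rw [hw2]
    simp only [Complex.add_re, Complex.ofReal_re, Complex.re_ofReal_mul, Complex.I_re]
    ring
  have wn : ‖w‖ ^ 2 = (S * u ^ 2 / 2) ^ 2 + (S * u ^ 3 * κ / 6) ^ 2 := by
    rw [hw2, Complex.sq_norm, Complex.normSq_add_mul_I]
    ring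
  rw [← hw, ← hSd]
  rw [← hSd] at S0 hS t4
  obtain ⟨s, hs⟩ : ∃ s, s = S * u ^ 2 := ⟨_, rfl⟩
  have s0 : 0 ≤ s := by rw [hs]; positivity
  have en : ‖Complex.exp (-w)‖ = exp (s / 2) := by
    rw [Complex.norm_exp, Complex.neg_re, wre, hs, neg_neg]
  have cj : 0.5135 ≤ cJ := by unfold cJ; linarith [r10_lo]
  have z0 := sq_nonneg (κ - dE)
  have cz : 0.5135 * (κ - dE) ^ 2 ≤ cJ * (κ - dE) ^ 2 := mul_le_mul_of_nonneg_right cj z0
  obtain ⟨g, hg⟩ : ∃ g, g = 0.16 + 0.44 * (cJ * (κ - dE) ^ 2 + 0.2 * ν) := ⟨_, rfl⟩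
  rw [← hg]
  have g0 : 0.16 ≤ g := by rw [hg]; linarith [h.n0]
  have ex : S * u ^ 3 * g = s * u * g := by rw [hs]; ring
  rw [ex]
  rcases le_total 1.92 s with hb | hb
  · have h1 : ‖F0 u κ ν * Complex.exp (-w) - 1‖ ≤ exp (s / 2) + 1 := by
      refine (norm_sub_le _ _).trans ?_
      rw [norm_mul, en, norm_one]
      nlinarith [exp_pos (s / 2)]
    have h2 : 0.8 * s ≤ s * u * g := by
      have a : 0.8 ≤ u * g := by nlinarith
      nlinarith
    linarith [big_far5 hb h2]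
  · have d0 : 0.16227 ≤ dE := by unfold dE; linarith [r10_lo]
    have d1 : dE ≤ 0.16228 := by unfold dE; linarith [r10_hi]
    have zq : 0.639 * κ ^ 2 - 0.0468 ≤ (κ - dE) ^ 2 := by
      nlinarith [sq_nonneg (0.361 * κ - dE), mul_nonneg (sub_nonneg.2 d0) (sub_nonneg.2 d1)]
    have Ss : S ≤ s / 25 := by
      have a : 25 ≤ u ^ 2 := by nlinarith
      rw [hs]; nlinarith
    have g1 : (0.857 + 0.61 * κ ^ 2 - 0.0176 * s) / 5 ≤ g := by
      rw [hg]; linarith [sq_nonneg κ]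
    have hx := mul_le_mul_of_nonneg_left g1 (mul_nonneg s0 u0.le)
    have fin := small_far5 s0 hb (sq_nonneg κ) h5 hx
    have e1 : F0 u κ ν * Complex.exp (-w) - 1
        = Complex.exp (-w) * ((F0 u κ ν - 1 - w) - (Complex.exp w - 1 - w)) := by
      have a : Complex.exp (-w) * Complex.exp w = 1 := by rw [← Complex.exp_add]; simp
      linear_combination a
    have e2 : F0 u κ ν - 1 - zt u 1 κ ν 2 1 - zt u 1 κ ν 3 κ = F0 u κ ν - 1 - w := by
      rw [hw]; ring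
    rw [e2] at t4
    have r2 := exp2_far5 (w := w) (by rw [wre, ← hs]; linarith)
    have h3 : ‖(F0 u κ ν - 1 - w) - (Complex.exp w - 1 - w)‖
        ≤ s * (u * (1 + κ ^ 2) / 10 + s / 8 + s * κ ^ 2 * u ^ 2 / 72) := by
      refine (norm_sub_le _ _).trans ?_
      rw [wn] at r2
      unfold be3 at t4
      have a : s * (u * (1 + κ ^ 2) / 10 + s / 8 + s * κ ^ 2 * u ^ 2 / 72)
          = S * u ^ 3 * (1 * (1 + κ ^ 2) / 2) / 5
            + ((S * u ^ 2 / 2) ^ 2 + (S * u ^ 3 * κ / 6) ^ 2) / 2 := by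
        rw [hs]; ring
      linarith
    rw [e1, norm_mul, en]
    have := mul_le_mul_of_nonneg_left h3 (exp_pos (s / 2)).le
    linarith

end Pool.Agent.Lib.MP_33650d_pr.Y
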