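import Pool.Agent.Lib.MP_33650d_pr.Y.Tay

namespace Pool.Agent.Lib.MP_33650d_pr.Y
open MeasureTheory ProbabilityTheory Real X

theorem log_rem_logf {z : ℂ} {x : ℝ} (hx0 : 0 ≤ x) (hx : x ≤ 1.21) (hz : ‖z‖ ≤ x / 2) :
    ‖Complex.log (1 + z) - (z - z ^ 2 / 2 + z ^ 3 / 3)‖ ≤ x ^ 4 / 64 + x ^ 5 / 50 := by
  have hz1 : ‖z‖ < 1 := by linarith
  have h1 := Complex.norm_log_sub_logTaylor_le 3 hz1
  have h2 : Complex.logTaylor (3 + 1) z = z - z ^ 2 / 2 + z ^ 3 / 3 := by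
    simp only [Complex.logTaylor, Finset.sum_range_succ, Finset.sum_range_zero]
    push_cast
    ring
  rw [h2] at h1
  refine h1.trans ?_
  have h3 : (1 - ‖z‖)⁻¹ ≤ 1 + 1.28 * x := by
    rw [inv_le_comm₀ (by linarith) (by positivity), inv_le_iff_one_le_mul₀ (by positivity)]
    have h4 : (1 - x / 2) * (1 + 1.28 * x) ≤ (1 - ‖z‖) * (1 + 1.28 * x) :=
      mul_le_mul_of_nonneg_right (by linarith) (by positivity)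
    nlinarith
  have h5 : ‖z‖ ^ (3 + 1) ≤ (x / 2) ^ 4 := pow_le_pow_left₀ (norm_nonneg _) hz 4
  have h6 : 0 ≤ (1 - ‖z‖)⁻¹ := inv_nonneg.2 (by linarith)
  calc ‖z‖ ^ (3 + 1) * (1 - ‖z‖)⁻¹ / ((3 : ℕ) + 1 : ℝ)
      ≤ (x / 2) ^ 4 * (1 + 1.28 * x) / ((3 : ℕ) + 1 : ℝ) := by gcongr
    _ = _ := by push_cast; ring

theorem rem_logf {z2 z3 r3 r4 r5 r6 r8 : ℂ} {a2 a3 b3 b4 b5 b6 b8 : ℝ} (h2 : ‖z2‖ ≤ a2)
    (h3 : ‖z3‖ ≤ a3) (g3 : ‖r3‖ ≤ b3) (g4 : ‖r4‖ ≤ b4) (g5 : ‖r5‖ ≤ b5) (g6 : ‖r6‖ ≤ b6)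
    (g8 : ‖r8‖ ≤ b8) :
    ‖r8 - (z2 * r6 + z3 * r5 + r4 ^ 2 / 2) + z2 ^ 2 * r4 + z2 * (z3 ^ 2 + 2 * z3 * r4 + r4 ^ 2) +
        r3 ^ 3 / 3‖ ≤
      b8 + (a2 * b6 + a3 * b5 + b4 ^ 2 / 2) + a2 ^ 2 * b4 + a2 * (a3 ^ 2 + 2 * a3 * b4 + b4 ^ 2) +
        b3 ^ 3 / 3 := by
  have p2 : 0 ≤ a2 := (norm_nonneg _).trans h2
  have p3 : 0 ≤ a3 := (norm_nonneg _).trans h3
  have q4 : 0 ≤ b4 := (norm_nonneg _).trans g4
  have e1 : ‖z2 * r6‖ ≤ a2 * b6 := by rw [norm_mul]; gcongr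
  have e2 : ‖z3 * r5‖ ≤ a3 * b5 := by rw [norm_mul]; gcongr
  have e3 : ‖r4 ^ 2‖ ≤ b4 ^ 2 := by rw [norm_pow]; gcongr
  have e3' : ‖r4 ^ 2 / 2‖ ≤ b4 ^ 2 / 2 := by
    rw [norm_div, Complex.norm_ofNat]; gcongr
  have e4 : ‖z2 ^ 2 * r4‖ ≤ a2 ^ 2 * b4 := by rw [norm_mul, norm_pow]; gcongr
  have e5 : ‖z3 ^ 2‖ ≤ a3 ^ 2 := by rw [norm_pow]; gcongr
  have e6 : ‖2 * z3 * r4‖ ≤ 2 * a3 * b4 := by
    rw [norm_mul, norm_mul, Complex.norm_ofNat]; gcongr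
  have e7 : ‖z2 * (z3 ^ 2 + 2 * z3 * r4 + r4 ^ 2)‖ ≤ a2 * (a3 ^ 2 + 2 * a3 * b4 + b4 ^ 2) := by
    rw [norm_mul]
    exact mul_le_mul h2 (norm_add₃_le.trans (by linarith)) (norm_nonneg _) p2
  have e8 : ‖r3 ^ 3 / 3‖ ≤ b3 ^ 3 / 3 := by
    rw [norm_div, norm_pow, Complex.norm_ofNat]; gcongr
  have e9 : ‖z2 * r6 + z3 * r5 + r4 ^ 2 / 2‖ ≤ a2 * b6 + a3 * b5 + b4 ^ 2 / 2 :=
    norm_add₃_le.trans (by linarith)
  refine norm_add_le_of_le (norm_add_le_of_le (norm_add_le_of_le ?_ e4) e7) e8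
  exact (norm_sub_le _ _).trans (by linarith)

theorem zt_logf (t y κ ν m : ℝ) :
    zt t y κ ν 2 m = -((vs y κ ν * t ^ 2 * m / 2 : ℝ) : ℂ) ∧
    zt t y κ ν 3 m = -((vs y κ ν * t ^ 3 * m / 6 : ℝ) : ℂ) * Complex.I ∧
    zt t y κ ν 4 m = ((vs y κ ν * t ^ 4 * m / 24 : ℝ) : ℂ) ∧
    zt t y κ ν 5 m = ((vs y κ ν * t ^ 5 * m / 120 : ℝ) : ℂ) * Complex.I ∧
    zt t y κ ν 6 m = -((vs y κ ν * t ^ 6 * m / 720 : ℝ) : ℂ) ∧
    zt t y κ ν 7 m = -((vs y κ ν * t ^ 7 * m / 5040 : ℝ) : ℂ) * Complex.I := by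
  have i2 : Complex.I ^ 2 = -1 := Complex.I_sq
  have i3 : Complex.I ^ 3 = -Complex.I := by rw [pow_succ, i2]; ring
  have i4 : Complex.I ^ 4 = 1 := Complex.I_pow_four
  have i5 : Complex.I ^ 5 = Complex.I := by rw [pow_succ, i4]; ring
  have i6 : Complex.I ^ 6 = -1 := by rw [pow_succ, i5, Complex.I_mul_I]
  have i7 : Complex.I ^ 7 = -Complex.I := by rw [pow_succ, i6]; ring
  unfold zt
  rw [i2, i3, i4, i5, i6, i7]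
  simp only [Nat.factorial]
  push_cast
  refine ⟨?_, ?_, ?_, ?_, ?_, ?_⟩ <;> ring

theorem exact_logf (t y κ ν : ℝ) :
    zt t y κ ν 2 1 + zt t y κ ν 3 (κ * y) + (zt t y κ ν 4 (m4 y κ) - zt t y κ ν 2 1 ^ 2 / 2) +
      (zt t y κ ν 5 (m5 y κ) - zt t y κ ν 2 1 * zt t y κ ν 3 (κ * y)) +
      (zt t y κ ν 6 (m6 y κ) - zt t y κ ν 2 1 * zt t y κ ν 4 (m4 y κ) -
        zt t y κ ν 3 (κ * y) ^ 2 / 2 + zt t y κ ν 2 1 ^ 3 / 3) +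
      (zt t y κ ν 7 (m7 y κ) - zt t y κ ν 2 1 * zt t y κ ν 5 (m5 y κ) -
        zt t y κ ν 3 (κ * y) * zt t y κ ν 4 (m4 y κ) + zt t y κ ν 2 1 ^ 2 * zt t y κ ν 3 (κ * y)) -
      W0 t y κ ν =
    ((vs y κ ν * t ^ 4 * (c4 y κ ν - a4 y κ ν) / 24 : ℝ) : ℂ) +
      ((vs y κ ν * t ^ 5 * (c5 y κ ν - a5 y κ ν) / 120 : ℝ) : ℂ) * Complex.I -
      ((vs y κ ν * t ^ 6 * (c6 y κ ν - a6 y κ ν) / 720 : ℝ) : ℂ) -
      ((vs y κ ν * t ^ 7 * c7 y κ ν / 5040 : ℝ) : ℂ) * Complex.I := by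
  rw [(zt_logf t y κ ν 1).1, (zt_logf t y κ ν (κ * y)).2.1, (zt_logf t y κ ν (m4 y κ)).2.2.1,
    (zt_logf t y κ ν (m5 y κ)).2.2.2.1, (zt_logf t y κ ν (m6 y κ)).2.2.2.2.1,
    (zt_logf t y κ ν (m7 y κ)).2.2.2.2.2]
  unfold W0 Wf c4 c5 c6 c7 a4 a5 a6
  generalize vs y κ ν = s
  generalize m4 y κ = q4
  generalize m5 y κ = q5
  generalize m6 y κ = q6
  generalize m7 y κ = q7
  push_cast
  linear_combination (-((s : ℂ) * t ^ 3 * (κ * y) / 6) ^ 2 / 2) * Complex.I_sq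

theorem norm_re_logf {s t c d : ℝ} (n : ℕ) (hs : 0 ≤ s) (ht : 0 ≤ t) (hd : 0 ≤ d) :
    ‖((s * t ^ n * c / d : ℝ) : ℂ)‖ = s * (t ^ n * (|c| / d)) := by
  rw [Complex.norm_real, Real.norm_eq_abs, abs_div, abs_mul, abs_mul, abs_of_nonneg hs,
    abs_of_nonneg (pow_nonneg ht n), abs_of_nonneg hd]
  ring

theorem logF {t y κ ν : ℝ} (h : Par y κ ν) (k0 : -1 < κ) (k1 : κ < 1) (ht : 0 < t)
    (hu : t * y ≤ 2.2) : ∃ l : ℂ, F0 (t * y) κ ν = Complex.exp l ∧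
      ‖l - W0 t y κ ν‖ ≤ vs y κ ν * (t ^ 4 * (|c4 y κ ν - a4 y κ ν| / 24)
        + t ^ 5 * (|c5 y κ ν - a5 y κ ν| / 120) + t ^ 6 * (|c6 y κ ν - a6 y κ ν| / 720)
        + t ^ 7 * (|c7 y κ ν| / 5040) + t ^ 8 * p8 y κ ν + t ^ 9 * p9 y κ ν
        + t ^ 10 * p10 y κ ν) := by
  obtain ⟨-, t2, t3, -, t4, t5, t6, -, t8⟩ := tay h k0 k1 ht
  have hy := h.y0
  have hs : 0 ≤ vs y κ ν := mul_nonneg (by linarith [h.n1]) (sq_nonneg _)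
  have hx0 : 0 ≤ vs y κ ν * t ^ 2 := by positivity
  have hx : vs y κ ν * t ^ 2 ≤ 1.21 := by
    have h1 : (1 - κ ^ 2) / 4 - ν ≤ 1 / 4 := by nlinarith [h.n0, sq_nonneg κ]
    have h2 : (t * y) ^ 2 ≤ 2.2 ^ 2 := pow_le_pow_left₀ (by positivity) hu 2
    calc vs y κ ν * t ^ 2 = ((1 - κ ^ 2) / 4 - ν) * (t * y) ^ 2 := by unfold vs; ring
      _ ≤ 1 / 4 * 2.2 ^ 2 := mul_le_mul h1 h2 (sq_nonneg _) (by norm_num)
      _ = 1.21 := by norm_num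
  have hR := log_rem_logf hx0 hx t2
  have hne : 1 + (F0 (t * y) κ ν - 1) ≠ 0 := by
    intro h0
    have h1 : F0 (t * y) κ ν - 1 = -1 := by linear_combination h0
    rw [h1, norm_neg, norm_one] at t2
    linarith
  refine ⟨Complex.log (1 + (F0 (t * y) κ ν - 1)), by rw [Complex.exp_log hne]; ring, ?_⟩
  have n2 : ‖zt t y κ ν 2 1‖ ≤ vs y κ ν * t ^ 2 / 2 := by
    rw [(zt_logf t y κ ν 1).1, norm_neg, norm_re_logf 2 hs ht.le (by norm_num), abs_one]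
    exact le_of_eq (by ring)
  have n3 : ‖zt t y κ ν 3 (κ * y)‖ ≤ vs y κ ν * t ^ 3 * (|κ| * y) / 6 := by
    rw [(zt_logf t y κ ν (κ * y)).2.1, norm_mul, norm_neg, Complex.norm_I, mul_one,
      norm_re_logf 3 hs ht.le (by norm_num), abs_mul, abs_of_pos hy]
    exact le_of_eq (by ring)
  have hrem := rem_logf n2 n3 t3 t4 t5 t6 t8
  have hex := exact_logf t y κ ν
  have hE : ‖((vs y κ ν * t ^ 4 * (c4 y κ ν - a4 y κ ν) / 24 : ℝ) : ℂ) +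
      ((vs y κ ν * t ^ 5 * (c5 y κ ν - a5 y κ ν) / 120 : ℝ) : ℂ) * Complex.I -
      ((vs y κ ν * t ^ 6 * (c6 y κ ν - a6 y κ ν) / 720 : ℝ) : ℂ) -
      ((vs y κ ν * t ^ 7 * c7 y κ ν / 5040 : ℝ) : ℂ) * Complex.I‖ ≤
      vs y κ ν * (t ^ 4 * (|c4 y κ ν - a4 y κ ν| / 24)) +
        vs y κ ν * (t ^ 5 * (|c5 y κ ν - a5 y κ ν| / 120)) +
        vs y κ ν * (t ^ 6 * (|c6 y κ ν - a6 y κ ν| / 720)) +
        vs y κ ν * (t ^ 7 * (|c7 y κ ν| / 5040)) := by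
    refine norm_sub_le_of_le (norm_sub_le_of_le (norm_add_le_of_le ?_ ?_) ?_) ?_
    · exact (norm_re_logf 4 hs ht.le (by norm_num)).le
    · rw [norm_mul, Complex.norm_I, mul_one]
      exact (norm_re_logf 5 hs ht.le (by norm_num)).le
    · exact (norm_re_logf 6 hs ht.le (by norm_num)).le
    · rw [norm_mul, Complex.norm_I, mul_one]
      exact (norm_re_logf 7 hs ht.le (by norm_num)).le
  rw [← hex] at hE
  have hsum := norm_add_le_of_le (norm_add_le_of_le hE hrem) hR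
  refine le_trans (le_of_eq (congrArg _ ?_)) (hsum.trans (le_of_eq ?_))
  · generalize Complex.log (1 + (F0 (t * y) κ ν - 1)) = l
    generalize F0 (t * y) κ ν = F
    generalize zt t y κ ν 2 1 = z2
    generalize zt t y κ ν 3 (κ * y) = z3
    generalize zt t y κ ν 4 (m4 y κ) = z4
    generalize zt t y κ ν 5 (m5 y κ) = z5
    generalize zt t y κ ν 6 (m6 y κ) = z6
    generalize zt t y κ ν 7 (m7 y κ) = z7
    ring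
  · have hk : (κ * y) ^ 2 = (|κ| * y) ^ 2 := by rw [mul_pow, mul_pow, sq_abs]
    unfold p8 p9 p10
    rw [hk]
    generalize |c4 y κ ν - a4 y κ ν| = d4
    generalize |c5 y κ ν - a5 y κ ν| = d5
    generalize |c6 y κ ν - a6 y κ ν| = d6
    generalize |c7 y κ ν| = d7
    generalize |κ| = k
    ring

end Pool.Agent.Lib.MP_33650d_pr.Y
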