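import Pool.Agent.Lib.MP_33650d_pr.Y.Defs

namespace Pool.Agent.Lib.MP_33650d_pr.Y
open MeasureTheory ProbabilityTheory Real X

theorem dE_bd_ord4 : 0.162277 < dE ∧ dE < 0.162278 := by
  unfold dE
  constructor <;> linarith [r10_lo, r10_hi]

theorem dE_sq_ord4 : 0.02633 ≤ dE ^ 2 ∧ dE ^ 2 ≤ 0.02634 := by
  obtain ⟨h0, h1⟩ := dE_bd_ord4
  constructor <;> nlinarith

theorem cJ_lo_ord4 : 0.5135 ≤ cJ := by
  unfold cJ
  linarith [r10_lo]

theorem R4_ord4 (y κ ν : ℝ) : c4 y κ ν - a4 y κ ν =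
    3 / 2 * (κ * y - dE) ^ 2 - (y - 1) ^ 2 / 2 + ν * y * (3 * y - 2) := by
  unfold c4 a4 m4 vs A4 B4
  ring

theorem cz_ord4 (κ : ℝ) : 0.5135 * κ ^ 2 - κ / 6 + 0.01352 ≤ cJ * (κ - dE) ^ 2 := by
  have e : cJ * (κ - dE) ^ 2 = cJ * κ ^ 2 - κ / 6 + dE / 12 := by
    unfold cJ dE
    linear_combination (-(κ / 6) + (r10 - 3) / 12) * r10_sq
  have h1 := mul_le_mul_of_nonneg_right cJ_lo_ord4 (sq_nonneg κ)
  linarith [dE_bd_ord4.1]

theorem xi_ord4 {y κ : ℝ} (hy : 0 ≤ y) (k0 : -1 ≤ κ) (k1 : κ ≤ 1) :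
    (κ * y - dE) ^ 2 ≤ κ ^ 2 * y ^ 2 - 0.324555 * (κ * y) + 0.000001 * y + 0.02634 := by
  obtain ⟨h0, h1⟩ := dE_bd_ord4
  have h2 := dE_sq_ord4.2
  have a1 : 0 ≤ (dE - 0.162277) * ((1 + κ) * y) :=
    mul_nonneg (by linarith) (mul_nonneg (by linarith) hy)
  have a2 : 0 ≤ (0.162278 - dE) * ((1 - κ) * y) :=
    mul_nonneg (by linarith) (mul_nonneg (by linarith) hy)
  nlinarith

/-- A cubic in `s` whose coefficients are bounded below. -/
theorem cub_ord4 {s p0 p1 p2 p3 : ℝ} (hs : 0 ≤ s) (h0 : 0.2 ≤ p0) (h1 : -0.1 ≤ p1)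
    (h2 : 0.4 ≤ p2) (h3 : 0 ≤ p3) : 0 ≤ p0 + p1 * s + p2 * s ^ 2 + p3 * s ^ 3 := by
  have a1 := mul_le_mul_of_nonneg_right h1 hs
  have a2 := mul_le_mul_of_nonneg_right h2 (sq_nonneg s)
  have a3 := mul_nonneg h3 (pow_nonneg hs 3)
  nlinarith [sq_nonneg (s - 1 / 8)]

/-- The polynomial form of the upper bound at `ν = 0`. -/
noncomputable def Q0_ord4 (y κ : ℝ) : ℝ :=
  (2.4 + 1.392 * y) * (y ^ 2 * (0.5135 * κ ^ 2 - κ / 6 + 0.01352) + 0.4 * (y - 1) ^ 2)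
    - y * (3 / 2 * (κ ^ 2 * y ^ 2 - 0.324555 * (κ * y) + 0.000001 * y + 0.02634) - (y - 1) ^ 2 / 2)

/-- The coefficient of `ν`. -/
noncomputable def G_ord4 (y : ℝ) : ℝ :=
  (2.4 + 1.392 * y) * (0.2 * y ^ 2 + 0.8) - (3 * y - 2) * y ^ 2

theorem Q_nonneg_ord4 {y κ : ℝ} (hy : 1.4 ≤ y) (k0 : -1 ≤ κ) (k1 : κ ≤ 1) :
    0 ≤ Q0_ord4 y κ ∧ 0 ≤ Q0_ord4 y κ + (1 - κ ^ 2) / 4 * G_ord4 y := by
  obtain ⟨s, rfl⟩ : ∃ s, y = 1.4 + s := ⟨y - 1.4, by ring⟩
  have hs : 0 ≤ s := by linarith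
  have hk : 0 ≤ (1 - κ) * (1 + κ) := mul_nonneg (by linarith) (by linarith)
  have hk1 : 0 ≤ (1 - κ) * (1 - κ) := mul_self_nonneg _
  constructor
  · have e : Q0_ord4 (1.4 + s) κ = ((2814037381 / 6250000000) + (-4664163 / 10000000) * κ
          + (4076457 / 15625000) * κ ^ 2) + ((1426690537 / 625000000) + (-1121029 / 1000000) * κ
          + (-3644697 / 3125000) * κ ^ 2) * s + ((849112457 / 250000000) + (-355027 / 400000) * κ
          + (-1290921 / 625000) * κ ^ 2) * s ^ 2 + ((420164 / 390625) + (-29 / 125) * κ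
          + (-98151 / 125000) * κ ^ 2) * s ^ 3 := by
      unfold Q0_ord4
      ring
    rw [e]
    refine cub_ord4 hs ?_ ?_ ?_ ?_ <;> nlinarith [sq_nonneg (κ - 0.9)]
  · have e : Q0_ord4 (1.4 + s) κ + (1 - κ ^ 2) / 4 * G_ord4 (1.4 + s) =
        ((4176177381 / 6250000000) + (-4664163 / 10000000) * κ
          + (671107 / 15625000) * κ ^ 2) + ((185220537 / 625000000) + (-1121029 / 1000000) * κ
          + (2562653 / 3125000) * κ ^ 2) * s + ((289692457 / 250000000) + (-355027 / 400000) * κ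
          + (107629 / 625000) * κ ^ 2) * s ^ 2 + ((617531 / 1562500) + (-29 / 125) * κ
          + (-13101 / 125000) * κ ^ 2) * s ^ 3 := by
      unfold Q0_ord4 G_ord4
      ring
    rw [e]
    refine cub_ord4 hs ?_ ?_ ?_ ?_ <;> nlinarith [sq_nonneg (κ - 0.68)]

theorem big_ord4 {y κ ν : ℝ} (h : Par y κ ν) (hy : 1.4 ≤ y) :
    |c4 y κ ν - a4 y κ ν| ≤ (2.4 + 1.392 * y) *
      (cJ * y * (κ - dE) ^ 2 + ν * y * (0.2 + 0.8 / y ^ 2) + 2 / 5 * (y - 1) ^ 2 / y) := by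
  have y0 := h.y0
  have hM : 0 ≤ 2.4 + 1.392 * y := by positivity
  have hc : 0 ≤ cJ * y * (κ - dE) ^ 2 := by
    have := cJ_lo_ord4
    positivity
  have hν := h.n0
  rw [R4_ord4, abs_le]
  constructor
  · have a1 : 0 ≤ ν * y * (3 * y - 2) := mul_nonneg (by positivity) (by linarith)
    have a2 : 0 ≤ ν * y * (0.2 + 0.8 / y ^ 2) := by positivity
    have a3 : (y - 1) ^ 2 / 2 ≤ (2.4 + 1.392 * y) * (2 / 5 * (y - 1) ^ 2 / y) := by
      rw [← mul_div_assoc, le_div_iff₀ y0]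
      nlinarith [mul_nonneg y0.le (sq_nonneg (y - 1)), sq_nonneg (y - 1)]
    have a4 := mul_nonneg hM (add_nonneg hc a2)
    nlinarith [sq_nonneg (κ * y - dE)]
  · refine le_of_mul_le_mul_left ?_ y0
    obtain ⟨q0, q1⟩ := Q_nonneg_ord4 hy h.k0 h.k1
    have q : 0 ≤ Q0_ord4 y κ + ν * G_ord4 y := by
      rcases le_total 0 (G_ord4 y) with hG | hG
      · exact add_nonneg q0 (mul_nonneg hν hG)
      · have := mul_le_mul_of_nonpos_right h.n1 hG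
        linarith
    have e : y * ((2.4 + 1.392 * y) *
        (cJ * y * (κ - dE) ^ 2 + ν * y * (0.2 + 0.8 / y ^ 2) + 2 / 5 * (y - 1) ^ 2 / y)) =
        (2.4 + 1.392 * y) * y ^ 2 * (cJ * (κ - dE) ^ 2)
          + (2.4 + 1.392 * y) * (ν * (0.2 * y ^ 2 + 0.8) + 0.4 * (y - 1) ^ 2) := by
      field_simp
      ring
    have b1 := mul_le_mul_of_nonneg_left (cz_ord4 κ) (mul_nonneg hM (sq_nonneg y))
    have b2 := mul_le_mul_of_nonneg_left (xi_ord4 y0.le h.k0 h.k1) y0.le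
    rw [e]
    unfold Q0_ord4 G_ord4 at q
    nlinarith

theorem mid_ord4 {y κ ν : ℝ} (h : Par y κ ν) (hy0 : 1 ≤ y) (hy : y ≤ 1.4) :
    |c4 y κ ν - a4 y κ ν| ≤ 4.3488 *
      (cJ * y * (κ - dE) ^ 2 + ν * y * (0.2 + 0.8 / y ^ 2) + 2 / 5 * (y - 1) ^ 2 / y) := by
  have y0 := h.y0
  have hν := h.n0
  have hz : 0 ≤ y * (κ - dE) ^ 2 := by positivity
  have hc : 0.5135 * (y * (κ - dE) ^ 2) ≤ cJ * y * (κ - dE) ^ 2 := by
    rw [mul_assoc]
    exact mul_le_mul_of_nonneg_right cJ_lo_ord4 hz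
  have hη := sq_nonneg (y - 1)
  have hg : 0.2857 * (y - 1) ^ 2 ≤ 2 / 5 * (y - 1) ^ 2 / y := by
    rw [le_div_iff₀ y0]
    nlinarith [mul_nonneg hη (sub_nonneg.2 hy)]
  have hνy : 0 ≤ ν * y := by positivity
  have hw : ν * y * 0.608 ≤ ν * y * (0.2 + 0.8 / y ^ 2) := by
    refine mul_le_mul_of_nonneg_left ?_ hνy
    have : 0.408 ≤ 0.8 / y ^ 2 := by
      rw [le_div_iff₀ (by positivity)]
      nlinarith
    linarith
  rw [R4_ord4, abs_le]
  constructor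
  · have a1 : 0 ≤ ν * y * (3 * y - 2) := mul_nonneg hνy (by linarith)
    nlinarith [sq_nonneg (κ * y - dE)]
  · have a1 : ν * y * (3 * y - 2) ≤ ν * y * 2.2 := mul_le_mul_of_nonneg_left (by linarith) hνy
    have a2 : (κ * y - dE) ^ 2 ≤
        1.06 * (y * (y * (κ - dE) ^ 2)) + 53 / 3 * (dE ^ 2 * (y - 1) ^ 2) := by
      nlinarith [sq_nonneg (y * (κ - dE) - 50 / 3 * (dE * (y - 1)))]
    have a3 := mul_le_mul_of_nonneg_right hy hz
    have a4 := mul_le_mul_of_nonneg_right dE_sq_ord4.2 hη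
    linarith

theorem low_ord4 {y κ ν g : ℝ} (h : Par y κ ν) (hy : y ≤ 1) (hg : 0 ≤ g)
    (hg' : (y - 1) ^ 2 / 2 - 3 / 2 * (κ * y - dE) ^ 2 ≤ 4.3488 * g) :
    |c4 y κ ν - a4 y κ ν| ≤ 4.3488 * (cJ * y * (κ - dE) ^ 2 + ν * y * 1 + g) := by
  have y0 := h.y0
  have hν := h.n0
  have hz : 0 ≤ y * (κ - dE) ^ 2 := by positivity
  have hc : 0.5135 * (y * (κ - dE) ^ 2) ≤ cJ * y * (κ - dE) ^ 2 := by
    rw [mul_assoc]
    exact mul_le_mul_of_nonneg_right cJ_lo_ord4 hz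
  have hη := sq_nonneg (y - 1)
  have hνy : 0 ≤ ν * y := by positivity
  rw [R4_ord4, abs_le]
  constructor
  · have a1 : ν * y * (-2) ≤ ν * y * (3 * y - 2) := mul_le_mul_of_nonneg_left (by linarith) hνy
    linarith
  · have a1 : ν * y * (3 * y - 2) ≤ ν * y * 1 := mul_le_mul_of_nonneg_left (by linarith) hνy
    have a2 : (κ * y - dE) ^ 2 ≤
        1.4 * (y * (y * (κ - dE) ^ 2)) + 3.5 * (dE ^ 2 * (y - 1) ^ 2) := by
      nlinarith [sq_nonneg (y * (κ - dE) - 2.5 * (dE * (y - 1)))]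
    have a3 := mul_le_mul_of_nonneg_right hy hz
    have a4 := mul_le_mul_of_nonneg_right dE_sq_ord4.2 hη
    linarith

theorem ord4 {y κ ν : ℝ} (h : Par y κ ν) :
    |c4 y κ ν - a4 y κ ν| / 24 ≤ (0.1 + 0.058 * max y 1.4) * Dp y κ ν := by
  have y0 := h.y0
  unfold Dp wv gh
  rcases le_or_gt y 1 with h1 | h1
  · rw [max_eq_right (by linarith), if_pos h1]
    rcases le_or_gt y 0.85 with h2 | h2
    · rw [if_pos h2]
      have := low_ord4 (g := 0.111 - 0.12 * y) h h1 (by linarith) ?_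
      · linarith
      · rcases le_total y 0.1 with h3 | h3
        · obtain ⟨d0, d1⟩ := dE_bd_ord4
          have a1 : dE * (κ * y) ≤ dE * y :=
            mul_le_mul_of_nonneg_left (by nlinarith [h.k1]) (by linarith)
          have a2 := mul_le_mul_of_nonneg_right d1.le y0.le
          have a3 := dE_sq_ord4.1
          nlinarith [sq_nonneg (κ * y)]
        · nlinarith [sq_nonneg (κ * y - dE), mul_nonneg (sub_nonneg.2 h3) (sub_nonneg.2 h2)]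
    · rw [if_neg (not_le.2 h2), gf, max_eq_right h1, div_one]
      have := low_ord4 (g := 2 / 5 * (y - 1) ^ 2) h h1 (by positivity)
        (by nlinarith [sq_nonneg (κ * y - dE), sq_nonneg (y - 1)])
      linarith
  · rw [if_neg (not_le.2 h1), if_neg (by linarith : ¬ y ≤ 0.85), gf, max_eq_left h1.le]
    rcases le_total y 1.4 with h2 | h2
    · rw [max_eq_right h2]
      have := mid_ord4 h h1.le h2
      linarith
    · rw [max_eq_left h2]
      have := big_ord4 h h2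
      linarith

end Pool.Agent.Lib.MP_33650d_pr.Y
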