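import Pool.Agent.Lib.MP_33650d_pr.Y.Ord5a

namespace Pool.Agent.Lib.MP_33650d_pr.Y
open MeasureTheory ProbabilityTheory Real X

noncomputable def R0_ord5 (z y d : ℝ) : ℝ :=
  9 * d * ((z + d) * y - d) ^ 2 + 3 * ((z + d) * y - d) ^ 3 - 2 * d * (y - 1) ^ 2
    - 4 * ((z + d) * y - d) * (y - 1) - 2 * ((z + d) * y - d) * (y - 1) ^ 2

noncomputable def R1_ord5 (z y d : ℝ) : ℝ := y * (10 * y * (z + d) * y - 8 * d)

theorem lin_ord5 {A B ν m : ℝ} (h0 : 0 ≤ A) (h1 : 0 ≤ A + m * B) (hν : 0 ≤ ν) (hm : ν ≤ m) :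
    0 ≤ A + ν * B := by
  rcases le_total 0 B with h | h
  · positivity
  · nlinarith

theorem q1_ord5 {z y d ν : ℝ} (hd : d ^ 2 + 6 * d = 1) (h1 : (-1163 / 1000) ≤ z) (h2 : z ≤ (419 / 500))
    (h3 : 0 ≤ y) (h4 : y ≤ (17 / 20)) (h5 : 162 / 1000 ≤ d) (h6 : d ≤ 163 / 1000)
    (hν : 0 ≤ ν) (hm : ν ≤ (1 - (z + d) ^ 2) / 4) :
    |1 * (R0_ord5 z y d + ν * R1_ord5 z y d)| ≤
      10.944 * (((6 + d) / 12 * y * z ^ 2 + (0.111 - 0.12 * y)) + ν * y) := by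
  have p : 0 ≤ (10.944 * ((6 + d) / 12 * y * z ^ 2 + (0.111 - 0.12 * y)) - 1 * R0_ord5 z y d) +
      ν * (10.944 * y - 1 * R1_ord5 z y d) := by
    refine lin_ord5 ((p1p0_ord5 h1 h2 h3 h4 h5 h6).trans_eq ?_) ((p1p1_ord5 h1 h2 h3 h4 h5 h6).trans_eq ?_) hν hm
    · unfold g1p0_ord5 R0_ord5
      linear_combination (-(36 + (-6) * d + (-54) * y + 9 * y * d + 18 * y ^ 3 + (-3) * y ^ 3 * d + 9 * z * y
        + (-9) * z * y ^ 3)) * hd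
    · unfold g1p1_ord5 R0_ord5 R1_ord5
      linear_combination (-(36 + (-6) * d + (-5592 / 125) * y + 7 * y * d + 3 * y ^ 3 + (-1 / 2) * y ^ 3 * d
        + 5 * z * y + (-3 / 2) * z * y ^ 3)) * hd
  have m : 0 ≤ (10.944 * ((6 + d) / 12 * y * z ^ 2 + (0.111 - 0.12 * y)) + 1 * R0_ord5 z y d) +
      ν * (10.944 * y + 1 * R1_ord5 z y d) := by
    refine lin_ord5 ((p1m0_ord5 h1 h2 h3 h4 h5 h6).trans_eq ?_) ((p1m1_ord5 h1 h2 h3 h4 h5 h6).trans_eq ?_) hν hm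
    · unfold g1m0_ord5 R0_ord5
      linear_combination (-((-36) + 6 * d + 54 * y + (-9) * y * d + (-18) * y ^ 3 + 3 * y ^ 3 * d + (-9) * z * y
        + 9 * z * y ^ 3)) * hd
    · unfold g1m1_ord5 R0_ord5 R1_ord5
      linear_combination (-((-36) + 6 * d + (4908 / 125) * y + (-7) * y * d + (-3) * y ^ 3 + (1 / 2) * y ^ 3 * d
        + (-5) * z * y + (3 / 2) * z * y ^ 3)) * hd
  rw [abs_le]
  constructor <;> linarith

theorem q2_ord5 {z y d ν : ℝ} (hd : d ^ 2 + 6 * d = 1) (h1 : (-1163 / 1000) ≤ z) (h2 : z ≤ (419 / 500))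
    (h3 : (17 / 20) ≤ y) (h4 : y ≤ 1) (h5 : 162 / 1000 ≤ d) (h6 : d ≤ 163 / 1000)
    (hν : 0 ≤ ν) (hm : ν ≤ (1 - (z + d) ^ 2) / 4) :
    |1 * (R0_ord5 z y d + ν * R1_ord5 z y d)| ≤
      10.944 * (((6 + d) / 12 * y * z ^ 2 + 2 / 5 * (y - 1) ^ 2) + ν * y) := by
  have p : 0 ≤ (10.944 * ((6 + d) / 12 * y * z ^ 2 + 2 / 5 * (y - 1) ^ 2) - 1 * R0_ord5 z y d) +
      ν * (10.944 * y - 1 * R1_ord5 z y d) := by
    refine lin_ord5 ((p2p0_ord5 h1 h2 h3 h4 h5 h6).trans_eq ?_) ((p2p1_ord5 h1 h2 h3 h4 h5 h6).trans_eq ?_) hν hm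
    · unfold g2p0_ord5 R0_ord5
      linear_combination (-(36 + (-6) * d + (-54) * y + 9 * y * d + 18 * y ^ 3 + (-3) * y ^ 3 * d + 9 * z * y
        + (-9) * z * y ^ 3)) * hd
    · unfold g2p1_ord5 R0_ord5 R1_ord5
      linear_combination (-(36 + (-6) * d + (-5592 / 125) * y + 7 * y * d + 3 * y ^ 3 + (-1 / 2) * y ^ 3 * d
        + 5 * z * y + (-3 / 2) * z * y ^ 3)) * hd
  have m : 0 ≤ (10.944 * ((6 + d) / 12 * y * z ^ 2 + 2 / 5 * (y - 1) ^ 2) + 1 * R0_ord5 z y d) +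
      ν * (10.944 * y + 1 * R1_ord5 z y d) := by
    refine lin_ord5 ((p2m0_ord5 h1 h2 h3 h4 h5 h6).trans_eq ?_) ((p2m1_ord5 h1 h2 h3 h4 h5 h6).trans_eq ?_) hν hm
    · unfold g2m0_ord5 R0_ord5
      linear_combination (-((-36) + 6 * d + 54 * y + (-9) * y * d + (-18) * y ^ 3 + 3 * y ^ 3 * d + (-9) * z * y
        + 9 * z * y ^ 3)) * hd
    · unfold g2m1_ord5 R0_ord5 R1_ord5
      linear_combination (-((-36) + 6 * d + (4908 / 125) * y + (-7) * y * d + (-3) * y ^ 3 + (1 / 2) * y ^ 3 * d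
        + (-5) * z * y + (3 / 2) * z * y ^ 3)) * hd
  rw [abs_le]
  constructor <;> linarith

theorem q3_ord5 {z y d ν : ℝ} (hd : d ^ 2 + 6 * d = 1) (h1 : (-1163 / 1000) ≤ z) (h2 : z ≤ (419 / 500))
    (h3 : 1 ≤ y) (h4 : y ≤ (7 / 5)) (h5 : 162 / 1000 ≤ d) (h6 : d ≤ 163 / 1000)
    (hν : 0 ≤ ν) (hm : ν ≤ (1 - (z + d) ^ 2) / 4) :
    |y * (R0_ord5 z y d + ν * R1_ord5 z y d)| ≤
      10.944 * (((6 + d) / 12 * y ^ 2 * z ^ 2 + 2 / 5 * (y - 1) ^ 2) + ν * (0.2 * y ^ 2 + 0.8)) := by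
  have p : 0 ≤ (10.944 * ((6 + d) / 12 * y ^ 2 * z ^ 2 + 2 / 5 * (y - 1) ^ 2) - y * R0_ord5 z y d) +
      ν * (10.944 * (0.2 * y ^ 2 + 0.8) - y * R1_ord5 z y d) := by
    refine lin_ord5 ((p3p0_ord5 h1 h2 h3 h4 h5 h6).trans_eq ?_) ((p3p1_ord5 h1 h2 h3 h4 h5 h6).trans_eq ?_) hν hm
    · unfold g3p0_ord5 R0_ord5
      linear_combination (-(36 * y + (-6) * y * d + (-54) * y ^ 2 + 9 * y ^ 2 * d + 18 * y ^ 4 + (-3) * y ^ 4 * d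
        + 9 * z * y ^ 2 + (-9) * z * y ^ 4)) * hd
    · unfold g3p1_ord5 R0_ord5 R1_ord5
      linear_combination (-((-1368 / 625) + 36 * y + (-6) * y * d + (-26592 / 625) * y ^ 2 + 7 * y ^ 2 * d
        + 3 * y ^ 4 + (-1 / 2) * y ^ 4 * d + 5 * z * y ^ 2 + (-3 / 2) * z * y ^ 4)) * hd
  have m : 0 ≤ (10.944 * ((6 + d) / 12 * y ^ 2 * z ^ 2 + 2 / 5 * (y - 1) ^ 2) + y * R0_ord5 z y d) +
      ν * (10.944 * (0.2 * y ^ 2 + 0.8) + y * R1_ord5 z y d) := by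
    refine lin_ord5 ((p3m0_ord5 h1 h2 h3 h4 h5 h6).trans_eq ?_) ((p3m1_ord5 h1 h2 h3 h4 h5 h6).trans_eq ?_) hν hm
    · unfold g3m0_ord5 R0_ord5
      linear_combination (-((-36) * y + 6 * y * d + 54 * y ^ 2 + (-9) * y ^ 2 * d + (-18) * y ^ 4 + 3 * y ^ 4 * d
        + (-9) * z * y ^ 2 + 9 * z * y ^ 4)) * hd
    · unfold g3m1_ord5 R0_ord5 R1_ord5
      linear_combination (-((-1368 / 625) + (-36) * y + 6 * y * d + (25908 / 625) * y ^ 2 + (-7) * y ^ 2 * d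
        + (-3) * y ^ 4 + (1 / 2) * y ^ 4 * d + (-5) * z * y ^ 2 + (3 / 2) * z * y ^ 4)) * hd
  rw [abs_le]
  constructor <;> linarith

theorem q4_ord5 {z y d ν : ℝ} (hd : d ^ 2 + 6 * d = 1) (h1 : (-1163 / 1000) ≤ z) (h2 : z ≤ (419 / 500))
    (h3 : (7 / 5) ≤ y) (h5 : 162 / 1000 ≤ d) (h6 : d ≤ 163 / 1000)
    (hν : 0 ≤ ν) (hm : ν ≤ (1 - (z + d) ^ 2) / 4) :
    |y * (R0_ord5 z y d + ν * R1_ord5 z y d)| ≤
      (120 * (0.04 + 0.0128 * (y + 0.6) ^ 2)) * (((6 + d) / 12 * y ^ 2 * z ^ 2 + 2 / 5 * (y - 1) ^ 2) + ν * (0.2 * y ^ 2 + 0.8)) := by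
  have p : 0 ≤ ((120 * (0.04 + 0.0128 * (y + 0.6) ^ 2)) * ((6 + d) / 12 * y ^ 2 * z ^ 2 + 2 / 5 * (y - 1) ^ 2) - y * R0_ord5 z y d) +
      ν * ((120 * (0.04 + 0.0128 * (y + 0.6) ^ 2)) * (0.2 * y ^ 2 + 0.8) - y * R1_ord5 z y d) := by
    refine lin_ord5 ((p4p0_ord5 h1 h2 h3 h5 h6).trans_eq ?_) ((p4p1_ord5 h1 h2 h3 h5 h6).trans_eq ?_) hν hm
    · unfold g4p0_ord5 R0_ord5
      linear_combination (-(36 * y + (-6) * y * d + (-54) * y ^ 2 + 9 * y ^ 2 * d + 18 * y ^ 4 + (-3) * y ^ 4 * d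
        + 9 * z * y ^ 2 + (-9) * z * y ^ 4)) * hd
    · unfold g4p1_ord5 R0_ord5 R1_ord5
      linear_combination (-((-16728 / 15625) + (111348 / 3125) * y + (-6) * y * d + (-665232 / 15625) * y ^ 2
        + 7 * y ^ 2 * d + (-288 / 3125) * y ^ 3 + (1827 / 625) * y ^ 4 + (-1 / 2) * y ^ 4 * d
        + 5 * z * y ^ 2 + (-3 / 2) * z * y ^ 4)) * hd
  have m : 0 ≤ ((120 * (0.04 + 0.0128 * (y + 0.6) ^ 2)) * ((6 + d) / 12 * y ^ 2 * z ^ 2 + 2 / 5 * (y - 1) ^ 2) + y * R0_ord5 z y d) +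
      ν * ((120 * (0.04 + 0.0128 * (y + 0.6) ^ 2)) * (0.2 * y ^ 2 + 0.8) + y * R1_ord5 z y d) := by
    refine lin_ord5 ((p4m0_ord5 h1 h2 h3 h5 h6).trans_eq ?_) ((p4m1_ord5 h1 h2 h3 h5 h6).trans_eq ?_) hν hm
    · unfold g4m0_ord5 R0_ord5
      linear_combination (-((-36) * y + 6 * y * d + 54 * y ^ 2 + (-9) * y ^ 2 * d + (-18) * y ^ 4 + 3 * y ^ 4 * d
        + (-9) * z * y ^ 2 + 9 * z * y ^ 4)) * hd
    · unfold g4m1_ord5 R0_ord5 R1_ord5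
      linear_combination (-((-16728 / 15625) + (-113652 / 3125) * y + 6 * y * d + (647268 / 15625) * y ^ 2
        + (-7) * y ^ 2 * d + (-288 / 3125) * y ^ 3 + (-1923 / 625) * y ^ 4
        + (1 / 2) * y ^ 4 * d + (-5) * z * y ^ 2 + (3 / 2) * z * y ^ 4)) * hd
  rw [abs_le]
  constructor <;> linarith

theorem R_ord5 (z y ν : ℝ) : c5 y (z + dE) ν - a5 y (z + dE) ν =
    R0_ord5 z y dE + ν * R1_ord5 z y dE := by
  unfold c5 a5 m5 vs A5 B5 C5 R0_ord5 R1_ord5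
  ring

theorem ord5 {y κ ν : ℝ} (h : Par y κ ν) :
    |c5 y κ ν - a5 y κ ν| / 120 ≤ (0.04 + 0.0128 * (max y 1.4 + 0.6) ^ 2) * Dp y κ ν := by
  have hd : dE ^ 2 + 6 * dE = 1 := by unfold dE; linear_combination r10_sq
  have h5 : 162 / 1000 ≤ dE := by unfold dE; linarith [r10_lo]
  have h6 : dE ≤ 163 / 1000 := by unfold dE; linarith [r10_hi]
  have hc : cJ = (6 + dE) / 12 := by unfold cJ dE; ring
  obtain ⟨z, rfl⟩ : ∃ z, κ = z + dE := ⟨κ - dE, by ring⟩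
  have h1 : (-1163 / 1000) ≤ z := by linarith [h.k0]
  have h2 : z ≤ (419 / 500) := by linarith [h.k1]
  have hy := h.y0
  rw [R_ord5, div_le_iff₀ (by norm_num)]
  unfold Dp gh wv gf
  rw [hc, add_sub_cancel_right]
  by_cases c1 : y ≤ 0.85
  · have := q1_ord5 hd h1 h2 hy.le (by linarith) h5 h6 h.n0 h.n1
    rw [if_pos c1, if_pos (by linarith), max_eq_right (by linarith)]
    rw [one_mul] at this
    linarith
  rw [if_neg c1]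
  by_cases c2 : y ≤ 1
  · have := q2_ord5 hd h1 h2 (by linarith) c2 h5 h6 h.n0 h.n1
    rw [if_pos c2, max_eq_right (by linarith), max_eq_right c2]
    rw [one_mul] at this
    linarith
  rw [if_neg c2, max_eq_left (show (1 : ℝ) ≤ y by linarith)]
  refine le_of_mul_le_mul_left ?_ hy
  by_cases c3 : y ≤ 1.4
  · have := q3_ord5 hd h1 h2 (by linarith) (by linarith) h5 h6 h.n0 h.n1
    rw [max_eq_right c3]
    rw [abs_mul, abs_of_pos hy] at this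
    refine this.trans_eq ?_
    field_simp
    ring
  · have := q4_ord5 (y := y) hd h1 h2 (by linarith) h5 h6 h.n0 h.n1
    rw [max_eq_left (by linarith)]
    rw [abs_mul, abs_of_pos hy] at this
    refine this.trans_eq ?_
    field_simp
    ring

end Pool.Agent.Lib.MP_33650d_pr.Y
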