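import Pool.Agent.Lib.MP_33650d_pr.Y.Defs

namespace Pool.Agent.Lib.MP_33650d_pr.Y
open MeasureTheory ProbabilityTheory Real X

noncomputable def aU_o6 (w k : ℝ) : ℝ :=
  4.176 * (1 + 0.65 * w) ^ 3 * ((6.1622 * k ^ 2 - 2 * k + 0.1622) / 12 + 0.4 * (1 - w) ^ 2)
    - (1 - 7.5 * k ^ 2 + 7.5 * k ^ 4) + w ^ 3 * (-2.306 * k + 3.604) - 2.424 * w ^ 4

noncomputable def bU_o6 (w k : ℝ) : ℝ :=
  4.176 * (1 + 0.65 * w) ^ 3 * (0.2 + 0.8 * w ^ 2) - (36.25 * k ^ 2 - 11.25) - 7.21 * w ^ 3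

noncomputable def aL_o6 (w k : ℝ) : ℝ :=
  4.176 * (1 + 0.65 * w) ^ 3 * ((6.1622 * k ^ 2 - 2 * k + 0.1622) / 12 + 0.4 * (1 - w) ^ 2)
    + (1 - 7.5 * k ^ 2 + 7.5 * k ^ 4) - w ^ 3 * (-2.306 * k + 3.606) + 2.423 * w ^ 4
    - 30 * ((1 - w) / 10) ^ 2

noncomputable def bL_o6 (w k : ℝ) : ℝ :=
  4.176 * (1 + 0.65 * w) ^ 3 * (0.2 + 0.8 * w ^ 2) + (36.25 * k ^ 2 - 11.25) + 7.21 * w ^ 3
    + 60 * ((1 - w) / 10)

theorem U0_0_o6 {w k : ℝ} (hw0 : 0 ≤ w) (hw1 : w ≤ 4 / 5) (hk0 : (-1) ≤ k)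
    (hk1 : k ≤ (1 / 10)) :
    0 ≤ aU_o6 w k := by
  have key : ∀ b c e : ℝ, 0 ≤ b → 0 ≤ c → 0 ≤ e →
      0 ≤ c ^ 0 * e ^ 4 * ((5067175 / 681472) * w ^ 0 * b ^ 5
        + (87065587 / 1874048) * w ^ 1 * b ^ 4
        + (21127723949 / 187404800) * w ^ 2 * b ^ 3
        + (328949657077 / 2342560000) * w ^ 3 * b ^ 2
        + (105698530177 / 1171280000) * w ^ 4 * b ^ 1
        + (6983044589 / 292820000) * w ^ 5 * b ^ 0)
      + c ^ 1 * e ^ 3 * ((71834615 / 1362944) * w ^ 0 * b ^ 5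
        + (5300163523 / 18740480) * w ^ 1 * b ^ 4
        + (1124412807521 / 1874048000) * w ^ 2 * b ^ 3
        + (15278477314233 / 23425600000) * w ^ 3 * b ^ 2
        + (4310532959433 / 11712800000) * w ^ 4 * b ^ 1
        + (127285043163 / 1464100000) * w ^ 5 * b ^ 0)
      + c ^ 2 * e ^ 2 * ((132652107 / 5451776) * w ^ 0 * b ^ 5
        + (49583256507 / 374809600) * w ^ 1 * b ^ 4
        + (10118851172289 / 37480960000) * w ^ 2 * b ^ 3
        + (134434310283897 / 468512000000) * w ^ 3 * b ^ 2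
        + (38695433717697 / 234256000000) * w ^ 4 * b ^ 1
        + (616990160271 / 14641000000) * w ^ 5 * b ^ 0)
      + c ^ 3 * e ^ 1 * ((9594217 / 2725888) * w ^ 0 * b ^ 5
        + (3392866867 / 187404800) * w ^ 1 * b ^ 4
        + (435212776259 / 18740480000) * w ^ 2 * b ^ 3
        + (2630556812707 / 234256000000) * w ^ 3 * b ^ 2
        + (401532786757 / 117128000000) * w ^ 4 * b ^ 1
        + (122419351933 / 58564000000) * w ^ 5 * b ^ 0)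
      + c ^ 4 * e ^ 0 * ((8556137 / 5451776) * w ^ 0 * b ^ 5
        + (5798151199 / 749619200) * w ^ 1 * b ^ 4
        + (435574803349 / 37480960000) * w ^ 2 * b ^ 3
        + (3372531492027 / 468512000000) * w ^ 3 * b ^ 2
        + (740226658779 / 468512000000) * w ^ 4 * b ^ 1
        + (70623484677 / 468512000000) * w ^ 5 * b ^ 0) := by
    intro b c e hb hc he
    positivity
  have h := key (4 / 5 - w) (k - (-1)) ((1 / 10) - k) (by linarith) (by linarith) (by linarith)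
  refine h.trans (le_of_eq ?_)
  unfold aU_o6
  ring

theorem U0_1_o6 {w k : ℝ} (hw0 : 0 ≤ w) (hw1 : w ≤ 4 / 5) (hk0 : (1 / 10) ≤ k)
    (hk1 : k ≤ (1 / 2)) :
    0 ≤ aU_o6 w k := by
  have key : ∀ b c e : ℝ, 0 ≤ b → 0 ≤ c → 0 ≤ e →
      0 ≤ c ^ 0 * e ^ 4 * ((94117507 / 1048576) * w ^ 0 * b ^ 5
        + (5798151199 / 13107200) * w ^ 1 * b ^ 4
        + (435574803349 / 655360000) * w ^ 2 * b ^ 3
        + (3372531492027 / 8192000000) * w ^ 3 * b ^ 2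
        + (740226658779 / 8192000000) * w ^ 4 * b ^ 1
        + (70623484677 / 8192000000) * w ^ 5 * b ^ 0)
      + c ^ 1 * e ^ 3 * ((109153621 / 262144) * w ^ 0 * b ^ 5
        + (6672800047 / 3276800) * w ^ 1 * b ^ 4
        + (514836045247 / 163840000) * w ^ 2 * b ^ 3
        + (4120623523181 / 2048000000) * w ^ 3 * b ^ 2
        + (863388066787 / 2048000000) * w ^ 4 * b ^ 1
        + (7272495881 / 2048000000) * w ^ 5 * b ^ 0)
      + c ^ 2 * e ^ 2 * ((464513661 / 524288) * w ^ 0 * b ^ 5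
        + (28807042077 / 6553600) * w ^ 1 * b ^ 4
        + (2451450429027 / 327680000) * w ^ 2 * b ^ 3
        + (23788702587621 / 4096000000) * w ^ 3 * b ^ 2
        + (8051472156417 / 4096000000) * w ^ 4 * b ^ 1
        + (970895866071 / 4096000000) * w ^ 5 * b ^ 0)
      + c ^ 3 * e ^ 1 * ((225170305 / 262144) * w ^ 0 * b ^ 5
        + (2842358627 / 655360) * w ^ 1 * b ^ 4
        + (261003419327 / 32768000) * w ^ 2 * b ^ 3
        + (2866122702021 / 409600000) * w ^ 3 * b ^ 2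
        + (1193431922967 / 409600000) * w ^ 4 * b ^ 1
        + (194565372621 / 409600000) * w ^ 5 * b ^ 0)
      + c ^ 4 * e ^ 0 * ((290150875 / 1048576) * w ^ 0 * b ^ 5
        + (745045495 / 524288) * w ^ 1 * b ^ 4
        + (14327495249 / 5242880) * w ^ 2 * b ^ 3
        + (167840091727 / 65536000) * w ^ 3 * b ^ 2
        + (76332158039 / 65536000) * w ^ 4 * b ^ 1
        + (13763857753 / 65536000) * w ^ 5 * b ^ 0) := by
    intro b c e hb hc he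
    positivity
  have h := key (4 / 5 - w) (k - (1 / 10)) ((1 / 2) - k) (by linarith) (by linarith) (by linarith)
  refine h.trans (le_of_eq ?_)
  unfold aU_o6
  ring

theorem U0_2_o6 {w k : ℝ} (hw0 : 0 ≤ w) (hw1 : w ≤ 4 / 5) (hk0 : (1 / 2) ≤ k)
    (hk1 : k ≤ 1) :
    0 ≤ aU_o6 w k := by
  have key : ∀ b c e : ℝ, 0 ≤ b → 0 ≤ c → 0 ≤ e →
      0 ≤ c ^ 0 * e ^ 4 * ((2321207 / 20480) * w ^ 0 * b ^ 5
        + (149009099 / 256000) * w ^ 1 * b ^ 4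
        + (14327495249 / 12800000) * w ^ 2 * b ^ 3
        + (167840091727 / 160000000) * w ^ 3 * b ^ 2
        + (76332158039 / 160000000) * w ^ 4 * b ^ 1
        + (13763857753 / 160000000) * w ^ 5 * b ^ 0)
      + c ^ 1 * e ^ 3 * ((29710127 / 51200) * w ^ 0 * b ^ 5
        + (965762707 / 320000) * w ^ 1 * b ^ 4
        + (191866933439 / 32000000) * w ^ 2 * b ^ 3
        + (2343340712847 / 400000000) * w ^ 3 * b ^ 2
        + (560378797197 / 200000000) * w ^ 4 * b ^ 1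
        + (53101028283 / 100000000) * w ^ 5 * b ^ 0)
      + c ^ 2 * e ^ 2 * ((106617609 / 102400) * w ^ 0 * b ^ 5
        + (3522858219 / 640000) * w ^ 1 * b ^ 4
        + (720646564113 / 64000000) * w ^ 2 * b ^ 3
        + (9117973515849 / 800000000) * w ^ 3 * b ^ 2
        + (2271857520849 / 400000000) * w ^ 4 * b ^ 1
        + (28075987947 / 25000000) * w ^ 5 * b ^ 0)
      + c ^ 3 * e ^ 1 * ((18005899 / 25600) * w ^ 0 * b ^ 5
        + (612065609 / 160000) * w ^ 1 * b ^ 4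
        + (129511920643 / 16000000) * w ^ 2 * b ^ 3
        + (1700070678539 / 200000000) * w ^ 3 * b ^ 2
        + (440414592539 / 100000000) * w ^ 4 * b ^ 1
        + (11319898709 / 12500000) * w ^ 5 * b ^ 0)
      + c ^ 4 * e ^ 0 * ((1359557 / 12800) * w ^ 0 * b ^ 5
        + (51395587 / 80000) * w ^ 1 * b ^ 4
        + (11856133949 / 8000000) * w ^ 2 * b ^ 3
        + (168335587077 / 100000000) * w ^ 3 * b ^ 2
        + (46743960177 / 50000000) * w ^ 4 * b ^ 1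
        + (2558129589 / 12500000) * w ^ 5 * b ^ 0) := by
    intro b c e hb hc he
    positivity
  have h := key (4 / 5 - w) (k - (1 / 2)) (1 - k) (by linarith) (by linarith) (by linarith)
  refine h.trans (le_of_eq ?_)
  unfold aU_o6
  ring

theorem U0_o6 {w k : ℝ} (hw0 : 0 ≤ w) (hw1 : w ≤ 4 / 5) (hk0 : -1 ≤ k) (hk1 : k ≤ 1) :
    0 ≤ aU_o6 w k := by
  rcases le_total k (1 / 10) with h0 | h0
  · exact U0_0_o6 hw0 hw1 hk0 h0
  rcases le_total k (1 / 2) with h1 | h1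
  · exact U0_1_o6 hw0 hw1 h0 h1
  exact U0_2_o6 hw0 hw1 h1 hk1

theorem U1_0_o6 {w k : ℝ} (hw0 : 0 ≤ w) (hw1 : w ≤ 4 / 5) (hk0 : (-1) ≤ k)
    (hk1 : k ≤ 1) :
    0 ≤ aU_o6 w k + bU_o6 w k * ((1 - k ^ 2) / 4) - 30 * ((1 - k ^ 2) / 4) ^ 2 := by
  have key : ∀ b c e : ℝ, 0 ≤ b → 0 ≤ c → 0 ≤ e →
      0 ≤ c ^ 0 * e ^ 4 * ((2229557 / 3276800) * w ^ 0 * b ^ 5
        + (87065587 / 20480000) * w ^ 1 * b ^ 4
        + (21127723949 / 2048000000) * w ^ 2 * b ^ 3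
        + (328949657077 / 25600000000) * w ^ 3 * b ^ 2
        + (105698530177 / 12800000000) * w ^ 4 * b ^ 1
        + (6983044589 / 3200000000) * w ^ 5 * b ^ 0)
      + c ^ 1 * e ^ 3 * ((3167057 / 1638400) * w ^ 0 * b ^ 5
        + (52961231 / 5120000) * w ^ 1 * b ^ 4
        + (22017658949 / 1024000000) * w ^ 2 * b ^ 3
        + (299835584577 / 12800000000) * w ^ 3 * b ^ 2
        + (22405703463 / 1600000000) * w ^ 4 * b ^ 1
        + (24586128291 / 6400000000) * w ^ 5 * b ^ 0)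
      + c ^ 2 * e ^ 2 * ((2107057 / 1638400) * w ^ 0 * b ^ 5
        + (14529053 / 2560000) * w ^ 1 * b ^ 4
        + (8506173949 / 1024000000) * w ^ 2 * b ^ 3
        + (68344164577 / 12800000000) * w ^ 3 * b ^ 2
        + (6776117201 / 3200000000) * w ^ 4 * b ^ 1
        + (6286732601 / 6400000000) * w ^ 5 * b ^ 0)
      + c ^ 3 * e ^ 1 * ((2297057 / 1638400) * w ^ 0 * b ^ 5
        + (35126231 / 5120000) * w ^ 1 * b ^ 4
        + (12746068949 / 1024000000) * w ^ 2 * b ^ 3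
        + (139221514577 / 12800000000) * w ^ 3 * b ^ 2
        + (7667060963 / 1600000000) * w ^ 4 * b ^ 1
        + (6886468291 / 6400000000) * w ^ 5 * b ^ 0)
      + c ^ 4 * e ^ 0 * ((1359557 / 3276800) * w ^ 0 * b ^ 5
        + (51395587 / 20480000) * w ^ 1 * b ^ 4
        + (11856133949 / 2048000000) * w ^ 2 * b ^ 3
        + (168335587077 / 25600000000) * w ^ 3 * b ^ 2
        + (46743960177 / 12800000000) * w ^ 4 * b ^ 1
        + (2558129589 / 3200000000) * w ^ 5 * b ^ 0) := by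
    intro b c e hb hc he
    positivity
  have h := key (4 / 5 - w) (k - (-1)) (1 - k) (by linarith) (by linarith) (by linarith)
  refine h.trans (le_of_eq ?_)
  unfold aU_o6 bU_o6
  ring

theorem U1_o6 {w k : ℝ} (hw0 : 0 ≤ w) (hw1 : w ≤ 4 / 5) (hk0 : -1 ≤ k) (hk1 : k ≤ 1) :
    0 ≤ aU_o6 w k + bU_o6 w k * ((1 - k ^ 2) / 4) - 30 * ((1 - k ^ 2) / 4) ^ 2 := by
  exact U1_0_o6 hw0 hw1 hk0 hk1

theorem L0_0_o6 {w k : ℝ} (hw0 : 0 ≤ w) (hw1 : w ≤ 4 / 5) (hk0 : (-1) ≤ k)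
    (hk1 : k ≤ (1 / 20)) :
    0 ≤ aL_o6 w k := by
  have key : ∀ b c e : ℝ, 0 ≤ b → 0 ≤ c → 0 ≤ e →
      0 ≤ c ^ 0 * e ^ 4 * ((82301425 / 6223392) * w ^ 0 * b ^ 5
        + (15267964 / 194481) * w ^ 1 * b ^ 4
        + (28443348949 / 155584800) * w ^ 2 * b ^ 3
        + (131217489859 / 648270000) * w ^ 3 * b ^ 2
        + (52511866651 / 486202500) * w ^ 4 * b ^ 1
        + (22855193981 / 972405000) * w ^ 5 * b ^ 0)
      + c ^ 1 * e ^ 3 * ((5314315 / 24893568) * w ^ 0 * b ^ 5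
        + (936658633 / 31116960) * w ^ 1 * b ^ 4
        + (347746855991 / 3111696000) * w ^ 2 * b ^ 3
        + (1673606322181 / 12965400000) * w ^ 3 * b ^ 2
        + (1111274140243 / 19448100000) * w ^ 4 * b ^ 1
        + (55595405071 / 4862025000) * w ^ 5 * b ^ 0)
      + c ^ 2 * e ^ 2 * ((2059890199 / 66382848) * w ^ 0 * b ^ 5
        + (73524154409 / 414892800) * w ^ 1 * b ^ 4
        + (15666226475743 / 41489280000) * w ^ 2 * b ^ 3
        + (19649143987871 / 57624000000) * w ^ 3 * b ^ 2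
        + (32475128723939 / 259308000000) * w ^ 4 * b ^ 1
        + (1162231211033 / 64827000000) * w ^ 5 * b ^ 0)
      + c ^ 3 * e ^ 1 * ((2701002517 / 99574272) * w ^ 0 * b ^ 5
        + (5530282817 / 38896200) * w ^ 1 * b ^ 4
        + (17379554511169 / 62233920000) * w ^ 2 * b ^ 3
        + (60275267521879 / 259308000000) * w ^ 3 * b ^ 2
        + (14606468215531 / 194481000000) * w ^ 4 * b ^ 1
        + (3257392763081 / 388962000000) * w ^ 5 * b ^ 0)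
      + c ^ 4 * e ^ 0 * ((2378703589 / 398297088) * w ^ 0 * b ^ 5
        + (308720810471 / 9957427200) * w ^ 1 * b ^ 4
        + (1851013102481 / 31116960000) * w ^ 2 * b ^ 3
        + (48760564759043 / 1037232000000) * w ^ 3 * b ^ 2
        + (83670418626791 / 6223392000000) * w ^ 4 * b ^ 1
        + (7875103634483 / 6223392000000) * w ^ 5 * b ^ 0) := by
    intro b c e hb hc he
    positivity
  have h := key (4 / 5 - w) (k - (-1)) ((1 / 20) - k) (by linarith) (by linarith) (by linarith)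
  refine h.trans (le_of_eq ?_)
  unfold aL_o6
  ring

theorem L0_1_o6 {w k : ℝ} (hw0 : 0 ≤ w) (hw1 : w ≤ 4 / 5) (hk0 : (1 / 20) ≤ k)
    (hk1 : k ≤ (3 / 4)) :
    0 ≤ aL_o6 w k := by
  have key : ∀ b c e : ℝ, 0 ≤ b → 0 ≤ c → 0 ≤ e →
      0 ≤ c ^ 0 * e ^ 4 * ((2378703589 / 78675968) * w ^ 0 * b ^ 5
        + (308720810471 / 1966899200) * w ^ 1 * b ^ 4
        + (1851013102481 / 6146560000) * w ^ 2 * b ^ 3
        + (146281694277129 / 614656000000) * w ^ 3 * b ^ 2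
        + (83670418626791 / 1229312000000) * w ^ 4 * b ^ 1
        + (7875103634483 / 1229312000000) * w ^ 5 * b ^ 0)
      + c ^ 1 * e ^ 3 * ((2163837637 / 19668992) * w ^ 0 * b ^ 5
        + (278575950593 / 491724800) * w ^ 1 * b ^ 4
        + (6546902512817 / 6146560000) * w ^ 2 * b ^ 3
        + (123252288751457 / 153664000000) * w ^ 3 * b ^ 2
        + (61549533895153 / 307328000000) * w ^ 4 * b ^ 1
        + (4438792022589 / 307328000000) * w ^ 5 * b ^ 0)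
      + c ^ 2 * e ^ 2 * ((4562366727 / 39337984) * w ^ 0 * b ^ 5
        + (605214908853 / 983449600) * w ^ 1 * b ^ 4
        + (1776592420329 / 1536640000) * w ^ 2 * b ^ 3
        + (249298496392947 / 307328000000) * w ^ 3 * b ^ 2
        + (91442536922613 / 614656000000) * w ^ 4 * b ^ 1
        + (3556322440569 / 614656000000) * w ^ 5 * b ^ 0)
      + c ^ 3 * e ^ 1 * ((578182405 / 19668992) * w ^ 0 * b ^ 5
        + (18857198509 / 98344960) * w ^ 1 * b ^ 4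
        + (475607471821 / 1229312000) * w ^ 2 * b ^ 3
        + (7174430508141 / 30732800000) * w ^ 3 * b ^ 2
        + (102636397789 / 61465600000) * w ^ 4 * b ^ 1
        + (24963126457 / 61465600000) * w ^ 5 * b ^ 0)
      + c ^ 4 * e ^ 0 * ((1265393125 / 78675968) * w ^ 0 * b ^ 5
        + (7895635775 / 78675968) * w ^ 1 * b ^ 4
        + (2199028841 / 9834496) * w ^ 2 * b ^ 3
        + (211684274969 / 983449600) * w ^ 3 * b ^ 2
        + (195806343703 / 1966899200) * w ^ 4 * b ^ 1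
        + (251227206831 / 9834496000) * w ^ 5 * b ^ 0) := by
    intro b c e hb hc he
    positivity
  have h := key (4 / 5 - w) (k - (1 / 20)) ((3 / 4) - k) (by linarith) (by linarith) (by linarith)
  refine h.trans (le_of_eq ?_)
  unfold aL_o6
  ring

theorem L0_2_o6 {w k : ℝ} (hw0 : 0 ≤ w) (hw1 : w ≤ 4 / 5) (hk0 : (3 / 4) ≤ k)
    (hk1 : k ≤ 1) :
    0 ≤ aL_o6 w k := by
  have key : ∀ b c e : ℝ, 0 ≤ b → 0 ≤ c → 0 ≤ e →
      0 ≤ c ^ 0 * e ^ 4 * ((2024629 / 2048) * w ^ 0 * b ^ 5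
        + (315825431 / 51200) * w ^ 1 * b ^ 4
        + (2199028841 / 160000) * w ^ 2 * b ^ 3
        + (211684274969 / 16000000) * w ^ 3 * b ^ 2
        + (195806343703 / 32000000) * w ^ 4 * b ^ 1
        + (251227206831 / 160000000) * w ^ 5 * b ^ 0)
      + c ^ 1 * e ^ 3 * ((60433021 / 12800) * w ^ 0 * b ^ 5
        + (36595949 / 1250) * w ^ 1 * b ^ 4
        + (528935332297 / 8000000) * w ^ 2 * b ^ 3
        + (6669685721581 / 100000000) * w ^ 3 * b ^ 2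
        + (829512293403 / 25000000) * w ^ 4 * b ^ 1
        + (425743241473 / 50000000) * w ^ 5 * b ^ 0)
      + c ^ 2 * e ^ 2 * ((235697133 / 25600) * w ^ 0 * b ^ 5
        + (8936821203 / 160000) * w ^ 1 * b ^ 4
        + (2021921541381 / 16000000) * w ^ 2 * b ^ 3
        + (26340638588013 / 200000000) * w ^ 3 * b ^ 2
        + (6863773907313 / 100000000) * w ^ 4 * b ^ 1
        + (434026100451 / 25000000) * w ^ 5 * b ^ 0)
      + c ^ 3 * e ^ 1 * ((5426471 / 640) * w ^ 0 * b ^ 5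
        + (199708561 / 4000) * w ^ 1 * b ^ 4
        + (44844698447 / 400000) * w ^ 2 * b ^ 3
        + (594917325031 / 5000000) * w ^ 3 * b ^ 2
        + (158957717291 / 2500000) * w ^ 4 * b ^ 1
        + (9833019951 / 625000) * w ^ 5 * b ^ 0)
      + c ^ 4 * e ^ 0 * ((2422057 / 800) * w ^ 0 * b ^ 5
        + (10809214 / 625) * w ^ 1 * b ^ 4
        + (19171758949 / 500000) * w ^ 2 * b ^ 3
        + (256098399577 / 6250000) * w ^ 3 * b ^ 2
        + (34564581651 / 1562500) * w ^ 4 * b ^ 1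
        + (16685533981 / 3125000) * w ^ 5 * b ^ 0) := by
    intro b c e hb hc he
    positivity
  have h := key (4 / 5 - w) (k - (3 / 4)) (1 - k) (by linarith) (by linarith) (by linarith)
  refine h.trans (le_of_eq ?_)
  unfold aL_o6
  ring

theorem L0_o6 {w k : ℝ} (hw0 : 0 ≤ w) (hw1 : w ≤ 4 / 5) (hk0 : -1 ≤ k) (hk1 : k ≤ 1) :
    0 ≤ aL_o6 w k := by
  rcases le_total k (1 / 20) with h0 | h0
  · exact L0_0_o6 hw0 hw1 hk0 h0
  rcases le_total k (3 / 4) with h1 | h1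
  · exact L0_1_o6 hw0 hw1 h0 h1
  exact L0_2_o6 hw0 hw1 h1 hk1

theorem L1_0_o6 {w k : ℝ} (hw0 : 0 ≤ w) (hw1 : w ≤ 4 / 5) (hk0 : (-1) ≤ k)
    (hk1 : k ≤ (1 / 5)) :
    0 ≤ aL_o6 w k + bL_o6 w k * ((1 - k ^ 2) / 4) - 0 * ((1 - k ^ 2) / 4) ^ 2 := by
  have key : ∀ b c e : ℝ, 0 ≤ b → 0 ≤ c → 0 ≤ e →
      0 ≤ c ^ 0 * e ^ 4 * ((82301425 / 10616832) * w ^ 0 * b ^ 5
        + (3816991 / 82944) * w ^ 1 * b ^ 4
        + (28443348949 / 265420800) * w ^ 2 * b ^ 3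
        + (131217489859 / 1105920000) * w ^ 3 * b ^ 2
        + (52511866651 / 829440000) * w ^ 4 * b ^ 1
        + (22855193981 / 1658880000) * w ^ 5 * b ^ 0)
      + c ^ 1 * e ^ 3 * ((126471995 / 5308416) * w ^ 0 * b ^ 5
        + (217874621 / 1658880) * w ^ 1 * b ^ 4
        + (189032622643 / 663552000) * w ^ 2 * b ^ 3
        + (30211015519 / 102400000) * w ^ 3 * b ^ 2
        + (315012453007 / 2073600000) * w ^ 4 * b ^ 1
        + (146823192047 / 4147200000) * w ^ 5 * b ^ 0)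
      + c ^ 2 * e ^ 2 * ((27054241 / 1769472) * w ^ 0 * b ^ 5
        + (867911381 / 11059200) * w ^ 1 * b ^ 4
        + (169088496337 / 1105920000) * w ^ 2 * b ^ 3
        + (615398730667 / 4608000000) * w ^ 3 * b ^ 2
        + (433138097651 / 6912000000) * w ^ 4 * b ^ 1
        + (71828817049 / 3456000000) * w ^ 5 * b ^ 0)
      + c ^ 3 * e ^ 1 * ((31887311 / 5308416) * w ^ 0 * b ^ 5
        + (54930961 / 2073600) * w ^ 1 * b ^ 4
        + (128552835827 / 3317760000) * w ^ 2 * b ^ 3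
        + (215071216757 / 13824000000) * w ^ 3 * b ^ 2
        + (23795439773 / 10368000000) * w ^ 4 * b ^ 1
        + (131947466683 / 20736000000) * w ^ 5 * b ^ 0)
      + c ^ 4 * e ^ 0 * ((21466741 / 10616832) * w ^ 0 * b ^ 5
        + (78710407 / 8294400) * w ^ 1 * b ^ 4
        + (105410946337 / 6635520000) * w ^ 2 * b ^ 3
        + (32880846463 / 3072000000) * w ^ 3 * b ^ 2
        + (91119684763 / 20736000000) * w ^ 4 * b ^ 1
        + (101047293473 / 41472000000) * w ^ 5 * b ^ 0) := by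
    intro b c e hb hc he
    positivity
  have h := key (4 / 5 - w) (k - (-1)) ((1 / 5) - k) (by linarith) (by linarith) (by linarith)
  refine h.trans (le_of_eq ?_)
  unfold aL_o6 bL_o6
  ring

theorem L1_1_o6 {w k : ℝ} (hw0 : 0 ≤ w) (hw1 : w ≤ 4 / 5) (hk0 : (1 / 5) ≤ k)
    (hk1 : k ≤ 1) :
    0 ≤ aL_o6 w k + bL_o6 w k * ((1 - k ^ 2) / 4) - 0 * ((1 - k ^ 2) / 4) ^ 2 := by
  have key : ∀ b c e : ℝ, 0 ≤ b → 0 ≤ c → 0 ≤ e →
      0 ≤ c ^ 0 * e ^ 4 * ((21466741 / 2097152) * w ^ 0 * b ^ 5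
        + (78710407 / 1638400) * w ^ 1 * b ^ 4
        + (105410946337 / 1310720000) * w ^ 2 * b ^ 3
        + (887782854501 / 16384000000) * w ^ 3 * b ^ 2
        + (91119684763 / 4096000000) * w ^ 4 * b ^ 1
        + (101047293473 / 8192000000) * w ^ 5 * b ^ 0)
      + c ^ 1 * e ^ 3 * ((12574399 / 262144) * w ^ 0 * b ^ 5
        + (94563371 / 409600) * w ^ 1 * b ^ 4
        + (66416982643 / 163840000) * w ^ 2 * b ^ 3
        + (632283437039 / 2048000000) * w ^ 3 * b ^ 2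
        + (71967164007 / 512000000) * w ^ 4 * b ^ 1
        + (62214833447 / 1024000000) * w ^ 5 * b ^ 0)
      + c ^ 2 * e ^ 2 * ((108670793 / 1048576) * w ^ 0 * b ^ 5
        + (868731097 / 1638400) * w ^ 1 * b ^ 4
        + (675366428501 / 655360000) * w ^ 2 * b ^ 3
        + (7709073209273 / 8192000000) * w ^ 3 * b ^ 2
        + (968771305549 / 2048000000) * w ^ 4 * b ^ 1
        + (593779402129 / 4096000000) * w ^ 5 * b ^ 0)
      + c ^ 3 * e ^ 1 * ((13047785 / 131072) * w ^ 0 * b ^ 5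
        + (87848087 / 163840) * w ^ 1 * b ^ 4
        + (18332523949 / 16384000) * w ^ 2 * b ^ 3
        + (230392147077 / 204800000) * w ^ 3 * b ^ 2
        + (60367394377 / 102400000) * w ^ 4 * b ^ 1
        + (1948575437 / 12800000) * w ^ 5 * b ^ 0)
      + c ^ 4 * e ^ 0 * ((60551425 / 2097152) * w ^ 0 * b ^ 5
        + (5404607 / 32768) * w ^ 1 * b ^ 4
        + (19171758949 / 52428800) * w ^ 2 * b ^ 3
        + (256098399577 / 655360000) * w ^ 3 * b ^ 2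
        + (34564581651 / 163840000) * w ^ 4 * b ^ 1
        + (16685533981 / 327680000) * w ^ 5 * b ^ 0) := by
    intro b c e hb hc he
    positivity
  have h := key (4 / 5 - w) (k - (1 / 5)) (1 - k) (by linarith) (by linarith) (by linarith)
  refine h.trans (le_of_eq ?_)
  unfold aL_o6 bL_o6
  ring

theorem L1_o6 {w k : ℝ} (hw0 : 0 ≤ w) (hw1 : w ≤ 4 / 5) (hk0 : -1 ≤ k) (hk1 : k ≤ 1) :
    0 ≤ aL_o6 w k + bL_o6 w k * ((1 - k ^ 2) / 4) - 0 * ((1 - k ^ 2) / 4) ^ 2 := by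
  rcases le_total k (1 / 5) with h0 | h0
  · exact L1_0_o6 hw0 hw1 hk0 h0
  exact L1_1_o6 hw0 hw1 h0 hk1

theorem d_o6 : 0.16227766 < dE ∧ dE < 0.16227767 ∧ dE ^ 2 = 1 - 6 * dE := by
  have h1 := r10_lo
  have h2 := r10_hi
  have h3 := r10_sq
  unfold dE
  refine ⟨by linarith, by linarith, by nlinarith⟩

theorem consts_o6 : B6 = 1095 * dE - 180 ∧ C6 = 90 * dE - 11 ∧ A6 = 5085 * dE - 824 ∧
    1 - 15 / 2 * dE ^ 2 + 15 / 2 * dE ^ 4 = 271 - 1665 * dE ∧ cJ = (6 + dE) / 12 := by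
  obtain ⟨-, -, h⟩ := d_o6
  have h3 : dE ^ 3 = 37 * dE - 6 := by
    have : dE ^ 3 = dE * dE ^ 2 := by ring
    rw [this, h]
    linear_combination (-6) * h
  have h4 : dE ^ 4 = 37 - 228 * dE := by
    have : dE ^ 4 = dE * dE ^ 3 := by ring
    rw [this, h3]
    linear_combination 37 * h
  refine ⟨?_, ?_, ?_, ?_, ?_⟩
  · unfold B6
    rw [h3]
    ring
  · unfold C6
    rw [h]
    ring
  · unfold A6
    rw [h, h4]
    ring
  · rw [h, h4]
    ring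
  · unfold cJ dE
    ring

theorem conc_o6 {a b c N ν : ℝ} (hc : 0 ≤ c) (h0 : 0 ≤ ν) (h1 : ν ≤ N) (ha : 0 ≤ a)
    (hb : 0 ≤ a + b * N - c * N ^ 2) : 0 ≤ a + b * ν - c * ν ^ 2 := by
  rcases le_total 0 (b - c * N) with h | h
  · have h2 : 0 ≤ ν * (b - c * N) := mul_nonneg h0 h
    have h3 : 0 ≤ c * (ν * (N - ν)) := mul_nonneg hc (mul_nonneg h0 (sub_nonneg.2 h1))
    nlinarith
  · have h2 : 0 ≤ (N - ν) * (c * N - b) := mul_nonneg (sub_nonneg.2 h1) (by linarith)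
    have h3 : 0 ≤ c * (ν * (N - ν)) := mul_nonneg hc (mul_nonneg h0 (sub_nonneg.2 h1))
    nlinarith

theorem regB_o6 {w κ ν : ℝ} (hw0 : 0 ≤ w) (hw1 : w ≤ 4 / 5) (hk0 : -1 ≤ κ) (hk1 : κ ≤ 1)
    (hn0 : 0 ≤ ν) (hn1 : ν ≤ (1 - κ ^ 2) / 4) :
    |1 - 7.5 * κ ^ 2 + 7.5 * κ ^ 4 + ν * (36.25 * κ ^ 2 - 11.25 + 30 * ν)
        - w ^ 3 * (B6 * κ + C6 * (1 - 2 * ν)) - w ^ 4 * (A6 - C6)|
      ≤ 4.176 * (1 + 0.65 * w) ^ 3
        * (cJ * (κ - dE) ^ 2 + ν * (0.2 + 0.8 * w ^ 2) + 0.4 * (1 - w) ^ 2) := by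
  obtain ⟨d0, d1, d2⟩ := d_o6
  obtain ⟨eB, eC, eA, -, eJ⟩ := consts_o6
  have hU := conc_o6 (by norm_num) hn0 hn1 (U0_o6 hw0 hw1 hk0 hk1) (U1_o6 hw0 hw1 hk0 hk1)
  have hL := conc_o6 le_rfl hn0 hn1 (L0_o6 hw0 hw1 hk0 hk1) (L1_o6 hw0 hw1 hk0 hk1)
  have hk2 : 0 ≤ κ ^ 2 := sq_nonneg κ
  have hn2 : ν ≤ 1 / 4 := by linarith
  have hJ : (6.1622 * κ ^ 2 - 2 * κ + 0.1622) / 12 ≤ cJ * (κ - dE) ^ 2 := by
    have e : cJ * (κ - dE) ^ 2 = ((6 + dE) * κ ^ 2 - 2 * κ + dE) / 12 := by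
      rw [eJ]
      linear_combination (-(2 * κ) + dE) / 12 * d2
    rw [e]
    have : 6.1622 * κ ^ 2 ≤ (6 + dE) * κ ^ 2 := mul_le_mul_of_nonneg_right (by linarith) hk2
    linarith
  have hE1 : |(B6 + 2.306) * κ| ≤ 0.0001 := by
    rw [abs_mul]
    have a1 : |B6 + 2.306| ≤ 0.0001 := abs_le.2 ⟨by linarith, by linarith⟩
    have a2 : |κ| ≤ 1 := abs_le.2 ⟨hk0, hk1⟩
    calc |B6 + 2.306| * |κ| ≤ 0.0001 * 1 := mul_le_mul a1 a2 (abs_nonneg _) (by norm_num)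
      _ = 0.0001 := by norm_num
  have hE2 : |(C6 - 3.605) * (1 - 2 * ν)| ≤ 0.0001 := by
    rw [abs_mul]
    have a1 : |C6 - 3.605| ≤ 0.0001 := abs_le.2 ⟨by linarith, by linarith⟩
    have a2 : |1 - 2 * ν| ≤ 1 := abs_le.2 ⟨by linarith, by linarith⟩
    calc |C6 - 3.605| * |1 - 2 * ν| ≤ 0.0001 * 1 :=
          mul_le_mul a1 a2 (abs_nonneg _) (by norm_num)
      _ = 0.0001 := by norm_num
  obtain ⟨hE1a, hE1b⟩ := abs_le.1 hE1
  obtain ⟨hE2a, hE2b⟩ := abs_le.1 hE2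
  have hw3 : 0 ≤ w ^ 3 := pow_nonneg hw0 3
  have hw4 : 0 ≤ w ^ 4 := pow_nonneg hw0 4
  have hcube : 0 ≤ 4.176 * (1 + 0.65 * w) ^ 3 := by positivity
  have m1 := mul_le_mul_of_nonneg_left hJ hcube
  have m2 : w ^ 3 * (-2.306 * κ + 3.605 * (1 - 2 * ν) - 0.001)
      ≤ w ^ 3 * (B6 * κ + C6 * (1 - 2 * ν)) :=
    mul_le_mul_of_nonneg_left (by linarith) hw3
  have m3 : w ^ 3 * (B6 * κ + C6 * (1 - 2 * ν))
      ≤ w ^ 3 * (-2.306 * κ + 3.605 * (1 - 2 * ν) + 0.001) :=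
    mul_le_mul_of_nonneg_left (by linarith) hw3
  have m4 : w ^ 4 * (-2.424) ≤ w ^ 4 * (A6 - C6) := mul_le_mul_of_nonneg_left (by linarith) hw4
  have m5 : w ^ 4 * (A6 - C6) ≤ w ^ 4 * (-2.423) := mul_le_mul_of_nonneg_left (by linarith) hw4
  have m6 : 0 ≤ (ν - (1 - w) / 10) ^ 2 := sq_nonneg _
  unfold aU_o6 bU_o6 at hU
  unfold aL_o6 bL_o6 at hL
  rw [abs_le]
  constructor
  · linarith
  · linarith

theorem gh_o6 {y : ℝ} (h0 : 0 < y) (h1 : y ≤ 1.25) :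
    0.8078 * (y ^ 4 - 4 * y + 3) + 0.2955 * (y * (y ^ 3 - 1) ^ 2) ≤ 35.97 * gh y := by
  unfold gh
  split_ifs with h
  · have a1 : y ^ 3 ≤ 0.85 ^ 3 := pow_le_pow_left₀ h0.le h 3
    have a2 : 0 ≤ y ^ 3 := pow_nonneg h0.le 3
    have a3 : (y ^ 3 - 1) ^ 2 ≤ 1 - y ^ 3 := by nlinarith
    have a4 : y * (y ^ 3 - 1) ^ 2 ≤ y * (1 - y ^ 3) := mul_le_mul_of_nonneg_left a3 h0.le
    have a5 : y * y ^ 3 ≤ y * 0.85 ^ 3 := mul_le_mul_of_nonneg_left a1 h0.le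
    nlinarith
  · have e : 0.8078 * (y ^ 4 - 4 * y + 3) + 0.2955 * (y * (y ^ 3 - 1) ^ 2)
        = (y - 1) ^ 2 * (0.8078 * (y ^ 2 + 2 * y + 3) + 0.2955 * (y * (y ^ 2 + y + 1) ^ 2)) := by
      ring
    have a1 : y ^ 2 ≤ 1.25 ^ 2 := pow_le_pow_left₀ h0.le h1 2
    have a2 : (y ^ 2 + y + 1) ^ 2 ≤ 3.8125 ^ 2 :=
      pow_le_pow_left₀ (by positivity) (by linarith) 2
    have a3 : y * (y ^ 2 + y + 1) ^ 2 ≤ 1.25 * 3.8125 ^ 2 :=
      mul_le_mul h1 a2 (by positivity) (by norm_num)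
    have a4 : 0.8078 * (y ^ 2 + 2 * y + 3) + 0.2955 * (y * (y ^ 2 + y + 1) ^ 2) ≤ 11.5 := by
      linarith
    have a5 : max y 1 ≤ 1.25 := max_le h1 (by norm_num)
    have a6 : 2 / 5 * (y - 1) ^ 2 / 1.25 ≤ gf y := by
      unfold gf
      exact div_le_div_of_nonneg_left (by positivity) (lt_max_of_lt_right one_pos) a5
    have a7 := mul_le_mul_of_nonneg_left a4 (sq_nonneg (y - 1))
    have a8 := sq_nonneg (y - 1)
    have a9 : 2 / 5 * (y - 1) ^ 2 / 1.25 = 0.32 * (y - 1) ^ 2 := by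
      rw [div_eq_iff (by norm_num)]
      ring
    rw [a9] at a6
    rw [e]
    linarith

theorem wv_o6 {y : ℝ} (h0 : 0 < y) (h1 : y ≤ 1.25) : 0.712 ≤ wv y := by
  unfold wv
  split_ifs with h
  · norm_num
  · have a1 : y ^ 2 ≤ 1.25 ^ 2 := pow_le_pow_left₀ h0.le h1 2
    have a2 : 0.8 / 1.25 ^ 2 ≤ 0.8 / y ^ 2 :=
      div_le_div_of_nonneg_left (by norm_num) (by positivity) a1
    linarith

theorem regA_o6 {y κ ν : ℝ} (h : Par y κ ν) (h1 : y ≤ 1.25) :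
    |c6 y κ ν - a6 y κ ν| ≤ 35.97 * Dp y κ ν := by
  obtain ⟨d0, d1, d2⟩ := d_o6
  obtain ⟨eB, eC, -, eP, eJ⟩ := consts_o6
  obtain ⟨y0, k0, k1, n0, n1⟩ := h
  have e : c6 y κ ν - a6 y κ ν
      = (1 - 15 / 2 * dE ^ 2 + 15 / 2 * dE ^ 4) * (y ^ 4 - 4 * y + 3)
        + y * (B6 * (y ^ 3 - 1) * (κ - dE))
        + y ^ 4 * ((κ - dE) ^ 2 * (-7.5 + 7.5 * (κ ^ 2 + 2 * dE * κ + 3 * dE ^ 2))
          + ν * (36.25 * κ ^ 2 - 11.25 + 30 * ν)) + ν * y * (2 * C6) := by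
    unfold c6 a6 m6 m4 vs A6 B6 C6
    ring
  have hz : 0 ≤ (κ - dE) ^ 2 := sq_nonneg _
  have hk2 : 0 ≤ κ ^ 2 := sq_nonneg κ
  have hy3 : y ^ 3 ≤ 1.25 ^ 3 := pow_le_pow_left₀ y0.le h1 3
  have hy4 : 0 ≤ y ^ 4 := by positivity
  have hP : 0 ≤ y ^ 4 - 4 * y + 3 := by
    have : y ^ 4 - 4 * y + 3 = (y - 1) ^ 2 * (y ^ 2 + 2 * y + 3) := by ring
    rw [this]
    positivity
  have t1a : 0 ≤ (1 - 15 / 2 * dE ^ 2 + 15 / 2 * dE ^ 4) * (y ^ 4 - 4 * y + 3) :=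
    mul_nonneg (by rw [eP]; linarith) hP
  have t1b : (1 - 15 / 2 * dE ^ 2 + 15 / 2 * dE ^ 4) * (y ^ 4 - 4 * y + 3)
      ≤ 0.8078 * (y ^ 4 - 4 * y + 3) :=
    mul_le_mul_of_nonneg_right (by rw [eP]; linarith) hP
  have hB : B6 ^ 2 ≤ 2.306 ^ 2 := sq_le_sq' (by linarith) (by linarith)
  have hB2 : (B6 * (y ^ 3 - 1)) ^ 2 ≤ 2.306 ^ 2 * (y ^ 3 - 1) ^ 2 := by
    rw [mul_pow]
    exact mul_le_mul_of_nonneg_right hB (sq_nonneg _)
  have hs := sq_nonneg (y ^ 3 - 1)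
  have t2a : B6 * (y ^ 3 - 1) * (κ - dE) ≤ 4.5 * (κ - dE) ^ 2 + 0.2955 * (y ^ 3 - 1) ^ 2 := by
    have := sq_nonneg (B6 * (y ^ 3 - 1) - 9 * (κ - dE))
    nlinarith
  have t2b : -(4.5 * (κ - dE) ^ 2 + 0.2955 * (y ^ 3 - 1) ^ 2) ≤ B6 * (y ^ 3 - 1) * (κ - dE) := by
    have := sq_nonneg (B6 * (y ^ 3 - 1) + 9 * (κ - dE))
    nlinarith
  have t2c := mul_le_mul_of_nonneg_left t2a y0.le
  have t2d := mul_le_mul_of_nonneg_left t2b y0.le
  have t3a : (κ - dE) ^ 2 * (-7.5 + 7.5 * (κ ^ 2 + 2 * dE * κ + 3 * dE ^ 2))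
      + ν * (36.25 * κ ^ 2 - 11.25 + 30 * ν) ≤ 7.11 * (κ - dE) ^ 2 + 6 * ν := by
    have hdk : dE * κ ≤ dE * 1 := mul_le_mul_of_nonneg_left k1 (by linarith)
    have b1 : 36.25 * κ ^ 2 - 11.25 + 30 * ν ≤ 30 * (κ - dE) ^ 2 + 6 := by nlinarith
    have b2 := mul_le_mul_of_nonneg_left b1 n0
    have b3 := mul_le_mul_of_nonneg_left n1 hz
    have b4 : 7.5 * (2 * dE * κ + 3 * dE ^ 2) ≤ 7.11 := by nlinarith
    have b5 := mul_le_mul_of_nonneg_left b4 hz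
    nlinarith
  have t3b : -(7.11 * (κ - dE) ^ 2 + 11.25 * ν)
      ≤ (κ - dE) ^ 2 * (-7.5 + 7.5 * (κ ^ 2 + 2 * dE * κ + 3 * dE ^ 2))
        + ν * (36.25 * κ ^ 2 - 11.25 + 30 * ν) := by
    have b1 : -7.11 ≤ -7.5 + 7.5 * (κ ^ 2 + 2 * dE * κ + 3 * dE ^ 2) := by
      have := sq_nonneg (κ + dE)
      nlinarith
    have b2 := mul_le_mul_of_nonneg_left b1 hz
    have b3 : -11.25 ≤ 36.25 * κ ^ 2 - 11.25 + 30 * ν := by linarith
    have b4 := mul_le_mul_of_nonneg_left b3 n0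
    linarith
  have t3c := mul_le_mul_of_nonneg_left t3a hy4
  have t3d := mul_le_mul_of_nonneg_left t3b hy4
  have hyz : 0 ≤ y * (κ - dE) ^ 2 := mul_nonneg y0.le hz
  have hny : 0 ≤ ν * y := mul_nonneg n0 y0.le
  have u1 := mul_le_mul_of_nonneg_left hy3 hyz
  have u2 := mul_le_mul_of_nonneg_left hy3 hny
  have u3 : ν * y * (2 * C6) ≤ ν * y * 7.21 := mul_le_mul_of_nonneg_left (by linarith) hny
  have u4 : 0 ≤ ν * y * (2 * C6) := mul_nonneg hny (by linarith)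
  have u5 := mul_le_mul_of_nonneg_left (wv_o6 y0 h1) hny
  have u6 : 0.5135 * (y * (κ - dE) ^ 2) ≤ cJ * (y * (κ - dE) ^ 2) :=
    mul_le_mul_of_nonneg_right (by rw [eJ]; linarith) hyz
  have u7 := gh_o6 y0 h1
  rw [e, abs_le]
  unfold Dp
  constructor
  · linarith
  · linarith

theorem Dp_nonneg_o6 {y κ ν : ℝ} (h : Par y κ ν) (h1 : y ≤ 1.25) : 0 ≤ Dp y κ ν := by
  have := (abs_nonneg _).trans (regA_o6 h h1)
  linarith

theorem ord6 {y κ ν : ℝ} (h : Par y κ ν) :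
    |c6 y κ ν - a6 y κ ν| / 720 ≤ 0.0058 * (max y 1.4 + 0.65) ^ 3 * Dp y κ ν := by
  rcases le_total y 1.25 with h1 | h1
  · have a1 := regA_o6 h h1
    have a2 := Dp_nonneg_o6 h h1
    rw [max_eq_right (by linarith : y ≤ 1.4)]
    linarith
  · obtain ⟨y0, k0, k1, n0, n1⟩ := h
    have hw0 : 0 ≤ 1 / y := by positivity
    have hw1 : 1 / y ≤ 4 / 5 := by
      rw [div_le_iff₀ y0]
      linarith
    have hB := regB_o6 hw0 hw1 k0 k1 n0 n1
    have e1 : c6 y κ ν - a6 y κ ν = y ^ 4 *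
        (1 - 7.5 * κ ^ 2 + 7.5 * κ ^ 4 + ν * (36.25 * κ ^ 2 - 11.25 + 30 * ν)
          - (1 / y) ^ 3 * (B6 * κ + C6 * (1 - 2 * ν)) - (1 / y) ^ 4 * (A6 - C6)) := by
      unfold c6 a6 m6 m4 vs
      field_simp
      ring
    have e2 : Dp y κ ν = y * (cJ * (κ - dE) ^ 2 + ν * (0.2 + 0.8 * (1 / y) ^ 2)
        + 0.4 * (1 - 1 / y) ^ 2) := by
      unfold Dp wv gh gf
      rw [if_neg (by linarith : ¬ y ≤ 1), if_neg (by linarith : ¬ y ≤ 0.85),
        max_eq_left (by linarith : 1 ≤ y)]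
      field_simp
      ring
    have e3 : y ^ 4 * (4.176 * (1 + 0.65 * (1 / y)) ^ 3 * (cJ * (κ - dE) ^ 2
        + ν * (0.2 + 0.8 * (1 / y) ^ 2) + 0.4 * (1 - 1 / y) ^ 2))
        = 4.176 * (y + 0.65) ^ 3 * Dp y κ ν := by
      rw [e2]
      field_simp
    have hy4 : 0 ≤ y ^ 4 := by positivity
    have a1 : |c6 y κ ν - a6 y κ ν| ≤ 4.176 * (y + 0.65) ^ 3 * Dp y κ ν := by
      rw [← e3, e1, abs_mul, abs_of_nonneg hy4]
      exact mul_le_mul_of_nonneg_left hB hy4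
    have a2 : 0 ≤ Dp y κ ν := by
      have hc : 0 < 4.176 * (y + 0.65) ^ 3 := by positivity
      exact nonneg_of_mul_nonneg_right ((abs_nonneg _).trans a1) hc
    have a3 : (y + 0.65) ^ 3 ≤ (max y 1.4 + 0.65) ^ 3 :=
      pow_le_pow_left₀ (by positivity) (by linarith [le_max_left y 1.4]) 3
    have a4 := mul_le_mul_of_nonneg_right a3 a2
    linarith

end Pool.Agent.Lib.MP_33650d_pr.Y
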