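import Pool.Agent.Lib.MP_33650d_pr.Y.Defs

namespace Pool.Agent.Lib.MP_33650d_pr.Y
open MeasureTheory ProbabilityTheory Real X

theorem dE_ord7 : 0.162277 < dE ∧ dE < 0.162278 := by
  unfold dE; constructor <;> linarith [r10_lo, r10_hi]

theorem sq_ord7 {x : ℝ} (h0 : 0 ≤ x) :
    (x - 0.162278) ^ 2 - 0.00001 ≤ (x - dE) ^ 2 := by
  obtain ⟨d0, d1⟩ := dE_ord7
  nlinarith [mul_nonneg h0 (sub_nonneg.2 d1.le)]

theorem pB_ord7 {x : ℝ} (h0 : 0 ≤ x) (h1 : x ≤ 1) :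
    8.5 * x - 30 * x ^ 3 + 22.5 * x ^ 5 ≤ 1.372 + 71 * (x - dE) ^ 2 := by
  have h2 := sq_ord7 h0
  have r : 0 ≤ 11.28 + 27.3 * x - 9 * x ^ 2 - 22.5 * x ^ 3 := by
    nlinarith [mul_nonneg h0 (sub_nonneg.2 h1), mul_nonneg (mul_nonneg h0 h0) (sub_nonneg.2 h1)]
  nlinarith [mul_nonneg (sq_nonneg (x - 0.2)) r, sq_nonneg (x - 0.198)]

theorem pA_ord7 {x : ℝ} (h0 : 0 ≤ x) (h1 : x ≤ 1) :
    8.5 * x - 30 * x ^ 3 + 22.5 * x ^ 5 ≤ 1.8 + 4 * (x - dE) ^ 2 := by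
  have h2 := sq_ord7 h0
  have r : 0 ≤ 15.57 + 23.925 * x - 13.5 * x ^ 2 - 22.5 * x ^ 3 := by
    nlinarith [mul_nonneg h0 (sub_nonneg.2 h1), mul_nonneg (mul_nonneg h0 h0) (sub_nonneg.2 h1)]
  nlinarith [mul_nonneg (sq_nonneg (x - 0.3)) r, sq_nonneg (x - 0.326)]

theorem pC_ord7 {x : ℝ} (h0 : 0 ≤ x) (h1 : x ≤ 1) :
    x * (0.254 + 1.06 * x ^ 2 + 1.421 * x ^ 4) ≤ 1.372 + 4 * (x - dE) ^ 2 := by
  have h2 := sq_ord7 h0
  have h3 : x ^ 3 ≤ x ^ 2 := pow_le_pow_of_le_one h0 h1 (by norm_num)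
  have h5 : x ^ 5 ≤ x ^ 2 := pow_le_pow_of_le_one h0 h1 (by norm_num)
  nlinarith [sq_nonneg (x - 0.5)]

/-- the reduced seventh cumulant -/
noncomputable def hh_ord7 (x S : ℝ) : ℝ :=
  (3 + 10 * x ^ 2 + 3 * x ^ 4) / 16 - (19.25 + 36.75 * x ^ 2) * S + 210 * S ^ 2

theorem g_ord7 {x S a b : ℝ} (h0 : 0 ≤ x) (h1 : x ≤ 1) (s0 : 0 ≤ S) (s1 : S ≤ (1 - x ^ 2) / 4)
    (ha : 1.372 ≤ a) (hb : 4 ≤ b)
    (hp : 8.5 * x - 30 * x ^ 3 + 22.5 * x ^ 5 ≤ a + b * (x - dE) ^ 2) :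
    x * |hh_ord7 x S| ≤ a + b * (x - dE) ^ 2 := by
  have z0 := sq_nonneg (x - dE)
  have hz : 4 * (x - dE) ^ 2 ≤ b * (x - dE) ^ 2 := mul_le_mul_of_nonneg_right hb z0
  have x2 : x ^ 2 ≤ 1 := pow_le_one₀ h0 h1
  have x4 : x ^ 4 ≤ 1 := pow_le_one₀ h0 h1
  rcases abs_cases (hh_ord7 x S) with ⟨e, -⟩ | ⟨e, -⟩ <;> rw [e]
  · have q1 : hh_ord7 x S ≤ (3 + 10 * x ^ 2 + 3 * x ^ 4) / 16 + S * (33.25 - 89.25 * x ^ 2) := by
      unfold hh_ord7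
      nlinarith [mul_nonneg s0 (sub_nonneg.2 s1)]
    by_cases hc : 0 ≤ 33.25 - 89.25 * x ^ 2
    · have q2 : hh_ord7 x S ≤ 8.5 - 30 * x ^ 2 + 22.5 * x ^ 4 := by
        nlinarith [mul_le_mul_of_nonneg_right s1 hc]
      nlinarith [mul_le_mul_of_nonneg_left q2 h0]
    · have q2 : hh_ord7 x S ≤ 1 := by
        nlinarith [mul_nonneg s0 (neg_nonneg.2 (not_le.1 hc).le)]
      nlinarith [mul_le_mul_of_nonneg_left q2 h0]
  · have q1 : -hh_ord7 x S ≤ 0.254 + 1.06 * x ^ 2 + 1.421 * x ^ 4 := by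
      unfold hh_ord7
      nlinarith [sq_nonneg (420 * S - (19.25 + 36.75 * x ^ 2)), sq_nonneg x, sq_nonneg (x ^ 2)]
    nlinarith [mul_le_mul_of_nonneg_left q1 h0, pC_ord7 h0 h1]

theorem c7_ord7 {y κ ν a b : ℝ} (h : Par y κ ν) (ha : 1.372 ≤ a) (hb : 4 ≤ b)
    (hp : ∀ x : ℝ, 0 ≤ x → x ≤ 1 → 8.5 * x - 30 * x ^ 3 + 22.5 * x ^ 5 ≤ a + b * (x - dE) ^ 2) :
    |c7 y κ ν| ≤ a * y ^ 5 + b * y ^ 4 * (y * (κ - dE) ^ 2) := by
  have k1 : |κ| ≤ 1 := abs_le.2 ⟨h.k0, h.k1⟩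
  have e2 : |κ| ^ 2 = κ ^ 2 := sq_abs κ
  have e4 : |κ| ^ 4 = κ ^ 4 := by
    rw [show (4 : ℕ) = 2 * 2 from rfl, pow_mul, pow_mul, e2]
  have e : c7 y κ ν = y ^ 5 * κ * hh_ord7 |κ| ((1 - κ ^ 2) / 4 - ν) := by
    unfold hh_ord7
    rw [e2, e4]
    unfold c7 m7 m5 m4 vs
    ring
  have g := g_ord7 (S := (1 - κ ^ 2) / 4 - ν) (abs_nonneg κ) k1 (by linarith [h.n1])
    (by rw [e2]; linarith [h.n0]) ha hb (hp _ (abs_nonneg κ) k1)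
  have hz : (|κ| - dE) ^ 2 ≤ (κ - dE) ^ 2 := by
    nlinarith [mul_nonneg (sub_nonneg.2 (le_abs_self κ)) (by linarith [dE_ord7.1] : (0 : ℝ) ≤ dE)]
  have y5 : 0 ≤ y ^ 5 := (pow_pos h.y0 5).le
  rw [e, abs_mul, abs_mul, abs_of_nonneg y5, mul_assoc]
  calc y ^ 5 * (|κ| * |hh_ord7 |κ| ((1 - κ ^ 2) / 4 - ν)|)
      ≤ y ^ 5 * (a + b * (κ - dE) ^ 2) :=
        mul_le_mul_of_nonneg_left (g.trans (by nlinarith)) y5
    _ = _ := by ring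

theorem gh_ord7 {y : ℝ} (h0 : 0 < y) : 0 ≤ gh y := by
  unfold gh gf
  split_ifs with h
  · linarith
  · positivity

theorem ghy_ord7 {y : ℝ} (h1 : 1 ≤ y) : gh y * y = 0.4 * (y - 1) ^ 2 := by
  unfold gh gf
  rw [if_neg (by linarith), max_eq_left h1]
  field_simp
  ring

theorem ord7 {y κ ν : ℝ} (h : Par y κ ν) :
    |c7 y κ ν| / 5040 ≤ 0.0003 + (0.031 + 0.0016 * (max y 1.4 + 0.5) ^ 4) * Dp y κ ν := by
  have y0 := h.y0
  have hw : 0 ≤ ν * y * wv y := by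
    refine mul_nonneg (mul_nonneg h.n0 y0.le) ?_
    unfold wv; split_ifs <;> positivity
  have hc : 0.5135 ≤ cJ := by unfold cJ; linarith [r10_lo]
  have hZ : 0 ≤ y * (κ - dE) ^ 2 := by positivity
  have hg := gh_ord7 y0
  have key : ∀ a b C : ℝ, 0 ≤ C → |c7 y κ ν| ≤ a * y ^ 5 + b * y ^ 4 * (y * (κ - dE) ^ 2) →
      a * y ^ 5 ≤ 1.512 + 5040 * C * gh y → b * y ^ 4 ≤ 5040 * C * 0.5135 →
      |c7 y κ ν| / 5040 ≤ 0.0003 + C * Dp y κ ν := by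
    intro a b C hC h1 h2 h3
    have h4 := mul_le_mul_of_nonneg_right h3 hZ
    have h5 := mul_le_mul_of_nonneg_left (mul_le_mul_of_nonneg_right hc hZ) hC
    have h6 := mul_nonneg hC hw
    unfold Dp
    nlinarith
  have viaY : ∀ a C : ℝ, 1 ≤ y → a * y ^ 6 ≤ 1.512 * y + 2016 * C * (y - 1) ^ 2 →
      a * y ^ 5 ≤ 1.512 + 5040 * C * gh y := by
    intro a C h1 h2
    refine le_of_mul_le_mul_right ?_ y0
    have := ghy_ord7 h1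
    calc a * y ^ 5 * y = a * y ^ 6 := by ring
      _ ≤ 1.512 * y + 5040 * C * (gh y * y) := by rw [this]; linarith
      _ = _ := by ring
  rcases le_total y 1.4 with h14 | h14
  · rw [max_eq_right h14]
    rcases le_total y 1.17 with h17 | h17
    · refine key 1.372 71 _ (by norm_num) (c7_ord7 h le_rfl (by norm_num) (fun _ => pB_ord7)) ?_ ?_
      · rcases le_total y 1 with h1 | h1
        · have : y ^ 5 ≤ 1 := pow_le_one₀ y0.le h1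
          nlinarith
        · refine viaY _ _ h1 ?_
          obtain ⟨t, rfl⟩ : ∃ t, y = 1 + t := ⟨y - 1, by ring⟩
          have t0 : 0 ≤ t := by linarith
          have t1 : t ≤ 0.17 := by linarith
          have t3 : t ^ 3 ≤ 0.17 * t ^ 2 := by nlinarith [sq_nonneg t]
          have t4 : t ^ 4 ≤ 0.17 * t ^ 3 := by nlinarith [pow_nonneg t0 3]
          have t5 : t ^ 5 ≤ 0.17 * t ^ 4 := by nlinarith [pow_nonneg t0 4]
          have t6 : t ^ 6 ≤ 0.17 * t ^ 5 := by nlinarith [pow_nonneg t0 5]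
          have r : 0 ≤ (t - 0.041) ^ 2 * (0.17 - t) := mul_nonneg (sq_nonneg _) (by linarith)
          nlinarith [sq_nonneg (t - 0.041)]
      · have : y ^ 4 ≤ 1.17 ^ 4 := pow_le_pow_left₀ y0.le h17 4
        nlinarith
    · refine key 1.8 4 _ (by norm_num)
        (c7_ord7 h (by norm_num) le_rfl (fun _ => pA_ord7)) (viaY _ _ (by linarith) ?_) ?_
      · obtain ⟨t, rfl⟩ : ∃ t, y = 1.17 + t := ⟨y - 1.17, by ring⟩
        have t0 : 0 ≤ t := by linarith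
        have t1 : t ≤ 0.23 := by linarith
        have t2 : t ^ 2 ≤ 0.23 * t := by nlinarith
        have t3 : t ^ 3 ≤ 0.23 * t ^ 2 := by nlinarith [sq_nonneg t]
        have t4 : t ^ 4 ≤ 0.23 * t ^ 3 := by nlinarith [pow_nonneg t0 3]
        have t5 : t ^ 5 ≤ 0.23 * t ^ 4 := by nlinarith [pow_nonneg t0 4]
        have t6 : t ^ 6 ≤ 0.23 * t ^ 5 := by nlinarith [pow_nonneg t0 5]
        nlinarith [sq_nonneg t]
      · have : y ^ 4 ≤ 1.4 ^ 4 := pow_le_pow_left₀ y0.le h14 4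
        nlinarith
  · rw [max_eq_left h14]
    refine key 1.8 4 _ (by positivity)
      (c7_ord7 h (by norm_num) le_rfl (fun _ => pA_ord7)) (viaY _ _ (by linarith) ?_) ?_
    · obtain ⟨t, rfl⟩ : ∃ t, y = 1.4 + t := ⟨y - 1.4, by ring⟩
      have t0 : 0 ≤ t := by linarith
      nlinarith [pow_nonneg t0 2, pow_nonneg t0 3, pow_nonneg t0 4, pow_nonneg t0 5, pow_nonneg t0 6]
    · have : y ^ 4 ≤ (y + 0.5) ^ 4 := pow_le_pow_left₀ y0.le (by linarith) 4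
      nlinarith [pow_nonneg y0.le 4]

end Pool.Agent.Lib.MP_33650d_pr.Y
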