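import Pool.Agent.Lib.MP_33650d_pr.Y.Defs

namespace Pool.Agent.Lib.MP_33650d_pr.Y
open MeasureTheory ProbabilityTheory Real X

noncomputable def zz_ord8 (k : ℝ) : ℝ := k ^ 2 - 2 * (16228 / 100000) * k + (16227 / 100000) ^ 2
noncomputable def Q8_ord8 (k : ℝ) : ℝ :=
  (1 + 21 * k ^ 2 + 35 * k ^ 4 + 7 * k ^ 6) / 64 / 40320
    + (1 - k ^ 2) / 4 * ((1 + 10 * k ^ 2 + 5 * k ^ 4) / 16 / 1440
      + k * ((1 + 6 * k ^ 2 + k ^ 4) / 8) / 720 + ((1 + 3 * k ^ 2) / 4) ^ 2 / 1152)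
    + ((1 - k ^ 2) / 4) ^ 2 * ((1 + 3 * k ^ 2) / 4 / 96 + k ^ 2 / 72) + ((1 - k ^ 2) / 4) ^ 3 / 64
noncomputable def Q9_ord8 (k : ℝ) : ℝ :=
  ((1 - k ^ 2) / 4) ^ 2 * (k * ((1 + 3 * k ^ 2) / 4) / 144 + ((1 + k ^ 2) / 2) ^ 3 / 648)
noncomputable def Q10_ord8 (k : ℝ) : ℝ :=
  ((1 - k ^ 2) / 4) ^ 2 * ((1 + 3 * k ^ 2) / 4) ^ 2 / 1152 + ((1 - k ^ 2) / 4) ^ 4 / 50

theorem k8ap0_ord8 {k : ℝ} (h0 : 0 ≤ k - 0) (h1 : 0 ≤ 1 / 8 - k) :
    0 ≤ 453 / 1000000 + 77 / 10000 * zz_ord8 k - Q8_ord8 k := by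
  have e : 453 / 1000000 + 77 / 10000 * zz_ord8 k - Q8_ord8 k =
      180674184790912 / 384521484375 * (k - 0) ^ 0 * (1 / 8 - k) ^ 7
      + 16006885776768 / 6103515625 * (k - 0) ^ 1 * (1 / 8 - k) ^ 6
      + 37262185355304 / 6103515625 * (k - 0) ^ 2 * (1 / 8 - k) ^ 5
      + 9315352376768 / 1220703125 * (k - 0) ^ 3 * (1 / 8 - k) ^ 4
      + 160579401945557 / 29296875000 * (k - 0) ^ 4 * (1 / 8 - k) ^ 3
      + 491217654569069 / 219726562500 * (k - 0) ^ 5 * (1 / 8 - k) ^ 2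
      + 13318150584706319 / 28125000000000 * (k - 0) ^ 6 * (1 / 8 - k) ^ 1
      + 1981429927796111 / 49218750000000 * (k - 0) ^ 7 * (1 / 8 - k) ^ 0 := by
    unfold zz_ord8 Q8_ord8
    ring
  rw [e]
  positivity

theorem k8ap1_ord8 {k : ℝ} (h0 : 0 ≤ k - 1 / 8) (h1 : 0 ≤ 3 / 16 - k) :
    0 ≤ 453 / 1000000 + 77 / 10000 * zz_ord8 k - Q8_ord8 k := by
  have e : 453 / 1000000 + 77 / 10000 * zz_ord8 k - Q8_ord8 k =
      1981429927796111 / 384521484375 * (k - 1 / 8) ^ 0 * (3 / 16 - k) ^ 7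
      + 10459008548847013 / 439453125000 * (k - 1 / 8) ^ 1 * (3 / 16 - k) ^ 6
      + 18571790731053539 / 439453125000 * (k - 1 / 8) ^ 2 * (3 / 16 - k) ^ 5
      + 4066900198628309 / 117187500000 * (k - 1 / 8) ^ 3 * (3 / 16 - k) ^ 4
      + 115815434088557 / 9765625000 * (k - 1 / 8) ^ 4 * (3 / 16 - k) ^ 3
      + 918885868222611 / 781250000000 * (k - 1 / 8) ^ 5 * (3 / 16 - k) ^ 2
      + 792565088476287 / 781250000000 * (k - 1 / 8) ^ 6 * (3 / 16 - k) ^ 1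
      + 119632530238730707 / 196875000000000 * (k - 1 / 8) ^ 7 * (3 / 16 - k) ^ 0 := by
    unfold zz_ord8 Q8_ord8
    ring
  rw [e]
  positivity

theorem k8ap2_ord8 {k : ℝ} (h0 : 0 ≤ k - 3 / 16) (h1 : 0 ≤ 1 / 4 - k) :
    0 ≤ 453 / 1000000 + 77 / 10000 * zz_ord8 k - Q8_ord8 k := by
  have e : 453 / 1000000 + 77 / 10000 * zz_ord8 k - Q8_ord8 k =
      119632530238730707 / 196875000000000 * (k - 3 / 16) ^ 0 * (1 / 4 - k) ^ 7
      + 105366358646157541 / 14062500000000 * (k - 3 / 16) ^ 1 * (1 / 4 - k) ^ 6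
      + 5866052791140763 / 146484375000 * (k - 3 / 16) ^ 2 * (1 / 4 - k) ^ 5
      + 19191319255159651 / 175781250000 * (k - 3 / 16) ^ 3 * (1 / 4 - k) ^ 4
      + 3622102817176597 / 21972656250 * (k - 3 / 16) ^ 4 * (1 / 4 - k) ^ 3
      + 7706895925782083 / 54931640625 * (k - 3 / 16) ^ 5 * (1 / 4 - k) ^ 2
      + 386020753176304 / 6103515625 * (k - 3 / 16) ^ 6 * (1 / 4 - k) ^ 1
      + 4527758909386736 / 384521484375 * (k - 3 / 16) ^ 7 * (1 / 4 - k) ^ 0 := by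
    unfold zz_ord8 Q8_ord8
    ring
  rw [e]
  positivity

theorem k8ap3_ord8 {k : ℝ} (h0 : 0 ≤ k - 1 / 4) (h1 : 0 ≤ 1 / 2 - k) :
    0 ≤ 453 / 1000000 + 77 / 10000 * zz_ord8 k - Q8_ord8 k := by
  have e : 453 / 1000000 + 77 / 10000 * zz_ord8 k - Q8_ord8 k =
      282984931836671 / 393750000000000 * (k - 1 / 4) ^ 0 * (1 / 2 - k) ^ 7
      + 546377964536671 / 56250000000000 * (k - 1 / 4) ^ 1 * (1 / 2 - k) ^ 6
      + 179647810883243 / 3515625000000 * (k - 1 / 4) ^ 2 * (1 / 2 - k) ^ 5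
      + 126865697969983 / 937500000000 * (k - 1 / 4) ^ 3 * (1 / 2 - k) ^ 4
      + 46754956912027 / 234375000000 * (k - 1 / 4) ^ 4 * (1 / 2 - k) ^ 3
      + 586739516776993 / 3515625000000 * (k - 1 / 4) ^ 5 * (1 / 2 - k) ^ 2
      + 32680679421307 / 439453125000 * (k - 1 / 4) ^ 6 * (1 / 2 - k) ^ 1
      + 84542319314489 / 6152343750000 * (k - 1 / 4) ^ 7 * (1 / 2 - k) ^ 0 := by
    unfold zz_ord8 Q8_ord8
    ring
  rw [e]
  positivity

theorem k8ap4_ord8 {k : ℝ} (h0 : 0 ≤ k - 1 / 2) (h1 : 0 ≤ 1 - k) :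
    0 ≤ 453 / 1000000 + 77 / 10000 * zz_ord8 k - Q8_ord8 k := by
  have e : 453 / 1000000 + 77 / 10000 * zz_ord8 k - Q8_ord8 k =
      84542319314489 / 787500000000000 * (k - 1 / 2) ^ 0 * (1 - k) ^ 7
      + 122904240258239 / 112500000000000 * (k - 1 / 2) ^ 1 * (1 - k) ^ 6
      + 129093304983523 / 28125000000000 * (k - 1 / 2) ^ 2 * (1 - k) ^ 5
      + 2425188050509 / 234375000000 * (k - 1 / 2) ^ 3 * (1 - k) ^ 4
      + 6363038597893 / 468750000000 * (k - 1 / 2) ^ 4 * (1 - k) ^ 3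
      + 73098428993537 / 7031250000000 * (k - 1 / 2) ^ 5 * (1 - k) ^ 2
      + 30310188431179 / 7031250000000 * (k - 1 / 2) ^ 6 * (1 - k) ^ 1
      + 36740588031179 / 49218750000000 * (k - 1 / 2) ^ 7 * (1 - k) ^ 0 := by
    unfold zz_ord8 Q8_ord8
    ring
  rw [e]
  positivity

theorem k8a_ord8 {k : ℝ} (h0 : 0 ≤ k) (h1 : k ≤ 1) :
    0 ≤ 453 / 1000000 + 77 / 10000 * zz_ord8 k - Q8_ord8 k := by
  rcases le_total k (1 / 8) with c0 | c0
  · exact k8ap0_ord8 (by linarith) (by linarith)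
  rcases le_total k (3 / 16) with c1 | c1
  · exact k8ap1_ord8 (by linarith) (by linarith)
  rcases le_total k (1 / 4) with c2 | c2
  · exact k8ap2_ord8 (by linarith) (by linarith)
  rcases le_total k (1 / 2) with c3 | c3
  · exact k8ap3_ord8 (by linarith) (by linarith)
  exact k8ap4_ord8 (by linarith) (by linarith)

theorem k8bp0_ord8 {k : ℝ} (h0 : 0 ≤ k - 0) (h1 : 0 ≤ 1 / 4 - k) :
    0 ≤ 117 / 250000 + 159 / 250000 * zz_ord8 k - Q8_ord8 k := by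
  have e : 117 / 250000 + 159 / 250000 * zz_ord8 k - Q8_ord8 k =
      8354467591493 / 9613037109375 * (k - 0) ^ 0 * (1 / 4 - k) ^ 7
      + 6949213566493 / 1373291015625 * (k - 0) ^ 1 * (1 / 4 - k) ^ 6
      + 22483328400347 / 1831054687500 * (k - 0) ^ 2 * (1 / 4 - k) ^ 5
      + 17416257612847 / 1098632812500 * (k - 0) ^ 3 * (1 / 4 - k) ^ 4
      + 202598385689927 / 17578125000000 * (k - 0) ^ 4 * (1 / 4 - k) ^ 3
      + 404287692863531 / 87890625000000 * (k - 0) ^ 5 * (1 / 4 - k) ^ 2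
      + 428188441441069 / 468750000000000 * (k - 0) ^ 6 * (1 / 4 - k) ^ 1
      + 730976140223207 / 9843750000000000 * (k - 0) ^ 7 * (1 / 4 - k) ^ 0 := by
    unfold zz_ord8 Q8_ord8
    ring
  rw [e]
  positivity

theorem k8bp1_ord8 {k : ℝ} (h0 : 0 ≤ k - 1 / 4) (h1 : 0 ≤ 3 / 8 - k) :
    0 ≤ 117 / 250000 + 159 / 250000 * zz_ord8 k - Q8_ord8 k := by
  have e : 117 / 250000 + 159 / 250000 * zz_ord8 k - Q8_ord8 k =
      730976140223207 / 76904296875000 * (k - 1 / 4) ^ 0 * (3 / 8 - k) ^ 7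
      + 151393849391069 / 3662109375000 * (k - 1 / 4) ^ 1 * (3 / 8 - k) ^ 6
      + 3082783034025359 / 43945312500000 * (k - 1 / 4) ^ 2 * (3 / 8 - k) ^ 5
      + 19020736182979 / 274658203125 * (k - 1 / 4) ^ 3 * (3 / 8 - k) ^ 4
      + 2470539772293187 / 35156250000000 * (k - 1 / 4) ^ 4 * (3 / 8 - k) ^ 3
      + 4466772608086937 / 58593750000000 * (k - 1 / 4) ^ 5 * (3 / 8 - k) ^ 2
      + 34738241277475873 / 703125000000000 * (k - 1 / 4) ^ 6 * (3 / 8 - k) ^ 1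
      + 30781909205833249 / 2460937500000000 * (k - 1 / 4) ^ 7 * (3 / 8 - k) ^ 0 := by
    unfold zz_ord8 Q8_ord8
    ring
  rw [e]
  positivity

theorem k8bp2_ord8 {k : ℝ} (h0 : 0 ≤ k - 3 / 8) (h1 : 0 ≤ 1 / 2 - k) :
    0 ≤ 117 / 250000 + 159 / 250000 * zz_ord8 k - Q8_ord8 k := by
  have e : 117 / 250000 + 159 / 250000 * zz_ord8 k - Q8_ord8 k =
      30781909205833249 / 2460937500000000 * (k - 3 / 8) ^ 0 * (1 / 2 - k) ^ 7
      + 29463131848619041 / 234375000000000 * (k - 3 / 8) ^ 1 * (1 / 2 - k) ^ 6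
      + 5215391623712927 / 9765625000000 * (k - 3 / 8) ^ 2 * (1 / 2 - k) ^ 5
      + 1201194690753717 / 976562500000 * (k - 3 / 8) ^ 3 * (1 / 2 - k) ^ 4
      + 101080246656287 / 61035156250 * (k - 3 / 8) ^ 4 * (1 / 2 - k) ^ 3
      + 3586036145369749 / 2746582031250 * (k - 3 / 8) ^ 5 * (1 / 2 - k) ^ 2
      + 768329732448604 / 1373291015625 * (k - 3 / 8) ^ 6 * (1 / 2 - k) ^ 1
      + 968754842036104 / 9613037109375 * (k - 3 / 8) ^ 7 * (1 / 2 - k) ^ 0 := by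
    unfold zz_ord8 Q8_ord8
    ring
  rw [e]
  positivity

theorem k8bp3_ord8 {k : ℝ} (h0 : 0 ≤ k - 1 / 2) (h1 : 0 ≤ 1 - k) :
    0 ≤ 117 / 250000 + 159 / 250000 * zz_ord8 k - Q8_ord8 k := by
  have e : 117 / 250000 + 159 / 250000 * zz_ord8 k - Q8_ord8 k =
      121094355254513 / 19687500000000000 * (k - 1 / 2) ^ 0 * (1 - k) ^ 7
      + 221306910048263 / 2812500000000000 * (k - 1 / 2) ^ 1 * (1 - k) ^ 6
      + 285791700682291 / 703125000000000 * (k - 1 / 2) ^ 2 * (1 - k) ^ 5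
      + 3206881704239 / 2929687500000 * (k - 1 / 2) ^ 3 * (1 - k) ^ 4
      + 19506683638831 / 11718750000000 * (k - 1 / 2) ^ 4 * (1 - k) ^ 3
      + 251365542661979 / 175781250000000 * (k - 1 / 2) ^ 5 * (1 - k) ^ 2
      + 112487433253993 / 175781250000000 * (k - 1 / 2) ^ 6 * (1 - k) ^ 1
      + 140100206453993 / 1230468750000000 * (k - 1 / 2) ^ 7 * (1 - k) ^ 0 := by
    unfold zz_ord8 Q8_ord8
    ring
  rw [e]
  positivity

theorem k8b_ord8 {k : ℝ} (h0 : 0 ≤ k) (h1 : k ≤ 1) :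
    0 ≤ 117 / 250000 + 159 / 250000 * zz_ord8 k - Q8_ord8 k := by
  rcases le_total k (1 / 4) with c0 | c0
  · exact k8bp0_ord8 (by linarith) (by linarith)
  rcases le_total k (3 / 8) with c1 | c1
  · exact k8bp1_ord8 (by linarith) (by linarith)
  rcases le_total k (1 / 2) with c2 | c2
  · exact k8bp2_ord8 (by linarith) (by linarith)
  exact k8bp3_ord8 (by linarith) (by linarith)

theorem k9ap0_ord8 {k : ℝ} (h0 : 0 ≤ k - 0) (h1 : 0 ≤ 1 / 4 - k) :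
    0 ≤ 1 / 25000 + 39 / 100000 * zz_ord8 k - Q9_ord8 k := by
  have e : 1 / 25000 + 39 / 100000 * zz_ord8 k - Q9_ord8 k =
      99048040195552 / 2471923828125 * (k - 0) ^ 0 * (1 / 4 - k) ^ 10
      + 167629019751104 / 494384765625 * (k - 0) ^ 1 * (1 / 4 - k) ^ 9
      + 629474190999968 / 494384765625 * (k - 0) ^ 2 * (1 / 4 - k) ^ 8
      + 1377422875403248 / 494384765625 * (k - 0) ^ 3 * (1 / 4 - k) ^ 7
      + 1937551578828184 / 494384765625 * (k - 0) ^ 4 * (1 / 4 - k) ^ 6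
      + 9105115904594729 / 2471923828125 * (k - 0) ^ 5 * (1 / 4 - k) ^ 5
      + 2299382686943243 / 988769531250 * (k - 0) ^ 6 * (1 / 4 - k) ^ 4
      + 7625987265010093 / 7910156250000 * (k - 0) ^ 7 * (1 / 4 - k) ^ 3
      + 7839869920499827 / 31640625000000 * (k - 0) ^ 8 * (1 / 4 - k) ^ 2
      + 185072724216151 / 5273437500000 * (k - 0) ^ 9 * (1 / 4 - k) ^ 1
      + 583198278846347 / 281250000000000 * (k - 0) ^ 10 * (1 / 4 - k) ^ 0 := by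
    unfold zz_ord8 Q9_ord8
    ring
  rw [e]
  positivity

theorem k9ap1_ord8 {k : ℝ} (h0 : 0 ≤ k - 1 / 4) (h1 : 0 ≤ 5 / 16 - k) :
    0 ≤ 1 / 25000 + 39 / 100000 * zz_ord8 k - Q9_ord8 k := by
  have e : 1 / 25000 + 39 / 100000 * zz_ord8 k - Q9_ord8 k =
      597195037538659328 / 274658203125 * (k - 1 / 4) ^ 0 * (5 / 16 - k) ^ 10
      + 2962847024761235968 / 164794921875 * (k - 1 / 4) ^ 1 * (5 / 16 - k) ^ 9
      + 32441616945796965568 / 494384765625 * (k - 1 / 4) ^ 2 * (5 / 16 - k) ^ 8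
      + 22856126510587551616 / 164794921875 * (k - 1 / 4) ^ 3 * (5 / 16 - k) ^ 7
      + 30838537252346220328 / 164794921875 * (k - 1 / 4) ^ 4 * (5 / 16 - k) ^ 6
      + 15337002688226671052 / 91552734375 * (k - 1 / 4) ^ 5 * (5 / 16 - k) ^ 5
      + 33040950748513288781 / 329589843750 * (k - 1 / 4) ^ 6 * (5 / 16 - k) ^ 4
      + 13035824623523092607 / 329589843750 * (k - 1 / 4) ^ 7 * (5 / 16 - k) ^ 3
      + 316287948183041363227 / 31640625000000 * (k - 1 / 4) ^ 8 * (5 / 16 - k) ^ 2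
      + 32853754751954127029 / 21093750000000 * (k - 1 / 4) ^ 9 * (5 / 16 - k) ^ 1
      + 36907719801072023747 / 281250000000000 * (k - 1 / 4) ^ 10 * (5 / 16 - k) ^ 0 := by
    unfold zz_ord8 Q9_ord8
    ring
  rw [e]
  positivity

theorem k9ap2_ord8 {k : ℝ} (h0 : 0 ≤ k - 5 / 16) (h1 : 0 ≤ 3 / 8 - k) :
    0 ≤ 1 / 25000 + 39 / 100000 * zz_ord8 k - Q9_ord8 k := by
  have e : 1 / 25000 + 39 / 100000 * zz_ord8 k - Q9_ord8 k =
      36907719801072023747 / 281250000000000 * (k - 5 / 16) ^ 0 * (3 / 8 - k) ^ 10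
      + 45015649899307817183 / 42187500000000 * (k - 5 / 16) ^ 1 * (3 / 8 - k) ^ 9
      + 706471583407953657283 / 126562500000000 * (k - 5 / 16) ^ 2 * (3 / 8 - k) ^ 8
      + 174697679791033011943 / 7910156250000 * (k - 5 / 16) ^ 3 * (3 / 8 - k) ^ 7
      + 955283234589168435863 / 15820312500000 * (k - 5 / 16) ^ 4 * (3 / 8 - k) ^ 6
      + 2169841992982339319107 / 19775390625000 * (k - 5 / 16) ^ 5 * (3 / 8 - k) ^ 5
      + 522086732185447462247 / 3955078125000 * (k - 5 / 16) ^ 6 * (3 / 8 - k) ^ 4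
      + 51497314759260009223 / 494384765625 * (k - 5 / 16) ^ 7 * (3 / 8 - k) ^ 3
      + 102761085798218204147 / 1977539062500 * (k - 5 / 16) ^ 8 * (3 / 8 - k) ^ 2
      + 7365348336163656029 / 494384765625 * (k - 5 / 16) ^ 9 * (3 / 8 - k) ^ 1
      + 4632997633130630827 / 2471923828125 * (k - 5 / 16) ^ 10 * (3 / 8 - k) ^ 0 := by
    unfold zz_ord8 Q9_ord8
    ring
  rw [e]
  positivity

theorem k9ap3_ord8 {k : ℝ} (h0 : 0 ≤ k - 3 / 8) (h1 : 0 ≤ 1 / 2 - k) :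
    0 ≤ 1 / 25000 + 39 / 100000 * zz_ord8 k - Q9_ord8 k := by
  have e : 1 / 25000 + 39 / 100000 * zz_ord8 k - Q9_ord8 k =
      4632997633130630827 / 2531250000000000 * (k - 3 / 8) ^ 0 * (1 / 2 - k) ^ 10
      + 1633411140807059113 / 63281250000000 * (k - 3 / 8) ^ 1 * (1 / 2 - k) ^ 9
      + 5019067745560117223 / 31640625000000 * (k - 3 / 8) ^ 2 * (1 / 2 - k) ^ 8
      + 277074497575934077 / 494384765625 * (k - 3 / 8) ^ 3 * (1 / 2 - k) ^ 7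
      + 1251281447340357707 / 988769531250 * (k - 3 / 8) ^ 4 * (1 / 2 - k) ^ 6
      + 4735492919433314996 / 2471923828125 * (k - 3 / 8) ^ 5 * (1 / 2 - k) ^ 5
      + 976746051981095416 / 494384765625 * (k - 3 / 8) ^ 6 * (1 / 2 - k) ^ 4
      + 679549414675965952 / 494384765625 * (k - 3 / 8) ^ 7 * (1 / 2 - k) ^ 3
      + 305946401163927232 / 494384765625 * (k - 3 / 8) ^ 8 * (1 / 2 - k) ^ 2
      + 26880592153656832 / 164794921875 * (k - 3 / 8) ^ 9 * (1 / 2 - k) ^ 1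
      + 5257946911849472 / 274658203125 * (k - 3 / 8) ^ 10 * (1 / 2 - k) ^ 0 := by
    unfold zz_ord8 Q9_ord8
    ring
  rw [e]
  positivity

theorem k9ap4_ord8 {k : ℝ} (h0 : 0 ≤ k - 1 / 2) (h1 : 0 ≤ 1 - k) :
    0 ≤ 1 / 25000 + 39 / 100000 * zz_ord8 k - Q9_ord8 k := by
  have e : 1 / 25000 + 39 / 100000 * zz_ord8 k - Q9_ord8 k =
      5134713781103 / 281250000000000 * (k - 1 / 2) ^ 0 * (1 - k) ^ 10
      + 12259775083217 / 42187500000000 * (k - 1 / 2) ^ 1 * (1 - k) ^ 9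
      + 62680978524373 / 31640625000000 * (k - 1 / 2) ^ 2 * (1 - k) ^ 8
      + 53829014297059 / 7031250000000 * (k - 1 / 2) ^ 3 * (1 - k) ^ 7
      + 197170817721733 / 10546875000000 * (k - 1 / 2) ^ 4 * (1 - k) ^ 6
      + 44356420737893 / 1464843750000 * (k - 1 / 2) ^ 5 * (1 - k) ^ 5
      + 87063468427777 / 2636718750000 * (k - 1 / 2) ^ 6 * (1 - k) ^ 4
      + 15774711228611 / 659179687500 * (k - 1 / 2) ^ 7 * (1 - k) ^ 3
      + 174031985564999 / 15820312500000 * (k - 1 / 2) ^ 8 * (1 - k) ^ 2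
      + 281019825631 / 97656250000 * (k - 1 / 2) ^ 9 * (1 - k) ^ 1
      + 313690905631 / 976562500000 * (k - 1 / 2) ^ 10 * (1 - k) ^ 0 := by
    unfold zz_ord8 Q9_ord8
    ring
  rw [e]
  positivity

theorem k9a_ord8 {k : ℝ} (h0 : 0 ≤ k) (h1 : k ≤ 1) :
    0 ≤ 1 / 25000 + 39 / 100000 * zz_ord8 k - Q9_ord8 k := by
  rcases le_total k (1 / 4) with c0 | c0
  · exact k9ap0_ord8 (by linarith) (by linarith)
  rcases le_total k (5 / 16) with c1 | c1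
  · exact k9ap1_ord8 (by linarith) (by linarith)
  rcases le_total k (3 / 8) with c2 | c2
  · exact k9ap2_ord8 (by linarith) (by linarith)
  rcases le_total k (1 / 2) with c3 | c3
  · exact k9ap3_ord8 (by linarith) (by linarith)
  exact k9ap4_ord8 (by linarith) (by linarith)

theorem k9bp0_ord8 {k : ℝ} (h0 : 0 ≤ k - 0) (h1 : 0 ≤ 1 / 2 - k) :
    0 ≤ 289 / 5000000 + 159 / 2000000 * zz_ord8 k - Q9_ord8 k := by
  have e : 289 / 5000000 + 159 / 2000000 * zz_ord8 k - Q9_ord8 k =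
      77495990697991 / 1582031250000000 * (k - 0) ^ 0 * (1 / 2 - k) ^ 10
      + 66616924077991 / 158203125000000 * (k - 0) ^ 1 * (1 / 2 - k) ^ 9
      + 507103654621919 / 316406250000000 * (k - 0) ^ 2 * (1 / 2 - k) ^ 8
      + 139489993607723 / 39550781250000 * (k - 0) ^ 3 * (1 / 2 - k) ^ 7
      + 774918614827811 / 158203125000000 * (k - 0) ^ 4 * (1 / 2 - k) ^ 6
      + 866459586407029 / 197753906250000 * (k - 0) ^ 5 * (1 / 2 - k) ^ 5
      + 388407980850311 / 158203125000000 * (k - 0) ^ 6 * (1 / 2 - k) ^ 4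
      + 248698063107409 / 316406250000000 * (k - 0) ^ 7 * (1 / 2 - k) ^ 3
      + 70698624049463 / 632812500000000 * (k - 0) ^ 8 * (1 / 2 - k) ^ 2
      + 20496297593 / 13183593750000 * (k - 0) ^ 9 * (1 / 2 - k) ^ 1
      + 310838572867 / 1406250000000000 * (k - 0) ^ 10 * (1 / 2 - k) ^ 0 := by
    unfold zz_ord8 Q9_ord8
    ring
  rw [e]
  positivity

theorem k9bp1_ord8 {k : ℝ} (h0 : 0 ≤ k - 1 / 2) (h1 : 0 ≤ 1 - k) :
    0 ≤ 289 / 5000000 + 159 / 2000000 * zz_ord8 k - Q9_ord8 k := by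
  have e : 289 / 5000000 + 159 / 2000000 * zz_ord8 k - Q9_ord8 k =
      310838572867 / 1406250000000000 * (k - 1 / 2) ^ 0 * (1 - k) ^ 10
      + 604574957113 / 210937500000000 * (k - 1 / 2) ^ 1 * (1 - k) ^ 9
      + 39083873665669 / 316406250000000 * (k - 1 / 2) ^ 2 * (1 - k) ^ 8
      + 34799650727351 / 35156250000000 * (k - 1 / 2) ^ 3 * (1 - k) ^ 7
      + 96549641539531 / 26367187500000 * (k - 1 / 2) ^ 4 * (1 - k) ^ 6
      + 113592746855729 / 14648437500000 * (k - 1 / 2) ^ 5 * (1 - k) ^ 5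
      + 534633910945937 / 52734375000000 * (k - 1 / 2) ^ 6 * (1 - k) ^ 4
      + 109363076907991 / 13183593750000 * (k - 1 / 2) ^ 7 * (1 - k) ^ 3
      + 1296516998841919 / 316406250000000 * (k - 1 / 2) ^ 8 * (1 - k) ^ 2
      + 2138619289111 / 1953125000000 * (k - 1 / 2) ^ 9 * (1 - k) ^ 1
      + 2271816769111 / 19531250000000 * (k - 1 / 2) ^ 10 * (1 - k) ^ 0 := by
    unfold zz_ord8 Q9_ord8
    ring
  rw [e]
  positivity

theorem k9b_ord8 {k : ℝ} (h0 : 0 ≤ k) (h1 : k ≤ 1) :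
    0 ≤ 289 / 5000000 + 159 / 2000000 * zz_ord8 k - Q9_ord8 k := by
  rcases le_total k (1 / 2) with c0 | c0
  · exact k9bp0_ord8 (by linarith) (by linarith)
  exact k9bp1_ord8 (by linarith) (by linarith)

theorem k10p0_ord8 {k : ℝ} (h0 : 0 ≤ k - 0) (h1 : 0 ≤ 1 / 16 - k) :
    0 ≤ 199 / 2500000 + 539 / 5000000 * zz_ord8 k - Q10_ord8 k := by
  have e : 199 / 2500000 + 539 / 5000000 * zz_ord8 k - Q10_ord8 k =
      27211512212946944 / 6866455078125 * (k - 0) ^ 0 * (1 / 16 - k) ^ 8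
      + 153203012365975552 / 6866455078125 * (k - 0) ^ 1 * (1 / 16 - k) ^ 7
      + 357354804599314432 / 6866455078125 * (k - 0) ^ 2 * (1 / 16 - k) ^ 6
      + 450710251835428864 / 6866455078125 * (k - 0) ^ 3 * (1 / 16 - k) ^ 5
      + 70064176469619716 / 1373291015625 * (k - 0) ^ 4 * (1 / 16 - k) ^ 4
      + 203016354140278864 / 6866455078125 * (k - 0) ^ 5 * (1 / 16 - k) ^ 3
      + 3495864200376621199 / 219726562500000 * (k - 0) ^ 6 * (1 / 16 - k) ^ 2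
      + 248397648296456069 / 36621093750000 * (k - 0) ^ 7 * (1 / 16 - k) ^ 1
      + 34119575248532064763 / 25000000000000000 * (k - 0) ^ 8 * (1 / 16 - k) ^ 0 := by
    unfold zz_ord8 Q10_ord8
    ring
  rw [e]
  positivity

theorem k10p1_ord8 {k : ℝ} (h0 : 0 ≤ k - 1 / 16) (h1 : 0 ≤ 1 / 8 - k) :
    0 ≤ 199 / 2500000 + 539 / 5000000 * zz_ord8 k - Q10_ord8 k := by
  have e : 199 / 2500000 + 539 / 5000000 * zz_ord8 k - Q10_ord8 k =
      34119575248532064763 / 25000000000000000 * (k - 1 / 16) ^ 0 * (1 / 8 - k) ^ 8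
      + 70563826763649817457 / 4687500000000000 * (k - 1 / 16) ^ 1 * (1 / 8 - k) ^ 7
      + 1037882792239876009861 / 14062500000000000 * (k - 1 / 16) ^ 2 * (1 / 8 - k) ^ 6
      + 713716157947386831493 / 3515625000000000 * (k - 1 / 16) ^ 3 * (1 / 8 - k) ^ 5
      + 53015755838249604701 / 156250000000000 * (k - 1 / 16) ^ 4 * (1 / 8 - k) ^ 4
      + 310015873885478347717 / 878906250000000 * (k - 1 / 16) ^ 5 * (1 / 8 - k) ^ 3
      + 196299827049839100421 / 878906250000000 * (k - 1 / 16) ^ 6 * (1 / 8 - k) ^ 2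
      + 1929124877973482171 / 24414062500000 * (k - 1 / 16) ^ 7 * (1 / 8 - k) ^ 1
      + 1171497992194614523 / 97656250000000 * (k - 1 / 16) ^ 8 * (1 / 8 - k) ^ 0 := by
    unfold zz_ord8 Q10_ord8
    ring
  rw [e]
  positivity

theorem k10p2_ord8 {k : ℝ} (h0 : 0 ≤ k - 1 / 8) (h1 : 0 ≤ 1 / 4 - k) :
    0 ≤ 199 / 2500000 + 539 / 5000000 * zz_ord8 k - Q10_ord8 k := by
  have e : 199 / 2500000 + 539 / 5000000 * zz_ord8 k - Q10_ord8 k =
      1171497992194614523 / 25000000000000000 * (k - 1 / 8) ^ 0 * (1 / 4 - k) ^ 8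
      + 792684549305180699 / 1562500000000000 * (k - 1 / 8) ^ 1 * (1 / 4 - k) ^ 7
      + 32832496187552318581 / 14062500000000000 * (k - 1 / 8) ^ 2 * (1 / 4 - k) ^ 6
      + 20994904606652460853 / 3515625000000000 * (k - 1 / 8) ^ 3 * (1 / 4 - k) ^ 5
      + 4365220021820060663 / 468750000000000 * (k - 1 / 8) ^ 4 * (1 / 4 - k) ^ 4
      + 7993032343555367557 / 878906250000000 * (k - 1 / 8) ^ 5 * (1 / 4 - k) ^ 3
      + 4787578221909560341 / 878906250000000 * (k - 1 / 8) ^ 6 * (1 / 4 - k) ^ 2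
      + 134337710195206273 / 73242187500000 * (k - 1 / 8) ^ 7 * (1 / 4 - k) ^ 1
      + 26012636691799483 / 97656250000000 * (k - 1 / 8) ^ 8 * (1 / 4 - k) ^ 0 := by
    unfold zz_ord8 Q10_ord8
    ring
  rw [e]
  positivity

theorem k10p3_ord8 {k : ℝ} (h0 : 0 ≤ k - 1 / 4) (h1 : 0 ≤ 1 / 2 - k) :
    0 ≤ 199 / 2500000 + 539 / 5000000 * zz_ord8 k - Q10_ord8 k := by
  have e : 199 / 2500000 + 539 / 5000000 * zz_ord8 k - Q10_ord8 k =
      26012636691799483 / 25000000000000000 * (k - 1 / 4) ^ 0 * (1 / 2 - k) ^ 8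
      + 49888010015494537 / 4687500000000000 * (k - 1 / 4) ^ 1 * (1 / 2 - k) ^ 7
      + 652547935390969201 / 14062500000000000 * (k - 1 / 4) ^ 2 * (1 / 2 - k) ^ 6
      + 396648123212454913 / 3515625000000000 * (k - 1 / 4) ^ 3 * (1 / 2 - k) ^ 5
      + 78605296696603423 / 468750000000000 * (k - 1 / 4) ^ 4 * (1 / 2 - k) ^ 4
      + 137451102355544197 / 878906250000000 * (k - 1 / 4) ^ 5 * (1 / 2 - k) ^ 3
      + 78730481134361161 / 878906250000000 * (k - 1 / 4) ^ 6 * (1 / 2 - k) ^ 2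
      + 2114998267813733 / 73242187500000 * (k - 1 / 4) ^ 7 * (1 / 2 - k) ^ 1
      + 392539289173643 / 97656250000000 * (k - 1 / 4) ^ 8 * (1 / 2 - k) ^ 0 := by
    unfold zz_ord8 Q10_ord8
    ring
  rw [e]
  positivity

theorem k10p4_ord8 {k : ℝ} (h0 : 0 ≤ k - 1 / 2) (h1 : 0 ≤ 1 - k) :
    0 ≤ 199 / 2500000 + 539 / 5000000 * zz_ord8 k - Q10_ord8 k := by
  have e : 199 / 2500000 + 539 / 5000000 * zz_ord8 k - Q10_ord8 k =
      392539289173643 / 25000000000000000 * (k - 1 / 2) ^ 0 * (1 - k) ^ 8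
      + 708927667374527 / 4687500000000000 * (k - 1 / 2) ^ 1 * (1 - k) ^ 7
      + 2175654771955399 / 3515625000000000 * (k - 1 / 2) ^ 2 * (1 - k) ^ 6
      + 2476783805480399 / 1757812500000000 * (k - 1 / 2) ^ 3 * (1 - k) ^ 5
      + 38333823203417 / 19531250000000 * (k - 1 / 2) ^ 4 * (1 - k) ^ 4
      + 379254942318253 / 219726562500000 * (k - 1 / 2) ^ 5 * (1 - k) ^ 3
      + 414852780493253 / 439453125000000 * (k - 1 / 2) ^ 6 * (1 - k) ^ 2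
      + 7198134820131 / 24414062500000 * (k - 1 / 2) ^ 7 * (1 - k) ^ 1
      + 7762548670131 / 195312500000000 * (k - 1 / 2) ^ 8 * (1 - k) ^ 0 := by
    unfold zz_ord8 Q10_ord8
    ring
  rw [e]
  positivity

theorem k10_ord8 {k : ℝ} (h0 : 0 ≤ k) (h1 : k ≤ 1) :
    0 ≤ 199 / 2500000 + 539 / 5000000 * zz_ord8 k - Q10_ord8 k := by
  rcases le_total k (1 / 16) with c0 | c0
  · exact k10p0_ord8 (by linarith) (by linarith)
  rcases le_total k (1 / 8) with c1 | c1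
  · exact k10p1_ord8 (by linarith) (by linarith)
  rcases le_total k (1 / 4) with c2 | c2
  · exact k10p2_ord8 (by linarith) (by linarith)
  rcases le_total k (1 / 2) with c3 | c3
  · exact k10p3_ord8 (by linarith) (by linarith)
  exact k10p4_ord8 (by linarith) (by linarith)

theorem y8lop0_ord8 {y : ℝ} (h0 : 0 ≤ y - 1) (h1 : 0 ≤ 11 / 10 - y) :
    0 ≤ 11 / 20000 * y + (23 / 500 + 31 / 25000 * (39 / 20 : ℝ) ^ 5) * (2 / 5 * (y - 1) ^ 2) - 453 / 1000000 * y ^ 7 := by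
  have e : 11 / 20000 * y + (23 / 500 + 31 / 25000 * (39 / 20 : ℝ) ^ 5) * (2 / 5 * (y - 1) ^ 2) - 453 / 1000000 * y ^ 7 =
      970 * (y - 1) ^ 0 * (11 / 10 - y) ^ 7
      + 4169 * (y - 1) ^ 1 * (11 / 10 - y) ^ 6
      + 13862350169 / 2000000 * (y - 1) ^ 2 * (11 / 10 - y) ^ 5
      + 2364930169 / 400000 * (y - 1) ^ 3 * (11 / 10 - y) ^ 4
      + 750339169 / 200000 * (y - 1) ^ 4 * (11 / 10 - y) ^ 3
      + 585386909 / 200000 * (y - 1) ^ 5 * (11 / 10 - y) ^ 2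
      + 145294089 / 80000 * (y - 1) ^ 6 * (11 / 10 - y) ^ 1
      + 921573243 / 2000000 * (y - 1) ^ 7 * (11 / 10 - y) ^ 0 := by
    ring
  rw [e]
  positivity

theorem y8lop1_ord8 {y : ℝ} (h0 : 0 ≤ y - 11 / 10) (h1 : 0 ≤ 6 / 5 - y) :
    0 ≤ 11 / 20000 * y + (23 / 500 + 31 / 25000 * (39 / 20 : ℝ) ^ 5) * (2 / 5 * (y - 1) ^ 2) - 453 / 1000000 * y ^ 7 := by
  have e : 11 / 20000 * y + (23 / 500 + 31 / 25000 * (39 / 20 : ℝ) ^ 5) * (2 / 5 * (y - 1) ^ 2) - 453 / 1000000 * y ^ 7 =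
      921573243 / 2000000 * (y - 11 / 10) ^ 0 * (6 / 5 - y) ^ 7
      + 9269673177 / 2000000 * (y - 11 / 10) ^ 1 * (6 / 5 - y) ^ 6
      + 19838897401 / 1000000 * (y - 11 / 10) ^ 2 * (6 / 5 - y) ^ 5
      + 72907739 / 1600 * (y - 11 / 10) ^ 3 * (6 / 5 - y) ^ 4
      + 24171388201 / 400000 * (y - 11 / 10) ^ 4 * (6 / 5 - y) ^ 3
      + 92846366837 / 2000000 * (y - 11 / 10) ^ 5 * (6 / 5 - y) ^ 2
      + 4804823531 / 250000 * (y - 11 / 10) ^ 6 * (6 / 5 - y) ^ 1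
      + 1661045657 / 500000 * (y - 11 / 10) ^ 7 * (6 / 5 - y) ^ 0 := by
    ring
  rw [e]
  positivity

theorem y8lop2_ord8 {y : ℝ} (h0 : 0 ≤ y - 6 / 5) (h1 : 0 ≤ 7 / 5 - y) :
    0 ≤ 11 / 20000 * y + (23 / 500 + 31 / 25000 * (39 / 20 : ℝ) ^ 5) * (2 / 5 * (y - 1) ^ 2) - 453 / 1000000 * y ^ 7 := by
  have e : 11 / 20000 * y + (23 / 500 + 31 / 25000 * (39 / 20 : ℝ) ^ 5) * (2 / 5 * (y - 1) ^ 2) - 453 / 1000000 * y ^ 7 =
      1661045657 / 64000000 * (y - 6 / 5) ^ 0 * (7 / 5 - y) ^ 7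
      + 15662664673 / 64000000 * (y - 6 / 5) ^ 1 * (7 / 5 - y) ^ 6
      + 30418350889 / 32000000 * (y - 6 / 5) ^ 2 * (7 / 5 - y) ^ 5
      + 12606505967 / 6400000 * (y - 6 / 5) ^ 3 * (7 / 5 - y) ^ 4
      + 30158147369 / 12800000 * (y - 6 / 5) ^ 4 * (7 / 5 - y) ^ 3
      + 20853788209 / 12800000 * (y - 6 / 5) ^ 5 * (7 / 5 - y) ^ 2
      + 964746303 / 1600000 * (y - 6 / 5) ^ 6 * (7 / 5 - y) ^ 1
      + 294082101 / 3200000 * (y - 6 / 5) ^ 7 * (7 / 5 - y) ^ 0 := by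
    ring
  rw [e]
  positivity

theorem y8lo_ord8 {y : ℝ} (h0 : 1 ≤ y) (h1 : y ≤ 7 / 5) :
    0 ≤ 11 / 20000 * y + (23 / 500 + 31 / 25000 * (39 / 20 : ℝ) ^ 5) * (2 / 5 * (y - 1) ^ 2) - 453 / 1000000 * y ^ 7 := by
  rcases le_total y (11 / 10) with c0 | c0
  · exact y8lop0_ord8 (by linarith) (by linarith)
  rcases le_total y (6 / 5) with c1 | c1
  · exact y8lop1_ord8 (by linarith) (by linarith)
  exact y8lop2_ord8 (by linarith) (by linarith)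

theorem y9lop0_ord8 {y : ℝ} (h0 : 0 ≤ y - 1) (h1 : 0 ≤ 11 / 10 - y) :
    0 ≤ 1 / 20000 * y + (31 / 200000 * (39 / 20 : ℝ) ^ 6) * (2 / 5 * (y - 1) ^ 2) - 1 / 25000 * y ^ 8 := by
  have e : 1 / 20000 * y + (31 / 200000 * (39 / 20 : ℝ) ^ 6) * (2 / 5 * (y - 1) ^ 2) - 1 / 25000 * y ^ 8 =
      1000 * (y - 1) ^ 0 * (11 / 10 - y) ^ 8
      + 5300 * (y - 1) ^ 1 * (11 / 10 - y) ^ 7
      + 364441056591 / 32000000 * (y - 1) ^ 2 * (11 / 10 - y) ^ 6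
      + 204939169773 / 16000000 * (y - 1) ^ 3 * (11 / 10 - y) ^ 5
      + 55575969773 / 6400000 * (y - 1) ^ 4 * (11 / 10 - y) ^ 4
      + 7874272591 / 1600000 * (y - 1) ^ 5 * (11 / 10 - y) ^ 3
      + 20588244973 / 6400000 * (y - 1) ^ 6 * (11 / 10 - y) ^ 2
      + 25500014573 / 16000000 * (y - 1) ^ 7 * (11 / 10 - y) ^ 1
      + 10701688911 / 32000000 * (y - 1) ^ 8 * (11 / 10 - y) ^ 0 := by
    ring
  rw [e]
  positivity

theorem y9lop1_ord8 {y : ℝ} (h0 : 0 ≤ y - 11 / 10) (h1 : 0 ≤ 6 / 5 - y) :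
    0 ≤ 1 / 20000 * y + (31 / 200000 * (39 / 20 : ℝ) ^ 6) * (2 / 5 * (y - 1) ^ 2) - 1 / 25000 * y ^ 8 := by
  have e : 1 / 20000 * y + (31 / 200000 * (39 / 20 : ℝ) ^ 6) * (2 / 5 * (y - 1) ^ 2) - 1 / 25000 * y ^ 8 =
      10701688911 / 32000000 * (y - 11 / 10) ^ 0 * (6 / 5 - y) ^ 8
      + 12022699343 / 3200000 * (y - 11 / 10) ^ 1 * (6 / 5 - y) ^ 7
      + 587529974853 / 32000000 * (y - 11 / 10) ^ 2 * (6 / 5 - y) ^ 6
      + 198520428803 / 4000000 * (y - 11 / 10) ^ 3 * (6 / 5 - y) ^ 5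
      + 517076448401 / 6400000 * (y - 11 / 10) ^ 4 * (6 / 5 - y) ^ 4
      + 1300874281863 / 16000000 * (y - 11 / 10) ^ 5 * (6 / 5 - y) ^ 3
      + 63470086259 / 1280000 * (y - 11 / 10) ^ 6 * (6 / 5 - y) ^ 2
      + 134543682857 / 8000000 * (y - 11 / 10) ^ 7 * (6 / 5 - y) ^ 1
      + 19486913871 / 8000000 * (y - 11 / 10) ^ 8 * (6 / 5 - y) ^ 0 := by
    ring
  rw [e]
  positivity

theorem y9lop2_ord8 {y : ℝ} (h0 : 0 ≤ y - 6 / 5) (h1 : 0 ≤ 7 / 5 - y) :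
    0 ≤ 1 / 20000 * y + (31 / 200000 * (39 / 20 : ℝ) ^ 6) * (2 / 5 * (y - 1) ^ 2) - 1 / 25000 * y ^ 8 := by
  have e : 1 / 20000 * y + (31 / 200000 * (39 / 20 : ℝ) ^ 6) * (2 / 5 * (y - 1) ^ 2) - 1 / 25000 * y ^ 8 =
      19486913871 / 2048000000 * (y - 6 / 5) ^ 0 * (7 / 5 - y) ^ 8
      + 19859856719 / 204800000 * (y - 6 / 5) ^ 1 * (7 / 5 - y) ^ 7
      + 846619771973 / 2048000000 * (y - 6 / 5) ^ 2 * (7 / 5 - y) ^ 6
      + 245592917763 / 256000000 * (y - 6 / 5) ^ 3 * (7 / 5 - y) ^ 5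
      + 540770845841 / 409600000 * (y - 6 / 5) ^ 4 * (7 / 5 - y) ^ 4
      + 1119852678023 / 1024000000 * (y - 6 / 5) ^ 5 * (7 / 5 - y) ^ 3
      + 213796256319 / 409600000 * (y - 6 / 5) ^ 6 * (7 / 5 - y) ^ 2
      + 63991685417 / 512000000 * (y - 6 / 5) ^ 7 * (7 / 5 - y) ^ 1
      + 5017932111 / 512000000 * (y - 6 / 5) ^ 8 * (7 / 5 - y) ^ 0 := by
    ring
  rw [e]
  positivity

theorem y9lo_ord8 {y : ℝ} (h0 : 1 ≤ y) (h1 : y ≤ 7 / 5) :
    0 ≤ 1 / 20000 * y + (31 / 200000 * (39 / 20 : ℝ) ^ 6) * (2 / 5 * (y - 1) ^ 2) - 1 / 25000 * y ^ 8 := by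
  rcases le_total y (11 / 10) with c0 | c0
  · exact y9lop0_ord8 (by linarith) (by linarith)
  rcases le_total y (6 / 5) with c1 | c1
  · exact y9lop1_ord8 (by linarith) (by linarith)
  exact y9lop2_ord8 (by linarith) (by linarith)

theorem y10lop0_ord8 {y : ℝ} (h0 : 0 ≤ y - 1) (h1 : 0 ≤ 6 / 5 - y) :
    0 ≤ 1 / 10000 * y + (1 / 250 + 21 / 100000 * (39 / 20 : ℝ) ^ 7) * (2 / 5 * (y - 1) ^ 2) - 199 / 2500000 * y ^ 9 := by
  have e : 1 / 10000 * y + (1 / 250 + 21 / 100000 * (39 / 20 : ℝ) ^ 7) * (2 / 5 * (y - 1) ^ 2) - 199 / 2500000 * y ^ 9 =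
      1275 / 32 * (y - 1) ^ 0 * (6 / 5 - y) ^ 9
      + 1885 / 16 * (y - 1) ^ 1 * (6 / 5 - y) ^ 8
      + 462139140259 / 4096000000 * (y - 1) ^ 2 * (6 / 5 - y) ^ 7
      + 3004164381813 / 4096000000 * (y - 1) ^ 3 * (6 / 5 - y) ^ 6
      + 14651845465439 / 4096000000 * (y - 1) ^ 4 * (6 / 5 - y) ^ 5
      + 6225991146613 / 819200000 * (y - 1) ^ 5 * (6 / 5 - y) ^ 4
      + 7044184513653 / 819200000 * (y - 1) ^ 6 * (6 / 5 - y) ^ 3
      + 22407170741599 / 4096000000 * (y - 1) ^ 7 * (6 / 5 - y) ^ 2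
      + 7593847020661 / 4096000000 * (y - 1) ^ 8 * (6 / 5 - y) ^ 1
      + 5340515060527 / 20480000000 * (y - 1) ^ 9 * (6 / 5 - y) ^ 0 := by
    ring
  rw [e]
  positivity

theorem y10lop1_ord8 {y : ℝ} (h0 : 0 ≤ y - 6 / 5) (h1 : 0 ≤ 7 / 5 - y) :
    0 ≤ 1 / 10000 * y + (1 / 250 + 21 / 100000 * (39 / 20 : ℝ) ^ 7) * (2 / 5 * (y - 1) ^ 2) - 199 / 2500000 * y ^ 9 := by
  have e : 1 / 10000 * y + (1 / 250 + 21 / 100000 * (39 / 20 : ℝ) ^ 7) * (2 / 5 * (y - 1) ^ 2) - 199 / 2500000 * y ^ 9 =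
      5340515060527 / 20480000000 * (y - 6 / 5) ^ 0 * (7 / 5 - y) ^ 9
      + 58160035986181 / 20480000000 * (y - 6 / 5) ^ 1 * (7 / 5 - y) ^ 8
      + 273562260771003 / 20480000000 * (y - 6 / 5) ^ 2 * (7 / 5 - y) ^ 7
      + 728669128174589 / 20480000000 * (y - 6 / 5) ^ 3 * (7 / 5 - y) ^ 6
      + 1209667171782797 / 20480000000 * (y - 6 / 5) ^ 4 * (7 / 5 - y) ^ 5
      + 1294414235428419 / 20480000000 * (y - 6 / 5) ^ 5 * (7 / 5 - y) ^ 4
      + 888017832040297 / 20480000000 * (y - 6 / 5) ^ 6 * (7 / 5 - y) ^ 3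
      + 372785776766911 / 20480000000 * (y - 6 / 5) ^ 7 * (7 / 5 - y) ^ 2
      + 2660426505519 / 640000000 * (y - 6 / 5) ^ 8 * (7 / 5 - y) ^ 1
      + 1923062461231 / 5120000000 * (y - 6 / 5) ^ 9 * (7 / 5 - y) ^ 0 := by
    ring
  rw [e]
  positivity

theorem y10lo_ord8 {y : ℝ} (h0 : 1 ≤ y) (h1 : y ≤ 7 / 5) :
    0 ≤ 1 / 10000 * y + (1 / 250 + 21 / 100000 * (39 / 20 : ℝ) ^ 7) * (2 / 5 * (y - 1) ^ 2) - 199 / 2500000 * y ^ 9 := by
  rcases le_total y (6 / 5) with c0 | c0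
  · exact y10lop0_ord8 (by linarith) (by linarith)
  exact y10lop1_ord8 (by linarith) (by linarith)

theorem y8hi_ord8 {y : ℝ} (h0 : 7 / 5 ≤ y) :
    0 ≤ 11 / 20000 * y + (23 / 500 + 31 / 25000 * (y + 11 / 20) ^ 5) * (2 / 5 * (y - 1) ^ 2) - 117 / 250000 * y ^ 7 := by
  have h1 : 0 ≤ y - 7 / 5 := by linarith
  have e : 11 / 20000 * y + (23 / 500 + 31 / 25000 * (y + 11 / 20) ^ 5) * (2 / 5 * (y - 1) ^ 2) - 117 / 250000 * y ^ 7 =
      254552037 / 250000000000 * (y - 7 / 5) ^ 0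
      + 376418721 / 50000000000 * (y - 7 / 5) ^ 1
      + 563940853 / 40000000000 * (y - 7 / 5) ^ 2
      + 10745631 / 2000000000 * (y - 7 / 5) ^ 3
      + 384657 / 50000000 * (y - 7 / 5) ^ 4
      + 44321 / 12500000 * (y - 7 / 5) ^ 5
      + 101 / 156250 * (y - 7 / 5) ^ 6
      + 7 / 250000 * (y - 7 / 5) ^ 7 := by
    ring
  rw [e]
  positivity

theorem y9m_ord8 {y : ℝ} (h0 : 7 / 5 ≤ y) :
    0 ≤ 1 / 20000 * y + (31 / 200000 * (y + 11 / 20) ^ 6) * (2 / 5 * (y - 1) ^ 2) - 1 / 25000 * y ^ 8 := by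
  have h1 : 0 ≤ y - 7 / 5 := by linarith
  have e : 1 / 20000 * y + (31 / 200000 * (y + 11 / 20) ^ 6) * (2 / 5 * (y - 1) ^ 2) - 1 / 25000 * y ^ 8 =
      5017932111 / 200000000000000 * (y - 7 / 5) ^ 0
      + 43278575527 / 40000000000000 * (y - 7 / 5) ^ 1
      + 35315541347 / 6400000000000 * (y - 7 / 5) ^ 2
      + 8535933907 / 800000000000 * (y - 7 / 5) ^ 3
      + 169788221 / 16000000000 * (y - 7 / 5) ^ 4
      + 5993009 / 1000000000 * (y - 7 / 5) ^ 5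
      + 386273 / 200000000 * (y - 7 / 5) ^ 6
      + 327 / 1000000 * (y - 7 / 5) ^ 7
      + 11 / 500000 * (y - 7 / 5) ^ 8 := by
    ring
  rw [e]
  positivity

theorem y9hi_ord8 {y : ℝ} (h0 : 9 / 5 ≤ y) :
    0 ≤ 1 / 20000 * y + (31 / 200000 * (y + 11 / 20) ^ 6) * (2 / 5 * (y - 1) ^ 2) - 289 / 5000000 * y ^ 8 := by
  have h1 : 0 ≤ y - 9 / 5 := by linarith
  have e : 1 / 20000 * y + (31 / 200000 * (y + 11 / 20) ^ 6) * (2 / 5 * (y - 1) ^ 2) - 289 / 5000000 * y ^ 8 =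
      100894072763 / 250000000000000 * (y - 9 / 5) ^ 0
      + 551199800107 / 100000000000000 * (y - 9 / 5) ^ 1
      + 2593210584059 / 160000000000000 * (y - 9 / 5) ^ 2
      + 84720379759 / 4000000000000 * (y - 9 / 5) ^ 3
      + 1193996177 / 80000000000 * (y - 9 / 5) ^ 4
      + 29962577 / 5000000000 * (y - 9 / 5) ^ 5
      + 1330709 / 1000000000 * (y - 9 / 5) ^ 6
      + 3527 / 25000000 * (y - 9 / 5) ^ 7
      + 21 / 5000000 * (y - 9 / 5) ^ 8 := by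
    ring
  rw [e]
  positivity

theorem y10hi_ord8 {y : ℝ} (h0 : 7 / 5 ≤ y) :
    0 ≤ 1 / 10000 * y + (1 / 250 + 21 / 100000 * (y + 11 / 20) ^ 7) * (2 / 5 * (y - 1) ^ 2) - 199 / 2500000 * y ^ 9 := by
  have h1 : 0 ≤ y - 7 / 5 := by linarith
  have e : 1 / 10000 * y + (1 / 250 + 21 / 100000 * (y + 11 / 20) ^ 7) * (2 / 5 * (y - 1) ^ 2) - 199 / 2500000 * y ^ 9 =
      1923062461231 / 10000000000000000 * (y - 7 / 5) ^ 0
      + 6369256764267 / 2000000000000000 * (y - 7 / 5) ^ 1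
      + 22750451363551 / 1600000000000000 * (y - 7 / 5) ^ 2
      + 2285868567423 / 80000000000000 * (y - 7 / 5) ^ 3
      + 133160134779 / 4000000000000 * (y - 7 / 5) ^ 4
      + 4498554123 / 200000000000 * (y - 7 / 5) ^ 5
      + 90017949 / 10000000000 * (y - 7 / 5) ^ 6
      + 1010877 / 500000000 * (y - 7 / 5) ^ 7
      + 5271 / 25000000 * (y - 7 / 5) ^ 8
      + 11 / 2500000 * (y - 7 / 5) ^ 9 := by
    ring
  rw [e]
  positivity

theorem gh_nn_ord8 {y : ℝ} (hy : 0 < y) : 0 ≤ gh y := by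
  unfold gh gf
  split_ifs with h
  · linarith
  · have : 0 < max y 1 := lt_max_of_lt_right one_pos
    positivity

theorem fin_ord8 {y κ ν p q a b η θ : ℝ} (m : ℕ) (h : Par y κ ν) (hp : p ≤ y ^ (m + 1) * q)
    (hq : 0 ≤ a + b * zz_ord8 |κ| - q) (hb0 : 0 ≤ b) (hθ : 0 ≤ θ)
    (hB : b * y ^ m ≤ θ * (5135 / 10000)) (hA : a * y ^ (m + 1) ≤ η + θ * gh y) :
    p ≤ η + θ * Dp y κ ν := by
  have hy := h.y0
  have d0 : (16227 / 100000 : ℝ) ≤ dE := by unfold dE; linarith [r10_lo]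
  have d1 : dE ≤ (16228 / 100000 : ℝ) := by unfold dE; linarith [r10_hi]
  have hc : (5135 / 10000 : ℝ) ≤ cJ := by unfold cJ; linarith [r10_lo]
  have hz : zz_ord8 |κ| ≤ (κ - dE) ^ 2 := by
    unfold zz_ord8
    rw [sq_abs]
    have h1 : κ * dE ≤ |κ| * (16228 / 100000) :=
      mul_le_mul (le_abs_self κ) d1 (by linarith) (abs_nonneg κ)
    nlinarith
  have hw : 0 ≤ ν * y * wv y := by
    have := h.n0
    have : 0 ≤ wv y := by unfold wv; split_ifs <;> positivity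
    positivity
  have h1 : q ≤ a + b * (κ - dE) ^ 2 := by nlinarith [mul_le_mul_of_nonneg_left hz hb0]
  have h2 : y ^ (m + 1) * q ≤ y ^ (m + 1) * (a + b * (κ - dE) ^ 2) :=
    mul_le_mul_of_nonneg_left h1 (by positivity)
  have h3 : b * y ^ m * (y * (κ - dE) ^ 2) ≤ θ * cJ * (y * (κ - dE) ^ 2) :=
    mul_le_mul_of_nonneg_right (hB.trans (mul_le_mul_of_nonneg_left hc hθ)) (by positivity)
  have h4 := mul_nonneg hθ hw
  have e1 : y ^ (m + 1) * (a + b * (κ - dE) ^ 2) =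
      a * y ^ (m + 1) + b * y ^ m * (y * (κ - dE) ^ 2) := by ring
  have e2 : θ * Dp y κ ν = θ * cJ * (y * (κ - dE) ^ 2) + θ * (ν * y * wv y) + θ * gh y := by
    unfold Dp; ring
  linarith

theorem small_ord8 {y a η θ : ℝ} (m : ℕ) (hy : 0 < y) (h1 : y ≤ 1) (ha : 0 ≤ a) (hη : a ≤ η)
    (hθ : 0 ≤ θ) : a * y ^ m ≤ η + θ * gh y := by
  have h2 : a * y ^ m ≤ a * 1 := mul_le_mul_of_nonneg_left (pow_le_one₀ hy.le h1) ha
  have := mul_nonneg hθ (gh_nn_ord8 hy)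
  linarith

theorem big_ord8 {y a η θ : ℝ} (m : ℕ) (h1 : 1 ≤ y)
    (h : 0 ≤ η * y + θ * (2 / 5 * (y - 1) ^ 2) - a * y ^ (m + 1)) :
    a * y ^ m ≤ η + θ * gh y := by
  have hy : 0 < y := by linarith
  have e : gh y = 2 / 5 * (y - 1) ^ 2 / y := by
    unfold gh gf
    rw [if_neg (by norm_num; linarith), max_eq_left h1]
  refine le_of_mul_le_mul_right ?_ hy
  have e2 : (η + θ * gh y) * y = η * y + θ * (2 / 5 * (y - 1) ^ 2) := by
    rw [e]; field_simp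
  rw [e2, mul_assoc, ← pow_succ]
  linarith

theorem vs_ord8 {y κ ν : ℝ} (h : Par y κ ν) :
    0 ≤ vs y κ ν ∧ vs y κ ν ≤ (1 - κ ^ 2) / 4 * y ^ 2 := by
  unfold vs
  exact ⟨mul_nonneg (sub_nonneg.2 h.n1) (sq_nonneg y),
    mul_le_mul_of_nonneg_right (by linarith [h.n0]) (sq_nonneg y)⟩

theorem p8_ord8 {y κ ν : ℝ} (h : Par y κ ν) : p8 y κ ν ≤ y ^ (5 + 1) * Q8_ord8 |κ| := by
  obtain ⟨h0, h1⟩ := vs_ord8 h
  have hy := h.y0
  have e4 : |κ| ^ 4 = κ ^ 4 := Even.pow_abs ⟨2, rfl⟩ κ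
  have e6 : |κ| ^ 6 = κ ^ 6 := Even.pow_abs ⟨3, rfl⟩ κ
  calc p8 y κ ν ≤ m8 y κ / 40320 + (1 - κ ^ 2) / 4 * y ^ 2 *
        (m6 y κ / 1440 + |κ| * y * be5 y κ / 720 + m4 y κ ^ 2 / 1152)
      + ((1 - κ ^ 2) / 4 * y ^ 2) ^ 2 * (m4 y κ / 96 + (κ * y) ^ 2 / 72)
      + ((1 - κ ^ 2) / 4 * y ^ 2) ^ 3 / 64 := by
        have : 0 ≤ m6 y κ / 1440 + |κ| * y * be5 y κ / 720 + m4 y κ ^ 2 / 1152 := by
          unfold m6 be5; positivity
        have : 0 ≤ m4 y κ / 96 + (κ * y) ^ 2 / 72 := by unfold m4; positivity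
        unfold p8
        gcongr
    _ = _ := by
        unfold Q8_ord8 m8 m6 be5 m4
        rw [sq_abs, e4, e6]
        ring

theorem p9_ord8 {y κ ν : ℝ} (h : Par y κ ν) : p9 y κ ν ≤ y ^ (6 + 1) * Q9_ord8 |κ| := by
  obtain ⟨h0, h1⟩ := vs_ord8 h
  have hy := h.y0
  calc p9 y κ ν ≤ ((1 - κ ^ 2) / 4 * y ^ 2) ^ 2 *
        (|κ| * y * m4 y κ / 144 + be3 y κ ^ 3 / 648) := by
        have : 0 ≤ |κ| * y * m4 y κ / 144 + be3 y κ ^ 3 / 648 := by
          unfold m4 be3; positivity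
        unfold p9
        gcongr
    _ = _ := by
        unfold Q9_ord8 be3 m4
        rw [sq_abs]
        ring

theorem p10_ord8 {y κ ν : ℝ} (h : Par y κ ν) : p10 y κ ν ≤ y ^ (7 + 1) * Q10_ord8 |κ| := by
  obtain ⟨h0, h1⟩ := vs_ord8 h
  have hy := h.y0
  calc p10 y κ ν ≤ ((1 - κ ^ 2) / 4 * y ^ 2) ^ 2 * m4 y κ ^ 2 / 1152
      + ((1 - κ ^ 2) / 4 * y ^ 2) ^ 4 / 50 := by
        unfold p10
        gcongr
    _ = _ := by
        unfold Q10_ord8 m4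
        rw [sq_abs]
        ring

theorem pw_ord8 {y : ℝ} (hy : 0 < y) (m : ℕ) : y ^ m ≤ (max y 1.4 + 0.55) ^ m :=
  pow_le_pow_left₀ hy.le (by linarith [le_max_left y 1.4]) m

theorem ord8 {y κ ν : ℝ} (h : Par y κ ν) :
    p8 y κ ν ≤ 0.00055 + (0.046 + 0.00124 * (max y 1.4 + 0.55) ^ 5) * Dp y κ ν := by
  have hy := h.y0
  have k0 := abs_nonneg κ
  have k1 : |κ| ≤ 1 := abs_le.2 ⟨h.k0, h.k1⟩
  rcases le_total y 1.4 with h1 | h1
  · rw [max_eq_right h1]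
    refine fin_ord8 5 h (p8_ord8 h) (k8a_ord8 k0 k1) (by norm_num) (by norm_num) ?_ ?_
    · have : y ^ 5 ≤ 1.4 ^ 5 := pow_le_pow_left₀ hy.le h1 5
      norm_num at this ⊢
      linarith
    · rcases le_total y 1 with h2 | h2
      · exact small_ord8 _ hy h2 (by norm_num) (by norm_num) (by norm_num)
      · refine big_ord8 _ h2 ?_
        have := y8lo_ord8 h2 (by linarith)
        norm_num at this ⊢
        linarith
  · have h3 := pw_ord8 hy 5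
    rw [max_eq_left h1] at h3 ⊢
    refine fin_ord8 5 h (p8_ord8 h) (k8b_ord8 k0 k1) (by norm_num) (by positivity) ?_ ?_
    · have : 0 ≤ y ^ 5 := by positivity
      linarith
    · refine big_ord8 _ (by linarith) ?_
      have := y8hi_ord8 (y := y) (by linarith)
      norm_num at this ⊢
      linarith

theorem ord9 {y κ ν : ℝ} (h : Par y κ ν) :
    p9 y κ ν ≤ 0.00005 + 0.000155 * (max y 1.4 + 0.55) ^ 6 * Dp y κ ν := by
  have hy := h.y0
  have k0 := abs_nonneg κ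
  have k1 : |κ| ≤ 1 := abs_le.2 ⟨h.k0, h.k1⟩
  rcases le_total y 1.8 with h0 | h0
  · refine fin_ord8 6 h (p9_ord8 h) (k9a_ord8 k0 k1) (by norm_num) (by positivity) ?_ ?_
    · have h4 : max y 1.4 ≤ 1.8 := max_le h0 (by norm_num)
      have h5 : (13055 / 10000 * y) ^ 6 ≤ (max y 1.4 + 0.55) ^ 6 :=
        pow_le_pow_left₀ (by positivity) (by linarith [le_max_left y 1.4]) 6
      have : 0 ≤ y ^ 6 := by positivity
      rw [mul_pow] at h5
      linarith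
    · rcases le_total y 1 with h2 | h2
      · exact small_ord8 _ hy h2 (by norm_num) (by norm_num) (by positivity)
      · refine big_ord8 _ h2 ?_
        rcases le_total y 1.4 with h1 | h1
        · rw [max_eq_right h1]
          have := y9lo_ord8 h2 (by linarith)
          norm_num at this ⊢
          linarith
        · rw [max_eq_left h1]
          have := y9m_ord8 (y := y) (by linarith)
          norm_num at this ⊢
          linarith
  · have h3 := pw_ord8 hy 6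
    have h1 : (1.4 : ℝ) ≤ y := by linarith
    rw [max_eq_left h1] at h3 ⊢
    refine fin_ord8 6 h (p9_ord8 h) (k9b_ord8 k0 k1) (by norm_num) (by positivity) ?_ ?_
    · have : 0 ≤ y ^ 6 := by positivity
      linarith
    · refine big_ord8 _ (by linarith) ?_
      have := y9hi_ord8 (y := y) (by linarith)
      norm_num at this ⊢
      linarith

theorem ord10 {y κ ν : ℝ} (h : Par y κ ν) :
    p10 y κ ν ≤ 0.0001 + (0.004 + 0.00021 * (max y 1.4 + 0.55) ^ 7) * Dp y κ ν := by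
  have hy := h.y0
  have k0 := abs_nonneg κ
  have k1 : |κ| ≤ 1 := abs_le.2 ⟨h.k0, h.k1⟩
  have h3 := pw_ord8 hy 7
  refine fin_ord8 7 h (p10_ord8 h) (k10_ord8 k0 k1) (by norm_num) (by positivity) ?_ ?_
  · have : 0 ≤ y ^ 7 := by positivity
    linarith
  · rcases le_total y 1 with h2 | h2
    · exact small_ord8 _ hy h2 (by norm_num) (by norm_num) (by positivity)
    · refine big_ord8 _ h2 ?_
      rcases le_total y 1.4 with h1 | h1
      · rw [max_eq_right h1]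
        have := y10lo_ord8 h2 (by linarith)
        norm_num at this ⊢
        linarith
      · rw [max_eq_left h1]
        have := y10hi_ord8 (y := y) (by linarith)
        norm_num at this ⊢
        linarith

end Pool.Agent.Lib.MP_33650d_pr.Y
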