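import Pool.Agent.Lib.MP_33650d_pr.Y.Defs

namespace Pool.Agent.Lib.MP_33650d_pr.Y
open MeasureTheory ProbabilityTheory Real X

noncomputable def PT_sca (t : ℝ) : ℝ := 4 * (0.002 * t) * ((th0 t - 0.44) * 0.5135) - tau1 t ^ 2

noncomputable def PF_sca (G t u : ℝ) : ℝ :=
  0.4 * th0 t * (u - t) ^ 2 - u ^ 2 * (G + 0.002 * t)
    - u ^ 2 * (0.922 * t / 24 + 0.936 * t ^ 2 / 120 + 3.232 * t ^ 3 / 720)
    + u * t * (0.46 * t / 24 + 0.623 * t ^ 2 / 120 + 2.42 * t ^ 3 / 720)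

noncomputable def PE_sca (t u : ℝ) : ℝ :=
  0.2 + 0.3 * t - (u * u / 4 * (0.5 + t * (0.922 * u - 0.46 * t) / 24
    + t ^ 3 * (3.232 * u - 2.42 * t) / 720 + 0.002 * t * u) - 0.1 * th0 t * u * (u - t) ^ 2)

theorem tau0_sca {t : ℝ} (h1 : 0 ≤ t) (h2 : t ≤ (4 / 5)) : 0 ≤ PT_sca t := by
  have k : ∀ A B : ℝ, 0 ≤ A → 0 ≤ B → 0 ≤
      (1027 / 6553600) * A * B ^ 6 + (340801 / 147456000) * A ^ 2 * B ^ 5 +
      (14083829 / 1474560000) * A ^ 3 * B ^ 4 + (32348881 / 1843200000) * A ^ 4 * B ^ 3 +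
      (588281821 / 36864000000) * A ^ 5 * B ^ 2 + (210167161 / 30720000000) * A ^ 6 * B +
      (198722919 / 102400000000) * A ^ 7 := by
    intro A B _ _
    positivity
  refine (k (t - 0) ((4 / 5) - t) (by linarith) (by linarith)).trans_eq ?_
  unfold PT_sca th0 tau1
  ring

theorem tau1_sca {t : ℝ} (h1 : (4 / 5) ≤ t) (h2 : t ≤ (8 / 5)) : 0 ≤ PT_sca t := by
  have k : ∀ A B : ℝ, 0 ≤ A → 0 ≤ B → 0 ≤
      (198722919 / 102400000000) * B ^ 7 + (1561172747 / 76800000000) * A * B ^ 6 +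
      (89281394329 / 921600000000) * A ^ 2 * B ^ 5 + (25337688083 / 92160000000) * A ^ 3 * B ^ 4 +
      (92089965817 / 184320000000) * A ^ 4 * B ^ 3 +
      (131933519353 / 230400000000) * A ^ 5 * B ^ 2 + (38546958047 / 102400000000) * A ^ 6 * B +
      (5523901451 / 51200000000) * A ^ 7 := by
    intro A B _ _
    positivity
  refine (k (t - (4 / 5)) ((8 / 5) - t) (by linarith) (by linarith)).trans_eq ?_
  unfold PT_sca th0 tau1
  ring

theorem L0_sca {t : ℝ} (h1 : 0 ≤ t) (h2 : t ≤ 1) : 0 ≤ th0 t - thL t 2 := by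
  have k : ∀ A B : ℝ, 0 ≤ A → 0 ≤ B → 0 ≤
      (1679 / 12500) * B ^ 7 + (103251 / 125000) * A * B ^ 6 + (675771 / 312500) * A ^ 2 * B ^ 5 +
      (123531167 / 40000000) * A ^ 3 * B ^ 4 + (802860303 / 320000000) * A ^ 4 * B ^ 3 +
      (160858956613 / 160000000000) * A ^ 5 * B ^ 2 +
      (3333435461821 / 12800000000000) * A ^ 6 * B + (18238904497219 / 128000000000000) * A ^ 7 := by
    intro A B _ _
    positivity
  refine (k (t - 0) (1 - t) (by linarith) (by linarith)).trans_eq ?_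
  unfold th0 thL
  ring

theorem F0_sca {t u : ℝ} (h1 : 0 ≤ t) (h2 : t ≤ 1) (h3 : 2 ≤ u) (h4 : u ≤ (13 / 3)) :
    0 ≤ PF_sca (0.062 + 0.042 * (u - 2)) t u := by
  have k : ∀ A B C D : ℝ, 0 ≤ A → 0 ≤ B → 0 ≤ C → 0 ≤ D → 0 ≤
      (1593 / 42875) * B ^ 8 * D ^ 3 + (7173 / 42875) * B ^ 8 * C * D ^ 2 +
      (34593 / 171500) * B ^ 8 * C ^ 2 * D + (507 / 17150) * B ^ 8 * C ^ 3 +
      (87219 / 343000) * A * B ^ 7 * D ^ 3 + (50397 / 42875) * A * B ^ 7 * C * D ^ 2 +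
      (1969207 / 1372000) * A * B ^ 7 * C ^ 2 * D + (244387 / 1372000) * A * B ^ 7 * C ^ 3 +
      (160911 / 214375) * A ^ 2 * B ^ 6 * D ^ 3 +
      (12335517 / 3430000) * A ^ 2 * B ^ 6 * C * D ^ 2 +
      (6172861 / 1372000) * A ^ 2 * B ^ 6 * C ^ 2 * D +
      (3275063 / 6860000) * A ^ 2 * B ^ 6 * C ^ 3 + (8421963 / 6860000) * A ^ 3 * B ^ 5 * D ^ 3 +
      (84844189 / 13720000) * A ^ 3 * B ^ 5 * C * D ^ 2 +
      (165469277 / 20580000) * A ^ 3 * B ^ 5 * C ^ 2 * D +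
      (6025889 / 8232000) * A ^ 3 * B ^ 5 * C ^ 3 + (1625349 / 1372000) * A ^ 4 * B ^ 4 * D ^ 3 +
      (17624931 / 2744000) * A ^ 4 * B ^ 4 * C * D ^ 2 +
      (36422627 / 4116000) * A ^ 4 * B ^ 4 * C ^ 2 * D +
      (220819 / 329280) * A ^ 4 * B ^ 4 * C ^ 3 + (449037 / 686000) * A ^ 5 * B ^ 3 * D ^ 3 +
      (1099837 / 274400) * A ^ 5 * B ^ 3 * C * D ^ 2 +
      (24849871 / 4116000) * A ^ 5 * B ^ 3 * C ^ 2 * D +
      (682853 / 2058000) * A ^ 5 * B ^ 3 * C ^ 3 + (137841 / 686000) * A ^ 6 * B ^ 2 * D ^ 3 +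
      (2096377 / 1372000) * A ^ 6 * B ^ 2 * C * D ^ 2 +
      (2203361 / 823200) * A ^ 6 * B ^ 2 * C ^ 2 * D + (22322 / 128625) * A ^ 6 * B ^ 2 * C ^ 3 +
      (216087 / 6860000) * A ^ 7 * B * D ^ 3 + (5171673 / 13720000) * A ^ 7 * B * C * D ^ 2 +
      (3496979 / 4116000) * A ^ 7 * B * C ^ 2 * D + (6921533 / 41160000) * A ^ 7 * B * C ^ 3 +
      (11133 / 6860000) * A ^ 8 * D ^ 3 + (694019 / 13720000) * A ^ 8 * C * D ^ 2 +
      (3228077 / 20580000) * A ^ 8 * C ^ 2 * D + (108487 / 1646400) * A ^ 8 * C ^ 3 := by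
    intro A B C D _ _ _ _
    positivity
  refine (k (t - 0) (1 - t) (u - 2) ((13 / 3) - u) (by linarith) (by linarith) (by linarith)
    (by linarith)).trans_eq ?_
  unfold PF_sca th0
  ring

theorem L1_sca {t : ℝ} (h1 : 1 ≤ t) (h2 : t ≤ (5 / 4)) : 0 ≤ th0 t - thL t (21 / 10) := by
  have k : ∀ A B : ℝ, 0 ≤ A → 0 ≤ B → 0 ≤
      (2776813180633 / 7812500000) * B ^ 7 + (158357859557351 / 31250000000) * A * B ^ 6 +
      (3173515265815113 / 125000000000) * A ^ 2 * B ^ 5 +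
      (6428747257837491 / 100000000000) * A ^ 3 * B ^ 4 +
      (36944845133234711 / 400000000000) * A ^ 4 * B ^ 3 +
      (613712300920340093 / 8000000000000) * A ^ 5 * B ^ 2 +
      (1102990988428873451 / 32000000000000) * A ^ 6 * B +
      (832661725783197853 / 128000000000000) * A ^ 7 := by
    intro A B _ _
    positivity
  refine (k (t - 1) ((5 / 4) - t) (by linarith) (by linarith)).trans_eq ?_
  unfold th0 thL
  ring

theorem F1_sca {t u : ℝ} (h1 : 1 ≤ t) (h2 : t ≤ (5 / 4)) (h3 : (21 / 10) ≤ u) (h4 : u ≤ (13 / 3)) :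
    0 ≤ PF_sca (0.062 + 0.042 * (u - 2)) t u := by
  have k : ∀ A B C D : ℝ, 0 ≤ A → 0 ≤ B → 0 ≤ C → 0 ≤ D → 0 ≤
      (10368516096 / 37595375) * B ^ 8 * D ^ 3 + (167392047104 / 37595375) * B ^ 8 * C * D ^ 2 +
      (267393839104 / 22557225) * B ^ 8 * C ^ 2 * D + (4443627520 / 902289) * B ^ 8 * C ^ 3 +
      (72827817984 / 37595375) * A * B ^ 7 * D ^ 3 +
      (1381726399488 / 37595375) * A * B ^ 7 * C * D ^ 2 +
      (2322081790976 / 22557225) * A * B ^ 7 * C ^ 2 * D +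
      (208006076416 / 4511445) * A * B ^ 7 * C ^ 3 +
      (225927127296 / 37595375) * A ^ 2 * B ^ 6 * D ^ 3 +
      (202050562048 / 1503815) * A ^ 2 * B ^ 6 * C * D ^ 2 +
      (1778405897984 / 4511445) * A ^ 2 * B ^ 6 * C ^ 2 * D +
      (170333377024 / 902289) * A ^ 2 * B ^ 6 * C ^ 3 +
      (406271305152 / 37595375) * A ^ 3 * B ^ 5 * D ^ 3 +
      (2134409590272 / 7519075) * A ^ 3 * B ^ 5 * C * D ^ 2 +
      (1305984437952 / 1503815) * A ^ 3 * B ^ 5 * C ^ 2 * D +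
      (132710863488 / 300763) * A ^ 3 * B ^ 5 * C ^ 3 +
      (92974095648 / 7519075) * A ^ 4 * B ^ 4 * D ^ 3 +
      (569232304128 / 1503815) * A ^ 4 * B ^ 4 * C * D ^ 2 +
      (1808287799328 / 1503815) * A ^ 4 * B ^ 4 * C ^ 2 * D +
      (193580299200 / 300763) * A ^ 4 * B ^ 4 * C ^ 3 +
      (346865573376 / 37595375) * A ^ 5 * B ^ 3 * D ^ 3 +
      (12240522081024 / 37595375) * A ^ 5 * B ^ 3 * C * D ^ 2 +
      (8046891157248 / 7519075) * A ^ 5 * B ^ 3 * C ^ 2 * D +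
      (180366583296 / 300763) * A ^ 5 * B ^ 3 * C ^ 3 +
      (164260023264 / 37595375) * A ^ 6 * B ^ 2 * D ^ 3 +
      (6617455344928 / 37595375) * A ^ 6 * B ^ 2 * C * D ^ 2 +
      (13469947096256 / 22557225) * A ^ 6 * B ^ 2 * C ^ 2 * D +
      (1571907398656 / 4511445) * A ^ 6 * B ^ 2 * C ^ 3 +
      (44769394656 / 37595375) * A ^ 7 * B * D ^ 3 +
      (82039169088 / 1503815) * A ^ 7 * B * C * D ^ 2 +
      (860613152864 / 4511445) * A ^ 7 * B * C ^ 2 * D +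
      (104105104192 / 902289) * A ^ 7 * B * C ^ 3 + (5308243272 / 37595375) * A ^ 8 * D ^ 3 +
      (55671500728 / 7519075) * A ^ 8 * C * D ^ 2 + (120380143144 / 4511445) * A ^ 8 * C ^ 2 * D +
      (15039285080 / 902289) * A ^ 8 * C ^ 3 := by
    intro A B C D _ _ _ _
    positivity
  refine (k (t - 1) ((5 / 4) - t) (u - (21 / 10)) ((13 / 3) - u) (by linarith) (by linarith) (by linarith)
    (by linarith)).trans_eq ?_
  unfold PF_sca th0
  ring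

theorem L2_sca {t : ℝ} (h1 : (5 / 4) ≤ t) (h2 : t ≤ (8 / 5)) : 0 ≤ th0 t - thL t (56 / 25) := by
  have k : ∀ A B : ℝ, 0 ≤ A → 0 ≤ B → 0 ≤
      (23271892871734777467889 / 105413504000000000000) * B ^ 7 +
      (778629358271819104397 / 268912000000000000) * A * B ^ 6 +
      (409739231221524265729 / 29412250000000000) * A ^ 2 * B ^ 5 +
      (12659244343624068149 / 367653125000000) * A ^ 3 * B ^ 4 +
      (559636759330170441 / 11489160156250) * A ^ 4 * B ^ 3 +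
      (1150623435543427712 / 28722900390625) * A ^ 5 * B ^ 2 +
      (513932280170071552 / 28722900390625) * A ^ 6 * B +
      (676953418690072576 / 201060302734375) * A ^ 7 := by
    intro A B _ _
    positivity
  refine (k (t - (5 / 4)) ((8 / 5) - t) (by linarith) (by linarith)).trans_eq ?_
  unfold th0 thL
  ring

theorem F2_sca {t u : ℝ} (h1 : (5 / 4) ≤ t) (h2 : t ≤ (8 / 5)) (h3 : (11 / 5) ≤ u) (h4 : u ≤ (13 / 3)) :
    0 ≤ PF_sca (0.062 + 0.042 * (u - 2)) t u := by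
  have k : ∀ A B C D : ℝ, 0 ≤ A → 0 ≤ B → 0 ≤ C → 0 ≤ D → 0 ≤
      (7022146865625 / 188900999168) * B ^ 8 * D ^ 3 +
      (134207227796875 / 188900999168) * B ^ 8 * C * D ^ 2 +
      (1221591795390625 / 566702997504) * B ^ 8 * C ^ 2 * D +
      (734340091796875 / 566702997504) * B ^ 8 * C ^ 3 +
      (7492011234375 / 23612624896) * A * B ^ 7 * D ^ 3 +
      (150446769603125 / 23612624896) * A * B ^ 7 * C * D ^ 2 +
      (1407406974109375 / 70837874688) * A * B ^ 7 * C ^ 2 * D +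
      (872846238203125 / 70837874688) * A * B ^ 7 * C ^ 3 +
      (1003672954875 / 843308032) * A ^ 2 * B ^ 6 * D ^ 3 +
      (21110176178625 / 843308032) * A ^ 2 * B ^ 6 * C * D ^ 2 +
      (202832703261875 / 2529924096) * A ^ 2 * B ^ 6 * C ^ 2 * D +
      (129301135990625 / 2529924096) * A ^ 2 * B ^ 6 * C ^ 3 +
      (1068901533675 / 421654016) * A ^ 3 * B ^ 5 * D ^ 3 +
      (23656764379425 / 421654016) * A ^ 3 * B ^ 5 * C * D ^ 2 +
      (77902567082625 / 421654016) * A ^ 3 * B ^ 5 * C ^ 2 * D +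
      (50910685036875 / 421654016) * A ^ 3 * B ^ 5 * C ^ 3 +
      (11186388815625 / 3373232128) * A ^ 4 * B ^ 4 * D ^ 3 +
      (263893965154875 / 3373232128) * A ^ 4 * B ^ 4 * C * D ^ 2 +
      (895960949974875 / 3373232128) * A ^ 4 * B ^ 4 * C ^ 2 * D +
      (599213181635625 / 3373232128) * A ^ 4 * B ^ 4 * C ^ 3 +
      (4545143339175 / 1686616064) * A ^ 5 * B ^ 3 * D ^ 3 +
      (116887666931925 / 1686616064) * A ^ 5 * B ^ 3 * C * D ^ 2 +
      (410978676787125 / 1686616064) * A ^ 5 * B ^ 3 * C ^ 2 * D +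
      (281020076394375 / 1686616064) * A ^ 5 * B ^ 3 * C ^ 3 +
      (137867222349 / 105413504) * A ^ 6 * B ^ 2 * D ^ 3 +
      (4004064533639 / 105413504) * A ^ 6 * B ^ 2 * C * D ^ 2 +
      (44011944797045 / 316240512) * A ^ 6 * B ^ 2 * C ^ 2 * D +
      (30761845663175 / 316240512) * A ^ 6 * B ^ 2 * C ^ 3 +
      (124898464239 / 368947264) * A ^ 7 * B * D ^ 3 +
      (4332390632845 / 368947264) * A ^ 7 * B * C * D ^ 2 +
      (50035214558183 / 1106841792) * A ^ 7 * B * C ^ 2 * D +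
      (35761230852365 / 1106841792) * A ^ 7 * B * C ^ 3 + (394838373 / 11529602) * A ^ 8 * D ^ 3 +
      (18016360527 / 11529602) * A ^ 8 * C * D ^ 2 +
      (220960975181 / 34588806) * A ^ 8 * C ^ 2 * D + (161645208719 / 34588806) * A ^ 8 * C ^ 3 := by
    intro A B C D _ _ _ _
    positivity
  refine (k (t - (5 / 4)) ((8 / 5) - t) (u - (11 / 5)) ((13 / 3) - u) (by linarith) (by linarith) (by linarith)
    (by linarith)).trans_eq ?_
  unfold PF_sca th0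
  ring

theorem G0_sca {t u : ℝ} (h1 : 0 ≤ t) (h2 : t ≤ (4 / 5)) (h3 : (13 / 3) ≤ u) :
    0 ≤ PF_sca 0.16 t u := by
  have k : ∀ A B C : ℝ, 0 ≤ A → 0 ≤ B → 0 ≤ C → 0 ≤
      (2640625 / 1179648) * B ^ 8 + (203125 / 196608) * B ^ 8 * C +
      (15625 / 131072) * B ^ 8 * C ^ 2 + (203441875 / 14155776) * A * B ^ 7 +
      (19699375 / 2359296) * A * B ^ 7 * C + (1826875 / 1572864) * A * B ^ 7 * C ^ 2 +
      (576834925 / 14155776) * A ^ 2 * B ^ 6 + (73313725 / 2359296) * A ^ 2 * B ^ 6 * C +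
      (7923325 / 1572864) * A ^ 2 * B ^ 6 * C ^ 2 + (2811698005 / 42467328) * A ^ 3 * B ^ 5 +
      (484247845 / 7077888) * A ^ 3 * B ^ 5 * C + (58962085 / 4718592) * A ^ 3 * B ^ 5 * C ^ 2 +
      (2816915315 / 42467328) * A ^ 4 * B ^ 4 + (678739055 / 7077888) * A ^ 4 * B ^ 4 * C +
      (90707675 / 4718592) * A ^ 4 * B ^ 4 * C ^ 2 + (1722879835 / 42467328) * A ^ 5 * B ^ 3 +
      (612366895 / 7077888) * A ^ 5 * B ^ 3 * C + (88287475 / 4718592) * A ^ 5 * B ^ 3 * C ^ 2 +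
      (3456462233 / 212336640) * A ^ 6 * B ^ 2 + (1763861441 / 35389440) * A ^ 6 * B ^ 2 * C +
      (268397657 / 23592960) * A ^ 6 * B ^ 2 * C ^ 2 + (6347009471 / 1061683200) * A ^ 7 * B +
      (3126598151 / 176947200) * A ^ 7 * B * C + (96361939 / 23592960) * A ^ 7 * B * C ^ 2 +
      (8593241513 / 5308416000) * A ^ 8 + (550294321 / 176947200) * A ^ 8 * C +
      (16414457 / 23592960) * A ^ 8 * C ^ 2 := by
    intro A B C _ _ _
    positivity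
  refine (k (t - 0) ((4 / 5) - t) (u - (13 / 3)) (by linarith) (by linarith)
    (by linarith)).trans_eq ?_
  unfold PF_sca th0
  ring

theorem G1_sca {t u : ℝ} (h1 : (4 / 5) ≤ t) (h2 : t ≤ (8 / 5)) (h3 : (13 / 3) ≤ u) :
    0 ≤ PF_sca 0.16 t u := by
  have k : ∀ A B C : ℝ, 0 ≤ A → 0 ≤ B → 0 ≤ C → 0 ≤
      (8593241513 / 5308416000) * B ^ 8 + (550294321 / 176947200) * B ^ 8 * C +
      (16414457 / 23592960) * B ^ 8 * C ^ 2 + (105756816853 / 5308416000) * A * B ^ 7 +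
      (1135622197 / 35389440) * A * B ^ 7 * C + (166269373 / 23592960) * A * B ^ 7 * C ^ 2 +
      (604563942311 / 5308416000) * A ^ 2 * B ^ 6 +
      (26679897043 / 176947200) * A ^ 2 * B ^ 6 * C +
      (151549939 / 4718592) * A ^ 2 * B ^ 6 * C ^ 2 + (74281737427 / 196608000) * A ^ 3 * B ^ 5 +
      (8268902801 / 19660800) * A ^ 3 * B ^ 5 * C +
      (226512041 / 2621440) * A ^ 3 * B ^ 5 * C ^ 2 + (91596115673 / 117964800) * A ^ 4 * B ^ 4 +
      (2975940937 / 3932160) * A ^ 4 * B ^ 4 * C + (78797177 / 524288) * A ^ 4 * B ^ 4 * C ^ 2 +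
      (589373899319 / 589824000) * A ^ 5 * B ^ 3 + (5836901161 / 6553600) * A ^ 5 * B ^ 3 * C +
      (452405311 / 2621440) * A ^ 5 * B ^ 3 * C ^ 2 +
      (4141397554861 / 5308416000) * A ^ 6 * B ^ 2 +
      (23411638117 / 35389440) * A ^ 6 * B ^ 2 * C +
      (2994839941 / 23592960) * A ^ 6 * B ^ 2 * C ^ 2 + (1783474399547 / 5308416000) * A ^ 7 * B +
      (49592161291 / 176947200) * A ^ 7 * B * C + (255822943 / 4718592) * A ^ 7 * B * C ^ 2 +
      (161645208719 / 2654208000) * A ^ 8 + (4540502359 / 88473600) * A ^ 8 * C +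
      (120381599 / 11796480) * A ^ 8 * C ^ 2 := by
    intro A B C _ _ _
    positivity
  refine (k (t - (4 / 5)) ((8 / 5) - t) (u - (13 / 3)) (by linarith) (by linarith)
    (by linarith)).trans_eq ?_
  unfold PF_sca th0
  ring

theorem E0_sca {t u : ℝ} (h1 : 0 ≤ t) (h2 : t ≤ (8 / 5)) (h3 : 0 ≤ u) (h4 : u ≤ (3 / 2)) :
    0 ≤ PE_sca t u := by
  have k : ∀ A B C D : ℝ, 0 ≤ A → 0 ≤ B → 0 ≤ C → 0 ≤ D → 0 ≤
      (78125 / 56623104) * B ^ 8 * D ^ 3 + (78125 / 18874368) * B ^ 8 * C * D ^ 2 +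
      (1328125 / 603979776) * B ^ 8 * C ^ 2 * D + (1765625 / 3623878656) * B ^ 8 * C ^ 3 +
      (203125 / 14155776) * A * B ^ 7 * D ^ 3 + (203125 / 4718592) * A * B ^ 7 * C * D ^ 2 +
      (1909375 / 75497472) * A * B ^ 7 * C ^ 2 * D + (38991875 / 7247757312) * A * B ^ 7 * C ^ 3 +
      (109375 / 1769472) * A ^ 2 * B ^ 6 * D ^ 3 +
      (880625 / 4718592) * A ^ 2 * B ^ 6 * C * D ^ 2 +
      (17571125 / 150994944) * A ^ 2 * B ^ 6 * C ^ 2 * D +
      (179768125 / 7247757312) * A ^ 2 * B ^ 6 * C ^ 3 +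
      (2078125 / 14155776) * A ^ 3 * B ^ 5 * D ^ 3 +
      (2116075 / 4718592) * A ^ 3 * B ^ 5 * C * D ^ 2 +
      (21874975 / 75497472) * A ^ 3 * B ^ 5 * C ^ 2 * D +
      (446616095 / 7247757312) * A ^ 3 * B ^ 5 * C ^ 3 +
      (6015625 / 28311552) * A ^ 4 * B ^ 4 * D ^ 3 +
      (6237895 / 9437184) * A ^ 4 * B ^ 4 * C * D ^ 2 +
      (395870905 / 905969664) * A ^ 4 * B ^ 4 * C ^ 2 * D +
      (221184535 / 2415919104) * A ^ 4 * B ^ 4 * C ^ 3 +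
      (2734375 / 14155776) * A ^ 5 * B ^ 3 * D ^ 3 +
      (2911915 / 4718592) * A ^ 5 * B ^ 3 * C * D ^ 2 +
      (94161655 / 226492416) * A ^ 5 * B ^ 3 * C ^ 2 * D +
      (616450345 / 7247757312) * A ^ 5 * B ^ 3 * C ^ 3 +
      (765625 / 7077888) * A ^ 6 * B ^ 2 * D ^ 3 +
      (1692185 / 4718592) * A ^ 6 * B ^ 2 * C * D ^ 2 +
      (37281905 / 150994944) * A ^ 6 * B ^ 2 * C ^ 2 * D +
      (2099541347 / 36238786560) * A ^ 6 * B ^ 2 * C ^ 3 +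
      (484375 / 14155776) * A ^ 7 * B * D ^ 3 + (562165 / 4718592) * A ^ 7 * B * C * D ^ 2 +
      (374557351 / 5662310400) * A ^ 7 * B * C ^ 2 * D +
      (2815988077 / 181193932800) * A ^ 7 * B * C ^ 3 + (265625 / 56623104) * A ^ 8 * D ^ 3 +
      (64064297 / 2359296000) * A ^ 8 * C * D ^ 2 +
      (3180865939 / 226492416000) * A ^ 8 * C ^ 2 * D + (783481211 / 301989888000) * A ^ 8 * C ^ 3 := by
    intro A B C D _ _ _ _
    positivity
  refine (k (t - 0) ((8 / 5) - t) (u - 0) ((3 / 2) - u) (by linarith) (by linarith) (by linarith)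
    (by linarith)).trans_eq ?_
  unfold PE_sca th0
  ring

theorem E1_sca {t u : ℝ} (h1 : 0 ≤ t) (h2 : t ≤ (4 / 5)) (h3 : (3 / 2) ≤ u) (h4 : u ≤ 3) :
    0 ≤ PE_sca t u := by
  have k : ∀ A B C D : ℝ, 0 ≤ A → 0 ≤ B → 0 ≤ C → 0 ≤ D → 0 ≤
      (1765625 / 14155776) * B ^ 8 * D ^ 3 + (109375 / 589824) * B ^ 8 * C * D ^ 2 +
      (359375 / 1179648) * B ^ 8 * C ^ 2 * D + (453125 / 884736) * B ^ 8 * C ^ 3 +
      (67241875 / 56623104) * A * B ^ 7 * D ^ 3 + (15441875 / 9437184) * A * B ^ 7 * C * D ^ 2 +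
      (9641875 / 4718592) * A * B ^ 7 * C ^ 2 * D + (26841875 / 7077888) * A * B ^ 7 * C ^ 3 +
      (275793125 / 56623104) * A ^ 2 * B ^ 6 * D ^ 3 +
      (20465375 / 3145728) * A ^ 2 * B ^ 6 * C * D ^ 2 +
      (3262125 / 524288) * A ^ 2 * B ^ 6 * C ^ 2 * D +
      (88682125 / 7077888) * A ^ 2 * B ^ 6 * C ^ 3 +
      (635451055 / 56623104) * A ^ 3 * B ^ 5 * D ^ 3 +
      (139522655 / 9437184) * A ^ 3 * B ^ 5 * C * D ^ 2 +
      (51888655 / 4718592) * A ^ 3 * B ^ 5 * C ^ 2 * D +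
      (169549055 / 7077888) * A ^ 3 * B ^ 5 * C ^ 3 +
      (33356755 / 2097152) * A ^ 4 * B ^ 4 * D ^ 3 +
      (586316515 / 28311552) * A ^ 4 * B ^ 4 * C * D ^ 2 +
      (169228355 / 14155776) * A ^ 4 * B ^ 4 * C ^ 2 * D +
      (7538675 / 262144) * A ^ 4 * B ^ 4 * C ^ 3 +
      (805915865 / 56623104) * A ^ 5 * B ^ 3 * D ^ 3 +
      (515957035 / 28311552) * A ^ 5 * B ^ 3 * C * D ^ 2 +
      (110904395 / 14155776) * A ^ 5 * B ^ 3 * C ^ 2 * D +
      (155863225 / 7077888) * A ^ 5 * B ^ 3 * C ^ 3 +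
      (2239213771 / 283115520) * A ^ 6 * B ^ 2 * D ^ 3 +
      (52685819 / 5242880) * A ^ 6 * B ^ 2 * C * D ^ 2 +
      (25205257 / 7864320) * A ^ 6 * B ^ 2 * C ^ 2 * D +
      (378543971 / 35389440) * A ^ 6 * B ^ 2 * C ^ 3 +
      (3542540573 / 1415577600) * A ^ 7 * B * D ^ 3 +
      (91222399 / 28311552) * A ^ 7 * B * C * D ^ 2 +
      (323546231 / 353894400) * A ^ 7 * B * C ^ 2 * D +
      (560526829 / 176947200) * A ^ 7 * B * C ^ 3 + (90431953 / 262144000) * A ^ 8 * D ^ 3 +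
      (1615250957 / 3538944000) * A ^ 8 * C * D ^ 2 + (10711009 / 70778880) * A ^ 8 * C ^ 2 * D +
      (135562333 / 294912000) * A ^ 8 * C ^ 3 := by
    intro A B C D _ _ _ _
    positivity
  refine (k (t - 0) ((4 / 5) - t) (u - (3 / 2)) (3 - u) (by linarith) (by linarith) (by linarith)
    (by linarith)).trans_eq ?_
  unfold PE_sca th0
  ring

theorem E2_sca {t u : ℝ} (h1 : (4 / 5) ≤ t) (h2 : t ≤ (8 / 5)) (h3 : (3 / 2) ≤ u) (h4 : u ≤ 3) :
    0 ≤ PE_sca t u := by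
  have k : ∀ A B C D : ℝ, 0 ≤ A → 0 ≤ B → 0 ≤ C → 0 ≤ D → 0 ≤
      (90431953 / 262144000) * B ^ 8 * D ^ 3 + (1615250957 / 3538944000) * B ^ 8 * C * D ^ 2 +
      (10711009 / 70778880) * B ^ 8 * C ^ 2 * D + (135562333 / 294912000) * B ^ 8 * C ^ 3 +
      (21353900831 / 7077888000) * A * B ^ 7 * D ^ 3 +
      (534859831 / 131072000) * A * B ^ 7 * C * D ^ 2 +
      (177778163 / 117964800) * A * B ^ 7 * C ^ 2 * D +
      (3704357839 / 884736000) * A * B ^ 7 * C ^ 3 +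
      (81468730037 / 7077888000) * A ^ 2 * B ^ 6 * D ^ 3 +
      (56831836759 / 3538944000) * A ^ 2 * B ^ 6 * C * D ^ 2 +
      (2602754371 / 353894400) * A ^ 2 * B ^ 6 * C ^ 2 * D +
      (15775665133 / 884736000) * A ^ 2 * B ^ 6 * C ^ 3 +
      (177022511003 / 7077888000) * A ^ 3 * B ^ 5 * D ^ 3 +
      (42685914587 / 1179648000) * A ^ 3 * B ^ 5 * C * D ^ 2 +
      (2551001887 / 117964800) * A ^ 3 * B ^ 5 * C ^ 2 * D +
      (40854795547 / 884736000) * A ^ 3 * B ^ 5 * C ^ 3 +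
      (47822065979 / 1415577600) * A ^ 4 * B ^ 4 * D ^ 3 +
      (11894403131 / 235929600) * A ^ 4 * B ^ 4 * C * D ^ 2 +
      (103314887 / 2621440) * A ^ 4 * B ^ 4 * C ^ 2 * D +
      (13836366331 / 176947200) * A ^ 4 * B ^ 4 * C ^ 3 +
      (204822771677 / 7077888000) * A ^ 5 * B ^ 3 * D ^ 3 +
      (51080193773 / 1179648000) * A ^ 5 * B ^ 3 * C * D ^ 2 +
      (1020815237 / 23592960) * A ^ 5 * B ^ 3 * C ^ 2 * D +
      (76518333133 / 884736000) * A ^ 5 * B ^ 3 * C ^ 3 +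
      (108430269047 / 7077888000) * A ^ 6 * B ^ 2 * D ^ 3 +
      (75427645069 / 3538944000) * A ^ 6 * B ^ 2 * C * D ^ 2 +
      (9344611633 / 353894400) * A ^ 6 * B ^ 2 * C ^ 2 * D +
      (52600682143 / 884736000) * A ^ 6 * B ^ 2 * C ^ 3 +
      (32883489449 / 7077888000) * A ^ 7 * B * D ^ 3 +
      (5930675081 / 1179648000) * A ^ 7 * B * C * D ^ 2 +
      (874592149 / 117964800) * A ^ 7 * B * C ^ 2 * D +
      (20085346441 / 884736000) * A ^ 7 * B * C ^ 3 + (783481211 / 1179648000) * A ^ 8 * D ^ 3 +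
      (689599021 / 1769472000) * A ^ 8 * C * D ^ 2 + (95607931 / 176947200) * A ^ 8 * C ^ 2 * D +
      (535878089 / 147456000) * A ^ 8 * C ^ 3 := by
    intro A B C D _ _ _ _
    positivity
  refine (k (t - (4 / 5)) ((8 / 5) - t) (u - (3 / 2)) (3 - u) (by linarith) (by linarith) (by linarith)
    (by linarith)).trans_eq ?_
  unfold PE_sca th0
  ring

theorem E3_sca {t u : ℝ} (h1 : 0 ≤ t) (h2 : t ≤ (8 / 5)) (h3 : 3 ≤ u) :
    0 ≤ PE_sca t u := by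
  have k : ∀ A B C : ℝ, 0 ≤ A → 0 ≤ B → 0 ≤ C → 0 ≤
      (453125 / 67108864) * B ^ 8 + (1453125 / 134217728) * B ^ 8 * C +
      (109375 / 16777216) * B ^ 8 * C ^ 2 + (140625 / 134217728) * B ^ 8 * C ^ 3 +
      (12341875 / 268435456) * A * B ^ 7 + (20791875 / 268435456) * A * B ^ 7 * C +
      (14080625 / 268435456) * A * B ^ 7 * C ^ 2 + (7076875 / 805306368) * A * B ^ 7 * C ^ 3 +
      (40221125 / 268435456) * A ^ 2 * B ^ 6 + (69092125 / 268435456) * A ^ 2 * B ^ 6 * C +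
      (154683125 / 805306368) * A ^ 2 * B ^ 6 * C ^ 2 +
      (26777125 / 805306368) * A ^ 2 * B ^ 6 * C ^ 3 + (76190095 / 268435456) * A ^ 3 * B ^ 5 +
      (134905695 / 268435456) * A ^ 3 * B ^ 5 * C +
      (110492965 / 268435456) * A ^ 3 * B ^ 5 * C ^ 2 +
      (177636565 / 2415919104) * A ^ 3 * B ^ 5 * C ^ 3 + (85245825 / 268435456) * A ^ 4 * B ^ 4 +
      (490105535 / 805306368) * A ^ 4 * B ^ 4 * C +
      (1344649435 / 2415919104) * A ^ 4 * B ^ 4 * C ^ 2 +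
      (249096575 / 2415919104) * A ^ 4 * B ^ 4 * C ^ 3 + (53039225 / 268435456) * A ^ 5 * B ^ 3 +
      (363881915 / 805306368) * A ^ 5 * B ^ 3 * C +
      (1161821515 / 2415919104) * A ^ 5 * B ^ 3 * C ^ 2 +
      (225326275 / 2415919104) * A ^ 5 * B ^ 3 * C ^ 3 +
      (384707947 / 1342177280) * A ^ 6 * B ^ 2 + (569428547 / 1342177280) * A ^ 6 * B ^ 2 * C +
      (1347147547 / 4026531840) * A ^ 6 * B ^ 2 * C ^ 2 +
      (742621649 / 12079595520) * A ^ 6 * B ^ 2 * C ^ 3 + (1444854461 / 6710886400) * A ^ 7 * B +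
      (6810213767 / 20132659200) * A ^ 7 * B * C +
      (12357648151 / 60397977600) * A ^ 7 * B * C ^ 2 +
      (414485923 / 12079595520) * A ^ 7 * B * C ^ 3 + (1607634267 / 33554432000) * A ^ 8 +
      (9167765947 / 100663296000) * A ^ 8 * C + (3613810321 / 60397977600) * A ^ 8 * C ^ 2 +
      (133035599 / 12079595520) * A ^ 8 * C ^ 3 := by
    intro A B C _ _ _
    positivity
  refine (k (t - 0) ((8 / 5) - t) (u - 3) (by linarith) (by linarith)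
    (by linarith)).trans_eq ?_
  unfold PE_sca th0
  ring

theorem d_sca : 0.1622776 < dE ∧ dE < 0.1622777 ∧ dE ^ 2 = 1 - 6 * dE := by
  unfold dE
  refine ⟨by linarith [r10_lo], by linarith [r10_hi], by linear_combination r10_sq⟩

theorem a4_sca (y κ ν : ℝ) : a4 y κ ν =
    (9 * dE - 1) + (2 - 18 * dE) * y + 3 * dE * (y * (κ - dE)) + 2 * (ν * y) := by
  unfold a4 A4 B4
  linear_combination (3 * y - 3 / 2) * d_sca.2.2

theorem a5_sca (y κ ν : ℝ) : a5 y κ ν = (36 - 218 * dE) + (327 * dE - 54) * y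
    + (7 - 54 * dE) * (y * (κ - dE)) + 8 * dE * (ν * y) := by
  unfold a5 A5 B5 C5
  linear_combination (36 - 6 * dE + 9 * κ * y - 54 * y) * d_sca.2.2

theorem a6_sca (y κ ν : ℝ) : a6 y κ ν = (4995 * dE - 813) + (1084 - 6660 * dE) * y
    + (1095 * dE - 180) * (y * (κ - dE)) - (180 * dE - 22) * (ν * y) := by
  unfold a6 A6 B6 C6
  linear_combination (-810 + 135 * dE - 45 / 2 * dE ^ 2 + (30 * dE - 180) * κ * y + 1080 * y
    + 30 * ν * y) * d_sca.2.2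

theorem lin_sca {c c' y ζ : ℝ} (hy : 0 ≤ y) (hc : |c| ≤ c') :
    -(c' * (y * |ζ|)) ≤ c * (y * ζ) ∧ c * (y * ζ) ≤ c' * (y * |ζ|) := by
  rw [← abs_le, abs_mul, abs_mul, abs_of_nonneg hy]
  exact mul_le_mul_of_nonneg_right hc (by positivity)

theorem nu_sca {y κ ν : ℝ} (h : Par y κ ν) : 0 ≤ ν * y ∧ ν * y ≤ y / 4 := by
  have h1 : ν ≤ 1 / 4 := by nlinarith [h.n1, sq_nonneg κ]
  exact ⟨mul_nonneg h.n0 h.y0.le, by nlinarith [h.y0]⟩

theorem b4_sca {y κ ν : ℝ} (h : Par y κ ν) :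
    -a4 y κ ν ≤ 0.922 * y - 0.46 + 0.488 * (y * |κ - dE|) ∧
      (1.25 ≤ y → a4 y κ ν ≤ 0.922 * y - 0.46 + 0.488 * (y * |κ - dE|)) := by
  obtain ⟨d1, d2, -⟩ := d_sca
  obtain ⟨n1, n2⟩ := nu_sca h
  obtain ⟨l1, l2⟩ := lin_sca (c := 3 * dE) (c' := 0.488) (ζ := κ - dE) h.y0.le
    (abs_le.2 ⟨by linarith, by linarith⟩)
  have y1 := mul_le_mul_of_nonneg_right d1.le h.y0.le
  have y2 := mul_le_mul_of_nonneg_right d2.le h.y0.le
  have y0 := h.y0
  rw [a4_sca]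
  exact ⟨by nlinarith, fun _ => by nlinarith⟩

theorem b5_sca {y κ ν : ℝ} (h : Par y κ ν) (hy : 1.25 ≤ y) :
    |a5 y κ ν| ≤ 0.936 * y - 0.623 + 1.764 * (y * |κ - dE|) := by
  obtain ⟨d1, d2, -⟩ := d_sca
  obtain ⟨n1, n2⟩ := nu_sca h
  obtain ⟨l1, l2⟩ := lin_sca (c := 7 - 54 * dE) (c' := 1.764) (ζ := κ - dE) h.y0.le
    (abs_le.2 ⟨by linarith, by linarith⟩)
  have y1 := mul_le_mul_of_nonneg_right d1.le h.y0.le
  have y2 := mul_le_mul_of_nonneg_right d2.le h.y0.le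
  have z1 := mul_le_mul_of_nonneg_right d1.le n1
  have z2 := mul_le_mul_of_nonneg_right d2.le n1
  rw [a5_sca]
  exact abs_le.2 ⟨by nlinarith, by nlinarith⟩

theorem b6_sca {y κ ν : ℝ} (h : Par y κ ν) :
    a6 y κ ν ≤ 3.232 * y - 2.42 + 2.307 * (y * |κ - dE|) ∧
      (1.25 ≤ y → -a6 y κ ν ≤ 3.232 * y - 2.42 + 2.307 * (y * |κ - dE|)) := by
  obtain ⟨d1, d2, -⟩ := d_sca
  obtain ⟨n1, n2⟩ := nu_sca h
  obtain ⟨l1, l2⟩ := lin_sca (c := 1095 * dE - 180) (c' := 2.307) (ζ := κ - dE) h.y0.le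
    (abs_le.2 ⟨by linarith, by linarith⟩)
  have y1 := mul_le_mul_of_nonneg_right d1.le h.y0.le
  have y2 := mul_le_mul_of_nonneg_right d2.le h.y0.le
  have z1 := mul_le_mul_of_nonneg_right d1.le n1
  have z2 := mul_le_mul_of_nonneg_right d2.le n1
  have y0 := h.y0
  rw [a6_sca]
  exact ⟨by nlinarith, fun _ => by nlinarith⟩

theorem sca_T3 {t y κ ν : ℝ} (h : Par y κ ν) (ht : 0 < t) (h1 : t ≤ 8 / 5) (hu : 2 ≤ t * y) :
    t * |a4 y κ ν| / 24 + t ^ 2 * |a5 y κ ν| / 120 + t ^ 3 * |a6 y κ ν| / 720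
      ≤ y * (tau0 t y + tau1 t * |κ - dE|) := by
  have y0 := h.y0
  have hy : 1.25 ≤ y := by nlinarith
  have e : y * (tau0 t y + tau1 t * |κ - dE|) =
      t * (0.922 * y - 0.46 + 0.488 * (y * |κ - dE|)) / 24
        + t ^ 2 * (0.936 * y - 0.623 + 1.764 * (y * |κ - dE|)) / 120
        + t ^ 3 * (3.232 * y - 2.42 + 2.307 * (y * |κ - dE|)) / 720 := by
    unfold tau0 tau1
    field_simp
    ring
  have k4 : |a4 y κ ν| ≤ 0.922 * y - 0.46 + 0.488 * (y * |κ - dE|) :=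
    abs_le.2 ⟨by linarith [(b4_sca h).1], (b4_sca h).2 hy⟩
  have k5 := b5_sca h hy
  have k6 : |a6 y κ ν| ≤ 3.232 * y - 2.42 + 2.307 * (y * |κ - dE|) :=
    abs_le.2 ⟨by linarith [(b6_sca h).2 hy], (b6_sca h).1⟩
  rw [e]
  gcongr

theorem th0_sca {t : ℝ} (ht : 0 ≤ t) : 0.45 + 0.21 * t + 0.18 * t ^ 2 ≤ th0 t := by
  unfold th0
  have : 0 ≤ t ^ 6 := by positivity
  linarith

theorem sca_tau {t ζ : ℝ} (ht : 0 < t) (h1 : t ≤ 8 / 5) :
    tau1 t * |ζ| ≤ 0.002 * t + (th0 t - 0.44) * (cJ * ζ ^ 2) := by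
  have hP : 0 ≤ PT_sca t := by
    rcases le_total t (4 / 5) with a | a
    exacts [tau0_sca ht.le a, tau1_sca a h1]
  unfold PT_sca at hP
  have h2 : 0 ≤ th0 t - 0.44 := by nlinarith [th0_sca ht.le]
  have h3 : 0.5135 ≤ cJ := by unfold cJ; linarith [r10_lo]
  have h4 : (th0 t - 0.44) * 0.5135 * ζ ^ 2 ≤ (th0 t - 0.44) * (cJ * ζ ^ 2) := by
    rw [mul_assoc]
    gcongr
  refine le_trans ?_ (add_le_add_right h4 _)
  have h5 : 0 ≤ (th0 t - 0.44) * 0.5135 := by positivity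
  generalize (th0 t - 0.44) * 0.5135 = b at *
  refine le_of_sq_le_sq ?_ (by positivity)
  rw [mul_pow, sq_abs]
  nlinarith [sq_nonneg (0.002 * t - b * ζ ^ 2), mul_nonneg hP (sq_nonneg ζ)]

theorem thL_sca {t U V : ℝ} (ht : 0 ≤ t) (hU : 0 ≤ U) (h : U ≤ V) : thL t U ≤ thL t V := by
  unfold thL
  gcongr

theorem Fc_sca {t y G : ℝ} (ht : 0 < t) (hy : 0 < y) (hG : GG (t * y) ≤ G)
    (h : 0 ≤ PF_sca G t (t * y)) :
    GG (t * y) + tau0 t y + 0.002 * t ≤ th0 t * (0.4 * (1 - 1 / y) ^ 2) := by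
  have e : th0 t * (0.4 * (1 - 1 / y) ^ 2) - (G + tau0 t y + 0.002 * t) =
      PF_sca G t (t * y) / (t * y) ^ 2 := by
    unfold PF_sca tau0
    field_simp
    ring
  have : 0 ≤ PF_sca G t (t * y) / (t * y) ^ 2 := by positivity
  linarith

theorem Fd_sca {t y : ℝ} (ht : 0 < t) (h1 : t ≤ 8 / 5) (hy : 0 < y)
    (h : t * y ≤ 13 / 3 → 0 ≤ PF_sca (0.062 + 0.042 * (t * y - 2)) t (t * y)) :
    GG (t * y) + tau0 t y + 0.002 * t ≤ th0 t * (0.4 * (1 - 1 / y) ^ 2) := by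
  rcases le_total (t * y) (13 / 3) with a | a
  · exact Fc_sca ht hy (min_le_left _ _) (h a)
  · refine Fc_sca ht hy (min_le_right _ _) ?_
    rcases le_total t (4 / 5) with b | b
    exacts [G0_sca ht.le b a, G1_sca b h1 a]

theorem Ld_sca {t y V : ℝ} (ht : 0 < t) (hy : 0 < y) (h1 : t * y ≤ V) (h2 : 1.4 * t ≤ V)
    (h : 0 ≤ th0 t - thL t V) : thL t (t * max y 1.4) ≤ th0 t := by
  have h3 : t * max y 1.4 ≤ V := by
    rcases le_total y 1.4 with a | a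
    · rw [max_eq_right a]; linarith
    · rw [max_eq_left a]; exact h1
  have h4 : 0 ≤ t * max y 1.4 := mul_nonneg ht.le (hy.le.trans (le_max_left _ _))
  linarith [thL_sca ht.le h4 h3]

theorem sca_LF {t y : ℝ} (ht : 0 < t) (h1 : t ≤ 8 / 5) (hy : 0 < y) :
    (t * y ≤ 2.2 ∧ thL t (t * max y 1.4) ≤ th0 t) ∨
      (2 ≤ t * y ∧ GG (t * y) + tau0 t y + 0.002 * t ≤ th0 t * (0.4 * (1 - 1 / y) ^ 2)) := by
  rcases le_total t 1 with a | a
  · rcases le_total (t * y) 2 with b | b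
    · exact Or.inl ⟨by linarith, Ld_sca ht hy b (by linarith) (L0_sca ht.le a)⟩
    · exact Or.inr ⟨b, Fd_sca ht h1 hy (F0_sca ht.le a b)⟩
  rcases le_total t (5 / 4) with a' | a'
  · rcases le_total (t * y) (21 / 10) with b | b
    · exact Or.inl ⟨by linarith, Ld_sca ht hy b (by linarith) (L1_sca a a')⟩
    · exact Or.inr ⟨by linarith, Fd_sca ht h1 hy (F1_sca a a' b)⟩
  · rcases le_total (t * y) (11 / 5) with b | b
    · exact Or.inl ⟨by linarith, Ld_sca ht hy (by linarith) (by linarith) (L2_sca a' h1)⟩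
    · exact Or.inr ⟨by linarith, Fd_sca ht h1 hy (F2_sca a' h1 b)⟩

theorem PE_nonneg_sca {t u : ℝ} (ht : 0 ≤ t) (h1 : t ≤ 8 / 5) (hu : 0 ≤ u) : 0 ≤ PE_sca t u := by
  rcases le_total u (3 / 2) with a | a
  · exact E0_sca ht h1 hu a
  rcases le_total u 3 with b | b
  · rcases le_total t (4 / 5) with c | c
    exacts [E1_sca ht c a b, E2_sca c h1 a b]
  · exact E3_sca ht h1 b

theorem re_sca (t y κ ν : ℝ) : -(W0 t y κ ν).re =
    vs y κ ν * t ^ 2 * (1 / 2 - a4 y κ ν * t ^ 2 / 24 + a6 y κ ν * t ^ 4 / 720) := by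
  unfold W0 Wf
  rw [Complex.add_re, Complex.ofReal_re, Complex.re_ofReal_mul, Complex.I_re]
  unfold a4 a6
  ring

theorem exp_sca {x : ℝ} (h0 : 0 ≤ x) (h1 : x ≤ 1) : exp x ≤ 1 + x + x ^ 2 := by
  have := Real.abs_exp_sub_one_sub_id_le (x := x) (abs_le.2 ⟨by linarith, h1⟩)
  linarith [(abs_le.1 this).2]

theorem br_sca {t y κ ν : ℝ} (h : Par y κ ν) (ht : 0 < t) (h1 : t ≤ 8 / 5) :
    1 / 2 - a4 y κ ν * t ^ 2 / 24 + a6 y κ ν * t ^ 4 / 720 - th0 t * t * Dp y κ ν ≤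
      0.5 + t ^ 2 * (0.922 * y - 0.46) / 24 + t ^ 4 * (3.232 * y - 2.42) / 720
        + 0.002 * t ^ 2 * y - th0 t * t * gh y := by
  have y0 := h.y0
  have k4 := mul_le_mul_of_nonneg_left (b4_sca h).1 (show 0 ≤ t ^ 2 / 24 by positivity)
  have k6 := mul_le_mul_of_nonneg_left (b6_sca h).1 (show 0 ≤ t ^ 4 / 720 by positivity)
  have k7 := mul_le_mul_of_nonneg_left (sca_tau (ζ := κ - dE) ht h1) (show 0 ≤ t * y by positivity)
  have h3 : 0 ≤ cJ := by unfold cJ; linarith [r10_lo]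
  have h4 : 0 ≤ wv y := by unfold wv; split_ifs <;> positivity
  have h5 : 0 ≤ th0 t := by unfold th0; positivity
  have n0 := h.n0
  have k8 : 0 ≤ th0 t * t * (ν * y * wv y) := by positivity
  have k9 : 0 ≤ t * y * (cJ * (κ - dE) ^ 2) := by positivity
  have k10 : 0 ≤ t ^ 3 * (y * |κ - dE|) := by positivity
  unfold tau1 at k7
  unfold Dp
  nlinarith

theorem sca_Eb {t y κ ν : ℝ} (h : Par y κ ν) (ht : 0 < t) (h1 : t ≤ 8 / 5) :
    exp (-(W0 t y κ ν).re) ≤ 6 * th0 t * cbv y * exp (vs y κ ν * (th0 t * t ^ 3 * Dp y κ ν)) := by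
  have y0 := h.y0
  have s0 : 0 ≤ vs y κ ν := mul_nonneg (sub_nonneg.2 h.n1) (sq_nonneg y)
  have s1 : vs y κ ν ≤ y ^ 2 / 4 := by
    unfold vs
    nlinarith [mul_nonneg h.n0 (sq_nonneg y), sq_nonneg (κ * y)]
  have hb := mul_le_mul_of_nonneg_left (br_sca h ht h1)
    (show 0 ≤ vs y κ ν * t ^ 2 by positivity)
  have h5 : 0 ≤ th0 t := by unfold th0; positivity
  have h6 := th0_sca ht.le
  have t2 : t ^ 2 ≤ 2.56 := by nlinarith
  have t4 : t ^ 4 ≤ 6.5536 := by nlinarith [sq_nonneg t]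
  set Br := 0.5 + t ^ 2 * (0.922 * y - 0.46) / 24 + t ^ 4 * (3.232 * y - 2.42) / 720
        + 0.002 * t ^ 2 * y - th0 t * t * gh y with hBr
  have e : -(W0 t y κ ν).re ≤ vs y κ ν * t ^ 2 * Br + vs y κ ν * (th0 t * t ^ 3 * Dp y κ ν) := by
    rw [re_sca]
    nlinarith
  refine (exp_le_exp.2 e).trans ?_
  rw [exp_add]
  refine mul_le_mul_of_nonneg_right ?_ (exp_pos _).le
  unfold cbv
  split_ifs with hy
  · have g0 : 0 ≤ gh y := by
      unfold gh gf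
      split_ifs with hy'
      · linarith
      · positivity
    have g1 : 0 ≤ th0 t * t * gh y := by positivity
    have g2 : t ^ 2 * (0.922 * y - 0.46) ≤ 2.56 * 0.462 := by nlinarith [sq_nonneg t]
    have g3 : t ^ 4 * (3.232 * y - 2.42) ≤ 6.5536 * 0.812 := by
      have : 0 ≤ t ^ 4 := by positivity
      nlinarith
    have g4 : t ^ 2 * y ≤ 2.56 := by nlinarith [sq_nonneg t]
    have g5 : Br ≤ 0.6 := by rw [hBr]; linarith
    have g6 : vs y κ ν ≤ 1 / 4 := by nlinarith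
    have g7 : vs y κ ν * t ^ 2 * Br ≤ 0.15 * t ^ 2 := by
      have := mul_le_mul_of_nonneg_left g5 (show 0 ≤ vs y κ ν * t ^ 2 by positivity)
      nlinarith [sq_nonneg t]
    refine (exp_le_exp.2 g7).trans ((exp_sca (by positivity) (by linarith)).trans ?_)
    have g8 : 2.44 * th0 t ≤ 6 * th0 t * (r10 / 6 - 0.12) := by nlinarith [r10_lo]
    nlinarith [sq_nonneg t]
  · have hy1 : 1 < y := not_le.1 hy
    have g0 : gh y = 2 / 5 * (y - 1) ^ 2 / y := by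
      unfold gh gf
      rw [if_neg (by linarith), max_eq_left hy1.le]
    have g1 : (t * y) ^ 2 / 4 * Br = 0.2 + 0.3 * t - PE_sca t (t * y) := by
      rw [hBr, g0]
      unfold PE_sca
      field_simp
      ring
    have g2 := PE_nonneg_sca ht.le h1 (show 0 ≤ t * y by positivity)
    have g7 : vs y κ ν * t ^ 2 * Br ≤ 0.2 + 0.3 * t := by
      rcases le_total Br 0 with a | a
      · have := mul_nonpos_of_nonneg_of_nonpos (show 0 ≤ vs y κ ν * t ^ 2 by positivity) a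
        linarith
      · have g3 : vs y κ ν * t ^ 2 ≤ (t * y) ^ 2 / 4 := by nlinarith [sq_nonneg t]
        have := mul_le_mul_of_nonneg_right g3 a
        linarith
    refine (exp_le_exp.2 g7).trans ((exp_sca (by positivity) (by linarith)).trans ?_)
    have g8 : 3.16 * th0 t ≤ 6 * th0 t * (r10 / 6) := by nlinarith [r10_lo]
    nlinarith [sq_nonneg t]

end Pool.Agent.Lib.MP_33650d_pr.Y
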