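import Pool.Agent.Lib.MP_33650d_pr.Y.Norm
import Pool.Agent.Lib.MP_33650d_pr.Y.Ord4
import Pool.Agent.Lib.MP_33650d_pr.Y.Ord5
import Pool.Agent.Lib.MP_33650d_pr.Y.Ord6
import Pool.Agent.Lib.MP_33650d_pr.Y.Ord7
import Pool.Agent.Lib.MP_33650d_pr.Y.Ord8
import Pool.Agent.Lib.MP_33650d_pr.Y.LogF
import Pool.Agent.Lib.MP_33650d_pr.Y.Far3
import Pool.Agent.Lib.MP_33650d_pr.Y.Far5
import Pool.Agent.Lib.MP_33650d_pr.Y.Sca

namespace Pool.Agent.Lib.MP_33650d_pr.Y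
open MeasureTheory ProbabilityTheory Real X

theorem disc_mul {a b : ℂ} {x y : ℝ} (ha : 1 + ‖a - 1‖ ≤ exp x) (hb : 1 + ‖b - 1‖ ≤ exp y) :
    1 + ‖a * b - 1‖ ≤ exp (x + y) := by
  have e : a * b - 1 = (a - 1) * (b - 1) + (a - 1) + (b - 1) := by ring
  have h1 : ‖a * b - 1‖ ≤ ‖a - 1‖ * ‖b - 1‖ + ‖a - 1‖ + ‖b - 1‖ := by
    rw [e, ← norm_mul]
    exact norm_add₃_le
  rw [exp_add]
  calc 1 + ‖a * b - 1‖ ≤ (1 + ‖a - 1‖) * (1 + ‖b - 1‖) := by linarith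
    _ ≤ exp x * exp y := mul_le_mul ha hb (by positivity) (exp_pos x).le

theorem disc_exp {z : ℂ} {x : ℝ} (h : ‖z‖ ≤ x) : 1 + ‖Complex.exp z - 1‖ ≤ exp x := by
  have a := Complex.norm_exp_sub_sum_le_exp_norm_sub_sum z 1
  simp only [Finset.range_one, Finset.sum_singleton, pow_zero, Nat.factorial_zero, Nat.cast_one,
    div_one] at a
  linarith [exp_le_exp.2 h]

theorem Par.vs_nonneg {y κ ν : ℝ} (h : Par y κ ν) : 0 ≤ vs y κ ν :=
  mul_nonneg (sub_nonneg.2 h.n1) (sq_nonneg y)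

theorem etaE_nonneg {t : ℝ} (ht : 0 < t) : 0 ≤ etaE t := by
  unfold etaE
  positivity

theorem th0_ge {t : ℝ} (ht : 0 < t) : 0.45 ≤ th0 t := by
  have : 0 ≤ 0.21 * t + 0.18 * t ^ 2 + 0.22 * t ^ 6 := by positivity
  unfold th0
  linarith

theorem e1_near {t y κ ν : ℝ} (h : Par y κ ν) (k0 : -1 < κ) (k1 : κ < 1) (ht : 0 < t)
    (hu : t * y ≤ 2.2) (hL : thL t (t * max y 1.4) ≤ th0 t) :
    1 + ‖F0 (t * y) κ ν * Complex.exp (-W0 t y κ ν) - 1‖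
      ≤ exp (vs y κ ν * (th0 t * t ^ 3 * Dp y κ ν + etaE t)) := by
  obtain ⟨l, hl, hb⟩ := logF h k0 k1 ht hu
  rw [hl, ← Complex.exp_add]
  apply disc_exp
  rw [← sub_eq_add_neg]
  refine hb.trans (mul_le_mul_of_nonneg_left ?_ h.vs_nonneg)
  have o4 := mul_le_mul_of_nonneg_left (ord4 h) (pow_pos ht 4).le
  have o5 := mul_le_mul_of_nonneg_left (ord5 h) (pow_pos ht 5).le
  have o6 := mul_le_mul_of_nonneg_left (ord6 h) (pow_pos ht 6).le
  have o7 := mul_le_mul_of_nonneg_left (ord7 h) (pow_pos ht 7).le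
  have o8 := mul_le_mul_of_nonneg_left (ord8 h) (pow_pos ht 8).le
  have o9 := mul_le_mul_of_nonneg_left (ord9 h) (pow_pos ht 9).le
  have o10 := mul_le_mul_of_nonneg_left (ord10 h) (pow_pos ht 10).le
  have key := mul_le_mul_of_nonneg_right hL (mul_nonneg (pow_pos ht 3).le (Dp_nonneg h))
  generalize max y 1.4 = Y at *
  generalize Dp y κ ν = D at *
  have e : t ^ 4 * ((0.1 + 0.058 * Y) * D) + t ^ 5 * ((0.04 + 0.0128 * (Y + 0.6) ^ 2) * D)
      + t ^ 6 * (0.0058 * (Y + 0.65) ^ 3 * D)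
      + t ^ 7 * (0.0003 + (0.031 + 0.0016 * (Y + 0.5) ^ 4) * D)
      + t ^ 8 * (0.00055 + (0.046 + 0.00124 * (Y + 0.55) ^ 5) * D)
      + t ^ 9 * (0.00005 + 0.000155 * (Y + 0.55) ^ 6 * D)
      + t ^ 10 * (0.0001 + (0.004 + 0.00021 * (Y + 0.55) ^ 7) * D)
      = thL t (t * Y) * (t ^ 3 * D) + etaE t := by
    unfold thL etaE
    ring
  rw [mul_assoc (th0 t)]
  linarith only [o4, o5, o6, o7, o8, o9, o10, e, key]

theorem far_all {u κ ν : ℝ} (h : Par 1 κ ν) (k0 : -1 < κ) (k1 : κ < 1) (h2 : 2 ≤ u) :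
    1 + ‖F0 u κ ν * Complex.exp (-(zt u 1 κ ν 2 1 + zt u 1 κ ν 3 κ)) - 1‖
      ≤ exp (vs 1 κ ν * u ^ 3 * (GG u + 0.44 * (cJ * (κ - dE) ^ 2 + 0.2 * ν))) := by
  rcases le_total u 5 with a | a
  · exact far3 h k0 k1 h2 a
  · have e : GG u = 0.16 := min_eq_right (by linarith)
    rw [e]
    exact far5 h k0 k1 a

theorem w3_sub {t y κ ν : ℝ} (h : Par y κ ν) (ht : 0 < t) :
    ‖zt (t * y) 1 κ ν 2 1 + zt (t * y) 1 κ ν 3 κ - W0 t y κ ν‖ ≤ vs y κ ν * t ^ 3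
      * (t * |a4 y κ ν| / 24 + t ^ 2 * |a5 y κ ν| / 120 + t ^ 3 * |a6 y κ ν| / 720) := by
  have hs := h.vs_nonneg
  have e : zt (t * y) 1 κ ν 2 1 + zt (t * y) 1 κ ν 3 κ - W0 t y κ ν
      = ((-(vs y κ ν * t ^ 4 / 24 * a4 y κ ν) : ℝ) : ℂ)
        + ((-(vs y κ ν * t ^ 5 / 120 * a5 y κ ν) : ℝ) : ℂ) * Complex.I
        + ((vs y κ ν * t ^ 6 / 720 * a6 y κ ν : ℝ) : ℂ) := by
    have i2 : Complex.I ^ 2 = -1 := Complex.I_sq
    have i3 : Complex.I ^ 3 = -Complex.I := Complex.I_pow_three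
    simp only [zt, W0, Wf, a4, a5, a6, vs, i2, i3, Nat.factorial]
    push_cast
    ring
  rw [e]
  refine norm_add₃_le.trans (le_of_eq ?_)
  rw [norm_mul, Complex.norm_I, Complex.norm_real, Complex.norm_real, Complex.norm_real,
    Real.norm_eq_abs, Real.norm_eq_abs, Real.norm_eq_abs, abs_neg, abs_neg, abs_mul _ (a4 y κ ν),
    abs_mul _ (a5 y κ ν), abs_mul _ (a6 y κ ν), abs_of_nonneg (by positivity),
    abs_of_nonneg (a := vs y κ ν * t ^ 5 / 120) (by positivity),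
    abs_of_nonneg (a := vs y κ ν * t ^ 6 / 720) (by positivity)]
  ring

theorem cJ_pos : 0 < cJ := by
  unfold cJ
  linarith [r10_lo]

theorem Dp_far {y κ ν : ℝ} (h : Par y κ ν) (hy : 1 ≤ y) :
    y * (cJ * (κ - dE) ^ 2 + 0.2 * ν + 0.4 * (1 - 1 / y) ^ 2) ≤ Dp y κ ν := by
  have y0 := h.y0
  have a : gh y = y * (0.4 * (1 - 1 / y) ^ 2) := by
    rw [gh, if_neg (by linarith), gf, max_eq_left hy]
    field_simp
    ring
  have b : 0.2 ≤ wv y := by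
    unfold wv
    split_ifs
    · norm_num
    · have : 0 ≤ 0.8 / y ^ 2 := by positivity
      linarith
  have c := mul_le_mul_of_nonneg_left b (mul_nonneg h.n0 y0.le)
  rw [Dp, a]
  linarith

theorem e1_far {t y κ ν : ℝ} (h : Par y κ ν) (k0 : -1 < κ) (k1 : κ < 1) (ht : 0 < t)
    (h1 : t ≤ 8 / 5) (hu : 2 ≤ t * y)
    (hF : GG (t * y) + tau0 t y + 0.002 * t ≤ th0 t * (0.4 * (1 - 1 / y) ^ 2)) :
    1 + ‖F0 (t * y) κ ν * Complex.exp (-W0 t y κ ν) - 1‖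
      ≤ exp (vs y κ ν * (th0 t * t ^ 3 * Dp y κ ν + etaE t)) := by
  have y0 := h.y0
  have hy : 1 ≤ y := by nlinarith
  have a := far_all (u := t * y) ⟨one_pos, h.k0, h.k1, h.n0, h.n1⟩ k0 k1 hu
  have b := disc_exp (w3_sub h ht)
  have c := disc_mul a b
  rw [mul_assoc, ← Complex.exp_add, neg_add_eq_sub, sub_sub_cancel_left] at c
  refine c.trans (exp_le_exp.2 ?_)
  have hs := h.vs_nonneg
  have e : vs 1 κ ν * (t * y) ^ 3 = vs y κ ν * t ^ 3 * y := by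
    unfold vs
    ring
  have t3 := sca_T3 h ht h1 hu
  have ta := mul_le_mul_of_nonneg_left (sca_tau (ζ := κ - dE) ht h1) y0.le
  have tb := mul_le_mul_of_nonneg_left hF y0.le
  have t0 := th0_ge ht
  have tc := mul_le_mul_of_nonneg_left (Dp_far h hy) (show 0 ≤ th0 t by linarith)
  have td : 0 ≤ (th0 t - 0.44) * (y * ν) := mul_nonneg (by linarith) (mul_nonneg y0.le h.n0)
  have key : y * (GG (t * y) + 0.44 * (cJ * (κ - dE) ^ 2 + 0.2 * ν))
      + (t * |a4 y κ ν| / 24 + t ^ 2 * |a5 y κ ν| / 120 + t ^ 3 * |a6 y κ ν| / 720)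
      ≤ th0 t * Dp y κ ν := by
    generalize (1 - 1 / y) ^ 2 = q at *
    generalize (κ - dE) ^ 2 = z at *
    linarith
  have k2 := mul_le_mul_of_nonneg_left key (mul_nonneg hs (pow_pos ht 3).le)
  have k3 := mul_nonneg hs (etaE_nonneg ht)
  rw [e]
  linarith

theorem e1_lazy {t y κ ν : ℝ} (h : Par y κ ν) (k0 : -1 < κ) (k1 : κ < 1) (ht : 0 < t)
    (h1 : t ≤ 8 / 5) : 1 + ‖F0 (t * y) κ ν * Complex.exp (-W0 t y κ ν) - 1‖
      ≤ exp (vs y κ ν * (th0 t * t ^ 3 * Dp y κ ν + etaE t)) := by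
  rcases sca_LF ht h1 h.y0 with ⟨a, b⟩ | ⟨a, b⟩
  · exact e1_near h k0 k1 ht a b
  · exact e1_far h k0 k1 ht h1 a b

theorem Wf_sub {s K L L0 t J : ℝ} (ht : 0 < t) (h1 : t ≤ 8 / 5) (h : |L - L0| ≤ 2 * J) :
    ‖Wf s K L0 t - Wf s K L t‖ ≤ (0.09 * t + 0.03 * t ^ 2) * t ^ 3 * J := by
  have hd : 0.16227 ≤ dE ∧ dE ≤ 0.16228 := by
    unfold dE
    constructor <;> linarith [r10_lo, r10_hi]
  have c6 : 0 ≤ C6 ∧ C6 ≤ 3.606 := by
    unfold C6
    constructor <;> nlinarith [hd.1, hd.2]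
  have e : Wf s K L0 t - Wf s K L t = ((t ^ 4 / 24 * (L - L0) : ℝ) : ℂ)
      + ((4 * dE * t ^ 5 / 120 * (L - L0) : ℝ) : ℂ) * Complex.I
      + ((C6 * t ^ 6 / 720 * (L - L0) : ℝ) : ℂ) := by
    simp only [Wf, C5]
    push_cast
    ring
  have d0 : 0 ≤ dE := by linarith [hd.1]
  have c0 := c6.1
  rw [e]
  refine norm_add₃_le.trans ?_
  rw [norm_mul, Complex.norm_I, Complex.norm_real, Complex.norm_real, Complex.norm_real,
    Real.norm_eq_abs, Real.norm_eq_abs, Real.norm_eq_abs, abs_mul _ (L - L0),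
    abs_mul _ (L - L0), abs_mul _ (L - L0), abs_of_nonneg (by positivity),
    abs_of_nonneg (a := 4 * dE * t ^ 5 / 120) (by positivity),
    abs_of_nonneg (a := C6 * t ^ 6 / 720) (by positivity)]
  have g : t / 24 + 4 * dE * t ^ 2 / 120 + C6 * t ^ 3 / 720 ≤ (0.09 * t + 0.03 * t ^ 2) / 2 := by
    have a := mul_le_mul_of_nonneg_right hd.2 (sq_nonneg t)
    have b := mul_le_mul_of_nonneg_right c6.2 (pow_pos ht 3).le
    have c := mul_le_mul_of_nonneg_right h1 (sq_nonneg t)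
    nlinarith
  have g2 := mul_le_mul g h (abs_nonneg _) (by positivity)
  have g3 := mul_le_mul_of_nonneg_left g2 (pow_pos ht 3).le
  linarith

theorem e1 {d : SD} (h : d.Ok) {t : ℝ} (ht : 0 < t) (h1 : t ≤ 8 / 5) :
    1 + ‖d.f t * Complex.exp (-Wf d.s d.K d.L t) - 1‖
      ≤ exp (thE t * t ^ 3 * d.J + etaE t * d.s) := by
  obtain ⟨y, κ, ν, hp, k0, k1, hs, hK, hZ, -, hD, hF⟩ := h.normal
  have hW : W0 t y κ ν = Wf d.s d.K (d.s * (y * (1 - 2 * ν) - 1)) t := by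
    rw [W0, hK, hs]
  have hL : |d.L - d.s * (y * (1 - 2 * ν) - 1)| ≤ 2 * d.J := by
    have e : d.L - d.s * (y * (1 - 2 * ν) - 1) = d.b - d.P2 - 2 * d.P3 := by
      rw [SD.L, hZ]
      ring
    rw [e]
    exact h.dL
  have b := disc_exp (Wf_sub (s := d.s) (K := d.K) ht h1 hL)
  rw [← hW] at b
  have t0 := th0_ge ht
  have a : 1 + ‖d.f t * Complex.exp (-W0 t y κ ν) - 1‖
      ≤ exp (th0 t * t ^ 3 * d.J + etaE t * d.s) := by
    have a1 := e1_lazy hp k0 k1 ht h1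
    have a2 := h.close t ht
    have a3 := sca_Eb hp ht h1
    rw [hF] at a2
    rw [← hs] at a1 a3
    have e : d.f t * Complex.exp (-W0 t y κ ν) - 1
        = (F0 (t * y) κ ν * Complex.exp (-W0 t y κ ν) - 1)
          + (d.f t - F0 (t * y) κ ν) * Complex.exp (-W0 t y κ ν) := by ring
    have a4 : ‖(d.f t - F0 (t * y) κ ν) * Complex.exp (-W0 t y κ ν)‖ ≤ t ^ 3 * d.b / 6
        * (6 * th0 t * cbv y * exp (d.s * (th0 t * t ^ 3 * Dp y κ ν))) := by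
      rw [norm_mul, Complex.norm_exp, Complex.neg_re]
      exact mul_le_mul a2 a3 (exp_pos _).le ((norm_nonneg _).trans a2)
    have cb : 0 ≤ cbv y := by
      unfold cbv
      split_ifs <;> linarith [r10_lo]
    have x0 : 0 ≤ th0 t * t ^ 3 * (cbv y * d.b) := by
      have := h.bnn
      have : 0 ≤ th0 t := by linarith
      positivity
    have a5 : exp (d.s * (th0 t * t ^ 3 * Dp y κ ν))
        ≤ exp (d.s * (th0 t * t ^ 3 * Dp y κ ν + etaE t)) :=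
      exp_le_exp.2 (by nlinarith [mul_nonneg h.spos.le (etaE_nonneg ht)])
    have a6 := mul_le_mul_of_nonneg_left a5 x0
    have a7 := mul_le_mul_of_nonneg_left (add_one_le_exp (th0 t * t ^ 3 * (cbv y * d.b)))
      (exp_pos (d.s * (th0 t * t ^ 3 * Dp y κ ν + etaE t))).le
    have a8 := mul_le_mul_of_nonneg_left hD
      (mul_nonneg (show 0 ≤ th0 t by linarith) (pow_pos ht 3).le)
    rw [← exp_add] at a7
    have a9 : exp (d.s * (th0 t * t ^ 3 * Dp y κ ν + etaE t) + th0 t * t ^ 3 * (cbv y * d.b))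
        ≤ exp (th0 t * t ^ 3 * d.J + etaE t * d.s) := exp_le_exp.2 (by linarith)
    have a10 := norm_add_le (F0 (t * y) κ ν * Complex.exp (-W0 t y κ ν) - 1)
      ((d.f t - F0 (t * y) κ ν) * Complex.exp (-W0 t y κ ν))
    rw [e]
    linarith
  have c := disc_mul a b
  rw [mul_assoc, ← Complex.exp_add, neg_add_eq_sub, sub_sub_cancel_left] at c
  refine c.trans (le_of_eq ?_)
  congr 1
  unfold thE th0
  ring

end Pool.Agent.Lib.MP_33650d_pr.Y
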