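import Pool.Agent.Lib.MP_33650d_pr.Y.Defs3
import Pool.Agent.Lib.MP_33650d_pr.Prawitz
import Pool.Agent.Lib.MP_33650d_pr.Gauss
import Pool.Agent.Lib.MP_33650d_pr.X.R1V

namespace Pool.Agent.Lib.MP_33650d_pr.Y
open MeasureTheory ProbabilityTheory Real X

theorem master (ν : Measure ℝ) [IsProbabilityMeasure ν] (h1 : Integrable (fun y : ℝ => y) ν)
    {N K J : ℝ} (hN : 0 < N) (hl : N / 2 + K / 6 + J ≤ Cp * 0.175 * √N ^ 3)
    (hD : Disc (charFun ν) N K J) (hM : Modu (charFun ν) N J) (hM3 : Modu3 (charFun ν) N J)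
    (hK : KR N K J) (y : ℝ) :
    ν.real (Set.Iic y) - Phi (y / √N) ≤ tgt N K J :=
  RM.master_of_cov RM.covH RM.covX ν h1 hN hl hD hM hM3 hK y

end Pool.Agent.Lib.MP_33650d_pr.Y
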