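import Pool.Agent.Lib.MP_33650d_pr.Y.ModAa
import Pool.Agent.Lib.MP_33650d_pr.Y.ModAb
import Pool.Agent.Lib.MP_33650d_pr.X.HighF

namespace Pool.Agent.Lib.MP_33650d_pr.Y
open MeasureTheory ProbabilityTheory Real X

theorem ent_b {t : ℝ} (h : 0 < t) : Entry t (t ^ 2 * (1 / 2 - t / 10)) (t ^ 3 / 5) := by
  refine entry_moda (μ := t ^ 3 / 10) (by positivity) fun z hz => ?_
  have := cube_moda (x := t * z) (by positivity)
  nlinarith

theorem ent_z1 {t : ℝ} (h : 0 < t) (h1 : t ≤ 2) : Entry t (t ^ 2 * (0.285 - 0.065 * t)) 0 := by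
  refine entry_two_moda (b := 0.119 + 0.036 * t) h (by linarith) (by positivity) (by linarith) ?_ ?_
  · rw [ph_div_moda h (by linarith), sub_le_iff_le_add, ← sub_le_iff_le_add', ← mul_div_assoc,
      le_div_iff₀ (by positivity)]
    nlinarith [mul_pos h h, mul_nonneg h.le (sub_nonneg.2 h1), sq_nonneg (t - 1.2),
      mul_nonneg (mul_pos h h).le (sub_nonneg.2 h1)]
  · rw [ph_div_moda h (by linarith), ← mul_div_assoc, le_div_iff₀ (by positivity)]
    nlinarith [mul_pos h h, mul_nonneg h.le (sub_nonneg.2 h1), sq_nonneg (t - 1.6),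
      mul_nonneg (mul_pos h h).le (sub_nonneg.2 h1),
      mul_nonneg (sq_nonneg (t - 1.6)) (sub_nonneg.2 h1), mul_nonneg (sq_nonneg (t - 1.6)) h.le]

theorem ent_z2 {t : ℝ} (h : 2 ≤ t) (h1 : t ≤ 5) : Entry t 0.6 0 := by
  have ht : 0 < t := by linarith
  have e : (0.6 : ℝ) = t ^ 2 * (0.6 / t ^ 2) := by field_simp
  rw [e]
  rcases le_total t 3.8 with g | g
  · refine entry_two_moda (b := 0.19) ht h1 (by norm_num) ?_ ?_ ?_
    · have : 0.6 / t ^ 2 ≤ 0.15 := by
        rw [div_le_iff₀ (by positivity)]; nlinarith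
      linarith
    · have a1 : 1 ≤ 4.44 / t := by rw [le_div_iff₀ ht]; linarith
      rw [ph_div_moda ht (by linarith), sub_le_iff_le_add, div_le_iff₀ (by positivity)]
      have e2 : (0.056 + 0.19 * ((4.44 ^ 2 + 3 * 4.44 * t - 4 * t ^ 2) / (5 * 4.44 * t))) * t ^ 2
          = 0.056 * t ^ 2 + 0.19 * (4.44 ^ 2 + 3 * 4.44 * t - 4 * t ^ 2) * t * (5 / 111) := by
        field_simp
        ring
      rw [e2]
      nlinarith [mul_nonneg (sub_nonneg.2 h) (sub_nonneg.2 g),
        mul_nonneg ht.le (mul_nonneg (sub_nonneg.2 h) (sub_nonneg.2 g))]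
    · rw [ph_div_moda ht (by linarith), div_le_iff₀ (by positivity)]
      have e2 : 0.19 * ((5.56 ^ 2 + 3 * 5.56 * t - 4 * t ^ 2) / (5 * 5.56 * t)) * t ^ 2
          = 0.19 * (5.56 ^ 2 + 3 * 5.56 * t - 4 * t ^ 2) * t * (5 / 139) := by
        field_simp
        ring
      rw [e2]
      nlinarith [mul_nonneg (sub_nonneg.2 h) (sub_nonneg.2 g),
        mul_nonneg ht.le (mul_nonneg (sub_nonneg.2 h) (sub_nonneg.2 g))]
  · refine entry_two_moda (b := 0.25) ht h1 (by norm_num) ?_ ?_ ?_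
    · have : 0.6 / t ^ 2 ≤ 0.05 := by
        rw [div_le_iff₀ (by positivity)]; nlinarith
      linarith
    · rcases le_total t 4.44 with g' | g'
      · have a1 : 1 ≤ 4.44 / t := by rw [le_div_iff₀ ht]; linarith
        have a2 := ph_mono_moda le_rfl a1
        rw [ph_hi_moda le_rfl] at a2
        have : 0.6 / t ^ 2 ≤ 0.05 := by
          rw [div_le_iff₀ (by positivity)]; nlinarith
        linarith
      · have a1 : 4.44 / t ≤ 1 := by rw [div_le_one ht]; linarith
        have a2 : 0.888 ≤ 4.44 / t := by rw [le_div_iff₀ ht]; linarith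
        have a3 : 0.6 / t ^ 2 = 0.6 / 4.44 ^ 2 * (4.44 / t) ^ 2 := by field_simp
        unfold ph_moda
        rw [gf_lo_moda a1, a3]
        generalize 4.44 / t = z at *
        nlinarith [mul_nonneg (sub_nonneg.2 a1) (sub_nonneg.2 a2)]
    · rw [ph_div_moda ht (by linarith), div_le_iff₀ (by positivity)]
      have e2 : 0.25 * ((5.56 ^ 2 + 3 * 5.56 * t - 4 * t ^ 2) / (5 * 5.56 * t)) * t ^ 2
          = 0.25 * (5.56 ^ 2 + 3 * 5.56 * t - 4 * t ^ 2) * t * (5 / 139) := by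
        field_simp
        ring
      rw [e2]
      nlinarith [mul_nonneg (sub_nonneg.2 g) (sub_nonneg.2 h1),
        mul_nonneg ht.le (mul_nonneg (sub_nonneg.2 g) (sub_nonneg.2 h1))]

theorem ent_c {t : ℝ} (h : 1 ≤ t) (h1 : t ≤ 5) : Entry t (0.99 * (1 - cos t)) (0.4 * t ^ 3) :=
  entry_moda (μ := t ^ 3 * m_mb t) (by positivity) fun _ hz => pw_mb h h1 hz

end Pool.Agent.Lib.MP_33650d_pr.Y
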