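import Pool.Agent.Lib.MP_33650d_pr.Y.ModT

namespace Pool.Agent.Lib.MP_33650d_pr.Y
open MeasureTheory ProbabilityTheory Real X

theorem rho_modu (t z : ℝ) :
    1 - cos (t * z) - (1 - cos t) * z ^ 2
      + (2 * (1 - cos t) - t * sin t) * (z ^ 3 - z ^ 2 - 2 * Gw z)
      = cos t * (1 - cos (t * (z - 1))) + -sin t * (t * (z - 1) - sin (t * (z - 1)))
        + (z - 1) ^ 2 * ((1 - cos t) * (2 * (1 + z - 4 / 5 * z * min z 1) - 1)
          + t * -sin t * (1 + z - 4 / 5 * z * min z 1)) := by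
  have ec : cos (t * z) = cos t * cos (t * (z - 1)) - sin t * sin (t * (z - 1)) := by
    have : t * z = t + t * (z - 1) := by ring
    rw [this, cos_add]
  rw [ec, Gw]
  ring

theorem facts_modu {t : ℝ} (h0 : 4.5 ≤ t) (h1 : t ≤ 5.3) :
    1 - cos t ≤ 0.4468 + 0.957 * (5.3 - t) ∧ 0 ≤ -sin t ∧ 4.38 ≤ t * -sin t ∧
      t * -sin t ≤ 4.825 - 2.5 * (t - 4.91) ^ 2 ∧
      ((cos t ≤ 0 ∧ t - 4.7124 ≤ cos t ∧ t ≤ 4.7124) ∨
        (0 ≤ cos t ∧ 0.9424 * (t - 4.7124) ≤ cos t ∧ 4.7123 ≤ t)) := by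
  have p1 := pi_gt_d6
  have p2 := pi_lt_d6
  obtain ⟨u, hu⟩ : ∃ u, u = t - 3 * π / 2 := ⟨_, rfl⟩
  have ec : cos t = sin u := by
    have : u = (t + π / 2) - 2 * π := by rw [hu]; ring
    rw [this, sin_sub_two_pi, sin_add_pi_div_two]
  have es : -sin t = cos u := by
    have : u = (t + π / 2) - 2 * π := by rw [hu]; ring
    rw [this, cos_sub_two_pi, cos_add_pi_div_two]
  have u0 : -0.2124 ≤ u := by linarith
  have u1 : u ≤ 0.5877 := by linarith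
  have u2 : u ^ 2 ≤ 0.3454 := by nlinarith
  have t0 : u + 4.7123 ≤ t := by linarith
  have t1 : t ≤ u + 4.7124 := by linarith
  have s1 := one_sub_sq_div_two_le_cos (x := u)
  have s2 : cos u ≤ 1 - 0.485 * u ^ 2 := by
    have a := lw_cos4 (abs_nonneg u)
    have e : |u| ^ 4 = (u ^ 2) ^ 2 := by rw [← sq_abs u]; ring
    rw [cos_abs, sq_abs, e] at a
    nlinarith [sq_nonneg u]
  have k : (cos t ≤ 0 ∧ t - 4.7124 ≤ cos t ∧ t ≤ 4.7124 ∧ u ≤ 0) ∨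
      (0 ≤ cos t ∧ u - u ^ 3 / 6 ≤ cos t ∧ 0 ≤ u) := by
    rw [ec]
    rcases le_total u 0 with h | h
    · have a := sin_le (neg_nonneg.2 h)
      have b := sin_nonneg_of_nonneg_of_le_pi (neg_nonneg.2 h) (by linarith)
      rw [sin_neg] at a b
      exact Or.inl ⟨by linarith, by linarith, by linarith, h⟩
    · exact Or.inr ⟨sin_nonneg_of_nonneg_of_le_pi h (by linarith), lw_sin3 h, h⟩
  refine ⟨?_, by rw [es]; linarith, ?_, ?_, ?_⟩
  · rcases k with k | k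
    · linarith [k.2.1]
    · nlinarith [k.2.1, mul_nonneg k.2.2 (sub_nonneg.2 u1), mul_nonneg (mul_nonneg k.2.2 k.2.2) (sub_nonneg.2 u1)]
  · rw [es]
    have : (u + 4.7123) * (1 - u ^ 2 / 2) ≤ t * cos u :=
      mul_le_mul t0 s1 (by linarith) (by linarith)
    nlinarith [mul_nonneg (sub_nonneg.2 u0) (sub_nonneg.2 u1),
      mul_nonneg (mul_nonneg (sub_nonneg.2 u0) (sub_nonneg.2 u1)) (sub_nonneg.2 u0)]
  · rw [es]
    have a : t * cos u ≤ (u + 4.7124) * (1 - 0.485 * u ^ 2) :=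
      mul_le_mul t1 s2 (by linarith) (by linarith)
    have b : (t - 4.91) ^ 2 ≤ (u - 0.1976) ^ 2 + 0.0001 := by nlinarith
    nlinarith [mul_nonneg (sub_nonneg.2 u0) (sq_nonneg (u - 0.3)),
      mul_nonneg (sub_nonneg.2 u0) (sub_nonneg.2 u1), sq_nonneg (u - 0.2)]
  · rcases k with k | k
    · exact Or.inl ⟨k.1, k.2.1, k.2.2.1⟩
    · refine Or.inr ⟨k.1, ?_, by linarith [k.2.2]⟩
      nlinarith [k.2.1, mul_le_mul_of_nonneg_left u2 k.2.2]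

theorem line_modu {x : ℝ} (h0 : 2.02 ≤ x) (h1 : x ≤ 4) : x ^ 2 * (0.576 - 0.12 * x) ≤ 1 - cos x := by
  have a := one_sub_sq_div_two_le_cos (x := x - π)
  rw [cos_sub_pi] at a
  have p1 := pi_gt_d6
  have p2 := pi_lt_d6
  have p3 : π ^ 2 ≤ 9.86961 := by nlinarith
  have p4 : 3.141592 * x ≤ π * x := mul_le_mul_of_nonneg_right p1.le (by linarith)
  nlinarith [mul_nonneg (sub_nonneg.2 h0) (sq_nonneg (x - 3.46))]

theorem quad_modu {p q r a b y : ℝ} (y0 : a ≤ y) (y1 : y ≤ b) (hab : a < b)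
    (e0 : 0 ≤ p + q * a + r * a ^ 2) (e1 : 0 ≤ p + q * b + r * b ^ 2)
    (e2 : 0 ≤ p + q * b + r * (2 * a * b - a ^ 2)) : 0 ≤ p + q * y + r * y ^ 2 := by
  have m0 := mul_nonneg (sub_nonneg.2 y1) e0
  refine nonneg_of_mul_nonneg_right ?_ (sub_pos.2 hab)
  rcases le_total 0 r with h | h
  · have m1 := mul_nonneg (sub_nonneg.2 y0) e2
    have m2 := mul_nonneg (mul_nonneg h (sq_nonneg (y - a))) (sub_pos.2 hab).le
    linarith
  · have m1 := mul_nonneg (sub_nonneg.2 y0) e1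
    have m2 := mul_nonneg (mul_nonneg (neg_nonneg.2 h)
      (mul_nonneg (sub_nonneg.2 y0) (sub_nonneg.2 y1))) (sub_pos.2 hab).le
    linarith

theorem big_modu {t z : ℝ} (h0 : 4.5 ≤ t) (h1 : t ≤ 5.3) (z1 : 1 ≤ z) :
    0 ≤ 1 - cos (t * z) - (1 - cos t) * z ^ 2
      + (2 * (1 - cos t) - t * sin t) * (z ^ 3 - z ^ 2 - 2 * Gw z) := by
  obtain ⟨-, s0, S0, -, k⟩ := facts_modu h0 h1
  have ht : 0 ≤ t := by linarith
  rw [rho_modu, min_eq_right z1]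
  have f2 : 0 ≤ -sin t * (t * (z - 1) - sin (t * (z - 1))) :=
    mul_nonneg s0 (sub_nonneg.2 (sin_le (mul_nonneg ht (by linarith))))
  have f3 : 0 ≤ (1 - cos t) * (2 * (1 + z - 4 / 5 * z * 1) - 1) :=
    mul_nonneg (sub_nonneg.2 (cos_le_one _)) (by linarith)
  have f4 : 4.38 * 1 ≤ t * -sin t * (1 + z - 4 / 5 * z * 1) :=
    mul_le_mul S0 (by linarith) zero_le_one (by linarith)
  have f5 := mul_le_mul_of_nonneg_left (add_le_add f3 f4) (sq_nonneg (z - 1))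
  have f1 : -(3 * (z - 1) ^ 2) ≤ cos t * (1 - cos (t * (z - 1))) := by
    rcases k with k | k
    · have a := mul_le_mul_of_nonpos_left (show 1 - cos (t * (z - 1)) ≤ (t * (z - 1)) ^ 2 / 2 by
        linarith [one_sub_sq_div_two_le_cos (x := t * (z - 1))]) k.1
      have b : -3 ≤ cos t * (t ^ 2 / 2) := by
        have := mul_le_mul_of_nonpos_left (show t ^ 2 / 2 ≤ 12 by nlinarith [k.2.2]) k.1
        linarith [k.2.1]
      nlinarith [mul_le_mul_of_nonneg_left b (sq_nonneg (z - 1))]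
    · have := mul_nonneg k.1 (sub_nonneg.2 (cos_le_one (t * (z - 1))))
      nlinarith [sq_nonneg (z - 1)]
  nlinarith [sq_nonneg (z - 1)]

theorem ends_modu {K p0 p1 y : ℝ} (hK : 0 ≤ K) (y0 : 0 ≤ y) (y1 : y ≤ 0.25) (e0 : K ≤ p0)
    (e1 : 0.5625 * K ≤ p0 + 0.25 * p1) : K * (1 - y) ^ 2 ≤ p0 + y * p1 := by
  have m0 := mul_le_mul_of_nonneg_left e0 (sub_nonneg.2 y1)
  have m1 := mul_le_mul_of_nonneg_left e1 y0
  have m2 := mul_nonneg hK (mul_nonneg y0 (sub_nonneg.2 y1))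
  linarith

theorem near_modu {t y : ℝ} (h0 : 4.5 ≤ t) (h1 : t ≤ 5.3) (y0 : 0 ≤ y) (y1 : y ≤ 0.25) :
    y ^ 2 * ((7 - 4.85 * (5.3 - t)) * (1 - y) ^ 2)
      ≤ 1 - cos (t * (1 - y)) - (1 - cos t) * (1 - y) ^ 2
      + (2 * (1 - cos t) - t * sin t) * ((1 - y) ^ 3 - (1 - y) ^ 2 - 2 * Gw (1 - y)) := by
  obtain ⟨-, s0, S0, -, k⟩ := facts_modu h0 h1
  have ht : 0 ≤ t := by linarith
  have c3 := cos_le_one t
  rw [rho_modu, min_eq_left (by linarith)]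
  have w0 : 0 ≤ t * y := mul_nonneg ht y0
  have e1 : t * (1 - y - 1) = -(t * y) := by ring
  rw [e1, cos_neg, sin_neg]
  have q2 := mul_le_mul_of_nonneg_left (lw_sin3 w0) s0
  have x1 : 1.2 + 0.4 * y ≤ 1 + (1 - y) - 4 / 5 * (1 - y) * (1 - y) := by
    nlinarith [mul_nonneg y0 (sub_nonneg.2 y1)]
  have m1 := mul_le_mul_of_nonneg_left
    (by linarith : 1.4 + 0.8 * y ≤ 2 * (1 + (1 - y) - 4 / 5 * (1 - y) * (1 - y)) - 1)
    (mul_nonneg (sq_nonneg y) (sub_nonneg.2 c3))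
  have m3 := mul_le_mul_of_nonneg_left x1 (mul_nonneg (sq_nonneg y) (mul_nonneg ht s0))
  have t2 : t ^ 2 ≤ 28.09 := by nlinarith
  have b1 := mul_le_mul_of_nonneg_right S0 (show 0 ≤ 1.3 - t ^ 2 / 24 by linarith)
  rcases k with k | k
  · have q1 := mul_le_mul_of_nonpos_left (show 1 - cos (t * y) ≤ (t * y) ^ 2 / 2 by
      linarith [one_sub_sq_div_two_le_cos (x := t * y)]) k.1
    have b2 := mul_le_mul_of_nonneg_right k.2.1 (show 0 ≤ t ^ 2 / 2 - 1.6 by nlinarith)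
    have b3 := mul_le_mul_of_nonpos_left (show t ^ 2 / 2 ≤ 11.11 by nlinarith [k.2.2]) k.1
    have e := ends_modu (K := 7 - 4.85 * (5.3 - t))
      (p0 := 1.4 * (1 - cos t) + 1.2 * (t * -sin t) + cos t * (t ^ 2 / 2))
      (p1 := 0.8 * (1 - cos t) + t * -sin t * (0.4 - t ^ 2 / 6)) (by linarith) y0 y1
      (by linarith [k.1, k.2.1, k.2.2]) (by
        nlinarith [mul_nonneg (sub_nonneg.2 h0) (sub_nonneg.2 k.2.2),
          mul_nonneg (mul_nonneg (sub_nonneg.2 h0) (sub_nonneg.2 k.2.2)) ht])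
    have := mul_le_mul_of_nonneg_left e (sq_nonneg y)
    linarith
  · have q1 := mul_le_mul_of_nonneg_left (cube_modt w0) k.1
    have b2 := mul_le_mul_of_nonneg_left (show 8.4 ≤ t ^ 2 * (1 / 2 - t / 40) by
      nlinarith [mul_nonneg (sub_nonneg.2 k.2.2) (sub_nonneg.2 h1)]) k.1
    have b3 := mul_le_mul_of_nonneg_left (show 11 ≤ t ^ 2 / 2 by nlinarith [k.2.2]) k.1
    have e := ends_modu (K := 7 - 4.85 * (5.3 - t))
      (p0 := 1.4 * (1 - cos t) + 1.2 * (t * -sin t) + cos t * (t ^ 2 / 2))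
      (p1 := 0.8 * (1 - cos t) + t * -sin t * (0.4 - t ^ 2 / 6) - cos t * (t ^ 3 / 10))
      (by linarith) y0 y1 (by linarith [k.2.1, k.2.2]) (by
        nlinarith [mul_nonneg (sub_nonneg.2 k.2.2) (sub_nonneg.2 h1), k.2.1])
    have := mul_le_mul_of_nonneg_left e (sq_nonneg y)
    linarith

theorem pwA_modu {t z : ℝ} (h0 : 4.5 ≤ t) (h1 : t ≤ 5.3) (hz : 0 ≤ z) :
    0 ≤ 1 - cos (t * z) - (1 - cos t) * z ^ 2
      + (2 * (1 - cos t) - t * sin t) * (z ^ 3 - z ^ 2 - 2 * Gw z) + 24 * (5.3 - t) * Gw z := by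
  have g0 : 0 ≤ 24 * (5.3 - t) * Gw z := by
    refine mul_nonneg (by linarith) ?_
    rw [Gw]
    have : 0 ≤ min z 1 := le_min hz zero_le_one
    positivity
  rcases le_total 1 z with z1 | z1
  · linarith [big_modu h0 h1 z1]
  obtain ⟨y, rfl⟩ : ∃ y, z = 1 - y := ⟨1 - z, by ring⟩
  have y0 : 0 ≤ y := by linarith
  rcases le_total y 0.25 with y1 | y1
  · have := near_modu h0 h1 y0 y1
    have : 0 ≤ y ^ 2 * ((7 - 4.85 * (5.3 - t)) * (1 - y) ^ 2) :=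
      mul_nonneg (sq_nonneg y) (mul_nonneg (by linarith) (sq_nonneg _))
    linarith
  obtain ⟨a1, -, -, S1, -⟩ := facts_modu h0 h1
  have ht : 0 ≤ t := by linarith
  have c := cube_modt (x := t * (1 - y)) (mul_nonneg ht hz)
  have m := mul_nonneg (sub_nonneg.2 h0) (sub_nonneg.2 h1)
  have m' := mul_nonneg m ht
  have k := quad_modu (p := t ^ 2 * (1 / 2 - t / 10) - (0.4468 + 0.957 * (5.3 - t)))
    (q := t ^ 3 / 10 - (5.7186 + 1.914 * (5.3 - t)))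
    (r := 9.6 * (5.3 - t) - 0.8 * (5.7186 + 1.914 * (5.3 - t))) y1 (by linarith : y ≤ 1)
    (by norm_num) (by nlinarith) (by nlinarith) (by nlinarith)
  have b : 2 * (1 - cos t) - t * sin t ≤ 5.7186 + 1.914 * (5.3 - t) := by
    nlinarith [sq_nonneg (t - 4.91)]
  have b2 := mul_le_mul_of_nonneg_right b (show 0 ≤ y + 0.8 * y ^ 2 by positivity)
  have k2 : 0 ≤ t ^ 2 * (1 / 2 - t * (1 - y) / 10) - (1 - cos t)
      - (2 * (1 - cos t) - t * sin t) * (y + 0.8 * y ^ 2) + 9.6 * (5.3 - t) * y ^ 2 := by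
    linarith
  have := mul_nonneg (sq_nonneg (1 - y)) k2
  rw [Gw_lo_modt y0]
  linarith

theorem bds_modu {a S w : ℝ} (w0 : 0 ≤ w) (w1 : w ≤ 0.8) (a0 : 0 ≤ a) (a1 : a ≤ 0.4468 + 0.957 * w)
    (S1 : S ≤ 4.825 - 2.5 * (0.39 - w) ^ 2) :
    a ^ 2 ≤ 0.19964 + 0.8552 * w + 0.91585 * w ^ 2 ∧ a * (0.44 * a + 0.48 * S) ≤ 1.1 + 2.85 * w ∧
      2 * a + S + a * (0.44 * a + 0.48 * S) ≤ 6.38 + 6.71 * w - 1.73 * w ^ 2 - 1.14 * w ^ 3 := by
  have b1 := pow_le_pow_left₀ a0 a1 2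
  have b2 : a * S ≤ (0.4468 + 0.957 * w) * (4.825 - 2.5 * (0.39 - w) ^ 2) :=
    (mul_le_mul_of_nonneg_left S1 a0).trans (mul_le_mul_of_nonneg_right a1 (by nlinarith))
  have w2 := sq_nonneg w
  have w3 := pow_nonneg w0 3
  refine ⟨by linarith, ?_, by linarith⟩
  nlinarith [mul_nonneg w0 (sq_nonneg (w - 0.44)), sq_nonneg (w - 0.44)]

theorem nearB_modu {w y : ℝ} (w0 : 0 ≤ w) (w1 : w ≤ 0.8) :
    0 ≤ (6.92 + 12.07 * w) * y ^ 2 - (1.694 + 8.13 * w) * y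
      + (0.1253 + 1.3166 * w - 0.2015 * w ^ 2) := by
  have A : 0 < 6.92 + 12.07 * w := by positivity
  have D : (1.694 + 8.13 * w) ^ 2
      ≤ 4 * (6.92 + 12.07 * w) * (0.1253 + 1.3166 * w - 0.2015 * w ^ 2) := by
    nlinarith [mul_nonneg w0 (sub_nonneg.2 w1), mul_nonneg (mul_nonneg w0 w0) (sub_nonneg.2 w1)]
  refine nonneg_of_mul_nonneg_right ?_ A
  linarith [sq_nonneg (2 * (6.92 + 12.07 * w) * y - (1.694 + 8.13 * w))]

theorem farB_modu {w y p q : ℝ} (w0 : 0 ≤ w) (w1 : w ≤ 0.8)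
    (h : (p = 0.576 ∧ q = 0.12 ∧ 0.25 ≤ y ∧ y ≤ 0.55) ∨ (p = 1 / 2 ∧ q = 1 / 10 ∧ 0.55 ≤ y ∧ y ≤ 1)) :
    0 ≤ (5.3 - w) ^ 2 * (p - q * (5.3 - w)) - (0.4908 + 1.1452 * w + 0.2015 * w ^ 2)
        + 0.09405 * (1.8 + 16 * w)
      + (q * (5.3 - w) ^ 3 - (6.38 + 6.71 * w - 1.73 * w ^ 2 - 1.14 * w ^ 3)
        - 0.33 * (1.8 + 16 * w)) * y
      + (0.4 * (2 + 48 * w) - 0.8 * (6.38 + 6.71 * w - 1.73 * w ^ 2 - 1.14 * w ^ 3)) * y ^ 2 := by
  have m := mul_nonneg w0 (sub_nonneg.2 w1)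
  have m1 := mul_nonneg m w0
  have m2 := mul_nonneg m (sub_nonneg.2 w1)
  rcases h with ⟨rfl, rfl, y0, y1⟩ | ⟨rfl, rfl, y0, y1⟩
  · exact quad_modu y0 y1 (by norm_num) (by nlinarith) (by nlinarith) (by nlinarith)
  · exact quad_modu y0 y1 (by norm_num) (by nlinarith) (by nlinarith) (by nlinarith)

theorem pwB_modu {t z : ℝ} (h0 : 4.5 ≤ t) (h1 : t ≤ 5.3) (hz : 0 ≤ z) :
    0 ≤ 1 - cos (t * z) - ((1 - cos t) + 0.22 * (1 - cos t) ^ 2) * z ^ 2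
      + ((1 + 0.48 * (1 - cos t)) * (2 * (1 - cos t) - t * sin t) - 0.52 * (1 - cos t) ^ 2)
        * (z ^ 3 - z ^ 2 - 2 * Gw z) + (2 + 48 * (5.3 - t)) * Gw z
      + (1.8 + 16 * (5.3 - t)) * (0.33 * (z ^ 3 - 0.715 * z ^ 2)) := by
  obtain ⟨a1, -, S0, S1, -⟩ := facts_modu h0 h1
  have ht : 0 ≤ t := by linarith
  have b := fun z1 => big_modu (z := z) h0 h1 z1
  have n := fun y0 y1 => near_modu (y := 1 - z) h0 h1 y0 y1
  obtain ⟨a, ha⟩ : ∃ a, a = 1 - cos t := ⟨_, rfl⟩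
  obtain ⟨S, hS⟩ : ∃ S, S = t * -sin t := ⟨_, rfl⟩
  obtain ⟨w, rfl⟩ : ∃ w, t = 5.3 - w := ⟨5.3 - t, by ring⟩
  have es : (5.3 - w) * sin (5.3 - w) = -S := by rw [hS]; ring
  have a0 : 0 ≤ a := by linarith [cos_le_one (5.3 - w)]
  rw [es, ← ha] at b n ⊢
  rw [← ha] at a1
  rw [← hS] at S0 S1
  have w0 : 0 ≤ w := by linarith
  have w1 : w ≤ 0.8 := by linarith
  obtain ⟨d1, d2, d3⟩ := bds_modu (S := S) w0 w1 a0 (by linarith) (by linarith)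
  have M0 : 0 ≤ a * (0.44 * a + 0.48 * S) := mul_nonneg a0 (by linarith)
  rcases le_total 1 z with z1 | z1
  · have g0 : 0 ≤ (2 + 48 * w) * Gw z := by rw [Gw_hi_modt z1]; positivity
    have g1 : 0 ≤ z ^ 3 - z ^ 2 - 2 * Gw z := by
      rw [Gw_hi_modt z1]
      have : 0 ≤ z * (z - 1) * (0.2 * z + 0.8) :=
        mul_nonneg (mul_nonneg hz (by linarith)) (by linarith)
      linarith
    have g2 := mul_nonneg M0 g1
    have g3 : 0 ≤ (1.8 + 16 * w) * (z ^ 2 * (z - 1)) :=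
      mul_nonneg (by positivity) (mul_nonneg (sq_nonneg z) (by linarith))
    have g4 : 0 ≤ z ^ 2 * (0.09405 * (1.8 + 16 * w) - 0.22 * a ^ 2) :=
      mul_nonneg (sq_nonneg z) (by nlinarith)
    linarith [b z1]
  obtain ⟨y, rfl⟩ : ∃ y, z = 1 - y := ⟨1 - z, by ring⟩
  have y0 : 0 ≤ y := by linarith
  have n0 : 0 ≤ y + 0.8 * y ^ 2 := by positivity
  rw [sub_sub_cancel] at n
  rcases le_total y 0.25 with y1 | y1
  · have n1 := n y0 y1
    have k := nearB_modu (y := y) w0 w1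
    have k1 := mul_le_mul_of_nonneg_right d2 n0
    have k2 : 0 ≤ (7 - 4.85 * w) * y ^ 2 - a * (0.44 * a + 0.48 * S) * (y + 0.8 * y ^ 2)
        - 0.22 * a ^ 2 + 0.4 * (2 + 48 * w) * y ^ 2 + (1.8 + 16 * w) * (0.33 * (0.285 - y)) := by
      linarith [sq_nonneg w]
    have := mul_nonneg (sq_nonneg (1 - y)) k2
    rw [Gw_lo_modt y0] at n1 ⊢
    linarith
  have k1 := mul_le_mul_of_nonneg_right d3 n0
  have key : ∀ p q : ℝ, ((p = 0.576 ∧ q = 0.12 ∧ 0.25 ≤ y ∧ y ≤ 0.55) ∨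
      (p = 1 / 2 ∧ q = 1 / 10 ∧ 0.55 ≤ y ∧ y ≤ 1)) →
      0 ≤ (1 - y) ^ 2 * ((5.3 - w) ^ 2 * (p - q * ((5.3 - w) * (1 - y))) - (a + 0.22 * a ^ 2)
        - (2 * a + S + a * (0.44 * a + 0.48 * S)) * (y + 0.8 * y ^ 2)
        + 0.4 * (2 + 48 * w) * y ^ 2 + (1.8 + 16 * w) * (0.33 * (0.285 - y))) := fun p q h => by
    have k := farB_modu w0 w1 h
    exact mul_nonneg (sq_nonneg _) (by linarith [sq_nonneg w])
  rw [Gw_lo_modt y0]
  rcases le_total y 0.55 with y2 | y2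
  · have c := line_modu (x := (5.3 - w) * (1 - y)) (by nlinarith) (by nlinarith)
    linarith [key _ _ (Or.inl ⟨rfl, rfl, y1, y2⟩)]
  · have c := cube_modt (x := (5.3 - w) * (1 - y)) (mul_nonneg ht hz)
    linarith [key _ _ (Or.inr ⟨rfl, rfl, y2, by linarith⟩)]

theorem ent_t3 {t : ℝ} (h : 4.5 ≤ t) (h1 : t ≤ 5.3) :
    Entry t ((1 - cos t) + 0.22 * (1 - cos t) ^ 2) (2 + 48 * (5.3 - t)) := by
  refine ⟨(1 + 0.48 * (1 - cos t)) * (2 * (1 - cos t) - t * sin t) - 0.52 * (1 - cos t) ^ 2,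
    fun d hd => norm_modt (norm_nonneg _) (hd.norm t) ?_⟩
  have a0 : 0 ≤ 1 - cos t := sub_nonneg.2 (cos_le_one t)
  have w0 : 0 ≤ 5.3 - t := by linarith
  rcases le_total 0.12 d.s with g | g
  · have b0 := hd.zlin t 1 (-(1 - cos t) - (2 * (1 - cos t) - t * sin t))
      (2 * (1 - cos t) - t * sin t) (-(2 * (2 * (1 - cos t) - t * sin t)) + 24 * (5.3 - t))
      fun z hz => (pwA_modu h h1 hz).trans_eq (by ring)
    have b1 := mul_nonneg (show 0 ≤ 1 + 0.48 * (1 - cos t) by linarith) b0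
    have b2 := mul_le_mul_of_nonneg_left (modS_A hd g) (sq_nonneg (1 - cos t))
    have b3 := mul_le_mul_of_nonneg_left hd.P3_le
      (show 0 ≤ (1 + 0.48 * (1 - cos t)) * (24 * (5.3 - t)) by positivity)
    have a1 := (facts_modu h h1).1
    have b4 : (1 + 0.48 * (1 - cos t)) * (24 * (5.3 - t)) + 5 * (1 - cos t) ^ 2
        ≤ 2 + 48 * (5.3 - t) := by
      have c1 := pow_le_pow_left₀ a0 a1 2
      have c2 := mul_le_mul_of_nonneg_right a1 w0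
      nlinarith [mul_nonneg w0 (sub_nonneg.2 h)]
    have b5 := mul_le_mul_of_nonneg_right b4 (hd.P3nn.trans hd.P3_le)
    unfold SD.L at *
    linarith [sq_nonneg ((1 - ‖d.f t‖ ^ 2) / 2 - 0.24 * (1 - cos t))]
  · have b1 := hd.zlin t 1
      (-((1 - cos t) + 0.22 * (1 - cos t) ^ 2) -
        ((1 + 0.48 * (1 - cos t)) * (2 * (1 - cos t) - t * sin t) - 0.52 * (1 - cos t) ^ 2) -
        (1.8 + 16 * (5.3 - t)) * (0.33 * 0.715))
      (((1 + 0.48 * (1 - cos t)) * (2 * (1 - cos t) - t * sin t) - 0.52 * (1 - cos t) ^ 2) +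
        (1.8 + 16 * (5.3 - t)) * 0.33)
      (-(2 * ((1 + 0.48 * (1 - cos t)) * (2 * (1 - cos t) - t * sin t) - 0.52 * (1 - cos t) ^ 2)) +
        (2 + 48 * (5.3 - t))) fun z hz => (pwB_modu h h1 hz).trans_eq (by ring)
    have b2 := mul_le_mul_of_nonneg_left (modS_B hd g) (show 0 ≤ 1.8 + 16 * (5.3 - t) by linarith)
    have b3 := mul_le_mul_of_nonneg_left hd.P3_le (show 0 ≤ 0.2 + 32 * (5.3 - t) by linarith)
    unfold SD.L
    linarith [sq_nonneg ((1 - ‖d.f t‖ ^ 2) / 2)]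

end Pool.Agent.Lib.MP_33650d_pr.Y
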