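import Pool.Agent.Lib.MP_33650d_pr.Y.ModVa

namespace Pool.Agent.Lib.MP_33650d_pr.Y
open MeasureTheory ProbabilityTheory Real X

theorem cos6_mv {y : ℝ} (h : 0 ≤ y) : 1 - y ^ 2 / 2 + y ^ 4 / 24 - y ^ 6 / 720 ≤ cos y := by
  have := lw_mono (f := fun x => cos x + x ^ 2 / 2 - x ^ 4 / 24 + x ^ 6 / 720)
    (f' := fun x => -sin x + x - x ^ 3 / 6 + x ^ 5 / 120) (fun x _ _ =>
      ((((hasDerivAt_cos x).add ((hasDerivAt_pow 2 x).div_const 2)).sub
        ((hasDerivAt_pow 4 x).div_const 24)).add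
        ((hasDerivAt_pow 6 x).div_const 720)).congr_deriv (by ring))
    (fun x a _ => by linarith [lw_sin5 a]) h
  simp only [cos_zero] at this
  linarith

theorem sin7_mv {y : ℝ} (h : 0 ≤ y) : y - y ^ 3 / 6 + y ^ 5 / 120 - y ^ 7 / 5040 ≤ sin y := by
  have := lw_mono (f := fun x => sin x - x + x ^ 3 / 6 - x ^ 5 / 120 + x ^ 7 / 5040)
    (f' := fun x => cos x - 1 + x ^ 2 / 2 - x ^ 4 / 24 + x ^ 6 / 720) (fun x _ _ =>
      (((((hasDerivAt_sin x).sub (hasDerivAt_id x)).add ((hasDerivAt_pow 3 x).div_const 6)).sub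
        ((hasDerivAt_pow 5 x).div_const 120)).add
        ((hasDerivAt_pow 7 x).div_const 5040)).congr_deriv (by ring))
    (fun x a _ => by linarith [cos6_mv a]) h
  simp only [sin_zero] at this
  linarith

theorem cos8_mv {y : ℝ} (h : 0 ≤ y) :
    cos y ≤ 1 - y ^ 2 / 2 + y ^ 4 / 24 - y ^ 6 / 720 + y ^ 8 / 40320 := by
  have := lw_mono (f := fun x => -cos x - x ^ 2 / 2 + x ^ 4 / 24 - x ^ 6 / 720 + x ^ 8 / 40320)
    (f' := fun x => sin x - x + x ^ 3 / 6 - x ^ 5 / 120 + x ^ 7 / 5040) (fun x _ _ =>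
      (((((hasDerivAt_cos x).neg.sub ((hasDerivAt_pow 2 x).div_const 2)).add
        ((hasDerivAt_pow 4 x).div_const 24)).sub ((hasDerivAt_pow 6 x).div_const 720)).add
        ((hasDerivAt_pow 8 x).div_const 40320)).congr_deriv (by ring))
    (fun x a _ => by linarith [sin7_mv a]) h
  simp only [cos_zero] at this
  linarith

theorem cosq_mv {x : ℝ} (h0 : 0 ≤ x) (h1 : x ≤ 2.3) :
    x ^ 2 * (1 / 2 - x ^ 2 / 24 + 0.00125 * x ^ 4) ≤ 1 - cos x := by
  have a := cos8_mv h0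
  have b : x ^ 2 ≤ 2.3 ^ 2 := pow_le_pow_left₀ h0 h1 2
  have c := mul_le_mul_of_nonneg_left b (pow_nonneg h0 6)
  have d := pow_nonneg h0 6
  nlinarith

theorem lin1_mv {x : ℝ} (h : 1.6 ≤ x) : x ^ 2 * (0.605 - 0.13 * x) ≤ 1 - cos x := by
  rcases le_total x 2.2 with g | g
  · have a := cosq_mv (x := x) (by linarith) (by linarith)
    have b := cH_mv (t := x) (by linarith) (by linarith)
    have c := mul_nonneg (sq_nonneg x) b
    linarith
  rcases le_total 4.66 x with g' | g'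
  · have a := cos_le_one x
    have b : 0 ≤ x ^ 2 * (0.13 * x - 0.605) := mul_nonneg (sq_nonneg x) (by linarith)
    linarith
  have h1 := one_sub_sq_div_two_le_cos (x := x - π)
  rw [cos_sub_pi] at h1
  have p1 := pi_gt_d4
  have p2 := pi_lt_d4
  have p3 : π ^ 2 ≤ 9.8697 := by nlinarith
  have p4 : 3.1415 * x ≤ π * x := mul_le_mul_of_nonneg_right p1.le (by linarith)
  have h3 : 0 ≤ (x - 2.2) * (x - 3.15) ^ 2 := mul_nonneg (by linarith) (sq_nonneg _)
  nlinarith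

theorem lin2_mv {x : ℝ} (h : 1 ≤ x) : x ^ 2 * (0.588 - 0.13 * x) ≤ 1 - cos x := by
  rcases le_total x 1.6 with g | g
  · have a := lw_cos4 (y := x) (by linarith)
    have b : 0.588 - 0.13 * x ≤ 1 / 2 - x ^ 2 / 24 := by
      nlinarith [mul_nonneg (sub_nonneg.2 h) (sub_nonneg.2 g)]
    have c := mul_le_mul_of_nonneg_left b (sq_nonneg x)
    linarith
  · have a := lin1_mv g
    have b := sq_nonneg x
    linarith

theorem sinA_mv {y : ℝ} (h0 : 0 ≤ y) (h1 : y ≤ 0.73) :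
    |sin y - (y - y ^ 3 / 6 + y ^ 5 / 120)| ≤ 0.0001 := by
  have a := sin7_mv h0
  have b := lw_sin5 h0
  have c : y ^ 7 ≤ 0.73 ^ 7 := pow_le_pow_left₀ h0 h1 7
  rw [abs_le]
  constructor <;> linarith

theorem approx_mv {t : ℝ} (h : 1 ≤ t) (h1 : t ≤ 2.3) :
    |1 - cos t - a0_mv t| ≤ 0.00025 ∧ |sin t - s0_mv t| ≤ 0.00025 := by
  have p1 := pi_gt_d6
  have p2 := pi_lt_d6
  have hd : |t - π / 2 - (t - 1.5708)| ≤ 0.00001 := abs_le.2 ⟨by linarith, by linarith⟩
  obtain ⟨τ, hτ⟩ : ∃ τ, τ = t - 1.5708 := ⟨_, rfl⟩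
  have t0 : -0.5708 ≤ τ := by linarith
  have t1 : τ ≤ 0.7292 := by linarith
  unfold a0_mv s0_mv
  rw [← hτ] at hd ⊢
  constructor
  · have a := (abs_sin_sub_sin_le (t - π / 2) τ).trans hd
    rw [sin_sub_pi_div_two] at a
    obtain ⟨a1, a2⟩ := abs_le.1 a
    rcases le_total 0 τ with g | g
    · obtain ⟨b1, b2⟩ := abs_le.1 (sinA_mv g (by linarith))
      exact abs_le.2 ⟨by linarith, by linarith⟩
    · obtain ⟨b1, b2⟩ := abs_le.1 (sinA_mv (y := -τ) (by linarith) (by linarith))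
      rw [sin_neg] at b1 b2
      exact abs_le.2 ⟨by linarith, by linarith⟩
  · have a := (abs_cos_sub_cos_le (t - π / 2) τ).trans hd
    rw [cos_sub_pi_div_two] at a
    obtain ⟨a1, a2⟩ := abs_le.1 a
    have b1 := cos6_mv (abs_nonneg τ)
    have b2 := lw_cos4 (abs_nonneg τ)
    have b3 : |τ| ^ 6 ≤ 0.7292 ^ 6 :=
      pow_le_pow_left₀ (abs_nonneg τ) (abs_le.2 ⟨by linarith, t1⟩) 6
    have e4 : |τ| ^ 4 = τ ^ 4 := Even.pow_abs (by decide) τ
    rw [cos_abs, sq_abs, e4] at b1 b2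
    exact abs_le.2 ⟨by linarith, by linarith⟩

theorem err_mv {e ε K k : ℝ} (he : |e| ≤ ε) (h0 : -k ≤ K) (h1 : K ≤ k) :
    -(ε * k) ≤ e * K ∧ e * K ≤ ε * k := by
  have := mul_le_mul he (abs_le.2 ⟨h0, h1⟩) (abs_nonneg K) ((abs_nonneg e).trans he)
  rw [← abs_mul] at this
  exact abs_le.1 this

/-- The facts on `a = 1 - cos t` and `q = t sin t`. -/
theorem facts_mv {t : ℝ} (h : 1 ≤ t) (h1 : t ≤ 2.3) :
    |1 - cos t - a0_mv t| ≤ 0.00025 ∧ |t * sin t - t * s0_mv t| ≤ 0.000575 ∧ 0 ≤ sin t ∧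
      cos t ≤ 0.542 ∧ -0.7 ≤ cos t := by
  obtain ⟨a1, a2⟩ := approx_mv h h1
  have p1 := pi_gt_d2
  refine ⟨a1, ?_, sin_nonneg_of_nonneg_of_le_pi (by linarith) (by linarith), ?_, ?_⟩
  · obtain ⟨b1, b2⟩ := err_mv (K := t) (k := 2.3) a2 (by linarith) h1
    exact abs_le.2 ⟨by linarith, by linarith⟩
  · have b := lw_cos4 (y := t) (by linarith)
    have c1 : 1 ≤ t ^ 2 := by nlinarith
    have c2 : t ^ 2 ≤ 2.3 ^ 2 := pow_le_pow_left₀ (by linarith) h1 2
    nlinarith [mul_nonneg (sub_nonneg.2 c1) (sub_nonneg.2 c2)]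
  · have b1 : cos 2.3 ≤ cos t := cos_le_cos_of_nonneg_of_le_pi (by linarith) (by linarith) h1
    have b2 := cos6_mv (y := 2.3) (by norm_num)
    linarith

theorem ccos_mv {c x : ℝ} (hc : c ≤ 0.542) (hx : 0 ≤ x) :
    c * x ^ 2 / 2 - 0.542 / 24 * x ^ 4 ≤ c * (1 - cos x) := by
  have x4 : 0 ≤ x ^ 4 := pow_nonneg hx 4
  rcases le_total 0 c with g | g
  · have a := mul_le_mul_of_nonneg_left (lw_cos4 hx) g
    have b := mul_le_mul_of_nonneg_right hc x4
    linarith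
  · have a := mul_le_mul_of_nonneg_left (one_sub_sq_div_two_le_cos (x := x)) (neg_nonneg.2 g)
    linarith

theorem pwA_mv {t z : ℝ} (h : 1 ≤ t) (h1 : t ≤ 2.3) (hz : 0 ≤ z) :
    0 ≤ F_modt t z + 0.55 * t ^ 3 * Gw z := by
  obtain ⟨ea, eq, s0, c1, -⟩ := facts_mv h h1
  have t0 : 0 ≤ t := by linarith
  have t2 : t ^ 2 ≤ 2.3 ^ 2 := pow_le_pow_left₀ t0 h1 2
  have t2' := sq_nonneg t
  rcases le_total z 1 with g | g
  · obtain ⟨u, rfl⟩ : ∃ u, z = 1 - u := ⟨1 - z, by ring⟩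
    have hu : 0 ≤ u := by linarith
    rcases le_total u 0.4 with g' | g'
    · have k := cR2_mv (t := t) (z := u) h (by linarith) hu (by linarith)
      have u2 : (1 - u) ^ 2 ≤ 1 := by nlinarith
      have u3 := sq_nonneg (1 - u)
      have tu : t ^ 2 * u ≤ 2.3 ^ 2 * 0.4 := mul_le_mul t2 g' hu (by norm_num)
      have tu' : 0 ≤ t ^ 2 * u := mul_nonneg t2' hu
      have e1 := (err_mv (K := 3 - t ^ 2 / 2 - 2 * u - 1.6 * (1 - u) ^ 2) (k := 5) ea
        (by linarith) (by linarith)).1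
      have e2 := (err_mv (K := 0.159 * (t ^ 2 * u) - 2 + u + 0.8 * (1 - u) ^ 2) (k := 2) eq
        (by linarith) (by linarith)).1
      have k2 : 0 ≤ R2_mv t (1 - cos t) (t * sin t) u := by
        unfold R2_mv at k ⊢
        linarith
      have w0 : 0 ≤ t * u := mul_nonneg t0 hu
      have w1 : t * u ≤ 2.3 * 0.4 := mul_le_mul h1 g' hu (by norm_num)
      have ec : cos (t * (1 - u)) = cos t * cos (t * u) + sin t * sin (t * u) := by
        rw [← cos_sub]; ring_nf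
      have a1 := ccos_mv c1 w0
      have a2 : 0.159 * (t * u) ^ 3 ≤ t * u - sin (t * u) := by
        have b1 := lw_sin5 w0
        have b2 : (t * u) ^ 2 ≤ (2.3 * 0.4) ^ 2 := pow_le_pow_left₀ w0 w1 2
        have b3 := mul_le_mul_of_nonneg_left b2 (pow_nonneg w0 3)
        have b4 := pow_nonneg w0 3
        linarith
      have a3 := mul_le_mul_of_nonneg_left a2 s0
      have a4 := mul_nonneg (sq_nonneg u) k2
      rw [F_modt, ec, Gw_lo_modt hu]
      unfold R2_mv at a4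
      linarith
    · have k := cR1_mv (t := t) (z := 1 - u) h (by linarith) hz (by linarith)
      have u1 : u ≤ 1 := by linarith
      have u2 : u ^ 2 ≤ 1 := by nlinarith
      have u3 := sq_nonneg u
      have e1 := (err_mv (K := -1 - 2 * u - 1.6 * u ^ 2) (k := 4.6) ea
        (by linarith) (by linarith)).1
      have e2 := (err_mv (K := u + 0.8 * u ^ 2) (k := 1.8) eq (by linarith) (by linarith)).1
      have k2 : 0 ≤ R1_mv t (1 - cos t) (t * sin t) (1 - u) := by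
        unfold R1_mv at k ⊢
        linarith
      have a1 := lw_cos4 (mul_nonneg t0 hz)
      have a4 := mul_nonneg (sq_nonneg (1 - u)) k2
      rw [F_modt, Gw_lo_modt hu]
      unfold R1_mv at a4
      linarith
  rcases le_total z 1.6 with g' | g'
  · obtain ⟨w, rfl⟩ : ∃ w, z = 1 + w := ⟨z - 1, by ring⟩
    have hw : 0 ≤ w := by linarith
    have hw1 : w ≤ 0.6 := by linarith
    have k := cR3_mv (t := t) (z := w) h (by linarith) hw (by linarith)
    have tu : t ^ 2 * w ≤ 2.3 ^ 2 * 0.6 := mul_le_mul t2 hw1 hw (by norm_num)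
    have tu' : 0 ≤ t ^ 2 * w := mul_nonneg t2' hw
    have e1 := (err_mv (K := 1.4 - t ^ 2 / 2 + 0.4 * w) (k := 2) ea
      (by linarith) (by linarith)).1
    have e2 := (err_mv (K := -(t ^ 2 * w) / 6 - 1.2 - 0.2 * w) (k := 2) eq
      (by linarith) (by linarith)).1
    have k2 : 0 ≤ R3_mv t (1 - cos t) (t * sin t) w := by
      unfold R3_mv at k ⊢
      linarith
    have w0 : 0 ≤ t * w := mul_nonneg t0 hw
    have ec : cos (t * (1 + w)) = cos t * cos (t * w) - sin t * sin (t * w) := by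
      rw [← cos_add]; ring_nf
    have a1 := ccos_mv c1 w0
    have a3 := mul_le_mul_of_nonneg_left (lw_sin3 w0) s0
    have a4 := mul_nonneg (sq_nonneg w) k2
    rw [F_modt, ec, Gw_hi_modt g]
    unfold R3_mv at a4
    linarith
  · have z0 : 0 < z := by linarith
    have r0 : 0 ≤ 1 / z := by positivity
    have r1 : 1 / z ≤ 0.625 := by
      rw [div_le_iff₀ z0]
      linarith
    have e : z ^ 3 * R4_mv t (1 - cos t) (t * sin t) (1 / z)
        = (t * z) ^ 2 * (0.605 - 0.13 * (t * z)) - (1 - cos t) * z ^ 2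
          + (2 * (1 - cos t) - t * sin t) * (z ^ 3 - z ^ 2 - 2 * (2 / 5 * z * (z - 1) ^ 2))
          + 0.55 * t ^ 3 * (2 / 5 * z * (z - 1) ^ 2) := by
      unfold R4_mv
      field_simp
      ring
    have k := cR4_mv (t := t) (z := 1 / z) h (by linarith) r0 (by linarith)
    have k2 : 0 ≤ R4_mv t (1 - cos t) (t * sin t) (1 / z) := by
      generalize 1 / z = r at k r0 r1
      have r2 : r ^ 2 ≤ 0.625 * r := by nlinarith
      have r3 := sq_nonneg r
      have r4 := sq_nonneg (r - 0.375)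
      have e1 := (err_mv (K := 0.4 + 0.2 * r - 1.6 * r ^ 2) (k := 1) ea
        (by linarith) (by linarith)).1
      have e2 := (err_mv (K := -(0.2 + 0.6 * r - 0.8 * r ^ 2)) (k := 0.6) eq
        (by linarith) (by linarith)).1
      unfold R4_mv at k ⊢
      linarith
    have a1 := lin1_mv (x := t * z) (by nlinarith)
    have a4 := mul_nonneg (pow_nonneg hz 3) k2
    rw [F_modt, Gw_hi_modt g]
    linarith

theorem factsB_mv {t : ℝ} (h : 1 ≤ t) (h1 : t ≤ 2.3) :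
    (1 - cos t) + 0.22 * (1 - cos t) ^ 2 ≤ a0_mv t + 0.22 * a0_mv t ^ 2 + 0.0005 ∧
      |m_mv (1 - cos t) (t * sin t) - m_mv (a0_mv t) (t * s0_mv t)| ≤ 0.002 := by
  obtain ⟨ea, eq, s0, c1, c2⟩ := facts_mv h h1
  obtain ⟨ea1, ea2⟩ := abs_le.1 ea
  have q0 : 0 ≤ t * sin t := mul_nonneg (by linarith) s0
  have q1 : t * sin t ≤ 2.3 * 1 := mul_le_mul h1 (sin_le_one t) s0 (by norm_num)
  constructor
  · have e1 := (err_mv (K := 1 + 0.22 * (1 - cos t + a0_mv t)) (k := 1.8) ea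
      (by linarith) (by linarith)).2
    linarith
  · obtain ⟨e1, e2⟩ := err_mv
      (K := 2 + (0.88 - 0.52 * (121 / 144)) * (1 - cos t + a0_mv t) - 0.44 * (t * sin t))
      (k := 3.6) ea (by linarith) (by linarith)
    obtain ⟨e3, e4⟩ := err_mv (K := 1 + 0.44 * a0_mv t) (k := 1.75) eq (by linarith) (by linarith)
    unfold m_mv
    exact abs_le.2 ⟨by linarith, by linarith⟩

theorem pwB_mv {t z : ℝ} (h : 1 ≤ t) (h1 : t ≤ 2.3) (hz : 0 ≤ z) :
    0 ≤ 1 - cos (t * z) - ((1 - cos t) + 0.22 * (1 - cos t) ^ 2) * z ^ 2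
      + m_mv (1 - cos t) (t * sin t) * (z ^ 3 - z ^ 2 - 2 * Gw z) + 2 * t ^ 3 * Gw z
      + 0.396 * t ^ 3 * (z ^ 3 - 0.715 * z ^ 2) := by
  obtain ⟨f1, f2⟩ := factsB_mv h h1
  obtain ⟨f2, f3⟩ := abs_le.1 f2
  have t0 : 0 ≤ t := by linarith
  generalize (1 - cos t) + 0.22 * (1 - cos t) ^ 2 = α at f1 ⊢
  generalize m_mv (1 - cos t) (t * sin t) = m at f2 f3 ⊢
  rcases le_total z 1 with g | g
  · have k : 0 ≤ B1_mv t (a0_mv t + 0.22 * a0_mv t ^ 2 + 0.0005)
        (m_mv (a0_mv t) (t * s0_mv t) + 0.002) z := by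
      rcases le_total z (7 / 10) with g' | g'
      · exact cB1a_mv h (by linarith) hz g'
      · exact cB1b_mv h (by linarith) g' g
    have p0 : 0 ≤ -(z - 1 - 0.8 * (1 - z) ^ 2) := by linarith [sq_nonneg (1 - z)]
    have p1 := mul_nonneg (show 0 ≤ m_mv (a0_mv t) (t * s0_mv t) + 0.002 - m by linarith) p0
    have k2 : 0 ≤ B1_mv t α m z := by
      unfold B1_mv at k ⊢
      linarith
    have a1 := cosq_mv (x := t * z) (mul_nonneg t0 hz) (by nlinarith)
    have a4 := mul_nonneg (sq_nonneg z) k2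
    have eG : Gw z = 2 / 5 * z ^ 2 * (1 - z) ^ 2 := by
      rw [Gw, min_eq_left g]
      ring
    rw [eG]
    unfold B1_mv at a4
    linarith
  · have k2 := cB2_mv (t := t) h (by linarith)
    have k3 := cB3_mv (t := t) h (by linarith)
    have a1 := lin2_mv (x := t * z) (by nlinarith)
    have w0 : 0 ≤ z - 1 := by linarith
    have t3 : 1 ≤ t ^ 3 := one_le_pow₀ h
    have b1 : 0 ≤ (m + 0.02) * (z * (z - 1) * (0.2 * z + 0.8)) :=
      mul_nonneg (by linarith) (by positivity)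
    have b2 : 0 ≤ z ^ 2 * (t ^ 2 * (0.588 - 0.13 * t) + 0.396 * 0.285 * t ^ 3 - α) :=
      mul_nonneg (sq_nonneg z) (by linarith)
    have b3 : 0 ≤ (t ^ 3 - 1) * (z ^ 2 * (z - 1)) := mul_nonneg (by linarith) (by positivity)
    have b4 : 0 ≤ t ^ 3 * (z * (z - 1) ^ 2) := by positivity
    have b5 : 0 ≤ z * (z - 1) ^ 2 := by positivity
    have b6 : 0 ≤ z * (z - 1) := by positivity
    rw [Gw_hi_modt g]
    linarith

theorem ent_c2 {t : ℝ} (h : 1 ≤ t) (h1 : t ≤ 2.3) :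
    Entry t ((1 - cos t) + 0.22 * (1 - cos t) ^ 2) (2 * t ^ 3) := by
  refine ⟨m_mv (1 - cos t) (t * sin t), fun d hd => norm_modt (norm_nonneg _) (hd.norm t) ?_⟩
  have a0 : 0 ≤ 1 - cos t := sub_nonneg.2 (cos_le_one t)
  have t0 : 0 ≤ t := by linarith
  have t3 : 0 ≤ t ^ 3 := pow_nonneg t0 3
  have j0 := hd.P3nn
  have j1 := hd.P3_le
  rcases le_total 0.12 d.s with g | g
  · have b0 := hd.zlin t 1 (-(1 - cos t) - (2 * (1 - cos t) - t * sin t))
      (2 * (1 - cos t) - t * sin t) (0.55 * t ^ 3 - 2 * (2 * (1 - cos t) - t * sin t))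
      fun z hz => (pwA_mv h h1 hz).trans_eq (by rw [F_modt]; ring)
    have b1 := mul_le_mul_of_nonneg_left b0 (show 0 ≤ 1 + 0.44 * (1 - cos t) by linarith)
    have b2 := mul_le_mul_of_nonneg_left (modS_A hd g) (sq_nonneg (1 - cos t))
    have b3 : (1 + 0.44 * (1 - cos t)) * (0.55 * t ^ 3) + 5 * (121 / 144) * (1 - cos t) ^ 2
        ≤ 2 * t ^ 3 := by
      have k := cJ1_mv (t := t) h (by linarith)
      have e1 : 1 - cos t ≤ a0_mv t + 0.00025 := by
        linarith [(abs_le.1 (facts_mv h h1).1).2]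
      have e2 := pow_le_pow_left₀ a0 e1 2
      have e3 := mul_le_mul_of_nonneg_right e1 t3
      linarith
    have b4 := mul_le_mul_of_nonneg_right b3 (j0.trans j1)
    have b5 := mul_le_mul_of_nonneg_left j1
      (show 0 ≤ (1 + 0.44 * (1 - cos t)) * (0.55 * t ^ 3) by positivity)
    have b6 := mul_nonneg (sq_nonneg (1 - cos t)) hd.spos.le
    have b7 := sq_nonneg ((1 - ‖d.f t‖ ^ 2) / 2 - 0.22 * (1 - cos t))
    unfold m_mv
    unfold SD.L at b2 ⊢
    linarith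
  · have b1 := hd.zlin t 1
      (-((1 - cos t) + 0.22 * (1 - cos t) ^ 2) - m_mv (1 - cos t) (t * sin t)
        - 0.396 * t ^ 3 * 0.715)
      (m_mv (1 - cos t) (t * sin t) + 0.396 * t ^ 3)
      (2 * t ^ 3 - 2 * m_mv (1 - cos t) (t * sin t))
      fun z hz => (pwB_mv h h1 hz).trans_eq (by ring)
    have b2 := mul_le_mul_of_nonneg_left (modS_B hd g) t3
    have b3 := mul_le_mul_of_nonneg_left j1 t3
    unfold SD.L
    linarith [sq_nonneg ((1 - ‖d.f t‖ ^ 2) / 2)]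

end Pool.Agent.Lib.MP_33650d_pr.Y
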