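import Pool.Agent.Lib.MP_33650d_pr.Y.Law
import Pool.Agent.Lib.MP_33650d_pr.Y.E1
import Pool.Agent.Lib.MP_33650d_pr.Y.ModA
import Pool.Agent.Lib.MP_33650d_pr.Y.ModU
import Pool.Agent.Lib.MP_33650d_pr.Y.ModV
import Pool.Agent.Lib.MP_33650d_pr.Y.Defs3
import Pool.Agent.Lib.MP_33650d_pr.Y.Master

namespace Pool.Agent.Lib.MP_33650d_pr.Y
open MeasureTheory ProbabilityTheory Real X

theorem disc_prod {ι : Type*} (s : Finset ι) (a : ι → ℂ) (x : ι → ℝ)
    (h : ∀ k, 1 + ‖a k - 1‖ ≤ exp (x k)) : 1 + ‖∏ k ∈ s, a k - 1‖ ≤ exp (∑ k ∈ s, x k) := by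
  classical
  induction s using Finset.induction_on with
  | empty => simp
  | insert i s hi ih =>
    rw [Finset.prod_insert hi, Finset.sum_insert hi]
    exact disc_mul (h i) ih

theorem Wf_sum {ι : Type*} (s : Finset ι) (N K L : ι → ℝ) (t : ℝ) :
    ∑ k ∈ s, Wf (N k) (K k) (L k) t = Wf (∑ k ∈ s, N k) (∑ k ∈ s, K k) (∑ k ∈ s, L k) t := by
  classical
  induction s using Finset.induction_on with
  | empty => simp [Wf]
  | insert i s hi ih =>
    rw [Finset.sum_insert hi, Finset.sum_insert hi, Finset.sum_insert hi, Finset.sum_insert hi, ih]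
    simp only [Wf]
    push_cast
    ring

theorem entry_sum {n : ℕ} {d : Fin n → SD} (hd : ∀ k, (d k).Ok) (hL : ∑ k, (d k).L = 0)
    {t α θ : ℝ} (h : Entry t α θ) :
    ‖∏ k, (d k).f t‖ ≤ exp (-(α * ∑ k, (d k).s) + θ * ∑ k, (d k).J) := by
  obtain ⟨μ, hμ⟩ := h
  have e : -(α * ∑ k, (d k).s) + θ * ∑ k, (d k).J
      = ∑ k, (-(α * (d k).s) + μ * (d k).L + θ * (d k).J) := by
    rw [Finset.sum_add_distrib, Finset.sum_add_distrib, Finset.sum_neg_distrib, ← Finset.mul_sum,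
      ← Finset.mul_sum, ← Finset.mul_sum, hL]
    ring
  rw [e, exp_sum, norm_prod]
  exact Finset.prod_le_prod (fun k _ => norm_nonneg _) fun k _ => hμ _ (hd k)

theorem disc_sum {n : ℕ} {d : Fin n → SD} (hd : ∀ k, (d k).Ok) (hL : ∑ k, (d k).L = 0)
    {f : ℝ → ℂ} (hf : ∀ t, 0 < t → f t = ∏ k, (d k).f t) :
    Disc f (∑ k, (d k).s) (∑ k, (d k).K) (∑ k, (d k).J) := by
  intro t ht h1
  have a := disc_prod Finset.univ _ _ fun k => e1 (hd k) ht h1
  rw [Finset.prod_mul_distrib, ← Complex.exp_sum, Finset.sum_neg_distrib, Wf_sum, hL,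
    Finset.sum_add_distrib, ← Finset.mul_sum, ← Finset.mul_sum, ← hf t ht] at a
  set W := Wf (∑ k, (d k).s) (∑ k, (d k).K) 0 t
  have e : f t - Complex.exp W = Complex.exp W * (f t * Complex.exp (-W) - 1) := by
    rw [Complex.exp_neg]
    field_simp
  rw [e, norm_mul]
  exact mul_le_mul_of_nonneg_left (by linarith) (norm_nonneg _)

theorem modu_sum {n : ℕ} {d : Fin n → SD} (hd : ∀ k, (d k).Ok) (hL : ∑ k, (d k).L = 0)
    {f : ℝ → ℂ} (hf : ∀ t, 0 < t → f t = ∏ k, (d k).f t) :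
    Modu f (∑ k, (d k).s) (∑ k, (d k).J) := by
  refine ⟨fun t h => ?_, fun t h h1 => ?_, fun t h h1 => ?_, fun t h h1 => ?_, fun t h h1 => ?_,
    fun t h h1 => ?_⟩
  · rw [hf t h]
    exact entry_sum hd hL (ent_b h)
  · rw [hf t h]
    simpa using entry_sum hd hL (ent_z1 h h1)
  · rw [hf t (by linarith)]
    simpa using entry_sum hd hL (ent_z2 h h1)
  · rw [hf t (by linarith)]
    exact entry_sum hd hL (ent_c h h1)
  · rw [hf t (by linarith)]
    simpa using entry_sum hd hL (ent_t1 h h1)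
  · rw [hf t (by linarith)]
    exact entry_sum hd hL (ent_t2 h h1)

theorem modu3_sum {n : ℕ} {d : Fin n → SD} (hd : ∀ k, (d k).Ok) (hL : ∑ k, (d k).L = 0)
    {f : ℝ → ℂ} (hf : ∀ t, 0 < t → f t = ∏ k, (d k).f t) :
    Modu3 f (∑ k, (d k).s) (∑ k, (d k).J) := by
  refine ⟨fun t h h1 => ?_, fun t h h1 => ?_⟩
  · rw [hf t (by linarith)]
    exact entry_sum hd hL (ent_c2 h h1)
  · rw [hf t (by linarith)]
    exact entry_sum hd hL (ent_t3 h h1)

theorem kr_sum {n : ℕ} {d : Fin n → SD} (hd : ∀ k, (d k).Ok) (hL : ∑ k, (d k).L = 0) :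
    KR (∑ k, (d k).s) (∑ k, (d k).K) (∑ k, (d k).J) := by
  refine ⟨Finset.sum_nonneg fun k _ => (hd k).P3nn.trans (hd k).P3_le, fun b hb => ?_,
    fun b hb => ?_⟩
  · have a := Finset.sum_le_sum fun k (_ : k ∈ Finset.univ) => (hd k).K_le hb
    rw [Finset.sum_add_distrib, Finset.sum_add_distrib, ← Finset.mul_sum, ← Finset.mul_sum,
      ← Finset.mul_sum, hL] at a
    linarith
  · have a := Finset.sum_le_sum fun k (_ : k ∈ Finset.univ) => (hd k).K_ge hb
    rw [Finset.sum_add_distrib, Finset.sum_add_distrib, ← Finset.mul_sum, ← Finset.mul_sum,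
      ← Finset.mul_sum, hL, Finset.sum_neg_distrib] at a
    linarith

theorem small {S : Sys} (h : S.Ok) (hl : S.Law) (h1 : S.lam ≤ 0.175) : S.Bound := by
  obtain ⟨ρ, hρ, d, hd, hN, hB, hL, hf⟩ := exists_sd h hl
  obtain ⟨h', hlam, hbd⟩ := h.scale hρ
  apply hbd
  rw [← hlam] at h1
  generalize S.scale ρ = T at *
  have hp := h'.prob
  have e : (∑ k, (d k).s) / 2 + (∑ k, (d k).K) / 6 + ∑ k, (d k).J = Cp * T.B := by
    have a : ∑ k, (d k).J = ∑ k, (Cp * (d k).beta - 1 / 6 * (d k).K - 1 / 2 * (d k).s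
        - 1 / 2 * (d k).L) := Finset.sum_congr rfl fun k _ => by
      simp only [SD.J, SD.L]
      ring
    rw [a, Finset.sum_sub_distrib, Finset.sum_sub_distrib, Finset.sum_sub_distrib,
      ← Finset.mul_sum, ← Finset.mul_sum, ← Finset.mul_sum, ← Finset.mul_sum, hL, hB]
    ring
  have hpos : 0 < T.N :=
    Finset.sum_pos (fun k _ => h'.spos k) ⟨⟨0, h'.npos⟩, Finset.mem_univ _⟩
  have hs : 0 < √T.N ^ 3 := pow_pos (sqrt_pos.2 hpos) 3
  have hC : 0 < Cp := by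
    unfold Cp
    linarith [r10_lo]
  have hD := disc_sum hd hL hf
  have hM := modu_sum hd hL hf
  have hM3 := modu3_sum hd hL hf
  have hK := kr_sum hd hL
  rw [hN] at e hD hM hM3 hK
  intro y
  have hi : Integrable (fun y : ℝ => y) T.ν := h'.mem2.integrable (by norm_num)
  have m := master T.ν hi hpos (K := ∑ k, (d k).K) (J := ∑ k, (d k).J) (by
    rw [e, mul_assoc]
    exact mul_le_mul_of_nonneg_left ((div_le_iff₀ hs).1 h1) hC.le) hD hM hM3 hK y
  rwa [tgt, e, ← div_mul_div_comm] at m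

end Pool.Agent.Lib.MP_33650d_pr.Y
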