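import Pool.Agent.Lib.MP_33650d_pr.X.Brg
import Pool.Agent.Lib.MP_33650d_pr.Y.Small
import Pool.Agent.Lib.MP_33650d_pr.H97Lower

namespace Pool.Agent.Lib.MP_33650d_pr.Y
open MeasureTheory ProbabilityTheory X

/-- The frozen statement follows from the bound in the middle range of the Lyapunov ratio. -/
theorem final_of_mid (mid : ∀ S : Sys, S.Ok → 0.175 ≤ S.lam → S.lam ≤ 1.33 → S.Bound) :
    IsLeast {C : ℝ | ∀ (n : ℕ) (Ω : Type) [MeasureSpace Ω]
        [IsProbabilityMeasure (volume : Measure Ω)] (X : Fin n → Ω → ℝ),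
        0 < n → (∀ k, Measurable (X k)) → iIndepFun X volume →
        (∀ k, MemLp (X k) 3 volume) → (∀ k, ∫ ω, X k ω = 0) →
        (∀ k, 0 < ∫ ω, X k ω ^ 2) →
        ∀ x : ℝ,
          |(volume {ω | (∑ k, X k ω) / Real.sqrt (∑ k, ∫ ω, X k ω ^ 2) ≤ x}).toReal
              - cdf (gaussianReal 0 1) x|
            ≤ C * ((∑ k, ∫ ω, |X k ω| ^ 3) / Real.sqrt (∑ k, ∫ ω, X k ω ^ 2) ^ 3)}
      ((3 + Real.sqrt 10) / (6 * Real.sqrt (2 * Real.pi))) := by
  refine ⟨X.bridge fun S h hl => ?_, lower_bound⟩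
  rcases le_total S.lam 0.175 with a | a
  · exact small h hl a
  rcases le_total S.lam 1.33 with b | b
  · exact mid S h a b
  · exact large h b

end Pool.Agent.Lib.MP_33650d_pr.Y
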