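import Pool.Agent.Lib.MP_33650d_pr.Y.Defs

namespace Pool.Agent.Lib.MP_33650d_pr.Y
open MeasureTheory ProbabilityTheory Real X

theorem cont_Gw_law2 : Continuous Gw := by
  unfold Gw; fun_prop

theorem Gw_nonneg_law2 {z : ℝ} (hz : 0 ≤ z) : 0 ≤ Gw z := by
  unfold Gw
  have : 0 ≤ min z 1 := le_min hz zero_le_one
  positivity

theorem Gw_le_law2 {z : ℝ} (hz : 0 ≤ z) : Gw z ≤ 2 / 5 * (z ^ 3 + z ^ 2) := by
  unfold Gw
  rcases le_total z 1 with h | h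
  · rw [min_eq_left h]
    have h1 : (z - 1) ^ 2 ≤ 1 := by nlinarith
    have h2 : 0 ≤ z ^ 2 := sq_nonneg z
    have h3 : 0 ≤ z ^ 3 := by positivity
    nlinarith [mul_le_mul_of_nonneg_left h1 h2]
  · rw [min_eq_right h]
    have h1 : (z - 1) ^ 2 ≤ z ^ 2 := by nlinarith
    have h2 : 0 ≤ z ^ 2 := sq_nonneg z
    nlinarith [mul_le_mul_of_nonneg_left h1 hz]

theorem sq_le_law2 {z : ℝ} (hz : 0 ≤ z) : z ^ 2 ≤ 1 + z ^ 3 := by
  rcases le_total z 1 with h | h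
  · have : 0 ≤ z ^ 3 := by positivity
    nlinarith
  · nlinarith [mul_le_mul_of_nonneg_left h (sq_nonneg z)]

theorem le_law2 {z : ℝ} (hz : 0 ≤ z) : z ≤ 1 + z ^ 3 := by
  rcases le_total z 1 with h | h
  · have : 0 ≤ z ^ 3 := by positivity
    linarith
  · nlinarith [mul_le_mul_of_nonneg_left h (sq_nonneg z)]

section
variable {μ : Measure ℝ} [IsProbabilityMeasure μ]

omit [IsProbabilityMeasure μ] in
theorem int3_law2 (h3 : MemLp id 3 μ) : Integrable (fun x : ℝ => |x| ^ 3) μ := by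
  have := h3.integrable_norm_pow (p := 3) (by norm_num)
  simpa using this

theorem intOf_law2 (h3 : MemLp id 3 μ) {φ : ℝ → ℝ} (hφ : Continuous φ)
    (h : ∀ x, |φ x| ≤ 1 + |x| ^ 3) : Integrable φ μ :=
  ((integrable_const 1).add (int3_law2 h3)).mono' hφ.aestronglyMeasurable
    (Filter.Eventually.of_forall h)

theorem int1_law2 (h3 : MemLp id 3 μ) : Integrable (fun x : ℝ => x) μ :=
  intOf_law2 h3 continuous_id fun x => le_law2 (abs_nonneg x)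

theorem int2_law2 (h3 : MemLp id 3 μ) : Integrable (fun x : ℝ => x ^ 2) μ :=
  intOf_law2 h3 (by fun_prop) fun x => by rw [abs_pow]; exact sq_le_law2 (abs_nonneg x)

theorem intA_law2 (h3 : MemLp id 3 μ) : Integrable (fun x : ℝ => x * |x|) μ :=
  intOf_law2 h3 (by fun_prop) fun x => by
    rw [abs_mul, abs_abs, ← sq]; exact sq_le_law2 (abs_nonneg x)

theorem intD3_law2 (h3 : MemLp id 3 μ) :
    Integrable (fun p : ℝ × ℝ => |p.1 - p.2| ^ 3) (μ.prod μ) := by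
  refine ((((int3_law2 h3).comp_fst μ).add ((int3_law2 h3).comp_snd μ)).const_mul 4).mono'
    (Continuous.aestronglyMeasurable (by fun_prop)) (Filter.Eventually.of_forall fun p => ?_)
  have h1 : |p.1 - p.2| ≤ |p.1| + |p.2| := abs_sub _ _
  have h2 := abs_nonneg p.1
  have h4 := abs_nonneg p.2
  rw [Real.norm_of_nonneg (by positivity)]
  calc |p.1 - p.2| ^ 3 ≤ (|p.1| + |p.2|) ^ 3 := pow_le_pow_left₀ (abs_nonneg _) h1 3
    _ ≤ _ := by
      simp only [Pi.add_apply]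
      nlinarith [mul_nonneg (add_nonneg h2 h4) (sq_nonneg (|p.1| - |p.2|))]

theorem intD_law2 (h3 : MemLp id 3 μ) {φ : ℝ → ℝ} (hφ : Continuous φ) (K : ℝ)
    (h : ∀ z, 0 ≤ z → |φ z| ≤ K * (1 + z ^ 3)) :
    Integrable (fun p : ℝ × ℝ => φ |p.1 - p.2|) (μ.prod μ) :=
  (((integrable_const 1).add (intD3_law2 h3)).const_mul K).mono'
    (Continuous.aestronglyMeasurable (by fun_prop))
    (Filter.Eventually.of_forall fun p => h _ (abs_nonneg _))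

theorem intD2_law2 (h3 : MemLp id 3 μ) :
    Integrable (fun p : ℝ × ℝ => |p.1 - p.2| ^ 2) (μ.prod μ) :=
  intD_law2 h3 (φ := fun z => z ^ 2) (by fun_prop) 1 fun z hz => by
    rw [abs_of_nonneg (sq_nonneg z), one_mul]; exact sq_le_law2 hz

theorem intG_law2 (h3 : MemLp id 3 μ) :
    Integrable (fun p : ℝ × ℝ => Gw |p.1 - p.2|) (μ.prod μ) :=
  intD_law2 h3 cont_Gw_law2 1 fun z hz => by
    rw [abs_of_nonneg (Gw_nonneg_law2 hz)]
    have h1 := Gw_le_law2 hz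
    have h2 := sq_le_law2 hz
    have h4 : 0 ≤ z ^ 3 := by positivity
    linarith

theorem D2_law2 (h3 : MemLp id 3 μ) (h0 : ∫ x, x ∂μ = 0) :
    ∫ p : ℝ × ℝ, |p.1 - p.2| ^ 2 ∂(μ.prod μ) = 2 * ∫ x, x ^ 2 ∂μ := by
  have i1 := (int2_law2 h3).comp_fst μ
  have i2 := (int2_law2 h3).comp_snd μ
  have i3 := ((int1_law2 h3).mul_prod (int1_law2 h3)).const_mul 2
  have i4 : Integrable (fun p : ℝ × ℝ => p.1 ^ 2 + p.2 ^ 2) (μ.prod μ) := i1.add i2
  have e : (fun p : ℝ × ℝ => |p.1 - p.2| ^ 2) =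
      fun p : ℝ × ℝ => p.1 ^ 2 + p.2 ^ 2 - 2 * (p.1 * p.2) := by
    funext p; rw [sq_abs]; ring
  rw [e, integral_sub i4 i3, integral_add i1 i2, integral_const_mul,
    integral_prod_mul (fun x : ℝ => x) (fun x : ℝ => x), integral_fun_fst fun x : ℝ => x ^ 2,
    integral_fun_snd fun x : ℝ => x ^ 2, h0]
  simp
  ring

theorem D3_law2 (h3 : MemLp id 3 μ) (h0 : ∫ x, x ∂μ = 0) :
    ∫ p : ℝ × ℝ, |p.1 - p.2| ^ 3 ∂(μ.prod μ) ≤
      2 * (∫ x, |x| ^ 3 ∂μ + (∫ x, |x| ∂μ) * ∫ x, x ^ 2 ∂μ) := by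
  have i1 := (int3_law2 h3).comp_fst μ
  have i2 := (int3_law2 h3).comp_snd μ
  have i3 := (int2_law2 h3).mul_prod (int1_law2 h3).abs
  have i4 := (int1_law2 h3).abs.mul_prod (int2_law2 h3)
  have i5 := ((intA_law2 h3).mul_prod (int1_law2 h3)).const_mul 2
  have i6 := ((int1_law2 h3).mul_prod (intA_law2 h3)).const_mul 2
  have j1 : Integrable (fun p : ℝ × ℝ => |p.1| ^ 3 + |p.2| ^ 3) (μ.prod μ) := i1.add i2
  have j2 : Integrable (fun p : ℝ × ℝ => p.1 ^ 2 * |p.2| + |p.1| * p.2 ^ 2) (μ.prod μ) := i3.add i4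
  have j3 : Integrable (fun p : ℝ × ℝ => 2 * (p.1 * |p.1| * p.2) + 2 * (p.1 * (p.2 * |p.2|)))
    (μ.prod μ) := i5.add i6
  have j4 : Integrable (fun p : ℝ × ℝ => |p.1| ^ 3 + |p.2| ^ 3 +
    (p.1 ^ 2 * |p.2| + |p.1| * p.2 ^ 2)) (μ.prod μ) := j1.add j2
  have h1 : ∫ p : ℝ × ℝ, |p.1 - p.2| ^ 3 ∂(μ.prod μ) ≤ ∫ p : ℝ × ℝ, (|p.1| ^ 3 + |p.2| ^ 3 +
      (p.1 ^ 2 * |p.2| + |p.1| * p.2 ^ 2) -
      (2 * (p.1 * |p.1| * p.2) + 2 * (p.1 * (p.2 * |p.2|)))) ∂(μ.prod μ) := by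
    refine integral_mono (intD3_law2 h3) (j4.sub j3) fun p => ?_
    have h1 : |p.1 - p.2| ≤ |p.1| + |p.2| := abs_sub _ _
    have e1 : |p.1| ^ 3 = p.1 ^ 2 * |p.1| := by rw [pow_succ, sq_abs]
    have e2 : |p.2| ^ 3 = p.2 ^ 2 * |p.2| := by rw [pow_succ, sq_abs]
    have e3 : |p.1 - p.2| ^ 3 = (p.1 - p.2) ^ 2 * |p.1 - p.2| := by rw [pow_succ, sq_abs]
    beta_reduce
    rw [e1, e2, e3]
    nlinarith [mul_le_mul_of_nonneg_left h1 (sq_nonneg (p.1 - p.2))]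
  rw [integral_sub j4 j3, integral_add j1 j2, integral_add i1 i2, integral_add i3 i4,
    integral_add i5 i6, integral_const_mul, integral_const_mul,
    integral_prod_mul (fun x : ℝ => x ^ 2) (fun x : ℝ => |x|),
    integral_prod_mul (fun x : ℝ => |x|) (fun x : ℝ => x ^ 2),
    integral_prod_mul (fun x : ℝ => x * |x|) (fun x : ℝ => x),
    integral_prod_mul (fun x : ℝ => x) (fun x : ℝ => x * |x|),
    integral_fun_fst fun x : ℝ => |x| ^ 3, integral_fun_snd fun x : ℝ => |x| ^ 3, h0] at h1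
  simp only [probReal_univ, one_smul, mul_zero, zero_mul, add_zero, sub_zero] at h1
  linarith

theorem intC_law2 (t : ℝ) : Integrable (fun x : ℝ => cos (t * x)) μ :=
  (integrable_const (1 : ℝ)).mono' (Continuous.aestronglyMeasurable (by fun_prop))
    (Filter.Eventually.of_forall fun _ => abs_cos_le_one _)

theorem intS_law2 (t : ℝ) : Integrable (fun x : ℝ => sin (t * x)) μ :=
  (integrable_const (1 : ℝ)).mono' (Continuous.aestronglyMeasurable (by fun_prop))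
    (Filter.Eventually.of_forall fun _ => abs_sin_le_one _)

theorem char_law2 (t : ℝ) :
    charFun μ t = (∫ y, cos (t * y) ∂μ : ℝ) + (∫ y, sin (t * y) ∂μ : ℝ) * Complex.I := by
  rw [charFun_apply_real, ← integral_complex_ofReal, ← integral_complex_ofReal, ← integral_mul_const,
    ← integral_add (intC_law2 t).ofReal ((intS_law2 t).ofReal.mul_const _)]
  refine integral_congr_ae (Filter.Eventually.of_forall fun x => ?_)
  beta_reduce
  rw [← Complex.ofReal_mul, Complex.exp_mul_I, Complex.ofReal_cos, Complex.ofReal_sin]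

theorem cosD_law2 (t : ℝ) :
    ∫ p : ℝ × ℝ, cos (t * |p.1 - p.2|) ∂(μ.prod μ) = ‖charFun μ t‖ ^ 2 := by
  have e : (fun p : ℝ × ℝ => cos (t * |p.1 - p.2|)) =
      fun p : ℝ × ℝ => cos (t * p.1) * cos (t * p.2) + sin (t * p.1) * sin (t * p.2) := by
    funext p
    rw [← cos_sub, ← mul_sub]
    rcases abs_cases (p.1 - p.2) with h | h
    · rw [h.1]
    · rw [h.1, mul_neg, cos_neg]
  rw [e, integral_add ((intC_law2 t).mul_prod (intC_law2 t)) ((intS_law2 t).mul_prod (intS_law2 t)),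
    integral_prod_mul (fun x : ℝ => cos (t * x)) (fun x : ℝ => cos (t * x)),
    integral_prod_mul (fun x : ℝ => sin (t * x)) (fun x : ℝ => sin (t * x)), char_law2,
    Complex.sq_norm, Complex.normSq_add_mul_I]
  ring

theorem bd_law2 {ρ b z : ℝ} (h0 : 0 ≤ ρ) (hb : ρ ≤ b) (hz : 0 ≤ z) :
    |(ρ * z) ^ 3 - (ρ * z) ^ 2 - 2 * Gw (ρ * z)| ≤ 2 * (b ^ 3 + b ^ 2) * (1 + z ^ 3) := by
  have h1 : 0 ≤ ρ * z := mul_nonneg h0 hz
  have h2 := Gw_nonneg_law2 h1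
  have h3 := Gw_le_law2 h1
  have hb0 : 0 ≤ b := h0.trans hb
  have z3 : 0 ≤ z ^ 3 := by positivity
  have h4 : (ρ * z) ^ 3 ≤ b ^ 3 * (1 + z ^ 3) := by
    rw [mul_pow]
    exact mul_le_mul (pow_le_pow_left₀ h0 hb 3) (by linarith) z3 (by positivity)
  have h5 : (ρ * z) ^ 2 ≤ b ^ 2 * (1 + z ^ 3) := by
    rw [mul_pow]
    exact mul_le_mul (pow_le_pow_left₀ h0 hb 2) (sq_le_law2 hz) (sq_nonneg z) (by positivity)
  have h6 : 0 ≤ (ρ * z) ^ 3 := by positivity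
  have h7 : 0 ≤ (ρ * z) ^ 2 := by positivity
  rw [abs_le]
  constructor <;> nlinarith

theorem intH_law2 (h3 : MemLp id 3 μ) {ρ : ℝ} (h0 : 0 ≤ ρ) :
    Integrable (fun p : ℝ × ℝ => (ρ * |p.1 - p.2|) ^ 3 - (ρ * |p.1 - p.2|) ^ 2 -
      2 * Gw (ρ * |p.1 - p.2|)) (μ.prod μ) := by
  have := cont_Gw_law2
  exact intD_law2 h3 (φ := fun z => (ρ * z) ^ 3 - (ρ * z) ^ 2 - 2 * Gw (ρ * z)) (by fun_prop) _
    fun z hz => bd_law2 h0 le_rfl hz

theorem contL_law2 (h3 : MemLp id 3 μ) {a b : ℝ} (ha : 0 ≤ a) :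
    ContinuousOn (Lf μ) (Set.Icc a b) := by
  have := cont_Gw_law2
  refine ContinuousOn.div_const ?_ 2
  refine continuousOn_of_dominated
    (bound := fun p : ℝ × ℝ => 2 * (b ^ 3 + b ^ 2) * (1 + |p.1 - p.2| ^ 3))
    (fun ρ hρ => (intH_law2 h3 (ha.trans hρ.1)).aestronglyMeasurable)
    (fun ρ hρ => Filter.Eventually.of_forall fun p =>
      bd_law2 (ha.trans hρ.1) hρ.2 (abs_nonneg _))
    (((integrable_const 1).add (intD3_law2 h3)).const_mul _)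
    (Filter.Eventually.of_forall fun p => Continuous.continuousOn (by fun_prop))

theorem Lf_bd_law2 (h3 : MemLp id 3 μ) {ρ : ℝ} (h0 : 0 ≤ ρ) :
    2 * Lf μ ρ ≤ ρ ^ 3 * ∫ p : ℝ × ℝ, |p.1 - p.2| ^ 3 ∂(μ.prod μ) -
        ρ ^ 2 * ∫ p : ℝ × ℝ, |p.1 - p.2| ^ 2 ∂(μ.prod μ) ∧
      ρ ^ 3 / 5 * ∫ p : ℝ × ℝ, |p.1 - p.2| ^ 3 ∂(μ.prod μ) -
        9 * ρ ^ 2 / 5 * ∫ p : ℝ × ℝ, |p.1 - p.2| ^ 2 ∂(μ.prod μ) ≤ 2 * Lf μ ρ := by
  unfold Lf
  rw [mul_div_cancel₀ _ (two_ne_zero' ℝ)]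
  constructor
  · rw [← integral_const_mul, ← integral_const_mul,
      ← integral_sub ((intD3_law2 h3).const_mul _) ((intD2_law2 h3).const_mul _)]
    refine integral_mono (intH_law2 h3 h0)
      (((intD3_law2 h3).const_mul _).sub ((intD2_law2 h3).const_mul _)) fun p => ?_
    have := Gw_nonneg_law2 (mul_nonneg h0 (abs_nonneg (p.1 - p.2)))
    beta_reduce
    rw [mul_pow, mul_pow]
    linarith
  · rw [← integral_const_mul, ← integral_const_mul,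
      ← integral_sub ((intD3_law2 h3).const_mul _) ((intD2_law2 h3).const_mul _)]
    refine integral_mono (((intD3_law2 h3).const_mul _).sub ((intD2_law2 h3).const_mul _))
      (intH_law2 h3 h0) fun p => ?_
    have := Gw_le_law2 (mul_nonneg h0 (abs_nonneg (p.1 - p.2)))
    beta_reduce
    rw [mul_pow, mul_pow] at this ⊢
    linarith

theorem D3_pos_law2 (h3 : MemLp id 3 μ) (h0 : ∫ x, x ∂μ = 0) (hs : 0 < ∫ x, x ^ 2 ∂μ) :
    0 < ∫ p : ℝ × ℝ, |p.1 - p.2| ^ 3 ∂(μ.prod μ) := by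
  have hn : 0 ≤ fun p : ℝ × ℝ => |p.1 - p.2| ^ 3 := fun p => by positivity
  refine lt_of_le_of_ne (integral_nonneg hn) fun h => ?_
  have h1 := (integral_eq_zero_iff_of_nonneg hn (intD3_law2 h3)).1 h.symm
  have h2 : ∫ p : ℝ × ℝ, |p.1 - p.2| ^ 2 ∂(μ.prod μ) = 0 := by
    refine integral_eq_zero_of_ae ?_
    filter_upwards [h1] with p hp
    have h4 : |p.1 - p.2| = 0 := pow_eq_zero_iff (n := 3) (by norm_num) |>.1 hp
    simp [h4]
  rw [D2_law2 h3 h0] at h2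
  linarith

end

/-- The symmetrised summand. -/
theorem law2 (μ : Measure ℝ) [IsProbabilityMeasure μ] (h3 : MemLp id 3 μ) (h0 : ∫ x, x ∂μ = 0) :
    ∃ Z P : ℝ, Z ≤ ∫ x, |x| ^ 3 ∂μ + (∫ x, |x| ∂μ) * ∫ x, x ^ 2 ∂μ ∧
      Lf μ 1 = Z - ∫ x, x ^ 2 ∂μ - 2 * P ∧
      ∀ t c A B C : ℝ,
        (∀ z : ℝ, 0 ≤ z → 0 ≤ c * (1 - cos (t * z)) + A * z ^ 2 + B * z ^ 3 + C * Gw z) →
        0 ≤ c * (1 - ‖charFun μ t‖ ^ 2) + 2 * (A * ∫ x, x ^ 2 ∂μ + B * Z + C * P) := by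
  refine ⟨(∫ p : ℝ × ℝ, |p.1 - p.2| ^ 3 ∂(μ.prod μ)) / 2,
    (∫ p : ℝ × ℝ, Gw |p.1 - p.2| ∂(μ.prod μ)) / 2, by linarith [D3_law2 h3 h0], ?_, ?_⟩
  · unfold Lf
    simp only [one_mul]
    have j : Integrable (fun p : ℝ × ℝ => |p.1 - p.2| ^ 3 - |p.1 - p.2| ^ 2) (μ.prod μ) :=
      (intD3_law2 h3).sub (intD2_law2 h3)
    rw [integral_sub j ((intG_law2 h3).const_mul 2), integral_sub (intD3_law2 h3) (intD2_law2 h3),
      integral_const_mul, D2_law2 h3 h0]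
    ring
  · intro t c A B C h
    have i0 : Integrable (fun p : ℝ × ℝ => cos (t * |p.1 - p.2|)) (μ.prod μ) :=
      (integrable_const (1 : ℝ)).mono' (Continuous.aestronglyMeasurable (by fun_prop))
        (Filter.Eventually.of_forall fun _ => abs_cos_le_one _)
    have i1 : Integrable (fun p : ℝ × ℝ => c * (1 - cos (t * |p.1 - p.2|))) (μ.prod μ) :=
      ((integrable_const 1).sub i0).const_mul c
    have i2 := (intD2_law2 h3).const_mul A
    have i3 := (intD3_law2 h3).const_mul B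
    have i4 := (intG_law2 h3).const_mul C
    have j2 : Integrable (fun p : ℝ × ℝ => c * (1 - cos (t * |p.1 - p.2|)) + A * |p.1 - p.2| ^ 2)
      (μ.prod μ) := i1.add i2
    have j3 : Integrable (fun p : ℝ × ℝ => c * (1 - cos (t * |p.1 - p.2|)) + A * |p.1 - p.2| ^ 2 +
      B * |p.1 - p.2| ^ 3) (μ.prod μ) := j2.add i3
    have h1 : 0 ≤ ∫ p : ℝ × ℝ, (c * (1 - cos (t * |p.1 - p.2|)) + A * |p.1 - p.2| ^ 2 +
        B * |p.1 - p.2| ^ 3 + C * Gw |p.1 - p.2|) ∂(μ.prod μ) :=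
      integral_nonneg fun p => h _ (abs_nonneg _)
    rw [integral_add j3 i4, integral_add j2 i3, integral_add i1 i2, integral_const_mul,
      integral_const_mul, integral_const_mul, integral_const_mul,
      integral_sub (integrable_const 1) i0, cosD_law2, D2_law2 h3 h0] at h1
    simp only [integral_const, probReal_univ, smul_eq_mul, mul_one] at h1
    linarith

theorem Lf_map (μ : Measure ℝ) [IsProbabilityMeasure μ] {ρ : ℝ} (hρ : 0 < ρ) :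
    Lf (μ.map fun x => ρ * x) 1 = Lf μ ρ := by
  have := cont_Gw_law2
  unfold Lf
  have hm : Measurable fun x : ℝ => ρ * x := by fun_prop
  rw [Measure.map_prod_map μ μ hm hm, integral_map (hm.prodMap hm).aemeasurable
    (Continuous.aestronglyMeasurable (by fun_prop))]
  congr 1
  refine integral_congr_ae (Filter.Eventually.of_forall fun p => ?_)
  simp only [Prod.map_fst, Prod.map_snd, one_mul]
  rw [← mul_sub, abs_mul, abs_of_pos hρ]

/-- The scale at which the functionals sum to zero. -/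
theorem exists_scale {n : ℕ} (hn : 0 < n) (μ : Fin n → Measure ℝ)
    (hp : ∀ k, IsProbabilityMeasure (μ k)) (h3 : ∀ k, MemLp id 3 (μ k))
    (h0 : ∀ k, ∫ x, x ∂(μ k) = 0) (hs : ∀ k, 0 < ∫ x, x ^ 2 ∂(μ k)) :
    ∃ ρ : ℝ, 0 < ρ ∧ ∑ k, Lf (μ k) ρ = 0 := by
  have : Nonempty (Fin n) := ⟨⟨0, hn⟩⟩
  obtain ⟨A, hA⟩ : ∃ A, A = ∑ k, ∫ p : ℝ × ℝ, |p.1 - p.2| ^ 3 ∂((μ k).prod (μ k)) := ⟨_, rfl⟩
  obtain ⟨B, hB⟩ : ∃ B, B = ∑ k, ∫ p : ℝ × ℝ, |p.1 - p.2| ^ 2 ∂((μ k).prod (μ k)) := ⟨_, rfl⟩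
  have hA0 : 0 < A := hA ▸ Finset.sum_pos (fun k _ => D3_pos_law2 (h3 k) (h0 k) (hs k))
    Finset.univ_nonempty
  have hB0 : 0 < B := hB ▸ Finset.sum_pos (fun k _ => by
    rw [D2_law2 (h3 k) (h0 k)]; linarith [hs k]) Finset.univ_nonempty
  have hup : ∀ ρ, 0 ≤ ρ → 2 * ∑ k, Lf (μ k) ρ ≤ ρ ^ 3 * A - ρ ^ 2 * B := fun ρ hρ => by
    rw [hA, hB, Finset.mul_sum, Finset.mul_sum, Finset.mul_sum, ← Finset.sum_sub_distrib]
    exact Finset.sum_le_sum fun k _ => (Lf_bd_law2 (h3 k) hρ).1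
  have hlo : ∀ ρ, 0 ≤ ρ → ρ ^ 3 / 5 * A - 9 * ρ ^ 2 / 5 * B ≤ 2 * ∑ k, Lf (μ k) ρ := fun ρ hρ => by
    rw [hA, hB, Finset.mul_sum, Finset.mul_sum, Finset.mul_sum, ← Finset.sum_sub_distrib]
    exact Finset.sum_le_sum fun k _ => (Lf_bd_law2 (h3 k) hρ).2
  have ha : 0 < B / A := div_pos hB0 hA0
  have hc : ContinuousOn (fun ρ => ∑ k, Lf (μ k) ρ) (Set.Icc (B / A) (9 * (B / A))) :=
    continuousOn_finsetSum _ fun k _ => contL_law2 (h3 k) ha.le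
  have e1 : (B / A) ^ 3 * A - (B / A) ^ 2 * B = 0 := by field_simp; ring
  have e2 : (9 * (B / A)) ^ 3 / 5 * A - 9 * (9 * (B / A)) ^ 2 / 5 * B = 0 := by field_simp; ring
  have h1 := hup _ ha.le
  have h2 := hlo (9 * (B / A)) (by positivity)
  obtain ⟨ρ, hρ, h⟩ := intermediate_value_Icc (by linarith) hc
    (show (0 : ℝ) ∈ Set.Icc _ _ from ⟨by linarith, by linarith⟩)
  exact ⟨ρ, ha.trans_le hρ.1, h⟩

end Pool.Agent.Lib.MP_33650d_pr.Y
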