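import Pool.Agent.Lib.MP_33650d_pr.Y.Law1
import Pool.Agent.Lib.MP_33650d_pr.Y.Law2
import Pool.Agent.Lib.MP_33650d_pr.X.Scale

namespace Pool.Agent.Lib.MP_33650d_pr.Y
open MeasureTheory ProbabilityTheory Real X

lemma one_law (μ : Measure ℝ) [IsProbabilityMeasure μ] (h3 : MemLp id 3 μ)
    (h0 : ∫ x, x ∂μ = 0) (hs : 0 < ∫ x, x ^ 2 ∂μ) : ∃ d : SD, d.Ok ∧ d.s = ∫ x, x ^ 2 ∂μ ∧
      d.beta = ∫ x, |x| ^ 3 ∂μ ∧ d.L = Lf μ 1 ∧ d.f = charFun μ := by
  obtain ⟨m, yp, ym, b, hm, hp, hn, hb, e1, e2, hlz, e3, hcl⟩ := law1 μ h3 h0 hs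
  obtain ⟨Z, P, hZ, hL, hlin⟩ := law2 μ h3 h0
  set s := ∫ x, x ^ 2 ∂μ with hsdef
  let d : SD := ⟨s, m, yp, ym, b, m * (yp ^ 2 + ym ^ 2) + b + 2 * m * s - Z, P, charFun μ⟩
  have hdZ : d.Z = Z := by
    simp only [SD.Z, SD.beta, d]
    ring
  refine ⟨d, ⟨hm, hp, hn, e2, ?_, hb, ?_, fun t => norm_charFun_le_one t, hcl, ?_⟩, rfl, ?_, ?_,
    rfl⟩
  · change s ≤ yp * ym
    rw [e2]
    exact hlz
  · change 0 ≤ m * (yp ^ 2 + ym ^ 2) + b + 2 * m * s - Z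
    rw [e3, e1] at hZ
    linarith
  · intro t c A B C hz
    rw [hdZ]
    exact hlin t c A B C hz
  · rw [e3]
    rfl
  · rw [SD.L, hdZ, hL]

lemma cube_law (μ : Measure ℝ) [IsProbabilityMeasure μ] (h3 : MemLp id 3 μ) :
    ∫ x, |x| ^ 3 ∂μ = ∫ x, max x 0 ^ 3 ∂μ + ∫ x, max (-x) 0 ^ 3 ∂μ := by
  have hi : Integrable (fun x : ℝ => |x| ^ 3) μ := by
    have := h3.integrable_norm_pow (p := 3) (by norm_num)
    simpa [Real.norm_eq_abs] using this
  have i1 : Integrable (fun x : ℝ => max x 0 ^ 3) μ := by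
    refine hi.mono' (by fun_prop) (Filter.Eventually.of_forall fun x => ?_)
    have a0 : 0 ≤ max x 0 := le_max_right _ _
    rw [Real.norm_eq_abs, abs_of_nonneg (by positivity)]
    exact pow_le_pow_left₀ a0 (max_le (le_abs_self x) (abs_nonneg x)) 3
  have i2 : Integrable (fun x : ℝ => max (-x) 0 ^ 3) μ := by
    refine hi.mono' (by fun_prop) (Filter.Eventually.of_forall fun x => ?_)
    have a0 : 0 ≤ max (-x) 0 := le_max_right _ _
    rw [Real.norm_eq_abs, abs_of_nonneg (by positivity)]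
    exact pow_le_pow_left₀ a0 (max_le (neg_le_abs x) (abs_nonneg x)) 3
  rw [← integral_add i1 i2]
  refine integral_congr_ae (Filter.Eventually.of_forall fun x => ?_)
  rcases le_total 0 x with hx | hx
  · simp only [abs_of_nonneg hx, max_eq_left hx, max_eq_right (neg_nonpos.2 hx)]
    ring
  · simp only [abs_of_nonpos hx, max_eq_right hx, max_eq_left (neg_nonneg.2 hx)]
    ring

lemma char_law (μ : Measure ℝ) [IsProbabilityMeasure μ] (t : ℝ) :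
    charFun μ t = ((∫ y, cos (t * y) ∂μ : ℝ) : ℂ) + ((∫ y, sin (t * y) ∂μ : ℝ) : ℂ) * Complex.I := by
  have i1 : Integrable (fun y : ℝ => cos (t * y)) μ :=
    (integrable_const (1 : ℝ)).mono' (by fun_prop)
      (Filter.Eventually.of_forall fun y => by rw [Real.norm_eq_abs]; exact abs_cos_le_one _)
  have i2 : Integrable (fun y : ℝ => sin (t * y)) μ :=
    (integrable_const (1 : ℝ)).mono' (by fun_prop)
      (Filter.Eventually.of_forall fun y => by rw [Real.norm_eq_abs]; exact abs_sin_le_one _)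
  rw [charFun_apply_real, ← integral_complex_ofReal, ← integral_complex_ofReal,
    ← integral_mul_const, ← integral_add i1.ofReal (i2.ofReal.mul_const _)]
  refine integral_congr_ae (Filter.Eventually.of_forall fun y => ?_)
  simp only [Complex.ofReal_cos, Complex.ofReal_sin, Complex.ofReal_mul]
  rw [Complex.exp_mul_I]

lemma scaled_law (μ : Measure ℝ) [IsProbabilityMeasure μ] (h3 : MemLp id 3 μ)
    (h0 : ∫ x, x ∂μ = 0) (hs : 0 < ∫ x, x ^ 2 ∂μ) {ρ : ℝ} (hρ : 0 < ρ) : ∃ d : SD, d.Ok ∧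
      d.s = ρ ^ 2 * ∫ x, x ^ 2 ∂μ ∧
      d.beta = ρ ^ 3 * ∫ x, max x 0 ^ 3 ∂μ + ρ ^ 3 * ∫ x, max (-x) 0 ^ 3 ∂μ ∧ d.L = Lf μ ρ ∧
      ∀ t, d.f t = ((∫ y, cos (t * ρ * y) ∂μ : ℝ) : ℂ)
        + ((∫ y, sin (t * ρ * y) ∂μ : ℝ) : ℂ) * Complex.I := by
  have hm : Measurable fun y : ℝ => ρ * y := by fun_prop
  have hp : IsProbabilityMeasure (μ.map fun y => ρ * y) :=
    Measure.isProbabilityMeasure_map hm.aemeasurable
  have g3 : MemLp id 3 (μ.map fun y => ρ * y) :=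
    (memLp_map_measure_iff aestronglyMeasurable_id hm.aemeasurable).2 (h3.const_mul ρ)
  have g0 : ∫ x, x ∂(μ.map fun y => ρ * y) = 0 := by
    rw [integral_map hm.aemeasurable (by fun_prop), integral_const_mul, h0, mul_zero]
  have g2 : ∫ x, x ^ 2 ∂(μ.map fun y => ρ * y) = ρ ^ 2 * ∫ x, x ^ 2 ∂μ := by
    rw [integral_map hm.aemeasurable (by fun_prop), ← integral_const_mul]
    simp only [mul_pow]
  have gc : ∫ x, |x| ^ 3 ∂(μ.map fun y => ρ * y) = ρ ^ 3 * ∫ x, |x| ^ 3 ∂μ := by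
    rw [integral_map hm.aemeasurable (by fun_prop), ← integral_const_mul]
    simp only [abs_mul, abs_of_pos hρ, mul_pow]
  obtain ⟨d, hd, e1, e2, e3, e4⟩ := one_law (μ.map fun y => ρ * y) g3 g0
    (by rw [g2]; positivity)
  refine ⟨d, hd, e1.trans g2, ?_, e3.trans (Lf_map μ hρ), fun t => ?_⟩
  · rw [e2, gc, cube_law μ h3]
    ring
  · rw [e4, charFun_map_mul, char_law, mul_comm ρ t]

theorem exists_sd {S : Sys} (h : S.Ok) (hl : S.Law) : ∃ ρ : ℝ, 0 < ρ ∧ ∃ d : Fin S.n → SD,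
    (∀ k, (d k).Ok) ∧ ∑ k, (d k).s = (S.scale ρ).N ∧ ∑ k, (d k).beta = (S.scale ρ).B ∧
    ∑ k, (d k).L = 0 ∧ ∀ t, 0 < t → charFun (S.scale ρ).ν t = ∏ k, (d k).f t := by
  choose μ hp h3 h0 hs hbp hbm hcs using hl
  have hs' : ∀ k, 0 < ∫ x, x ^ 2 ∂(μ k) := fun k => hs k ▸ h.spos k
  obtain ⟨ρ, hρ, hsum⟩ := exists_scale h.npos μ hp h3 h0 hs'
  have key := fun k => @scaled_law (μ k) (hp k) (h3 k) (h0 k) (hs' k) ρ hρ
  choose d hd e1 e2 e3 e4 using key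
  refine ⟨ρ, hρ, d, hd, ?_, ?_, ?_, fun t ht => ?_⟩
  · rw [scale_N, Sys.N, Finset.mul_sum]
    exact Finset.sum_congr rfl fun k _ => by rw [e1, hs]
  · rw [scale_B, Sys.B, Sys.Bp, Sys.Bm, ← Finset.sum_add_distrib, Finset.mul_sum]
    refine Finset.sum_congr rfl fun k _ => ?_
    rw [e2, hbp, hbm]
    ring
  · rw [← hsum]
    exact Finset.sum_congr rfl fun k _ => e3 k
  · rw [(h.scale hρ).1.char t ht]
    change ∏ k : Fin S.n, ((S.scale ρ).dat k t).f = _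
    refine Finset.prod_congr rfl fun k _ => ?_
    rw [scale_dat, e4]
    simp only [YD.f, Sys.dat]
    rw [(hcs k (t * ρ)).1, (hcs k (t * ρ)).2]

end Pool.Agent.Lib.MP_33650d_pr.Y
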