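import Pool.Agent.Lib.MP_33650d_pr.Y.Defs

namespace Pool.Agent.Lib.MP_33650d_pr.Y
open MeasureTheory ProbabilityTheory Real X

/-- The remainder of order two of the exponential on the imaginary axis. -/
noncomputable def rem_law1 (h : ℝ) : ℂ := Complex.exp ((h : ℂ) * Complex.I) - 1 - (h : ℂ) * Complex.I

theorem rem_zero_law1 : rem_law1 0 = 0 := by simp [rem_law1]

theorem cont_rem_law1 : Continuous rem_law1 := by
  unfold rem_law1
  fun_prop

theorem rem_int_law1 (h : ℝ) :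
    ∫ u in (0 : ℝ)..1, (h : ℂ) * Complex.I * (Complex.exp (((h * u : ℝ) : ℂ) * Complex.I) - 1) =
      rem_law1 h := by
  have hd : ∀ u ∈ Set.uIcc (0 : ℝ) 1, HasDerivAt (fun u : ℝ => rem_law1 (h * u))
      ((h : ℂ) * Complex.I * (Complex.exp (((h * u : ℝ) : ℂ) * Complex.I) - 1)) u := by
    intro u _
    have h1 : HasDerivAt (fun u : ℝ => ((h * u : ℝ) : ℂ) * Complex.I) ((h : ℂ) * Complex.I) u := by
      have := (((hasDerivAt_id u).const_mul h).ofReal_comp).mul_const Complex.I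
      simpa using this
    have h2 : HasDerivAt (fun u : ℝ => rem_law1 (h * u)) _ u := (h1.cexp.sub_const 1).sub h1
    refine h2.congr_deriv ?_
    ring
  rw [intervalIntegral.integral_eq_sub_of_hasDerivAt hd
    (Continuous.intervalIntegrable (by fun_prop) _ _)]
  simp [rem_zero_law1]

theorem norm_rem_law1 (h : ℝ) : ‖rem_law1 h‖ ≤ h ^ 2 / 2 := by
  rw [← rem_int_law1]
  have h1 : ∫ u in (0 : ℝ)..1, h ^ 2 * u = h ^ 2 / 2 := by
    rw [intervalIntegral.integral_const_mul, integral_id]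
    ring
  rw [← h1]
  refine intervalIntegral.norm_integral_le_of_norm_le zero_le_one
    (Filter.Eventually.of_forall fun u hu => ?_) (Continuous.intervalIntegrable (by fun_prop) _ _)
  have h2 := norm_exp_I_mul_ofReal_sub_one_le (x := h * u)
  rw [mul_comm Complex.I, Real.norm_eq_abs, abs_mul, abs_of_pos hu.1] at h2
  rw [norm_mul, norm_mul, Complex.norm_I, mul_one, Complex.norm_real, Real.norm_eq_abs]
  calc |h| * ‖Complex.exp (((h * u : ℝ) : ℂ) * Complex.I) - 1‖ ≤ |h| * (|h| * u) :=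
        mul_le_mul_of_nonneg_left h2 (abs_nonneg _)
    _ = h ^ 2 * u := by rw [← mul_assoc, ← sq, sq_abs]

theorem pw_law1 (τ y : ℝ) : ∃ P D : ℂ, (y : ℂ) * P = rem_law1 (τ * y) ∧ ∀ x : ℝ, 0 ≤ x →
    ‖rem_law1 (τ * x) - (x : ℂ) * P - ((x * (x - y) : ℝ) : ℂ) * D‖ ≤
      |τ| ^ 3 * (x * (x - y) ^ 2) / 6 := by
  have key : ∀ x : ℝ, (x : ℂ) * ∫ u in (0 : ℝ)..1,
      (τ : ℂ) * Complex.I * (Complex.exp (((τ * x * u : ℝ) : ℂ) * Complex.I) - 1) =
        rem_law1 (τ * x) := by
    intro x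
    rw [← rem_int_law1, ← intervalIntegral.integral_const_mul]
    refine intervalIntegral.integral_congr fun u _ => ?_
    push_cast
    ring
  refine ⟨∫ u in (0 : ℝ)..1,
      (τ : ℂ) * Complex.I * (Complex.exp (((τ * y * u : ℝ) : ℂ) * Complex.I) - 1),
    ∫ u in (0 : ℝ)..1, (τ : ℂ) * Complex.I *
      (Complex.exp (((τ * y * u : ℝ) : ℂ) * Complex.I) * (((τ * u : ℝ) : ℂ) * Complex.I)),
    key y, fun x hx => ?_⟩
  rw [← key x, ← intervalIntegral.integral_const_mul, ← intervalIntegral.integral_const_mul,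
    ← intervalIntegral.integral_const_mul,
    ← intervalIntegral.integral_sub (Continuous.intervalIntegrable (by fun_prop) _ _)
      (Continuous.intervalIntegrable (by fun_prop) _ _),
    ← intervalIntegral.integral_sub (Continuous.intervalIntegrable (by fun_prop) _ _)
      (Continuous.intervalIntegrable (by fun_prop) _ _)]
  have h1 : ∫ u in (0 : ℝ)..1, |τ| ^ 3 * (x * (x - y) ^ 2) / 2 * u ^ 2 =
      |τ| ^ 3 * (x * (x - y) ^ 2) / 6 := by
    rw [intervalIntegral.integral_const_mul, integral_pow]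
    ring
  rw [← h1]
  refine intervalIntegral.norm_integral_le_of_norm_le zero_le_one
    (Filter.Eventually.of_forall fun u _ => ?_) (Continuous.intervalIntegrable (by fun_prop) _ _)
  have h2 : (x : ℂ) * ((τ : ℂ) * Complex.I * (Complex.exp (((τ * x * u : ℝ) : ℂ) * Complex.I) - 1)) -
      (x : ℂ) * ((τ : ℂ) * Complex.I * (Complex.exp (((τ * y * u : ℝ) : ℂ) * Complex.I) - 1)) -
      ((x * (x - y) : ℝ) : ℂ) * ((τ : ℂ) * Complex.I *
        (Complex.exp (((τ * y * u : ℝ) : ℂ) * Complex.I) * (((τ * u : ℝ) : ℂ) * Complex.I))) =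
      (x : ℂ) * (τ : ℂ) * Complex.I * Complex.exp (((τ * y * u : ℝ) : ℂ) * Complex.I) *
        rem_law1 (τ * u * (x - y)) := by
    have h3 : Complex.exp (((τ * x * u : ℝ) : ℂ) * Complex.I) =
        Complex.exp (((τ * y * u : ℝ) : ℂ) * Complex.I) *
          Complex.exp (((τ * u * (x - y) : ℝ) : ℂ) * Complex.I) := by
      rw [← Complex.exp_add]
      congr 1
      push_cast
      ring
    rw [h3, rem_law1]
    generalize Complex.exp (((τ * y * u : ℝ) : ℂ) * Complex.I) = A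
    generalize Complex.exp (((τ * u * (x - y) : ℝ) : ℂ) * Complex.I) = B
    push_cast
    ring
  rw [h2, norm_mul, norm_mul, norm_mul, norm_mul, Complex.norm_I, Complex.norm_exp_ofReal_mul_I,
    Complex.norm_real, Complex.norm_real, Real.norm_eq_abs, Real.norm_eq_abs, abs_of_nonneg hx,
    mul_one, mul_one]
  calc x * |τ| * ‖rem_law1 (τ * u * (x - y))‖ ≤ x * |τ| * ((τ * u * (x - y)) ^ 2 / 2) :=
        mul_le_mul_of_nonneg_left (norm_rem_law1 _) (by positivity)
    _ = _ := by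
        rw [mul_pow, mul_pow, ← sq_abs τ]
        ring

theorem int_rem_law1 {μ : Measure ℝ} {v : ℝ → ℝ} (hv : Continuous v)
    (i2 : Integrable (fun x => v x ^ 2) μ) (τ : ℝ) :
    Integrable (fun x => rem_law1 (τ * v x)) μ := by
  refine (i2.const_mul (τ ^ 2 / 2)).mono'
    (cont_rem_law1.comp (continuous_const.mul hv)).aestronglyMeasurable
    (Filter.Eventually.of_forall fun x => (norm_rem_law1 _).trans (le_of_eq ?_))
  ring

/-- One half of the law. -/
theorem half_law1 {μ : Measure ℝ} [IsProbabilityMeasure μ] {v : ℝ → ℝ} (hv : Continuous v)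
    (h0 : ∀ x, 0 ≤ v x) (i1 : Integrable v μ) (i2 : Integrable (fun x => v x ^ 2) μ)
    (i3 : Integrable (fun x => v x ^ 3) μ) {m : ℝ} (hm : 0 < m) (e1 : ∫ x, v x ∂μ = m) :
    ∃ y b : ℝ, 0 < y ∧ 0 ≤ b ∧ ∫ x, v x ^ 2 ∂μ = m * y ∧ ∫ x, v x ^ 3 ∂μ = m * y ^ 2 + b ∧
      ∀ τ : ℝ, ‖∫ x, rem_law1 (τ * v x) ∂μ - ((m / y : ℝ) : ℂ) * rem_law1 (τ * y)‖ ≤
        |τ| ^ 3 * b / 6 := by
  obtain ⟨y, e2⟩ : ∃ y, ∫ x, v x ^ 2 ∂μ = m * y := ⟨(∫ x, v x ^ 2 ∂μ) / m, by field_simp⟩
  have hy : 0 < y := by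
    have h1 : ∫ x, (2 * m * v x - v x ^ 2) ∂μ ≤ ∫ _x, m ^ 2 ∂μ :=
      integral_mono ((i1.const_mul _).sub i2) (integrable_const _) fun x => by
        nlinarith [sq_nonneg (v x - m)]
    rw [integral_sub (i1.const_mul _) i2, integral_const_mul, e1, e2] at h1
    simp only [integral_const, probReal_univ, smul_eq_mul, one_mul] at h1
    nlinarith
  have j2 : Integrable (fun x => v x * (v x - y)) μ := by
    refine (i2.sub (i1.const_mul y)).congr (Filter.Eventually.of_forall fun x => ?_)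
    simp only [Pi.sub_apply]
    ring
  have f2 : ∫ x, v x * (v x - y) ∂μ = 0 := by
    have : (fun x => v x * (v x - y)) = fun x => v x ^ 2 - y * v x := by
      funext x
      ring
    rw [this, integral_sub i2 (i1.const_mul y), integral_const_mul, e1, e2]
    ring
  have g3 : (fun x => v x * (v x - y) ^ 2) = fun x => v x ^ 3 - 2 * y * v x ^ 2 + y ^ 2 * v x := by
    funext x
    ring
  have j3a : Integrable (fun x => v x ^ 3 - 2 * y * v x ^ 2) μ := i3.sub (i2.const_mul _)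
  have j3 : Integrable (fun x => v x * (v x - y) ^ 2) μ := by
    rw [g3]
    exact j3a.add (i1.const_mul _)
  have f3 : ∫ x, v x * (v x - y) ^ 2 ∂μ = ∫ x, v x ^ 3 ∂μ - m * y ^ 2 := by
    rw [g3, integral_add j3a (i1.const_mul _), integral_sub i3 (i2.const_mul _),
      integral_const_mul, integral_const_mul, e1, e2]
    ring
  refine ⟨y, ∫ x, v x * (v x - y) ^ 2 ∂μ, hy,
    integral_nonneg fun x => mul_nonneg (h0 x) (sq_nonneg _), e2, by rw [f3]; ring, fun τ => ?_⟩
  obtain ⟨P, D, hP, hD⟩ := pw_law1 τ y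
  have k1 : Integrable (fun x => ((v x : ℝ) : ℂ) * P) μ := i1.ofReal.mul_const P
  have k2 : Integrable (fun x => ((v x * (v x - y) : ℝ) : ℂ) * D) μ := j2.ofReal.mul_const D
  have k0 := int_rem_law1 hv i2 τ
  have k3 : Integrable (fun x => rem_law1 (τ * v x) - ((v x : ℝ) : ℂ) * P) μ := k0.sub k1
  have e4 : ∫ x, rem_law1 (τ * v x) ∂μ - ((m / y : ℝ) : ℂ) * rem_law1 (τ * y) =
      ∫ x, (rem_law1 (τ * v x) - ((v x : ℝ) : ℂ) * P - ((v x * (v x - y) : ℝ) : ℂ) * D) ∂μ := by
    rw [integral_sub k3 k2, integral_sub k0 k1, integral_mul_const, integral_mul_const,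
      integral_complex_ofReal, integral_complex_ofReal, e1, f2, ← hP]
    have : (y : ℂ) ≠ 0 := by exact_mod_cast hy.ne'
    push_cast
    field_simp
    ring
  rw [e4]
  refine (norm_integral_le_of_norm_le ((j3.const_mul (|τ| ^ 3)).div_const 6)
    (Filter.Eventually.of_forall fun x => hD (v x) (h0 x))).trans (le_of_eq ?_)
  rw [integral_div, integral_const_mul]

theorem int_pow_law1 {μ : Measure ℝ} [IsProbabilityMeasure μ] (h3 : MemLp id 3 μ) {v : ℝ → ℝ}
    (hv : Continuous v) (hle : ∀ x, |v x| ≤ |x|) {k : ℕ} (hk : k ≤ 3) :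
    Integrable (fun x => v x ^ k) μ := by
  have i3 : Integrable (fun x : ℝ => ‖id x‖ ^ 3) μ :=
    MemLp.integrable_norm_pow (p := 3) (by exact_mod_cast h3) (by norm_num)
  refine ((integrable_const (1 : ℝ)).add i3).mono' (hv.pow k).aestronglyMeasurable
    (Filter.Eventually.of_forall fun x => ?_)
  simp only [Pi.add_apply, id, Real.norm_eq_abs, abs_pow]
  refine (pow_le_pow_left₀ (abs_nonneg _) (hle x) k).trans ?_
  have h0 : 0 ≤ |x| ^ 3 := by positivity
  rcases le_total |x| 1 with h | h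
  · linarith [pow_le_one₀ (n := k) (abs_nonneg x) h]
  · linarith [pow_le_pow_right₀ h hk]

/-- Comparison with the three-point law. -/
theorem law1 (μ : Measure ℝ) [IsProbabilityMeasure μ] (h3 : MemLp id 3 μ) (h0 : ∫ x, x ∂μ = 0)
    (hs : 0 < ∫ x, x ^ 2 ∂μ) : ∃ m yp ym b : ℝ, 0 < m ∧ 0 < yp ∧ 0 < ym ∧ 0 ≤ b ∧
      ∫ x, |x| ∂μ = 2 * m ∧ ∫ x, x ^ 2 ∂μ = m * (yp + ym) ∧ m * (yp + ym) ≤ yp * ym ∧
      ∫ x, |x| ^ 3 ∂μ = m * (yp ^ 2 + ym ^ 2) + b ∧
      ∀ t : ℝ, 0 < t → ‖charFun μ t - lazy m yp ym t‖ ≤ t ^ 3 * b / 6 := by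
  have cp : Continuous fun x : ℝ => max x 0 := by fun_prop
  have cm : Continuous fun x : ℝ => max (-x) 0 := by fun_prop
  have lp : ∀ x : ℝ, |max x 0| ≤ |x| := fun x => by
    rw [abs_of_nonneg (le_max_right _ _)]
    exact max_le (le_abs_self x) (abs_nonneg x)
  have lm : ∀ x : ℝ, |max (-x) 0| ≤ |x| := fun x => by
    rw [abs_of_nonneg (le_max_right _ _)]
    exact max_le (neg_le_abs x) (abs_nonneg x)
  have p1 : Integrable (fun x : ℝ => max x 0) μ := by
    simpa using int_pow_law1 h3 cp lp (k := 1) (by norm_num)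
  have m1 : Integrable (fun x : ℝ => max (-x) 0) μ := by
    simpa using int_pow_law1 h3 cm lm (k := 1) (by norm_num)
  have p2 := int_pow_law1 h3 cp lp (k := 2) (by norm_num)
  have m2 := int_pow_law1 h3 cm lm (k := 2) (by norm_num)
  have p3 := int_pow_law1 h3 cp lp (k := 3) le_rfl
  have m3 := int_pow_law1 h3 cm lm (k := 3) le_rfl
  have i1 : Integrable (fun x : ℝ => x) μ := by
    simpa using int_pow_law1 h3 continuous_id (fun _ => le_rfl) (k := 1) (by norm_num)
  have cases : ∀ x : ℝ, (0 ≤ x ∧ max x 0 = x ∧ max (-x) 0 = 0 ∧ |x| = x) ∨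
      (x ≤ 0 ∧ max x 0 = 0 ∧ max (-x) 0 = -x ∧ |x| = -x) := fun x => by
    rcases le_total 0 x with h | h
    · exact Or.inl ⟨h, max_eq_left h, max_eq_right (by linarith), abs_of_nonneg h⟩
    · exact Or.inr ⟨h, max_eq_right h, max_eq_left (by linarith), abs_of_nonpos h⟩
  obtain ⟨m, ep⟩ : ∃ m, ∫ x, max x 0 ∂μ = m := ⟨_, rfl⟩
  have em : ∫ x, max (-x) 0 ∂μ = m := by
    have : ∫ x, (max x 0 - max (-x) 0) ∂μ = ∫ x, x ∂μ :=
      integral_congr_ae (Filter.Eventually.of_forall fun x => by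
        rcases cases x with ⟨-, a, b, -⟩ | ⟨-, a, b, -⟩ <;> simp only [a, b] <;> ring)
    rw [integral_sub p1 m1, ep, h0] at this
    linarith
  have g1 : (fun x : ℝ => |x|) = fun x => max x 0 + max (-x) 0 := by
    funext x
    rcases cases x with ⟨-, a, b, c⟩ | ⟨-, a, b, c⟩ <;> rw [a, b, c] <;> ring
  have ea : ∫ x, |x| ∂μ = 2 * m := by
    rw [g1, integral_add p1 m1, ep, em]
    ring
  have hm : 0 < m := by
    by_contra hcon
    have h1 : ∫ x, |x| ∂μ = 0 :=
      le_antisymm (by linarith) (integral_nonneg fun x => abs_nonneg x)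
    rw [integral_eq_zero_iff_of_nonneg (fun x => abs_nonneg x) i1.abs] at h1
    have h2 : ∫ x, x ^ 2 ∂μ = ∫ _x, (0 : ℝ) ∂μ := integral_congr_ae (h1.mono fun x hx => by
      have : x = 0 := abs_eq_zero.1 hx
      simp [this])
    rw [h2, integral_zero] at hs
    exact lt_irrefl _ hs
  obtain ⟨yp, bp, hyp, hbp, ep2, ep3, hp⟩ :=
    half_law1 cp (fun x => le_max_right _ _) p1 p2 p3 hm ep
  obtain ⟨ym, bm, hym, hbm, em2, em3, hq⟩ :=
    half_law1 cm (fun x => le_max_right _ _) m1 m2 m3 hm em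
  refine ⟨m, yp, ym, bp + bm, hm, hyp, hym, by positivity, ea, ?_, ?_, ?_, fun t ht => ?_⟩
  · have : (fun x : ℝ => x ^ 2) = fun x => max x 0 ^ 2 + max (-x) 0 ^ 2 := by
      funext x
      rcases cases x with ⟨-, a, b, -⟩ | ⟨-, a, b, -⟩ <;> rw [a, b] <;> ring
    rw [this, integral_add p2 m2, ep2, em2]
    ring
  · have a1 : Integrable (fun x : ℝ => ym ^ 2 * (2 * yp * max x 0 - max x 0 ^ 2)) μ :=
      ((p1.const_mul _).sub p2).const_mul _
    have a2 : Integrable (fun x : ℝ => yp ^ 2 * (2 * ym * max (-x) 0 - max (-x) 0 ^ 2)) μ :=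
      ((m1.const_mul _).sub m2).const_mul _
    have h1 : ∫ x, (ym ^ 2 * (2 * yp * max x 0 - max x 0 ^ 2) +
        yp ^ 2 * (2 * ym * max (-x) 0 - max (-x) 0 ^ 2)) ∂μ ≤ ∫ _x, (yp * ym) ^ 2 ∂μ :=
      integral_mono (a1.add a2) (integrable_const _) fun x => by
        rcases cases x with ⟨-, a, b, -⟩ | ⟨-, a, b, -⟩ <;> simp only [a, b]
        · nlinarith [sq_nonneg (ym * (x - yp))]
        · nlinarith [sq_nonneg (yp * (x + ym))]
    rw [integral_add a1 a2, integral_const_mul, integral_const_mul,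
      integral_sub (p1.const_mul _) p2, integral_sub (m1.const_mul _) m2, integral_const_mul,
      integral_const_mul, ep, em, ep2, em2] at h1
    simp only [integral_const, probReal_univ, smul_eq_mul, one_mul] at h1
    have h2 : 0 < yp * ym := mul_pos hyp hym
    refine le_of_mul_le_mul_left ?_ h2
    nlinarith
  · have : (fun x : ℝ => |x| ^ 3) = fun x => max x 0 ^ 3 + max (-x) 0 ^ 3 := by
      funext x
      rcases cases x with ⟨-, a, b, c⟩ | ⟨-, a, b, c⟩ <;> rw [a, b, c] <;> ring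
    rw [this, integral_add p3 m3, ep3, em3]
    ring
  · have r1 := int_rem_law1 cp p2 t
    have r2 := int_rem_law1 cm m2 (-t)
    have l1 : Integrable (fun x : ℝ => (x : ℂ) * ((t : ℂ) * Complex.I)) μ := i1.ofReal.mul_const _
    have l2 : Integrable (fun x : ℝ => 1 + (x : ℂ) * ((t : ℂ) * Complex.I)) μ :=
      (integrable_const _).add l1
    have l3 : Integrable (fun x : ℝ => 1 + (x : ℂ) * ((t : ℂ) * Complex.I) +
        rem_law1 (t * max x 0)) μ := l2.add r1
    have g : (fun x : ℝ => Complex.exp ((t : ℂ) * x * Complex.I)) = fun x : ℝ =>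
        1 + (x : ℂ) * ((t : ℂ) * Complex.I) + rem_law1 (t * max x 0) +
          rem_law1 (-t * max (-x) 0) := by
      funext x
      rcases cases x with ⟨-, a, b, -⟩ | ⟨-, a, b, -⟩ <;> rw [a, b, mul_zero, rem_zero_law1]
      · rw [rem_law1]
        push_cast
        ring
      · rw [neg_mul_neg, rem_law1]
        push_cast
        ring
    have e : charFun μ t - lazy m yp ym t =
        (∫ x, rem_law1 (t * max x 0) ∂μ - ((m / yp : ℝ) : ℂ) * rem_law1 (t * yp)) +
        (∫ x, rem_law1 (-t * max (-x) 0) ∂μ - ((m / ym : ℝ) : ℂ) * rem_law1 (-t * ym)) := by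
      rw [charFun_apply_real, g, integral_add l3 r2, integral_add l2 r1,
        integral_add (integrable_const _) l1, integral_mul_const, integral_complex_ofReal, h0,
        lazy, rem_law1, rem_law1, neg_mul t ym]
      simp only [integral_const, probReal_univ, one_smul]
      have n1 : (yp : ℂ) ≠ 0 := by exact_mod_cast hyp.ne'
      have n2 : (ym : ℂ) ≠ 0 := by exact_mod_cast hym.ne'
      generalize Complex.exp (((t * yp : ℝ) : ℂ) * Complex.I) = A
      generalize Complex.exp (((-(t * ym) : ℝ) : ℂ) * Complex.I) = B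
      push_cast
      field_simp
      ring
    rw [e]
    have b1 := hp t
    have b2 := hq (-t)
    rw [abs_neg] at b2
    rw [abs_of_pos ht] at b1 b2
    exact (norm_add_le _ _).trans (by linarith)

end Pool.Agent.Lib.MP_33650d_pr.Y
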