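import Pool.Agent.Lib.MP_33650d_pr.Y.Norm
import Pool.Agent.Lib.MP_33650d_pr.Law

namespace Pool.Agent.Lib.MP_33650d_pr.Y
open MeasureTheory ProbabilityTheory Real X

/-- The general entry lemma. -/
theorem entry_moda {t α θ μ : ℝ} (hθ : 0 ≤ θ)
    (h : ∀ z : ℝ, 0 ≤ z →
      0 ≤ 1 - cos (t * z) - α * z ^ 2 + μ * (z ^ 3 - z ^ 2 - 2 * Gw z) + θ * Gw z) :
    Entry t α θ := by
  refine ⟨μ, fun d hd => ?_⟩
  have k := hd.zlin t 1 (-α - μ) μ (θ - 2 * μ) fun z hz => by linarith [h z hz]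
  have j := mul_le_mul_of_nonneg_left hd.P3_le hθ
  set E := -(α * d.s) + μ * d.L + θ * d.J with hE
  have e1 : ‖d.f t‖ ^ 2 ≤ 1 + 2 * E := by
    rw [hE]
    unfold SD.L
    linarith
  have e2 : 1 + 2 * E ≤ exp E ^ 2 := by
    rw [← exp_nat_mul]
    push_cast
    linarith [add_one_le_exp (2 * E)]
  exact (abs_le_of_sq_le_sq' (e1.trans e2) (exp_pos E).le).2

theorem gf_lo_moda {z : ℝ} (h : z ≤ 1) : gf z = 2 / 5 * (z - 1) ^ 2 := by
  unfold gf
  rw [max_eq_right h, div_one]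

theorem gf_hi_moda {z : ℝ} (h : 1 ≤ z) : gf z = 2 / 5 * (z - 2 + 1 / z) := by
  unfold gf
  have : z ≠ 0 := by linarith
  rw [max_eq_left h]
  field_simp
  ring

theorem gf_nn_moda (z : ℝ) : 0 ≤ gf z := by
  unfold gf
  have : 0 < max z 1 := lt_max_of_lt_right one_pos
  positivity

theorem Gw_eq_moda (z : ℝ) : Gw z = z ^ 2 * gf z := by
  unfold Gw
  rcases le_total z 1 with h | h
  · rw [gf_lo_moda h, min_eq_left h]
    ring
  · have : z ≠ 0 := by linarith
    rw [gf_hi_moda h, min_eq_right h]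
    field_simp
    ring

theorem gf_tan_moda (z0 : ℝ) : ∃ k : ℝ, ∀ z : ℝ, gf z0 + k * (z - z0) ≤ gf z := by
  rcases le_total z0 1 with h0 | h0
  · refine ⟨-(4 / 5) * (1 - z0), fun z => ?_⟩
    rw [gf_lo_moda h0]
    rcases le_total z 1 with h | h
    · rw [gf_lo_moda h]
      nlinarith [sq_nonneg (z - z0)]
    · have := gf_nn_moda z
      nlinarith [mul_nonneg (sub_nonneg.2 h0) (show 0 ≤ 2 * z - 1 - z0 by linarith)]
  · have p0 : 0 < z0 := by linarith
    refine ⟨2 / 5 * (1 - (1 / z0) ^ 2), fun z => ?_⟩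
    rw [gf_hi_moda h0]
    have e0 : z0 * (1 / z0) = 1 := by field_simp
    have w0 : 0 < 1 / z0 := by positivity
    have w1 : 1 / z0 ≤ 1 := by rw [div_le_one p0]; exact h0
    have e1 : 2 / 5 * (z0 - 2 + 1 / z0) + 2 / 5 * (1 - (1 / z0) ^ 2) * (z - z0)
        = 2 / 5 * (z - 2 + 2 * (1 / z0) - z * (1 / z0) ^ 2) := by
      field_simp
      ring
    rw [e1]
    generalize 1 / z0 = w at *
    rcases le_total z 1 with h | h
    · have := gf_nn_moda z
      nlinarith [mul_nonneg (sub_nonneg.2 h) (show 0 ≤ 1 - w ^ 2 by nlinarith), sq_nonneg (1 - w)]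
    · have p : 0 < z := by linarith
      rw [gf_hi_moda h]
      have e : 1 / z - 2 * w + z * w ^ 2 = (1 - z * w) ^ 2 / z := by
        field_simp
        ring
      have : 0 ≤ (1 - z * w) ^ 2 / z := by positivity
      linarith

/-- The balance function. -/
noncomputable def ph_moda (z : ℝ) : ℝ := z - 1 - 2 * gf z

theorem ph_hi_moda {z : ℝ} (h : 1 ≤ z) : ph_moda z = z / 5 + 3 / 5 - 4 / 5 * (1 / z) := by
  unfold ph_moda
  rw [gf_hi_moda h]
  ring

theorem ph_zero_moda : ph_moda 0 = -(9 / 5) := by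
  unfold ph_moda
  rw [gf_lo_moda zero_le_one]
  norm_num

theorem ph_mono_moda {y z : ℝ} (hy : 1 ≤ y) (h : y ≤ z) : ph_moda y ≤ ph_moda z := by
  rw [ph_hi_moda hy, ph_hi_moda (hy.trans h)]
  have : 1 / z ≤ 1 / y := one_div_le_one_div_of_le (by linarith) h
  linarith

theorem conv_moda {z0 z1 z b a p r : ℝ} (hb : 0 ≤ b) (l0 : z0 ≤ z) (l1 : z ≤ z1)
    (e0 : a - b * ph_moda z0 ≤ p - r * z0) (e1 : a - b * ph_moda z1 ≤ p - r * z1) :
    a - b * ph_moda z ≤ p - r * z := by
  rcases eq_or_lt_of_le (l0.trans l1) with h | h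
  · have : z = z0 := le_antisymm (h ▸ l1) l0
    rw [this]; exact e0
  obtain ⟨k, hk⟩ := gf_tan_moda z
  have k0 := mul_le_mul_of_nonneg_left (mul_le_mul_of_nonneg_left (hk z0) hb) (sub_nonneg.2 l1)
  have k1 := mul_le_mul_of_nonneg_left (mul_le_mul_of_nonneg_left (hk z1) hb) (sub_nonneg.2 l0)
  have a0 := mul_le_mul_of_nonneg_left e0 (sub_nonneg.2 l1)
  have a1 := mul_le_mul_of_nonneg_left e1 (sub_nonneg.2 l0)
  unfold ph_moda at *
  have : (z1 - z0) * (a - b * (z - 1 - 2 * gf z)) ≤ (z1 - z0) * (p - r * z) := by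
    nlinarith
  exact le_of_mul_le_mul_left this (sub_pos.2 h)

theorem cube_moda {x : ℝ} (hx : 0 ≤ x) : x ^ 2 * (1 / 2 - x / 10) ≤ 1 - cos x := by
  rcases le_total x (12 / 5) with h | h
  · have := lw_cos4 hx
    have h3 : 0 ≤ x ^ 3 * (12 / 5 - x) := by
      have : 0 ≤ 12 / 5 - x := by linarith
      positivity
    nlinarith
  rcases le_total 5 x with h5 | h5
  · have := cos_le_one x
    have : 0 ≤ x ^ 2 * (x / 10 - 1 / 2) := by
      have : 0 ≤ x / 10 - 1 / 2 := by linarith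
      positivity
    nlinarith
  have h1 := one_sub_sq_div_two_le_cos (x := x - π)
  rw [cos_sub_pi] at h1
  have p1 := pi_gt_d4
  have p2 := pi_lt_d4
  have p3 : π ^ 2 ≤ 9.87 := by nlinarith
  have p4 : 3.1415 * x ≤ π * x := mul_le_mul_of_nonneg_right p1.le hx
  have h3 : 0 ≤ (x - 4.13) ^ 2 * (x - 1.74) := by
    have : 0 ≤ x - 1.74 := by linarith
    positivity
  nlinarith

theorem cos_moda (x : ℝ) : cos x = sin (x - 3 * π / 2) := by
  have : x - 3 * π / 2 = (x + π / 2) - 2 * π := by ring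
  rw [this, sin_sub_two_pi, sin_add_pi_div_two]

theorem line_moda {x : ℝ} (h0 : 4.44 ≤ x) : x ^ 2 * (0.278 - x / 20) ≤ 1 - cos x := by
  have p1 := pi_gt_d4
  have p2 := pi_lt_d4
  have hs : cos x ≤ x - 4.7122 + 0.004 := by
    rw [cos_moda]
    rcases le_total 0 (x - 3 * π / 2) with h | h
    · have := sin_le h
      linarith
    · have h1 := lw_sin3 (neg_nonneg.2 h)
      rw [sin_neg] at h1
      have h2 : (-(x - 3 * π / 2)) ^ 3 ≤ 0.28 ^ 3 :=
        pow_le_pow_left₀ (by linarith) (by linarith) 3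
      norm_num at h2
      linarith
  have h3 : 0 ≤ (x - 5.03) ^ 2 * (x + 4.5) := by
    have : 0 ≤ x + 4.5 := by linarith
    positivity
  rcases le_total 5.56 x with h5 | h5
  · have := cos_le_one x
    have : 0 ≤ x ^ 2 * (x / 20 - 0.278) := by
      have : 0 ≤ x / 20 - 0.278 := by linarith
      positivity
    nlinarith
  nlinarith

theorem two_moda {t a b : ℝ} (ht : 0 < t) (ht' : t ≤ 5) (hb : 0 ≤ b) (h0 : a + 9 / 5 * b ≤ 1 / 2)
    (h1 : a - b * ph_moda (4.44 / t) ≤ 0.056) (h2 : a ≤ b * ph_moda (5.56 / t)) {z : ℝ}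
    (hz : 0 ≤ z) : (t * z) ^ 2 * (a - b * ph_moda z) ≤ 1 - cos (t * z) := by
  rcases le_total z (4.44 / t) with h | h
  · have k := conv_moda (a := a) (p := 1 / 2) (r := t / 10) hb hz h
      (by rw [ph_zero_moda]; linarith) (by
        have : t / 10 * (4.44 / t) = 0.444 := by field_simp; norm_num
        linarith)
    have c := cube_moda (x := t * z) (by positivity)
    have := mul_le_mul_of_nonneg_left k (sq_nonneg (t * z))
    have e : t / 10 * z = t * z / 10 := by ring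
    rw [e] at this
    linarith
  rcases le_total z (5.56 / t) with h' | h'
  · have k := conv_moda (a := a) (p := 0.278) (r := t / 20) hb h h'
      (by
        have : t / 20 * (4.44 / t) = 0.222 := by field_simp; norm_num
        linarith) (by
        have : t / 20 * (5.56 / t) = 0.278 := by field_simp; norm_num
        linarith)
    have c := line_moda (x := t * z) (by rw [div_le_iff₀ ht] at h; linarith)
    have := mul_le_mul_of_nonneg_left k (sq_nonneg (t * z))
    have e : t / 20 * z = t * z / 20 := by ring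
    rw [e] at this
    linarith
  · have k := mul_le_mul_of_nonneg_left
      (ph_mono_moda (by rw [le_div_iff₀ ht]; linarith) h') hb
    have := cos_le_one (t * z)
    have : 0 ≤ (t * z) ^ 2 * (b * ph_moda z - a) := by
      have : 0 ≤ b * ph_moda z - a := by linarith
      positivity
    nlinarith

theorem entry_two_moda {t a b : ℝ} (ht : 0 < t) (ht' : t ≤ 5) (hb : 0 ≤ b)
    (h0 : a + 9 / 5 * b ≤ 1 / 2) (h1 : a - b * ph_moda (4.44 / t) ≤ 0.056)
    (h2 : a ≤ b * ph_moda (5.56 / t)) : Entry t (t ^ 2 * a) 0 := by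
  refine entry_moda (μ := t ^ 2 * b) le_rfl fun z hz => ?_
  have := two_moda ht ht' hb h0 h1 h2 hz
  rw [Gw_eq_moda]
  unfold ph_moda at this
  nlinarith

theorem ph_div_moda {t x : ℝ} (ht : 0 < t) (hx : t ≤ x) :
    ph_moda (x / t) = (x ^ 2 + 3 * x * t - 4 * t ^ 2) / (5 * x * t) := by
  have : x ≠ 0 := by linarith
  rw [ph_hi_moda (by rw [le_div_iff₀ ht]; linarith)]
  field_simp

end Pool.Agent.Lib.MP_33650d_pr.Y
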