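import Pool.Agent.Lib.MP_33650d_pr.Y.Norm

namespace Pool.Agent.Lib.MP_33650d_pr.Y
open MeasureTheory ProbabilityTheory Real X

theorem cJ_sq_mods (κ : ℝ) : 0.5135 * κ ^ 2 - κ / 6 + 0.0135 ≤ cJ * (κ - dE) ^ 2 := by
  have e : cJ * (κ - dE) ^ 2 = cJ * κ ^ 2 - κ / 6 + (cJ - 1 / 2) := by
    unfold cJ dE
    linear_combination (-(κ / 6) + (r10 - 3) / 12) * r10_sq
  have c : 0.5135 ≤ cJ := by unfold cJ; linarith [r10_lo]
  rw [e]
  nlinarith [sq_nonneg κ]

theorem cJ_nn_mods (κ : ℝ) : 0 ≤ cJ * (κ - dE) ^ 2 := by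
  have c : 0.5135 ≤ cJ := by unfold cJ; linarith [r10_lo]
  positivity

theorem chord_mods {s s₁ s₂ c F : ℝ} (h0 : 0 ≤ s) (h1 : s₁ ≤ s) (h2 : s ≤ s₂) (hc : 0 ≤ c)
    (he : c * s₁ * s₂ = 0.24 ^ 2) (h : c * (s₁ + s₂) ≤ F + c * s) : 0.24 ^ 2 ≤ s * F := by
  have a := mul_nonneg hc (mul_nonneg (sub_nonneg.2 h1) (sub_nonneg.2 h2))
  have b := mul_le_mul_of_nonneg_left h h0
  nlinarith

theorem gain_mods {y κ ν e c q : ℝ} (hy : 0 < y) (hy1 : y ≤ 1.6) (hν : 0 ≤ ν) (hc : 0 ≤ c)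
    (hc1 : c ≤ 8 / 3) (he : 4.9 ≤ e) (q0 : 0 ≤ q)
    (hq : 0.5135 * κ ^ 2 - κ / 6 + 0.0135 ≤ q) :
    0.95 * c * y ^ 2 / 4 ≤ e * (y * ν) + 5 * (y * q) + c * (((1 - κ ^ 2) / 4 - ν) * y ^ 2) := by
  have a : c * y ≤ 4.27 := by nlinarith
  have a0 : 0 ≤ c * y := by positivity
  have b : 0 ≤ (e - c * y) * (y * ν) := mul_nonneg (by linarith) (by positivity)
  have f : κ ^ 2 - 0.05 ≤ 4.68 * q := by nlinarith [sq_nonneg (κ - 0.278)]
  have g : c * y * (κ ^ 2 - 0.05) ≤ 20 * q := by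
    have := mul_le_mul_of_nonneg_left f a0
    nlinarith
  have := mul_le_mul_of_nonneg_left g hy.le
  nlinarith

/-- The three ranges of the variance. -/
theorem fin_mods {y κ ν e A q s : ℝ} (hy : 0 < y) (hy1 : y ≤ 1.6) (hν : 0 ≤ ν) (he : 4.9 ≤ e)
    (q0 : 0 ≤ q) (hq : 0.5135 * κ ^ 2 - κ / 6 + 0.0135 ≤ q)
    (hs : s = ((1 - κ ^ 2) / 4 - ν) * y ^ 2)
    (h0 : 0.12 ≤ s) (h1 : 0.8 ≤ A + 0.633 * y ^ 2) (h2 : 0.5416 ≤ A + 0.292 * y ^ 2)
    (h3 : 0.26 ≤ s → 0.2216 ≤ A) : 0.24 ^ 2 ≤ s * (A + e * (y * ν) + 5 * (y * q)) := by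
  have y2 := sq_nonneg y
  by_cases c1 : s ≤ 0.18
  · have := gain_mods hy hy1 hν (c := 8 / 3) (by norm_num) le_rfl he q0 hq
    exact chord_mods (c := 8 / 3) (by linarith) h0 c1 (by norm_num) (by norm_num)
      (by rw [← hs] at this; linarith)
  by_cases c2 : s ≤ 0.26
  · have := gain_mods hy hy1 hν (c := 16 / 13) (by norm_num) (by norm_num) he q0 hq
    exact chord_mods (c := 16 / 13) (s₁ := 0.18) (by linarith) (by linarith) c2 (by norm_num)
      (by norm_num) (by rw [← hs] at this; linarith)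
  · have a := h3 (by linarith)
    have b : 0 ≤ e * (y * ν) := mul_nonneg (by linarith) (by positivity)
    have c : 0 ≤ y * q := by positivity
    have : 0.26 * 0.2216 ≤ s * (A + e * (y * ν) + 5 * (y * q)) :=
      mul_le_mul (by linarith) (by linarith) (by norm_num) (by linarith)
    linarith

theorem modS_A {d : SD} (h : d.Ok) (hs : 0.12 ≤ d.s) :
    0.24 ^ 2 ≤ 0.26 * d.s - 0.52 * d.L + 5 * d.J := by
  obtain ⟨y, κ, ν, P, -, -, e1, -, e2, e3, -⟩ := h.normal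
  have hq := cJ_sq_mods κ
  have q0 := cJ_nn_mods κ
  generalize cJ * (κ - dE) ^ 2 = q at hq q0 e3
  have hb := h.bnn
  have hp := h.pnn
  have hy := P.y0
  have hν := P.n0
  have key : ∀ z G D : ℝ, 0 < z → gf z = G → gd z = D → -0.3 ≤ D → D ≤ 0.4 →
      0.24 ^ 2 ≤ d.s * ((0.78 - 0.52 * y + 6.04 * (G + D * (y - z))) +
        (6.04 - 12.08 * D) * (y * ν) + 5 * (y * q)) →
      0.24 ^ 2 ≤ 0.26 * d.s - 0.52 * d.L + 5 * d.J := by
    intro z G D hz eG eD d1 d2 k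
    have t := h.tangent hz
    rw [eG, eD, e2] at t
    have r := mul_le_mul_of_nonneg_right r10_lo.le hb
    have u := mul_nonneg (show 0 ≤ D + 0.3 by linarith) hb
    have v := mul_nonneg (show 0 ≤ 0.4 - D by linarith) hp
    rw [SD.L, e2, e3]
    nlinarith
  rw [vs] at e1
  have s1 : d.s ≤ y ^ 2 / 4 := by
    rw [e1]
    nlinarith [mul_nonneg hν (sq_nonneg y), mul_nonneg (sq_nonneg κ) (sq_nonneg y)]
  by_cases c1 : y ≤ 1
  · have y1 : 0.69 ≤ y := by nlinarith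
    refine key y (2 / 5 * (y - 1) ^ 2) (-(4 / 5) * (1 - y)) hy ?_ ?_ (by linarith) (by linarith)
      (fin_mods hy (by linarith) hν (by linarith) q0 hq e1 hs ?_ ?_ fun k => ?_)
    · rw [gf, max_eq_right c1, div_one]
    · rw [gd, if_pos c1]
    · nlinarith [sq_nonneg (y - 0.88)]
    · nlinarith [sq_nonneg (y - 0.99)]
    · nlinarith
  by_cases c2 : y ≤ 1.1
  · by_cases c3 : 0.26 ≤ d.s
    · refine key (8 / 7) (1 / 140) (3 / 32) (by norm_num) ?_ ?_ (by norm_num) (by norm_num) ?_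
      · rw [gf, max_eq_left (by norm_num)]; norm_num
      · rw [gd, if_neg (by norm_num)]; norm_num
      · have b : 0 ≤ y * ν := by positivity
        have c : 0 ≤ y * q := by positivity
        refine le_trans (by norm_num) (mul_le_mul c3 (show (0.2216 : ℝ) ≤ _ by linarith)
          (by norm_num) (by linarith))
    · refine key 1 0 0 one_pos ?_ ?_ (by norm_num) (by norm_num)
        (fin_mods hy (by linarith) hν (by norm_num) q0 hq e1 hs ?_ ?_ fun k => absurd k c3)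
      · simp [gf]
      · simp [gd]
      · nlinarith
      · nlinarith
  by_cases c3 : y ≤ 1.6
  · refine key (8 / 7) (1 / 140) (3 / 32) (by norm_num) ?_ ?_ (by norm_num) (by norm_num)
      (fin_mods hy c3 hν (by norm_num) q0 hq e1 hs ?_ ?_ fun _ => ?_)
    · rw [gf, max_eq_left (by norm_num)]; norm_num
    · rw [gd, if_neg (by norm_num)]; norm_num
    · nlinarith
    · nlinarith
    · linarith
  · refine key (8 / 5) (9 / 100) (39 / 160) (by norm_num) ?_ ?_ (by norm_num) (by norm_num) ?_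
    · rw [gf, max_eq_left (by norm_num)]; norm_num
    · rw [gd, if_neg (by norm_num)]; norm_num
    · have b : 0 ≤ y * ν := by positivity
      have c : 0 ≤ y * q := by positivity
      refine le_trans (by norm_num) (mul_le_mul hs (show (0.48 : ℝ) ≤ _ by linarith)
        (by norm_num) (by linarith))

theorem modS_B {d : SD} (h : d.Ok) (hs : d.s ≤ 0.12) :
    0.33 * (d.Z - 0.715 * d.s) + d.P3 ≤ d.J := by
  obtain ⟨y, κ, ν, P, -, -, e1, -, e2, e3, -⟩ := h.normal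
  have hq := cJ_sq_mods κ
  have q0 := cJ_nn_mods κ
  generalize cJ * (κ - dE) ^ 2 = q at hq q0 e3
  have hb := h.bnn
  have hp := h.pnn
  have hy := P.y0
  have hν := P.n0
  have key : 0.33 * (y * (1 - 2 * ν) - 0.715) ≤ y * (q + ν) := by
    have b : 0 ≤ y * ν := by positivity
    have c : 0 ≤ y * q := by positivity
    by_cases c1 : y ≤ 0.715
    · nlinarith
    rw [e1, vs] at hs
    have y2 := sq_nonneg y
    refine le_of_mul_le_mul_left ?_ hy
    have n2 : 0 ≤ ν * y ^ 2 := by positivity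
    by_cases c2 : y ≤ 0.8
    · have a : -0.1325 ≤ q + 0.2075 * (1 - κ ^ 2) - 0.33 := by nlinarith [sq_nonneg (κ - 0.272)]
      have := mul_le_mul_of_nonneg_right a y2
      nlinarith [mul_nonneg (show 0 ≤ y - 0.715 by linarith) (show 0 ≤ 0.8 - y by linarith)]
    · have a : 0.025 ≤ q + 0.415 * (1 - κ ^ 2) - 0.33 := by nlinarith [sq_nonneg (κ - 0.846)]
      have := mul_le_mul_of_nonneg_right a y2
      nlinarith
  have := mul_le_mul_of_nonneg_left key h.spos.le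
  have r := mul_le_mul_of_nonneg_right r10_lo.le hb
  rw [e2, e3]
  nlinarith

end Pool.Agent.Lib.MP_33650d_pr.Y
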