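import Pool.Agent.Lib.MP_33650d_pr.Y.ModS

namespace Pool.Agent.Lib.MP_33650d_pr.Y
open MeasureTheory ProbabilityTheory Real X

theorem cube_modt {x : ℝ} (hx : 0 ≤ x) : x ^ 2 * (1 / 2 - x / 10) ≤ 1 - cos x := by
  rcases le_total x (12 / 5) with h | h
  · have := lw_cos4 hx
    have h3 : 0 ≤ x ^ 3 * (12 / 5 - x) := by
      have : 0 ≤ 12 / 5 - x := by linarith
      positivity
    nlinarith
  rcases le_total 5 x with h5 | h5
  · have := cos_le_one x
    have : 0 ≤ x ^ 2 * (x / 10 - 1 / 2) := by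
      have : 0 ≤ x / 10 - 1 / 2 := by linarith
      positivity
    nlinarith
  have h1 := one_sub_sq_div_two_le_cos (x := x - π)
  rw [cos_sub_pi] at h1
  have p1 := pi_gt_d4
  have p2 := pi_lt_d4
  have p3 : π ^ 2 ≤ 9.87 := by nlinarith
  have p4 : 3.1415 * x ≤ π * x := mul_le_mul_of_nonneg_right p1.le hx
  have h3 : 0 ≤ (x - 4.13) ^ 2 * (x - 1.74) := by
    have : 0 ≤ x - 1.74 := by linarith
    positivity
  nlinarith

theorem facts_modt {t : ℝ} (h0 : 5 ≤ t) (h1 : t < 2 * π) :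
    0.2353 ≤ cos t ∧ 0 ≤ -sin t ∧ -sin t ≤ 0.972 ∧ 1 - cos t ≤ (2 * π - t) ^ 2 / 2 ∧
      -sin t ≤ 2 * π - t := by
  have p1 := pi_gt_d6
  have p2 := pi_lt_d6
  have c1 : 0.2353 ≤ cos t := by
    have e : cos t = sin (t - 3 * π / 2) := by
      have : t - 3 * π / 2 = (t + π / 2) - 2 * π := by ring
      rw [this, sin_sub_two_pi, sin_add_pi_div_two]
    rw [e]
    have a : sin (0.2376 : ℝ) ≤ sin (t - 3 * π / 2) :=
      sin_le_sin_of_le_of_le_pi_div_two (by linarith) (by linarith) (by linarith)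
    have b := lw_sin3 (y := 0.2376) (by norm_num)
    norm_num at b a ⊢
    linarith
  have e1 : sin (2 * π - t) = -sin t := by rw [sin_two_pi_sub]
  have e2 : cos (2 * π - t) = cos t := by rw [cos_two_pi_sub]
  have s0 : 0 ≤ -sin t := by
    rw [← e1]; exact sin_nonneg_of_nonneg_of_le_pi (by linarith) (by linarith)
  refine ⟨c1, s0, ?_, ?_, ?_⟩
  · have := sin_sq_add_cos_sq t
    nlinarith
  · have := one_sub_sq_div_two_le_cos (x := 2 * π - t)
    rw [e2] at this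
    linarith
  · rw [← e1]; exact sin_le (by linarith)

theorem factsB_modt {t : ℝ} (h0 : 5.3 ≤ t) (h1 : t < 2 * π) :
    0.554 ≤ cos t ∧ t * -sin t ≤ 4.42 := by
  have p1 := pi_gt_d6
  have p2 := pi_lt_d6
  obtain ⟨c1, s0, -⟩ := facts_modt (by linarith) h1
  obtain ⟨v, hv⟩ : ∃ v, v = 2 * π - t := ⟨_, rfl⟩
  have v0 : 0 ≤ v := by linarith
  have v1 : v ≤ 0.9832 := by linarith
  have e1 : sin v = -sin t := by rw [hv, sin_two_pi_sub]
  have a := lw_sin5 v0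
  rw [e1] at a
  have v2 : v ^ 2 ≤ 0.9667 := by nlinarith
  have v3 : 0 ≤ v ^ 3 := by positivity
  have b : -sin t ≤ v - 0.1586 * v ^ 3 := by
    have : v ^ 5 ≤ 0.9667 * v ^ 3 := by nlinarith
    linarith
  have d0 : 0 ≤ 0.9832 - v := by linarith
  have b2 : v - 0.1586 * v ^ 3 ≤ 0.83247 - 0.54 * (0.9832 - v) := by
    nlinarith [mul_nonneg d0 d0, mul_nonneg (mul_nonneg d0 d0) v0]
  constructor
  · have := sin_sq_add_cos_sq t
    have s1 : -sin t ≤ 0.83247 := by linarith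
    nlinarith
  · have t1 : t ≤ 5.3 + (0.9832 - v) := by linarith
    have : t * -sin t ≤ (5.3 + (0.9832 - v)) * (0.83247 - 0.54 * (0.9832 - v)) :=
      mul_le_mul t1 (b.trans b2) s0 (by linarith)
    nlinarith [mul_nonneg d0 d0]

/-- The main term. -/
noncomputable def F_modt (t z : ℝ) : ℝ :=
  1 - cos (t * z) - (1 - cos t) * z ^ 2
    + (2 * (1 - cos t) - t * sin t) * (z ^ 3 - z ^ 2 - 2 * Gw z)

theorem Gw_hi_modt {z : ℝ} (h : 1 ≤ z) : Gw z = 2 / 5 * z * (z - 1) ^ 2 := by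
  rw [Gw, min_eq_right h, mul_one]

theorem Gw_lo_modt {u : ℝ} (h : 0 ≤ u) : Gw (1 - u) = 2 / 5 * (1 - u) ^ 2 * u ^ 2 := by
  rw [Gw, min_eq_left (by linarith)]
  ring

theorem hi_modt {t z : ℝ} (h : 5 ≤ t) (h1 : t < 2 * π) (hz : 1 ≤ z) : 0 ≤ F_modt t z := by
  obtain ⟨c1, s0, -⟩ := facts_modt h h1
  have c2 := cos_le_one t
  have w0 : 0 ≤ t * (z - 1) := mul_nonneg (by linarith) (by linarith)
  have ec : cos (t * z) = cos t * cos (t * (z - 1)) - sin t * sin (t * (z - 1)) := by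
    rw [← cos_add]; ring_nf
  have e : F_modt t z = cos t * (1 - cos (t * (z - 1))) +
      -sin t * (t * (z - 1) - sin (t * (z - 1))) +
      (z - 1) ^ 2 * ((1 - cos t) * (1 + 2 / 5 * z) + t * -sin t * (1 + z / 5)) := by
    rw [F_modt, ec, Gw_hi_modt hz]
    ring
  have f1 : 0 ≤ 1 - cos (t * (z - 1)) := sub_nonneg.2 (cos_le_one _)
  have f2 : 0 ≤ t * (z - 1) - sin (t * (z - 1)) := sub_nonneg.2 (sin_le w0)
  have f3 : 0 ≤ cos t := by linarith
  have f4 : 0 ≤ 1 - cos t := by linarith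
  have f5 : 0 ≤ t := by linarith
  have f6 : 0 ≤ z := by linarith
  rw [e]
  positivity

/-- Near the lattice point. -/
theorem near_modt {t u : ℝ} (h : 5 ≤ t) (h1 : t < 2 * π) (hu : 0 ≤ u) (hx : t * u ≤ 1.3) :
    u ^ 2 * (0.4295 * (cos t * t ^ 2) + t * -sin t * (1.2 - 1.0472 * (t * u)) +
      1.4 * (1 - cos t)) ≤ F_modt t (1 - u) := by
  obtain ⟨c1, s0, -⟩ := facts_modt h h1
  have p2 := pi_lt_d4
  have c2 := cos_le_one t
  have t0 : 0 ≤ t := by linarith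
  have w0 : 0 ≤ t * u := mul_nonneg t0 hu
  have u1 : u ≤ 0.26 := by nlinarith
  have ec : cos (t * (1 - u)) = cos t * cos (t * u) + sin t * sin (t * u) := by
    rw [← cos_sub]; ring_nf
  have e : F_modt t (1 - u) = cos t * (1 - cos (t * u)) - -sin t * (t * u - sin (t * u)) +
      u ^ 2 * ((1 - cos t) * (1.4 + 2 * (u * (0.6 - 0.8 * u))) +
        t * -sin t * (1.2 + u * (0.6 - 0.8 * u))) := by
    rw [F_modt, ec, Gw_lo_modt hu]
    ring
  have a1 : 0.4295 * (t * u) ^ 2 ≤ 1 - cos (t * u) := by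
    have := lw_cos4 w0
    have b : (t * u) ^ 2 ≤ 1.69 := by nlinarith
    nlinarith [mul_nonneg (sq_nonneg (t * u)) (sub_nonneg.2 b)]
  have a3 : t * u - sin (t * u) ≤ u ^ 2 * t * (1.0472 * (t * u)) := by
    have := lw_sin3 w0
    have b : 0 ≤ u ^ 2 * t * (t * u) * (6.2832 - t) :=
      mul_nonneg (by positivity) (by linarith)
    nlinarith
  have b1 := mul_le_mul_of_nonneg_left a1 (show 0 ≤ cos t by linarith)
  have b2 := mul_le_mul_of_nonneg_left a3 s0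
  have q0 : 0 ≤ u * (0.6 - 0.8 * u) := mul_nonneg hu (by linarith)
  have b3 : 0 ≤ u ^ 2 * ((1 - cos t) * (2 * (u * (0.6 - 0.8 * u))) +
      t * -sin t * (u * (0.6 - 0.8 * u))) := by
    have : 0 ≤ 1 - cos t := by linarith
    positivity
  rw [e]
  nlinarith

/-- Far from the lattice point. -/
theorem far_modt {t u u0 a0 a1 a2 : ℝ} (ht : 0 ≤ t) (h2 : 0 ≤ a2) (l0 : u0 ≤ u) (l1 : u ≤ 1)
    (e0 : a0 + a1 * u0 + a2 * u0 ^ 2 ≤ t ^ 2 * (1 / 2 - t * (1 - u0) / 10))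
    (e1 : a0 + a1 + a2 ≤ t ^ 2 / 2) :
    (1 - u) ^ 2 * (a0 + a1 * u + a2 * u ^ 2) ≤ 1 - cos (t * (1 - u)) := by
  have k : a0 + a1 * u + a2 * u ^ 2 ≤ t ^ 2 * (1 / 2 - t * (1 - u) / 10) := by
    rcases eq_or_lt_of_le (l0.trans l1) with h | h
    · have : u = u0 := le_antisymm (h ▸ l1) l0
      rw [this]; exact e0
    have b0 := mul_le_mul_of_nonneg_left e0 (sub_nonneg.2 l1)
    have b1 := mul_le_mul_of_nonneg_left e1 (sub_nonneg.2 l0)
    have b2 : 0 ≤ a2 * ((1 - u) * (u - u0) * (1 - u0)) :=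
      mul_nonneg h2 (mul_nonneg (mul_nonneg (sub_nonneg.2 l1) (sub_nonneg.2 l0)) (by linarith))
    have : (1 - u0) * (a0 + a1 * u + a2 * u ^ 2) ≤
        (1 - u0) * (t ^ 2 * (1 / 2 - t * (1 - u) / 10)) := by
      linarith
    exact le_of_mul_le_mul_left this (sub_pos.2 h)
  have c := cube_modt (x := t * (1 - u)) (mul_nonneg ht (sub_nonneg.2 l1))
  have := mul_le_mul_of_nonneg_left k (sq_nonneg (1 - u))
  linarith

theorem F_lo_modt {t u : ℝ} (hu : 0 ≤ u) : F_modt t (1 - u) = 1 - cos (t * (1 - u)) -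
    (1 - u) ^ 2 * ((1 - cos t) + (2 * (1 - cos t) + t * -sin t) * u +
      0.8 * (2 * (1 - cos t) + t * -sin t) * u ^ 2) := by
  rw [F_modt, Gw_lo_modt hu]
  ring

theorem u0_modt {t a : ℝ} (h : 5 ≤ a) (ht : a ≤ t) : ∃ u0 : ℝ, 0 ≤ u0 ∧ t * u0 = 1.3 ∧
    a * u0 ≤ 1.3 := by
  have t0 : 0 < t := by linarith
  refine ⟨1.3 / t, by positivity, by field_simp, ?_⟩
  rw [← mul_div_assoc, div_le_iff₀ t0]
  linarith

theorem F_nonneg_modt {t z : ℝ} (h : 5 ≤ t) (h1 : t < 2 * π) (hz : 0 ≤ z) : 0 ≤ F_modt t z := by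
  rcases le_total 1 z with g | g
  · exact hi_modt h h1 g
  obtain ⟨u, rfl⟩ : ∃ u, z = 1 - u := ⟨1 - z, by ring⟩
  have hu : 0 ≤ u := by linarith
  obtain ⟨c1, s0, s1, c3, s2⟩ := facts_modt h h1
  have p1 := pi_gt_d4
  have p2 := pi_lt_d4
  have c2 := cos_le_one t
  have t0 : 0 ≤ t := by linarith
  have q0 : 0 ≤ t * -sin t := mul_nonneg t0 s0
  have q1 : t * -sin t ≤ t * 0.972 := mul_le_mul_of_nonneg_left s1 t0
  rcases le_total (t * u) 1.3 with hx | hx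
  · refine le_trans (mul_nonneg (sq_nonneg u) ?_) (near_modt h h1 hu hx)
    have a1 : 0.2353 * 25 ≤ cos t * t ^ 2 := mul_le_mul c1 (by nlinarith) (by norm_num) (by linarith)
    have a2 := mul_le_mul_of_nonneg_left hx q0
    nlinarith
  · obtain ⟨u0, z0, z1, z2⟩ := u0_modt le_rfl h
    have l0 : u0 ≤ u := by
      rw [← z1] at hx
      exact le_of_mul_le_mul_left hx (by linarith)
    rw [F_lo_modt hu, sub_nonneg]
    refine far_modt t0 (by linarith) l0 (by linarith) ?_ (by nlinarith)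
    have y1 : u0 ≤ 0.26 := by linarith
    have y2 : u0 ^ 2 ≤ 0.0676 := by nlinarith
    have e1 : t * -sin t * u0 = 1.3 * -sin t := by rw [← z1]; ring
    have e2 : t * -sin t * u0 ^ 2 = 1.3 * (-sin t * u0) := by rw [← z1]; ring
    have e3 : t * (1 - u0) = t - 1.3 := by rw [← z1]; ring
    have b1 := mul_le_mul_of_nonneg_left y1 s0
    have b2 := mul_le_mul_of_nonneg_left y1 (sub_nonneg.2 c2)
    have b3 := mul_le_mul_of_nonneg_left y2 (sub_nonneg.2 c2)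
    have q5 : 1.6282 * (1 - cos t) + 1.5704 * -sin t ≤ t ^ 2 * (1 / 2 - (t - 1.3) / 10) := by
      rcases le_total t 5.28 with g | g
      · nlinarith [mul_nonneg (sub_nonneg.2 h) (sub_nonneg.2 g)]
      · have v0 : 0 ≤ 2 * π - t := by linarith
        have v1 : (2 * π - t) ^ 2 ≤ 1.004 * (2 * π - t) := by nlinarith
        have v2 : (2 * π - t) / 10 ≤ 1 / 2 - (t - 1.3) / 10 := by linarith
        have v3 : 27.8 ≤ t ^ 2 := by nlinarith
        have v4 := mul_le_mul v3 v2 (by linarith) (by positivity)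
        linarith
    rw [e3]
    linarith

theorem top_pw {t z : ℝ} (h : 5 ≤ t) (h1 : t < 2 * π) (hz : 0 ≤ z) :
    0 ≤ 1 - cos (t * z) - (1 - cos t) * z ^ 2
      + (2 * (1 - cos t) - t * sin t) * (z ^ 3 - z ^ 2 - 2 * Gw z) := by
  exact F_nonneg_modt h h1 hz

theorem nearB_modt {a p x u q F : ℝ} (a0 : 0 ≤ a) (a1 : a ≤ 0.446) (p0 : 0 ≤ p) (p1 : p ≤ 4.42)
    (u0 : 0 ≤ u) (u1 : u ≤ 1) (x0 : 0 ≤ x) (x1 : x ≤ 1.3) (xu : x ≤ 6.2832 * u) (q0 : 15.56 ≤ q)
    (hF : u ^ 2 * (0.4295 * q + p * (1.2 - 1.0472 * x) + 1.4 * a) ≤ F) :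
    0 ≤ F + a * (1 - u) ^ 2 * (a * (0.25025 - 2.09 * u + 1.648 * u ^ 2)
      - 0.48 * p * (u + 0.8 * u ^ 2)) := by
  have k1 : (2.09 * a + 0.48 * p) ^ 2 + a * (0.384 * p - 1.648 * a) ≤ 1.4 * a + 2.085 * p := by
    nlinarith [mul_nonneg a0 (sub_nonneg.2 a1), mul_nonneg p0 (sub_nonneg.2 a1),
      mul_nonneg p0 (sub_nonneg.2 p1)]
  have k2 : -(u ^ 2 * (1.4 * a + 2.085 * p)) ≤ a * (a * (0.25025 - 2.09 * u + 1.648 * u ^ 2)
      - 0.48 * p * (u + 0.8 * u ^ 2)) := by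
    have := mul_le_mul_of_nonneg_left k1 (sq_nonneg u)
    nlinarith [sq_nonneg (a / 2 - (2.09 * a + 0.48 * p) * u), sq_nonneg a]
  have k3 := mul_le_mul_of_nonneg_left k2 (sq_nonneg (1 - u))
  have z1 : (1 - u) ^ 2 ≤ 1 := by nlinarith
  have z2 : (1 - u) ^ 2 ≤ (1 - 0.15915 * x) ^ 2 :=
    pow_le_pow_left₀ (by linarith) (by linarith) 2
  have z3 : -1.4729 ≤ 1.2 - 1.0472 * x - 2.085 * (1 - u) ^ 2 := by
    nlinarith [mul_nonneg x0 (sub_nonneg.2 x1)]
  have k4 : (1 - u) ^ 2 * (1.4 * a + 2.085 * p) ≤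
      0.4295 * q + p * (1.2 - 1.0472 * x) + 1.4 * a := by
    have b1 := mul_le_mul_of_nonneg_left z3 p0
    have b2 := mul_le_mul_of_nonneg_left z1 a0
    linarith
  have k5 := mul_le_mul_of_nonneg_left k4 (sq_nonneg u)
  linarith

theorem top_pwB {t z : ℝ} (h : 5.3 ≤ t) (h1 : t < 2 * π) (hz : 0 ≤ z) :
    0 ≤ 1 - cos (t * z) - ((1 - cos t) + 0.22 * (1 - cos t) ^ 2) * z ^ 2
      + ((1 + 0.48 * (1 - cos t)) * (2 * (1 - cos t) - t * sin t) - 0.52 * (1 - cos t) ^ 2)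
        * (z ^ 3 - z ^ 2 - 2 * Gw z)
      + 5 * (1 - cos t) ^ 2 * (Gw z + 0.33 * (z ^ 3 - 0.715 * z ^ 2)) := by
  have h5 : 5 ≤ t := by linarith
  obtain ⟨-, s0, -, c3, s2⟩ := facts_modt h5 h1
  obtain ⟨c1, q1⟩ := factsB_modt h h1
  have p1 := pi_gt_d4
  have p2 := pi_lt_d4
  have c2 := cos_le_one t
  have t0 : 0 ≤ t := by linarith
  have q0 : 0 ≤ t * -sin t := mul_nonneg t0 s0
  have a0 : 0 ≤ 1 - cos t := by linarith
  have a1 : 1 - cos t ≤ 0.446 := by linarith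
  rcases le_total 1 z with g | g
  · have f0 := hi_modt h5 h1 g
    have f1 : 0 ≤ z - 1 := by linarith
    have f2 : 0 ≤ 1.65 * z - 1.39975 := by linarith
    have f3 : 0 ≤ (1 - cos t) * ((0.44 * (1 - cos t) + 0.48 * (t * -sin t)) *
        (z * (z - 1) * (0.2 * z + 0.8)) + (1 - cos t) * (2 * z * (z - 1) ^ 2 +
          z ^ 2 * (1.65 * z - 1.39975))) := by positivity
    refine (add_nonneg f0 f3).trans_eq ?_
    rw [F_modt, Gw_hi_modt g]
    ring
  obtain ⟨u, rfl⟩ : ∃ u, z = 1 - u := ⟨1 - z, by ring⟩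
  have hu : 0 ≤ u := by linarith
  have hu1 : u ≤ 1 := by linarith
  have key : 0 ≤ F_modt t (1 - u) + (1 - cos t) * (1 - u) ^ 2 *
      ((1 - cos t) * (0.25025 - 2.09 * u + 1.648 * u ^ 2)
        - 0.48 * (t * -sin t) * (u + 0.8 * u ^ 2)) := by
    rcases le_total (t * u) 1.3 with hx | hx
    · refine nearB_modt a0 a1 q0 q1 hu hu1 (mul_nonneg t0 hu) hx
        (mul_le_mul_of_nonneg_right (by linarith) hu) ?_ (near_modt h5 h1 hu hx)
      have : 0.554 * 28.09 ≤ cos t * t ^ 2 :=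
        mul_le_mul c1 (by nlinarith) (by norm_num) (by linarith)
      linarith
    · obtain ⟨u0, z0, z1, z2⟩ := u0_modt (by norm_num) h
      have l0 : u0 ≤ u := by
        rw [← z1] at hx
        exact le_of_mul_le_mul_left hx (by linarith)
      have m0 : 0 ≤ (1 - cos t) * (t * -sin t) := mul_nonneg a0 q0
      have m1 : (1 - cos t) * (t * -sin t) ≤ 0.446 * (t * -sin t) :=
        mul_le_mul_of_nonneg_right a1 q0
      have m2 : (1 - cos t) ^ 2 ≤ 0.446 * (1 - cos t) := by nlinarith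
      have k := far_modt (a0 := 1 - cos t)
        (a1 := 2 * (1 - cos t) + 1.21408 * (t * -sin t) + 0.93214 * (1 - cos t))
        (a2 := 0.8 * (2 * (1 - cos t) + 1.21408 * (t * -sin t))) t0 (by linarith) l0 hu1 (by
          have y1 : u0 ≤ 0.245284 := by linarith
          have y2 : u0 ^ 2 ≤ 0.060165 := by nlinarith
          have e1 : t * -sin t * u0 = 1.3 * -sin t := by rw [← z1]; ring
          have e2 : t * -sin t * u0 ^ 2 = 1.3 * (-sin t * u0) := by rw [← z1]; ring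
          have e3 : t * (1 - u0) = t - 1.3 := by rw [← z1]; ring
          have b1 := mul_le_mul_of_nonneg_left y1 s0
          have b2 := mul_le_mul_of_nonneg_left y1 a0
          have b3 := mul_le_mul_of_nonneg_left y2 a0
          have v0 : 0 ≤ 2 * π - t := by linarith
          have v1 : (2 * π - t) ^ 2 ≤ 0.9832 * (2 * π - t) := by nlinarith
          have v2 : (2 * π - t) / 10 ≤ 1 / 2 - (t - 1.3) / 10 := by linarith
          have v3 : 28.09 ≤ t ^ 2 := by nlinarith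
          have v4 := mul_le_mul v3 v2 (by linarith) (by positivity)
          rw [e3]
          linarith) (by nlinarith)
      have k2 : (1 - cos t) * (0.48 * (t * -sin t) * (u + 0.8 * u ^ 2) -
          (1 - cos t) * (0.25025 - 2.09 * u + 1.648 * u ^ 2)) ≤
          0.21408 * (t * -sin t) * (u + 0.8 * u ^ 2) + 0.93214 * (1 - cos t) * u := by
        have n1 := mul_le_mul_of_nonneg_right m1 (show 0 ≤ u + 0.8 * u ^ 2 by positivity)
        have n2 := mul_le_mul_of_nonneg_right m2 hu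
        have n3 : 0 ≤ (1 - cos t) ^ 2 * (0.25025 + 1.648 * u ^ 2) := by positivity
        linarith
      have k3 := mul_le_mul_of_nonneg_left k2 (sq_nonneg (1 - u))
      rw [F_lo_modt hu]
      linarith
  refine key.trans_eq ?_
  rw [F_modt, Gw_lo_modt hu]
  ring

theorem exp_modt {y : ℝ} (h : 0 ≤ y) : 1 - y ≤ exp (-(y + y ^ 2 / 2)) := by
  have := lw_mono (f := fun x => exp (-(x + x ^ 2 / 2)) + x)
    (f' := fun x => exp (-(x + x ^ 2 / 2)) * -(1 + x) + 1) (fun x _ _ =>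
      ((((hasDerivAt_id x).add ((hasDerivAt_pow 2 x).div_const 2)).neg.exp).add
        (hasDerivAt_id x)).congr_deriv (by simp)) (fun x a _ => by
      have b1 : x + 1 ≤ exp (x + x ^ 2 / 2) :=
        (add_one_le_exp x).trans (exp_le_exp.2 (by nlinarith [sq_nonneg x]))
      have b2 := mul_le_mul_of_nonneg_left b1 (exp_pos (-(x + x ^ 2 / 2))).le
      rw [← exp_add, neg_add_cancel, exp_zero] at b2
      linarith) h
  simp only [ne_eq, OfNat.ofNat_ne_zero, not_false_eq_true, zero_pow, zero_div, add_zero, neg_zero,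
    exp_zero] at this
  linarith

theorem norm_modt {r E : ℝ} (h0 : 0 ≤ r) (h1 : r ≤ 1)
    (h : -E ≤ (1 - r ^ 2) / 2 + ((1 - r ^ 2) / 2) ^ 2) : r ≤ exp E := by
  have a := exp_modt (y := 1 - r ^ 2) (by nlinarith)
  have b : exp (-((1 - r ^ 2) + (1 - r ^ 2) ^ 2 / 2)) ≤ exp E ^ 2 := by
    rw [sq (exp E), ← exp_add]
    exact exp_le_exp.2 (by linarith)
  exact (pow_le_pow_iff_left₀ h0 (exp_pos E).le two_ne_zero).1 (by linarith)

theorem lin_modt {t : ℝ} (h : 5 ≤ t) (h1 : t < 2 * π) {d : SD} (hd : d.Ok) :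
    (1 - cos t) * d.s - (2 * (1 - cos t) - t * sin t) * d.L ≤ (1 - ‖d.f t‖ ^ 2) / 2 := by
  have := hd.zlin t 1 (-(1 - cos t) - (2 * (1 - cos t) - t * sin t)) (2 * (1 - cos t) - t * sin t)
    (-(2 * (2 * (1 - cos t) - t * sin t))) fun z hz => (top_pw h h1 hz).trans_eq (by ring)
  unfold SD.L
  linarith

theorem ent_t1 {t : ℝ} (h : 5 ≤ t) (h1 : t < 2 * π) : Entry t (1 - cos t) 0 := by
  refine ⟨2 * (1 - cos t) - t * sin t, fun d hd => norm_modt (norm_nonneg _) (hd.norm t) ?_⟩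
  have := lin_modt h h1 hd
  linarith [sq_nonneg ((1 - ‖d.f t‖ ^ 2) / 2)]

theorem ent_t2 {t : ℝ} (h : 5.3 ≤ t) (h1 : t < 2 * π) :
    Entry t ((1 - cos t) + 0.22 * (1 - cos t) ^ 2) (5 * (1 - cos t) ^ 2) := by
  refine ⟨(1 + 0.48 * (1 - cos t)) * (2 * (1 - cos t) - t * sin t) - 0.52 * (1 - cos t) ^ 2,
    fun d hd => norm_modt (norm_nonneg _) (hd.norm t) ?_⟩
  have a0 : 0 ≤ 1 - cos t := sub_nonneg.2 (cos_le_one t)
  rcases le_total 0.12 d.s with g | g
  · have b1 := mul_le_mul_of_nonneg_left (lin_modt (by linarith) h1 hd)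
      (show 0 ≤ 1 + 0.48 * (1 - cos t) by linarith)
    have b2 := mul_le_mul_of_nonneg_left (modS_A hd g) (sq_nonneg (1 - cos t))
    linarith [sq_nonneg ((1 - ‖d.f t‖ ^ 2) / 2 - 0.24 * (1 - cos t))]
  · have b1 := hd.zlin t 1
      (-((1 - cos t) + 0.22 * (1 - cos t) ^ 2) -
        ((1 + 0.48 * (1 - cos t)) * (2 * (1 - cos t) - t * sin t) - 0.52 * (1 - cos t) ^ 2) -
        5 * (1 - cos t) ^ 2 * (0.33 * 0.715))
      (((1 + 0.48 * (1 - cos t)) * (2 * (1 - cos t) - t * sin t) - 0.52 * (1 - cos t) ^ 2) +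
        5 * (1 - cos t) ^ 2 * 0.33)
      (-(2 * ((1 + 0.48 * (1 - cos t)) * (2 * (1 - cos t) - t * sin t) - 0.52 * (1 - cos t) ^ 2)) +
        5 * (1 - cos t) ^ 2) fun z hz => (top_pwB h h1 hz).trans_eq (by ring)
    have b2 := mul_le_mul_of_nonneg_left (modS_B hd g) (sq_nonneg (1 - cos t))
    unfold SD.L
    linarith [sq_nonneg ((1 - ‖d.f t‖ ^ 2) / 2)]

end Pool.Agent.Lib.MP_33650d_pr.Y
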