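import Pool.Agent.Lib.MP_33650d_pr.Y.Defs

namespace Pool.Agent.Lib.MP_33650d_pr.Y
open MeasureTheory ProbabilityTheory Real X

theorem gf_nonneg_norm (z : ℝ) : 0 ≤ gf z := by
  unfold gf
  have : 0 < max z 1 := lt_max_of_lt_right one_pos
  positivity

theorem Gw_eq_norm {z : ℝ} (hz : 0 ≤ z) : Gw z = z ^ 2 * gf z := by
  unfold Gw gf
  rcases le_total z 1 with h | h
  · rw [min_eq_left h, max_eq_right h]
    ring
  · rw [min_eq_right h, max_eq_left h]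
    field_simp

theorem gf_tangent_norm {z z0 : ℝ} (hz : 0 ≤ z) (h0 : 0 < z0) :
    gf z0 + gd z0 * (z - z0) ≤ gf z := by
  have hg := gf_nonneg_norm z
  rcases le_or_gt z0 1 with h | h
  · have e1 : gf z0 = 2 / 5 * (z0 - 1) ^ 2 := by rw [gf, max_eq_right h, div_one]
    have e2 : gd z0 = -(4 / 5) * (1 - z0) := by rw [gd, if_pos h]
    rw [e1, e2]
    rcases le_total z 1 with h1 | h1
    · rw [gf, max_eq_right h1, div_one]
      nlinarith [sq_nonneg (z - z0)]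
    · nlinarith [mul_nonneg (sub_nonneg.2 h) (sub_nonneg.2 h1), sq_nonneg (1 - z0)]
  · have e1 : gf z0 = 2 / 5 * (z0 - 1) ^ 2 / z0 := by rw [gf, max_eq_left h.le]
    have e2 : gd z0 = 2 / 5 * (1 - 1 / z0 ^ 2) := by rw [gd, if_neg (not_le.2 h)]
    rw [e1, e2]
    rcases le_total z 1 with h1 | h1
    · refine le_trans ?_ hg
      have e : 2 / 5 * (z0 - 1) ^ 2 / z0 + 2 / 5 * (1 - 1 / z0 ^ 2) * (z - z0) =
          -(2 / 5 * ((z0 - 1) ^ 2 + (z0 ^ 2 - 1) * (1 - z)) / z0 ^ 2) := by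
        field_simp
        ring
      rw [e, neg_nonpos]
      have h2 : 0 ≤ (z0 ^ 2 - 1) * (1 - z) := mul_nonneg (by nlinarith) (by linarith)
      positivity
    · have hz0 : 0 < z := by linarith
      rw [gf, max_eq_left h1, ← sub_nonneg]
      have e : 2 / 5 * (z - 1) ^ 2 / z - (2 / 5 * (z0 - 1) ^ 2 / z0 +
          2 / 5 * (1 - 1 / z0 ^ 2) * (z - z0)) = 2 / 5 * (z - z0) ^ 2 / (z * z0 ^ 2) := by
        field_simp
        ring
      rw [e]
      positivity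

theorem Gw_tangent {z z0 : ℝ} (hz : 0 ≤ z) (h0 : 0 < z0) :
    z ^ 2 * (gf z0 + gd z0 * (z - z0)) ≤ Gw z := by
  rw [Gw_eq_norm hz]
  exact mul_le_mul_of_nonneg_left (gf_tangent_norm hz h0) (sq_nonneg z)

theorem SD.Ok.spos {d : SD} (h : d.Ok) : 0 < d.s := by
  rw [h.hs]
  exact mul_pos h.mpos (add_pos h.ppos h.npos)

theorem SD.Ok.tangent {d : SD} (h : d.Ok) {z0 : ℝ} (h0 : 0 < z0) :
    gf z0 * d.s + gd z0 * (d.Z - z0 * d.s) ≤ d.P3 := by
  have := h.zlin 0 0 (-(gf z0 - z0 * gd z0)) (-gd z0) 1 fun z hz => by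
    have := Gw_tangent hz h0
    linarith
  linarith

theorem SD.Ok.P3nn {d : SD} (h : d.Ok) : 0 ≤ d.P3 := by
  have := h.tangent one_pos
  simpa [gf, gd] using this

theorem cJ_pos_norm : 0 < cJ := by
  unfold cJ
  linarith [r10_lo]

theorem dE_pos_norm : 0 < dE := by
  unfold dE
  linarith [r10_lo]

theorem Dp_le_norm {y ν s b P2 P3 Z : ℝ} (hy : 0 < y) (hν : 0 ≤ ν) (hs : 0 < s) (hb : 0 ≤ b)
    (h2 : 0 ≤ P2) (hZ : Z = s * (y * (1 - 2 * ν)) + b - P2)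
    (ht : ∀ z0 : ℝ, 0 < z0 → gf z0 * s + gd z0 * (Z - z0 * s) ≤ P3) :
    s * (ν * y * wv y + gh y) + cbv y * b ≤ s * (y * ν) + r10 / 6 * b + P2 / 2 + P3 := by
  have hq : 0 ≤ s * (y * ν) := by positivity
  rcases le_or_gt y 1 with h1 | h1
  · rw [wv, cbv, if_pos h1, if_pos h1]
    by_cases h3 : y ≤ 0.85
    · rw [gh, if_pos h3]
      have h4 := ht 0.85 (by norm_num)
      have e1 : gf 0.85 = 0.009 := by
        rw [gf, max_eq_right (by norm_num)]
        norm_num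
      have e2 : gd 0.85 = -0.12 := by
        rw [gd, if_pos (by norm_num)]
        norm_num
      rw [e1, e2, hZ] at h4
      linarith
    · rw [gh, if_neg h3]
      have h4 := ht y hy
      rw [gd, if_pos h1, hZ] at h4
      have a1 : 0 ≤ (1 - y) * (s * (y * ν)) := mul_nonneg (by linarith) hq
      have a2 : 0 ≤ (1 - y) * P2 := mul_nonneg (by linarith) h2
      have a3 : 0 ≤ (y - 0.85) * b := mul_nonneg (by linarith) hb
      linarith
  · have h3 : ¬y ≤ 0.85 := by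
      intro h
      linarith
    rw [wv, cbv, gh, if_neg (not_le.2 h1), if_neg (not_le.2 h1), if_neg h3]
    have h4 := ht y hy
    rw [gd, if_neg (not_le.2 h1), hZ] at h4
    have e : (0.8 : ℝ) / y ^ 2 = 0.8 * (1 / y ^ 2) := by ring
    rw [e]
    have w0 : 0 < 1 / y ^ 2 := by positivity
    have w1 : 1 / y ^ 2 ≤ 1 := by
      rw [div_le_one (by positivity)]
      nlinarith
    generalize 1 / y ^ 2 = w at *
    have a2 : 0 ≤ w * P2 := mul_nonneg w0.le h2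
    have a3 : 0 ≤ (1 - w) * b := mul_nonneg (by linarith) hb
    linarith

/-- Normal form of the data. -/
theorem SD.Ok.normal {d : SD} (h : d.Ok) : ∃ y κ ν : ℝ, Par y κ ν ∧ -1 < κ ∧ κ < 1 ∧
    d.s = vs y κ ν ∧ d.K = d.s * (κ * y) ∧ d.Z = d.s * (y * (1 - 2 * ν)) + d.b - d.P2 ∧
    d.J = d.s * (y * (cJ * (κ - dE) ^ 2 + ν)) + r10 / 6 * d.b + d.P2 / 2 + d.P3 ∧
    d.s * Dp y κ ν + cbv y * d.b ≤ d.J ∧
    ∀ t, lazy d.m d.yp d.ym t = F0 (t * y) κ ν := by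
  have hp := h.ppos
  have hn := h.npos
  have hm := h.mpos
  have hs := h.spos
  have hy : 0 < d.yp + d.ym := by linarith
  obtain ⟨κ, hκ⟩ : ∃ κ, κ = (d.yp - d.ym) / (d.yp + d.ym) := ⟨_, rfl⟩
  obtain ⟨ν, hν⟩ : ∃ ν, ν = (d.yp * d.ym - d.s) / (d.yp + d.ym) ^ 2 := ⟨_, rfl⟩
  have k0 : -1 < κ := by
    rw [hκ, lt_div_iff₀ hy]
    linarith
  have k1 : κ < 1 := by
    rw [hκ, div_lt_iff₀ hy]
    linarith
  have n0 : 0 ≤ ν := by
    rw [hν]
    exact div_nonneg (sub_nonneg.2 h.lz) (by positivity)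
  have eS : (1 - κ ^ 2) / 4 - ν = d.m / (d.yp + d.ym) := by
    rw [hκ, hν, h.hs]
    field_simp
    ring
  have n1 : ν ≤ (1 - κ ^ 2) / 4 := by
    have : 0 < d.m / (d.yp + d.ym) := by positivity
    linarith
  have eK : d.K = d.s * (κ * (d.yp + d.ym)) := by
    rw [SD.K, hκ]
    field_simp
  have eB : d.beta = d.s * ((d.yp + d.ym) * (1 + κ ^ 2) / 2) + d.b := by
    rw [SD.beta, hκ, h.hs]
    field_simp
    ring
  have eZ : d.Z = d.s * ((d.yp + d.ym) * (1 - 2 * ν)) + d.b - d.P2 := by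
    rw [SD.Z, SD.beta, hν, h.hs]
    field_simp
    ring
  have eJ : d.J = d.s * ((d.yp + d.ym) * (cJ * (κ - dE) ^ 2 + ν)) + r10 / 6 * d.b + d.P2 / 2 +
      d.P3 := by
    rw [SD.J, eB, eK, eZ]
    unfold Cp cJ dE
    linear_combination (d.s * (d.yp + d.ym) * (2 * κ + 3 - r10) / 12) * r10_sq
  refine ⟨d.yp + d.ym, κ, ν, ⟨hy, k0.le, k1.le, n0, n1⟩, k0, k1, ?_, eK, eZ, eJ, ?_, fun t => ?_⟩
  · rw [vs, eS, h.hs]
    field_simp
  · have := Dp_le_norm hy n0 hs h.bnn h.pnn eZ fun z0 h0 => h.tangent h0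
    rw [eJ, Dp]
    linarith
  · have e1 : 1 + κ = 2 * d.yp / (d.yp + d.ym) := by
      rw [hκ]
      field_simp
      ring
    have e2 : 1 - κ = 2 * d.ym / (d.yp + d.ym) := by
      rw [hκ]
      field_simp
      ring
    have a1 : 2 * ((1 - κ ^ 2) / 4 - ν) / (1 + κ) = d.m / d.yp := by
      rw [eS, e1]
      field_simp
    have a2 : 2 * ((1 - κ ^ 2) / 4 - ν) / (1 - κ) = d.m / d.ym := by
      rw [eS, e2]
      field_simp
    have a3 : t * (d.yp + d.ym) * (1 + κ) / 2 = t * d.yp := by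
      rw [e1]
      field_simp
    have a4 : t * (d.yp + d.ym) * (1 - κ) / 2 = t * d.ym := by
      rw [e2]
      field_simp
    rw [F0, a1, a2, a3, a4, lazy]

theorem SD.Ok.P3_le {d : SD} (h : d.Ok) : d.P3 ≤ d.J := by
  obtain ⟨y, κ, ν, hP, -, -, -, -, -, eJ, -⟩ := h.normal
  have := hP.y0
  have := hP.n0
  have := cJ_pos_norm
  have := h.spos
  have a1 : 0 ≤ d.s * (y * (cJ * (κ - dE) ^ 2 + ν)) := by positivity
  have a2 : 0 ≤ r10 / 6 * d.b := mul_nonneg (by linarith [r10_lo]) h.bnn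
  linarith [h.pnn]

theorem SD.Ok.dL {d : SD} (h : d.Ok) : |d.b - d.P2 - 2 * d.P3| ≤ 2 * d.J := by
  obtain ⟨y, κ, ν, hP, -, -, -, -, -, eJ, -⟩ := h.normal
  have := hP.y0
  have := hP.n0
  have := cJ_pos_norm
  have := h.spos
  have a1 : 0 ≤ d.s * (y * (cJ * (κ - dE) ^ 2 + ν)) := by positivity
  have a2 : 0 ≤ (r10 - 3) * d.b := mul_nonneg (by linarith [r10_lo]) h.bnn
  rw [abs_le]
  constructor <;> linarith [h.pnn, h.bnn, h.P3nn]

theorem Dp_nonneg {y κ ν : ℝ} (h : Par y κ ν) : 0 ≤ Dp y κ ν := by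
  have := h.y0
  have := h.n0
  have := cJ_pos_norm
  have a1 : 0 ≤ wv y := by
    unfold wv
    split_ifs <;> positivity
  have a2 : 0 ≤ gh y := by
    unfold gh
    split_ifs with h1
    · linarith
    · exact gf_nonneg_norm y
  unfold Dp
  positivity

theorem amgm_norm {b : ℝ} (hb : 0 < b) (z : ℝ) : z ≤ 3 * dE / b + b * (cJ * z ^ 2) := by
  have hc := cJ_pos_norm
  have e : 3 * dE * cJ = 1 / 4 := by
    unfold cJ dE
    linear_combination (1 / 4) * r10_sq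
  have e2 : 3 * dE / b + b * (cJ * z ^ 2) - z = (2 * b * cJ * z - 1) ^ 2 / (4 * b * cJ) := by
    field_simp
    linear_combination 4 * e
  have : 0 ≤ (2 * b * cJ * z - 1) ^ 2 / (4 * b * cJ) := by positivity
  linarith

theorem K_norm {d : SD} (h : d.Ok) {b μ σ : ℝ} (h1 : 2 * μ ≤ b) (h2 : 0 ≤ μ + b * (r10 / 6))
    (h3 : ∀ κ : ℝ, σ * κ ≤ μ + b * (cJ * (κ - dE) ^ 2)) :
    σ * d.K ≤ μ * d.s + μ * d.L + b * d.J := by
  obtain ⟨y, κ, ν, hP, -, -, -, eK, eZ, eJ, -⟩ := h.normal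
  have hy := hP.y0
  have hν := hP.n0
  have hs := h.spos
  have a1 : 0 ≤ d.s * y * (μ + b * (cJ * (κ - dE) ^ 2) - σ * κ) :=
    mul_nonneg (by positivity) (sub_nonneg.2 (h3 κ))
  have a2 : 0 ≤ (b - 2 * μ) * (d.s * y * ν) := mul_nonneg (sub_nonneg.2 h1) (by positivity)
  have a3 := mul_nonneg h2 h.bnn
  have a4 := mul_nonneg (sub_nonneg.2 h1) h.pnn
  have a5 := mul_nonneg (sub_nonneg.2 h1) h.P3nn
  rw [SD.L, eK, eZ, eJ]
  linarith

theorem dE_sq_norm : dE ^ 2 + 6 * dE = 1 := by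
  unfold dE
  linear_combination r10_sq

theorem SD.Ok.K_le {d : SD} (h : d.Ok) {b : ℝ} (hb : 1 + dE ≤ b) :
    d.K ≤ (dE + 3 * dE / b) * d.s + (dE + 3 * dE / b) * d.L + b * d.J := by
  have hd := dE_pos_norm
  have hb0 : 0 < b := by linarith
  have := K_norm h (b := b) (μ := dE + 3 * dE / b) (σ := 1) ?_ ?_ fun κ => ?_
  · linarith
  · have : 3 * dE / b ≤ b / 2 - dE := by
      rw [div_le_iff₀ hb0]
      nlinarith [dE_sq_norm]
    linarith
  · have : 0 < r10 := by linarith [r10_lo]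
    positivity
  · linarith [amgm_norm hb0 (κ - dE)]

theorem SD.Ok.K_ge {d : SD} (h : d.Ok) {b : ℝ} (hb : 1 - dE ≤ b) :
    -d.K ≤ (-dE + 3 * dE / b) * d.s + (-dE + 3 * dE / b) * d.L + b * d.J := by
  have hd := dE_pos_norm
  have hd1 : dE < 0.17 := by
    unfold dE
    linarith [r10_hi]
  have hb0 : 0 < b := by linarith
  have := K_norm h (b := b) (μ := -dE + 3 * dE / b) (σ := -1) ?_ ?_ fun κ => ?_
  · linarith
  · have : 3 * dE / b ≤ b / 2 + dE := by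
      rw [div_le_iff₀ hb0]
      nlinarith [dE_sq_norm]
    linarith
  · have a1 : 0 < 3 * dE / b := by positivity
    have a2 : b * (1 / 2) ≤ b * (r10 / 6) := mul_le_mul_of_nonneg_left (by linarith [r10_lo]) hb0.le
    linarith
  · have := amgm_norm hb0 (dE - κ)
    rw [show (dE - κ) ^ 2 = (κ - dE) ^ 2 by ring] at this
    linarith

end Pool.Agent.Lib.MP_33650d_pr.Y
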