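import Pool.Agent.Lib.MP_33650d_pr.Y.Final
import Pool.Agent.Lib.MP_33650d_pr.Gauss

namespace Pool.Agent.Lib.MP_33650d_pr.Y
open MeasureTheory ProbabilityTheory Real

universe u

/-- The normalised error of a family of laws at a point. -/
noncomputable def ownR {n : ℕ} (μ : Fin n → Measure ℝ) (x : ℝ) : ℝ :=
  |(Measure.pi μ).real {y | (∑ k, y k) / √(∑ k, ∫ z, z ^ 2 ∂μ k) ≤ x} - Phi x|
    / ((∑ k, ∫ z, |z| ^ 3 ∂μ k) / √(∑ k, ∫ z, z ^ 2 ∂μ k) ^ 3)

/-- The admissible families of laws. -/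
structure OwnOk {n : ℕ} (μ : Fin n → Measure ℝ) : Prop where
  pos : 0 < n
  prob : ∀ k, IsProbabilityMeasure (μ k)
  int3 : ∀ k, Integrable (fun z : ℝ => |z| ^ 3) (μ k)
  mean : ∀ k, ∫ z, z ∂μ k = 0
  var : ∀ k, 0 < ∫ z, z ^ 2 ∂μ k

theorem own_mem3 {Ω : Type*} [MeasurableSpace Ω] {P : Measure Ω} {Z : Ω → ℝ}
    (hm : AEMeasurable Z P) : MemLp Z 3 P ↔ Integrable (fun ω => |Z ω| ^ 3) P := by
  rw [← integrable_norm_rpow_iff hm.aestronglyMeasurable (by norm_num) (by norm_num)]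
  have : ((3 : ENNReal).toReal) = ((3 : ℕ) : ℝ) := by norm_num
  simp only [this, rpow_natCast, norm_eq_abs]

theorem own_beta_pos {ν : Measure ℝ} (h3 : Integrable (fun z : ℝ => |z| ^ 3) ν)
    (h2 : 0 < ∫ z, z ^ 2 ∂ν) : 0 < ∫ z, |z| ^ 3 ∂ν := by
  have h0 : 0 ≤ ∫ z, |z| ^ 3 ∂ν := integral_nonneg fun z => by positivity
  refine h0.lt_of_ne fun h => ?_
  have h1 := (integral_eq_zero_iff_of_nonneg (fun z => by positivity) h3).1 h.symm
  have : ∫ z, z ^ 2 ∂ν = 0 := by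
    refine integral_eq_zero_of_ae (h1.mono fun z hz => ?_)
    have : |z| = 0 := pow_eq_zero_iff (by norm_num) |>.1 hz
    simp [abs_eq_zero.1 this]
  linarith

theorem OwnOk.lam_pos {n : ℕ} {μ : Fin n → Measure ℝ} (h : OwnOk μ) :
    0 < (∑ k, ∫ z, |z| ^ 3 ∂μ k) / √(∑ k, ∫ z, z ^ 2 ∂μ k) ^ 3 := by
  have : Nonempty (Fin n) := ⟨⟨0, h.pos⟩⟩
  exact div_pos (Finset.sum_pos (fun k _ => own_beta_pos (h.int3 k) (h.var k)) Finset.univ_nonempty)
    (pow_pos (sqrt_pos.2 (Finset.sum_pos (fun k _ => h.var k) Finset.univ_nonempty)) 3)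

/-- Everything depends only on the laws of the summands. -/
theorem own_transfer {Ω : Type*} [MeasurableSpace Ω] {P : Measure Ω} [IsProbabilityMeasure P]
    {n : ℕ} {X : Fin n → Ω → ℝ} (hm : ∀ k, AEMeasurable (X k) P) (hi : iIndepFun X P) (x : ℝ) :
    |P.real {ω | (∑ k, X k ω) / √(∑ k, ∫ ω, X k ω ^ 2 ∂P) ≤ x} - Phi x|
      / ((∑ k, ∫ ω, |X k ω| ^ 3 ∂P) / √(∑ k, ∫ ω, X k ω ^ 2 ∂P) ^ 3)
      = ownR (fun k => P.map (X k)) x := by
  have e2 : ∀ k, ∫ z, z ^ 2 ∂P.map (X k) = ∫ ω, X k ω ^ 2 ∂P := fun k =>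
    integral_map (hm k) (by fun_prop)
  have e3 : ∀ k, ∫ z, |z| ^ 3 ∂P.map (X k) = ∫ ω, |X k ω| ^ 3 ∂P := fun k =>
    integral_map (hm k) (by fun_prop)
  simp only [ownR, e2, e3]
  rw [← (iIndepFun_iff_map_fun_eq_pi_map hm).1 hi, measureReal_def (P.map _),
    Measure.map_apply_of_aemeasurable (aemeasurable_pi_lambda _ hm)
      (measurableSet_le (by fun_prop) measurable_const)]
  rfl

theorem own_ok {Ω : Type*} [MeasurableSpace Ω] {P : Measure Ω} [IsProbabilityMeasure P]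
    {n : ℕ} {X : Fin n → Ω → ℝ} (hn : 0 < n) (hm : ∀ k, AEMeasurable (X k) P)
    (h3 : ∀ k, Integrable (fun ω => |X k ω| ^ 3) P) (h0 : ∀ k, ∫ ω, X k ω ∂P = 0)
    (h2 : ∀ k, 0 < ∫ ω, X k ω ^ 2 ∂P) : OwnOk fun k => P.map (X k) := by
  refine ⟨hn, fun k => Measure.isProbabilityMeasure_map (hm k), fun k => ?_, fun k => ?_,
    fun k => ?_⟩
  · exact (integrable_map_measure (by fun_prop) (hm k)).2 (h3 k)
  · rw [integral_map (hm k) (by fun_prop)]
    exact h0 k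
  · rw [integral_map (hm k) (by fun_prop)]
    exact h2 k

theorem own_upper {C : ℝ} (hC : C ∈ lowSet) {n : ℕ} {μ : Fin n → Measure ℝ} (h : OwnOk μ) (x : ℝ) :
    ownR μ x ≤ C := by
  have := h.prob
  have e2 : ∀ k, ∫ y : Fin n → ℝ, y k ^ 2 ∂Measure.pi μ = ∫ z, z ^ 2 ∂μ k := fun k =>
    integral_comp_eval (μ := μ) (i := k) (f := fun z : ℝ => z ^ 2) (by fun_prop)
  have e3 : ∀ k, ∫ y : Fin n → ℝ, |y k| ^ 3 ∂Measure.pi μ = ∫ z, |z| ^ 3 ∂μ k := fun k =>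
    integral_comp_eval (μ := μ) (i := k) (f := fun z : ℝ => |z| ^ 3) (by fun_prop)
  have e1 : ∀ k, ∫ y : Fin n → ℝ, y k ∂Measure.pi μ = 0 := fun k =>
    (integral_comp_eval (μ := μ) (i := k) (f := fun z : ℝ => z) (by fun_prop)).trans (h.mean k)
  have hP : IsProbabilityMeasure (Measure.pi μ) := inferInstance
  have a := @hC n (Fin n → ℝ) ⟨Measure.pi μ⟩ hP (fun k y => y k) h.pos
    (fun k => measurable_pi_apply k)
    (iIndepFun_pi (μ := μ) (X := fun _ z => z) fun _ => aemeasurable_id)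
    (fun k => (own_mem3 (P := Measure.pi μ) (measurable_pi_apply k).aemeasurable).2
      (integrable_comp_eval (μ := μ) (i := k) (f := fun z : ℝ => |z| ^ 3) (h.int3 k)))
    e1 (fun k => (e2 k).symm ▸ h.var k) x
  change |(Measure.pi μ).real {y | (∑ k, y k) / √(∑ k, ∫ y : Fin n → ℝ, y k ^ 2 ∂Measure.pi μ) ≤ x}
      - Phi x| ≤ C * ((∑ k, ∫ y : Fin n → ℝ, |y k| ^ 3 ∂Measure.pi μ)
        / √(∑ k, ∫ y : Fin n → ℝ, y k ^ 2 ∂Measure.pi μ) ^ 3) at a
  simp only [e2, e3] at a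
  exact (div_le_iff₀ h.lam_pos).2 a

theorem own_lower {C : ℝ} (hC : ∀ (n : ℕ) (μ : Fin n → Measure ℝ), OwnOk μ → ∀ x, ownR μ x ≤ C) :
    C ∈ lowSet := by
  intro n Ω _ _ X hn hm hi h3 h0 h2 x
  have hm' : ∀ k, AEMeasurable (X k) volume := fun k => (hm k).aemeasurable
  have ok := own_ok hn hm' (fun k => (own_mem3 (hm' k)).1 (h3 k)) h0 h2
  have a := hC n _ ok x
  have p := ok.lam_pos
  rw [← own_transfer hm' hi x] at a
  have e2 : ∀ k, ∫ z, z ^ 2 ∂(volume : Measure Ω).map (X k) = ∫ ω, X k ω ^ 2 := fun k =>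
    integral_map (hm' k) (by fun_prop)
  have e3 : ∀ k, ∫ z, |z| ^ 3 ∂(volume : Measure Ω).map (X k) = ∫ ω, |X k ω| ^ 3 := fun k =>
    integral_map (hm' k) (by fun_prop)
  simp only [e2, e3] at p
  exact (div_le_iff₀ p).1 a

/-- The set of normalised errors over all probability spaces of a universe. -/
def ownSet : Set ℝ :=
  {r : ℝ | ∃ (n : ℕ) (Ω : Type u) (_ : MeasurableSpace Ω) (P : Measure Ω)
      (X : Fin n → Ω → ℝ) (x : ℝ),
      1 ≤ n ∧ IsProbabilityMeasure P ∧ (∀ k, AEMeasurable (X k) P) ∧ iIndepFun X P ∧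
      (∀ k, Integrable (fun ω => |X k ω| ^ 3) P) ∧ (∀ k, ∫ ω, X k ω ∂P = 0) ∧
      (∀ k, 0 < ∫ ω, X k ω ^ 2 ∂P) ∧
      r = |P.real {ω | (∑ k, X k ω) / √(∑ k, ∫ ω, X k ω ^ 2 ∂P) ≤ x}
            - ∫ t in Set.Iic x, exp (-t ^ 2 / 2) / √(2 * π)|
          / ((∑ k, ∫ ω, |X k ω| ^ 3 ∂P) / √(∑ k, ∫ ω, X k ω ^ 2 ∂P) ^ 3)}

theorem own_phi (x : ℝ) : ∫ t in Set.Iic x, exp (-t ^ 2 / 2) / √(2 * π) = Phi x :=
  (ga_Phi_eq x).symm

theorem own_mem {n : ℕ} {μ : Fin n → Measure ℝ} (h : OwnOk μ) (x : ℝ) :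
    ownR μ x ∈ ownSet.{u} := by
  have := h.prob
  let e : ULift.{u} (Fin n → ℝ) ≃ᵐ (Fin n → ℝ) := MeasurableEquiv.ulift
  let P : Measure (ULift.{u} (Fin n → ℝ)) := (Measure.pi μ).map e.symm
  have hP : IsProbabilityMeasure P := Measure.isProbabilityMeasure_map e.symm.measurable.aemeasurable
  have mX : ∀ k, Measurable fun ω : ULift.{u} (Fin n → ℝ) => e ω k := fun k =>
    (measurable_pi_apply k).comp e.measurable
  have hall : P.map (fun ω k => e ω k) = Measure.pi μ := by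
    change ((Measure.pi μ).map e.symm).map e = _
    rw [Measure.map_map e.measurable e.symm.measurable, e.self_comp_symm, Measure.map_id]
  have hk : ∀ k, P.map (fun ω => e ω k) = μ k := fun k => by
    rw [← (measurePreserving_eval μ k).map_eq, ← hall,
      Measure.map_map (measurable_pi_apply k) (measurable_pi_lambda _ mX)]
    rfl
  have hi : iIndepFun (fun k ω => e ω k) P := by
    rw [iIndepFun_iff_map_fun_eq_pi_map fun k => (mX k).aemeasurable, hall]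
    simp only [hk]
  refine ⟨n, ULift.{u} (Fin n → ℝ), inferInstance, P, fun k ω => e ω k, x, h.pos, hP,
    fun k => (mX k).aemeasurable, hi, fun k => ?_, fun k => ?_, fun k => ?_, ?_⟩
  · have := h.int3 k
    rw [← hk k] at this
    exact (integrable_map_measure (by fun_prop) (mX k).aemeasurable).1 this
  · have := h.mean k
    rwa [← hk k, integral_map (mX k).aemeasurable (by fun_prop)] at this
  · have := h.var k
    rwa [← hk k, integral_map (mX k).aemeasurable (by fun_prop)] at this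
  · rw [own_phi, own_transfer (fun k => (mX k).aemeasurable) hi x]
    simp only [hk]

theorem own_lub {c : ℝ} (h : IsLeast lowSet c) : IsLUB ownSet.{u} c := by
  constructor
  · rintro r ⟨n, Ω, _, P, X, x, hn, hP, hm, hi, h3, h0, h2, rfl⟩
    rw [own_phi, own_transfer hm hi x]
    exact own_upper h.1 (own_ok hn hm h3 h0 h2) x
  · intro C hC
    exact h.2 (own_lower fun n μ ok x => hC (own_mem ok x))

end Pool.Agent.Lib.MP_33650d_pr.Y
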