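import Pool.Agent.Lib.MP_33650d_pr.X.Brg
import Pool.Agent.Lib.MP_33650d_pr.Y.Small

namespace Pool.Agent.Lib.MP_33650d_pr.Y
open MeasureTheory ProbabilityTheory Real X

section aux

variable {Ω : Type} [MeasurableSpace Ω] {P : Measure Ω} [IsProbabilityMeasure P]

lemma smb_abs {n : ℕ} {X : Fin n → Ω → ℝ} (hm : ∀ k, Measurable (X k))
    (h3 : ∀ k, MemLp (X k) 3 P) :
    ∑ k, ∫ ω, max (X k ω) 0 ^ 3 ∂P + ∑ k, ∫ ω, max (-X k ω) 0 ^ 3 ∂P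
      = ∑ k, ∫ ω, |X k ω| ^ 3 ∂P := by
  rw [← Finset.sum_add_distrib]
  refine Finset.sum_congr rfl fun k _ => ?_
  obtain ⟨-, i2, i3, -⟩ := br_sq (hm k) (h3 k)
  rw [← integral_add i2 i3]
  refine integral_congr_ae (Filter.Eventually.of_forall fun ω => ?_)
  simp only
  rcases le_total 0 (X k ω) with h | h
  · rw [abs_of_nonneg h, max_eq_left h, max_eq_right (neg_nonpos.2 h)]
    ring
  · rw [abs_of_nonpos h, max_eq_right h, max_eq_left (neg_nonneg.2 h)]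
    ring

lemma smb_upper {n : ℕ} {X : Fin n → Ω → ℝ} (hn : 0 < n)
    (hm : ∀ k, Measurable (X k)) (hi : iIndepFun X P) (h3 : ∀ k, MemLp (X k) 3 P)
    (h0 : ∀ k, ∫ ω, X k ω ∂P = 0) (h2 : ∀ k, 0 < ∫ ω, X k ω ^ 2 ∂P)
    (hl : (∑ k, ∫ ω, |X k ω| ^ 3 ∂P) / √(∑ k, ∫ ω, X k ω ^ 2 ∂P) ^ 3 ≤ 0.175) (x : ℝ) :
    P.real {ω | (∑ k, X k ω) / √(∑ k, ∫ ω, X k ω ^ 2 ∂P) ≤ x} - Phi x ≤
      (3 + √10) / (6 * √(2 * π)) *
        ((∑ k, ∫ ω, |X k ω| ^ 3 ∂P) / √(∑ k, ∫ ω, X k ω ^ 2 ∂P) ^ 3) := by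
  have : Nonempty (Fin n) := ⟨⟨0, hn⟩⟩
  have v0 : 0 < ∑ k, ∫ ω, X k ω ^ 2 ∂P := Finset.sum_pos (fun k _ => h2 k) Finset.univ_nonempty
  have hl' : (brgSys P X).lam ≤ 0.175 := by
    rw [← smb_abs hm h3] at hl
    exact hl
  have key : (P.map fun ω => ∑ k, X k ω).real (Set.Iic (x * √(∑ k, ∫ ω, X k ω ^ 2 ∂P))) -
      Phi (x * √(∑ k, ∫ ω, X k ω ^ 2 ∂P) / √(∑ k, ∫ ω, X k ω ^ 2 ∂P)) ≤
      (3 + √10) / 6 / √(2 * π) * ((∑ k, ∫ ω, max (X k ω) 0 ^ 3 ∂P +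
        ∑ k, ∫ ω, max (-X k ω) 0 ^ 3 ∂P) / √(∑ k, ∫ ω, X k ω ^ 2 ∂P) ^ 3) :=
    small (brg_ok hn hm hi h3 h0 h2) (brg_law hm h3 h0) hl' _
  set σ := √(∑ k, ∫ ω, X k ω ^ 2 ∂P) with hσ
  have σ0 : 0 < σ := Real.sqrt_pos.2 v0
  rw [map_measureReal_apply (Finset.measurable_fun_sum _ fun k _ => hm k) measurableSet_Iic,
    smb_abs hm h3, mul_div_cancel_right₀ _ σ0.ne', div_div] at key
  have e1 : {ω | (∑ k, X k ω) / σ ≤ x} = (fun ω => ∑ k, X k ω) ⁻¹' Set.Iic (x * σ) := by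
    ext ω
    simp [div_le_iff₀ σ0]
  rw [e1]
  exact key

end aux

theorem small_bridge :
    ∀ (n : ℕ) (Ω : Type) [MeasureSpace Ω]
        [IsProbabilityMeasure (volume : Measure Ω)] (X : Fin n → Ω → ℝ),
        0 < n → (∀ k, Measurable (X k)) → iIndepFun X volume →
        (∀ k, MemLp (X k) 3 volume) → (∀ k, ∫ ω, X k ω = 0) →
        (∀ k, 0 < ∫ ω, X k ω ^ 2) →
        (∑ k, ∫ ω, |X k ω| ^ 3) / Real.sqrt (∑ k, ∫ ω, X k ω ^ 2) ^ 3 ≤ 0.175 →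
        ∀ x : ℝ,
          |(volume {ω | (∑ k, X k ω) / Real.sqrt (∑ k, ∫ ω, X k ω ^ 2) ≤ x}).toReal
              - cdf (gaussianReal 0 1) x|
            ≤ (3 + Real.sqrt 10) / (6 * Real.sqrt (2 * Real.pi))
              * ((∑ k, ∫ ω, |X k ω| ^ 3) / Real.sqrt (∑ k, ∫ ω, X k ω ^ 2) ^ 3) := by
  intro n Ω _ _ X hn hm hi h3 h0 h2 hl x
  have a1 := smb_upper hn hm hi h3 h0 h2 hl x
  have a2 := smb_upper (X := fun k ω => -X k ω) hn (fun k => (hm k).neg)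
    (hi.comp (fun _ y => -y) fun _ => measurable_neg) (fun k => (h3 k).neg)
    (fun k => by rw [integral_neg, h0, neg_zero]) (fun k => by simpa using h2 k)
    (by simpa only [neg_sq, abs_neg] using hl) (-x)
  simp only [neg_sq, abs_neg, Finset.sum_neg_distrib, neg_div, neg_le_neg_iff, br_Phi_neg] at a2
  set S : Ω → ℝ := fun ω => (∑ k, X k ω) / √(∑ k, ∫ ω, X k ω ^ 2) with hS
  have mS : Measurable S := (Finset.measurable_fun_sum _ fun k _ => hm k).div_const _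
  have a3 : 1 - volume.real {ω | S ω ≤ x} ≤ volume.real {ω | x ≤ S ω} := by
    rw [← probReal_compl_eq_one_sub (measurableSet_le mS measurable_const)]
    exact measureReal_mono fun ω (hω : ¬ S ω ≤ x) => (not_le.1 hω).le
  change |volume.real {ω | S ω ≤ x} - Phi x| ≤ _
  rw [abs_le]
  constructor <;> linarith

end Pool.Agent.Lib.MP_33650d_pr.Y
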