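import Pool.Agent.Lib.MP_33650d_pr.Y.Defs

namespace Pool.Agent.Lib.MP_33650d_pr.Y
open MeasureTheory ProbabilityTheory Real X

/-- The terms of the Taylor series of `F0`. -/
noncomputable def zt (t y κ ν : ℝ) (n : ℕ) (m : ℝ) : ℂ :=
  ((vs y κ ν * t ^ n * m / n.factorial : ℝ) : ℂ) * Complex.I ^ n

/-- The Taylor remainder of the exponential along a ray. -/
noncomputable def R_tay (σ : ℂ) (n : ℕ) (x : ℝ) : ℂ :=
  Complex.exp ((x : ℂ) * σ) - ∑ j ∈ Finset.range n, ((x : ℂ) * σ) ^ j / (j.factorial : ℂ)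

theorem R_succ_tay (σ : ℂ) (n : ℕ) (x : ℝ) :
    R_tay σ (n + 1) x = R_tay σ n x - ((x : ℂ) * σ) ^ n / (n.factorial : ℂ) := by
  rw [R_tay, R_tay, Finset.sum_range_succ]
  ring

theorem R_deriv_tay (σ : ℂ) (n : ℕ) (x : ℝ) :
    HasDerivAt (R_tay σ (n + 1)) (σ * R_tay σ n x) x := by
  have h0 : HasDerivAt (fun x : ℝ => (x : ℂ) * σ) σ x := by
    simpa using (Complex.ofRealCLM.hasDerivAt (x := x)).mul_const σ
  induction n with
  | zero =>
    have h1 : R_tay σ (0 + 1) = fun x : ℝ => Complex.exp ((x : ℂ) * σ) - 1 := by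
      funext x
      simp [R_tay]
    rw [h1]
    refine (h0.cexp.sub_const 1).congr_deriv ?_
    simp [R_tay, mul_comm]
  | succ n ih =>
    have h1 : R_tay σ (n + 1 + 1) = fun x : ℝ =>
        R_tay σ (n + 1) x - ((x : ℂ) * σ) ^ (n + 1) / ((n + 1).factorial : ℂ) :=
      funext fun x => R_succ_tay σ (n + 1) x
    rw [h1]
    refine (ih.sub ((h0.pow (n + 1)).div_const _)).congr_deriv ?_
    have h2 : (n.factorial : ℂ) ≠ 0 := Nat.cast_ne_zero.2 n.factorial_ne_zero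
    have h3 : ((n : ℂ) + 1) ≠ 0 := by exact_mod_cast n.succ_ne_zero
    rw [R_succ_tay, Nat.factorial_succ, Nat.add_sub_cancel]
    push_cast
    field_simp

theorem R_le_tay {σ : ℂ} (h1 : ‖σ‖ = 1) (h2 : ∀ x : ℝ, ‖Complex.exp ((x : ℂ) * σ)‖ ≤ 1) (n : ℕ)
    {x : ℝ} (hx : 0 ≤ x) : ‖R_tay σ n x‖ ≤ x ^ n / n.factorial := by
  induction n generalizing x with
  | zero => simpa [R_tay] using h2 x
  | succ n ih =>
    refine image_norm_le_of_norm_deriv_right_le_deriv_boundary (a := 0) (b := x)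
      (f := R_tay σ (n + 1)) (f' := fun x => σ * R_tay σ n x)
      (B := fun x => x ^ (n + 1) / (n + 1).factorial) (B' := fun x => x ^ n / n.factorial)
      (fun z _ => (R_deriv_tay σ n z).continuousAt.continuousWithinAt)
      (fun z _ => (R_deriv_tay σ n z).hasDerivWithinAt) ?_ (fun z => ?_) (fun z hz => ?_)
      ⟨hx, le_rfl⟩
    · simp [R_tay, Finset.sum_range_succ']
    · refine ((hasDerivAt_pow (n + 1) z).div_const _).congr_deriv ?_
      have h3 : (n.factorial : ℝ) ≠ 0 := Nat.cast_ne_zero.2 n.factorial_ne_zero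
      rw [Nat.factorial_succ, Nat.add_sub_cancel]
      push_cast
      field_simp
    · rw [norm_mul, h1, one_mul]
      exact ih hz.1

theorem R_I_tay (n : ℕ) {x : ℝ} (hx : 0 ≤ x) : ‖R_tay Complex.I n x‖ ≤ x ^ n / n.factorial :=
  R_le_tay Complex.norm_I (fun x => (Complex.norm_exp_ofReal_mul_I x).le) n hx

theorem R_nI_tay (n : ℕ) {x : ℝ} (hx : 0 ≤ x) : ‖R_tay (-Complex.I) n x‖ ≤ x ^ n / n.factorial :=
  R_le_tay (by simp) (fun x => by
    have h := Complex.norm_exp_ofReal_mul_I (-x)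
    rw [Complex.ofReal_neg, neg_mul, ← mul_neg] at h
    exact h.le) n hx

theorem R4_re_tay (x : ℝ) : (R_tay Complex.I 4 x).re = cos x - 1 + x ^ 2 / 2 ∧
    (R_tay Complex.I 4 x).im = sin x - x + x ^ 3 / 6 ∧
    (R_tay (-Complex.I) 4 x).re = cos x - 1 + x ^ 2 / 2 ∧
    (R_tay (-Complex.I) 4 x).im = -(sin x - x + x ^ 3 / 6) ∧
    (R_tay Complex.I 3 x).im = sin x - x := by
  have h1 : R_tay Complex.I 4 x = ((cos x - 1 + x ^ 2 / 2 : ℝ) : ℂ) +
      ((sin x - x + x ^ 3 / 6 : ℝ) : ℂ) * Complex.I := by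
    simp only [R_tay, Finset.sum_range_succ, Finset.sum_range_zero, Nat.factorial,
      Complex.exp_mul_I]
    push_cast
    linear_combination (-(x : ℂ) ^ 2 / 2 - (x : ℂ) ^ 3 / 6 * Complex.I) * Complex.I_sq
  have h2 : R_tay (-Complex.I) 4 x = ((cos x - 1 + x ^ 2 / 2 : ℝ) : ℂ) +
      ((-(sin x - x + x ^ 3 / 6) : ℝ) : ℂ) * Complex.I := by
    simp only [R_tay, Finset.sum_range_succ, Finset.sum_range_zero, Nat.factorial, mul_neg]
    rw [← neg_mul, Complex.exp_mul_I, Complex.cos_neg, Complex.sin_neg]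
    push_cast
    linear_combination (-(x : ℂ) ^ 2 / 2 + (x : ℂ) ^ 3 / 6 * Complex.I) * Complex.I_sq
  have h3 : R_tay Complex.I 3 x = ((cos x - 1 + x ^ 2 / 2 : ℝ) : ℂ) +
      ((sin x - x : ℝ) : ℂ) * Complex.I := by
    simp only [R_tay, Finset.sum_range_succ, Finset.sum_range_zero, Nat.factorial,
      Complex.exp_mul_I]
    push_cast
    linear_combination (-(x : ℂ) ^ 2 / 2) * Complex.I_sq
  rw [h1, h2, h3]
  simp only [Complex.add_re, Complex.add_im, Complex.mul_re, Complex.mul_im, Complex.ofReal_re,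
    Complex.ofReal_im, Complex.I_re, Complex.I_im]
  refine ⟨?_, ?_, ?_, ?_, ?_⟩ <;> ring

theorem cube_tay {x : ℝ} (hx : 0 ≤ x) : cos x - 1 + x ^ 2 / 2 ≤ x ^ 3 / 10 := by
  rcases le_total x (12 / 5) with h | h
  · have h1 := (Complex.re_le_norm _).trans (R_I_tay 4 hx)
    rw [(R4_re_tay x).1] at h1
    have h3 : 0 ≤ x ^ 3 * (12 / 5 - x) := mul_nonneg (by positivity) (by linarith)
    norm_num [Nat.factorial] at h1
    nlinarith
  rcases le_total 5 x with h5 | h5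
  · have := cos_le_one x
    have : 0 ≤ x ^ 2 * (x / 10 - 1 / 2) := mul_nonneg (by positivity) (by linarith)
    nlinarith
  have h1 := one_sub_sq_div_two_le_cos (x := x - π)
  rw [cos_sub_pi] at h1
  have p1 := pi_gt_d4
  have p2 := pi_lt_d4
  have p3 : π ^ 2 ≤ 9.87 := by nlinarith
  have p4 : 3.1415 * x ≤ π * x := mul_le_mul_of_nonneg_right p1.le hx
  have h3 : 0 ≤ (x - 4.13) ^ 2 * (x - 1.74) := mul_nonneg (sq_nonneg _) (by linarith)
  nlinarith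

theorem R4_le_tay {x : ℝ} (hx : 0 ≤ x) :
    ‖R_tay Complex.I 4 x‖ ≤ x ^ 3 / 5 ∧ ‖R_tay (-Complex.I) 4 x‖ ≤ x ^ 3 / 5 := by
  obtain ⟨r1, r2, r3, r4, r5⟩ := R4_re_tay x
  have g0 : 0 ≤ cos x - 1 + x ^ 2 / 2 := by
    have := one_sub_sq_div_two_le_cos (x := x)
    linarith
  have g1 := cube_tay hx
  have h1 : sin x - x + x ^ 3 / 6 ≤ x ^ 3 / 6 := by
    have := sin_le hx
    linarith
  have h0 : 0 ≤ sin x - x + x ^ 3 / 6 := by
    have h2 := (Complex.abs_im_le_norm _).trans (R_I_tay 3 hx)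
    rw [r5] at h2
    norm_num [Nat.factorial] at h2
    have := (abs_le.1 h2).1
    linarith
  have h3 : (cos x - 1 + x ^ 2 / 2) ^ 2 + (sin x - x + x ^ 3 / 6) ^ 2 ≤ (x ^ 3 / 5) ^ 2 := by
    have h4 := pow_le_pow_left₀ g0 g1 2
    have h5 := pow_le_pow_left₀ h0 h1 2
    nlinarith [sq_nonneg (x ^ 3)]
  constructor
  · refine (sq_le_sq₀ (norm_nonneg _) (by positivity)).1 ?_
    rw [Complex.sq_norm, Complex.normSq_apply, r1, r2]
    nlinarith
  · refine (sq_le_sq₀ (norm_nonneg _) (by positivity)).1 ?_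
    rw [Complex.sq_norm, Complex.normSq_apply, r3, r4]
    nlinarith

/-- The remainder of the three point law. -/
noncomputable def G_tay (a c p q : ℝ) (n : ℕ) : ℂ :=
  (a : ℂ) * R_tay Complex.I n p + (c : ℂ) * R_tay (-Complex.I) n q

theorem G_succ_tay (a c p q : ℝ) (n : ℕ) : G_tay a c p q (n + 1) = G_tay a c p q n -
    (((a * p ^ n + (-1) ^ n * (c * q ^ n)) / n.factorial : ℝ) : ℂ) * Complex.I ^ n := by
  rw [G_tay, G_tay, R_succ_tay, R_succ_tay, mul_pow, mul_pow, neg_pow Complex.I]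
  push_cast
  ring

theorem G_norm_tay {a c p q : ℝ} (ha : 0 ≤ a) (hc : 0 ≤ c) (n : ℕ) :
    ‖G_tay a c p q n‖ ≤ a * ‖R_tay Complex.I n p‖ + c * ‖R_tay (-Complex.I) n q‖ := by
  refine (norm_add_le _ _).trans ?_
  rw [norm_mul, norm_mul, Complex.norm_of_nonneg ha, Complex.norm_of_nonneg hc]

theorem G_le_tay {a c p q : ℝ} (ha : 0 ≤ a) (hc : 0 ≤ c) (hp : 0 ≤ p) (hq : 0 ≤ q) (n : ℕ) :
    ‖G_tay a c p q n‖ ≤ (a * p ^ n + c * q ^ n) / n.factorial := by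
  refine (G_norm_tay ha hc n).trans ?_
  rw [add_div, mul_div_assoc, mul_div_assoc]
  exact add_le_add (mul_le_mul_of_nonneg_left (R_I_tay n hp) ha)
    (mul_le_mul_of_nonneg_left (R_nI_tay n hq) hc)

theorem G4_le_tay {a c p q : ℝ} (ha : 0 ≤ a) (hc : 0 ≤ c) (hp : 0 ≤ p) (hq : 0 ≤ q) :
    ‖G_tay a c p q 4‖ ≤ (a * p ^ 3 + c * q ^ 3) / 5 := by
  refine (G_norm_tay ha hc 4).trans ?_
  rw [add_div, mul_div_assoc, mul_div_assoc]
  exact add_le_add (mul_le_mul_of_nonneg_left (R4_le_tay hp).1 ha)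
    (mul_le_mul_of_nonneg_left (R4_le_tay hq).2 hc)

/-- All Taylor remainders that are used. -/
theorem tay {t y κ ν : ℝ} (h : Par y κ ν) (k0 : -1 < κ) (k1 : κ < 1) (ht : 0 < t) :
    ‖F0 (t * y) κ ν‖ ≤ 1 ∧
    ‖F0 (t * y) κ ν - 1‖ ≤ vs y κ ν * t ^ 2 / 2 ∧
    ‖F0 (t * y) κ ν - 1 - zt t y κ ν 2 1‖ ≤ vs y κ ν * t ^ 3 * be3 y κ / 6 ∧
    ‖F0 (t * y) κ ν - 1 - zt t y κ ν 2 1 - zt t y κ ν 3 (κ * y)‖
      ≤ vs y κ ν * t ^ 3 * be3 y κ / 5 ∧
    ‖F0 (t * y) κ ν - 1 - zt t y κ ν 2 1 - zt t y κ ν 3 (κ * y)‖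
      ≤ vs y κ ν * t ^ 4 * m4 y κ / 24 ∧
    ‖F0 (t * y) κ ν - 1 - zt t y κ ν 2 1 - zt t y κ ν 3 (κ * y) - zt t y κ ν 4 (m4 y κ)‖
      ≤ vs y κ ν * t ^ 5 * be5 y κ / 120 ∧
    ‖F0 (t * y) κ ν - 1 - zt t y κ ν 2 1 - zt t y κ ν 3 (κ * y) - zt t y κ ν 4 (m4 y κ)
      - zt t y κ ν 5 (m5 y κ)‖ ≤ vs y κ ν * t ^ 6 * m6 y κ / 720 ∧
    ‖F0 (t * y) κ ν - 1 - zt t y κ ν 2 1 - zt t y κ ν 3 (κ * y) - zt t y κ ν 4 (m4 y κ)
      - zt t y κ ν 5 (m5 y κ) - zt t y κ ν 6 (m6 y κ)‖ ≤ vs y κ ν * t ^ 7 * be7 y κ / 5040 ∧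
    ‖F0 (t * y) κ ν - 1 - zt t y κ ν 2 1 - zt t y κ ν 3 (κ * y) - zt t y κ ν 4 (m4 y κ)
      - zt t y κ ν 5 (m5 y κ) - zt t y κ ν 6 (m6 y κ) - zt t y κ ν 7 (m7 y κ)‖
      ≤ vs y κ ν * t ^ 8 * m8 y κ / 40320 := by
  have hy := h.y0
  have hS : 0 ≤ (1 - κ ^ 2) / 4 - ν := sub_nonneg.2 h.n1
  have e1 : 0 < 1 + κ := by linarith
  have e2 : 0 < 1 - κ := by linarith
  set a : ℝ := 2 * ((1 - κ ^ 2) / 4 - ν) / (1 + κ) with ha
  set c : ℝ := 2 * ((1 - κ ^ 2) / 4 - ν) / (1 - κ) with hc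
  set p : ℝ := t * y * (1 + κ) / 2 with hp
  set q : ℝ := t * y * (1 - κ) / 2 with hq
  have a0 : 0 ≤ a := by positivity
  have c0 : 0 ≤ c := by positivity
  have p0 : 0 ≤ p := by positivity
  have q0 : 0 ≤ q := by positivity
  have hF : F0 (t * y) κ ν = 1 + (a : ℂ) * (Complex.exp ((p : ℂ) * Complex.I) - 1) +
      (c : ℂ) * (Complex.exp (((-q : ℝ) : ℂ) * Complex.I) - 1) := rfl
  have hz : ∀ (n : ℕ) (m : ℝ), vs y κ ν * t ^ n * m = a * p ^ n + (-1) ^ n * (c * q ^ n) →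
      G_tay a c p q (n + 1) = G_tay a c p q n - zt t y κ ν n m := by
    intro n m hm
    rw [G_succ_tay, zt, hm]
  have g1 : G_tay a c p q 1 = F0 (t * y) κ ν - 1 := by
    rw [hF]
    simp [G_tay, R_tay]
    ring
  have g2 : G_tay a c p q 2 = F0 (t * y) κ ν - 1 := by
    have h0 : a * p ^ 1 + (-1) ^ 1 * (c * q ^ 1) = 0 := by
      rw [ha, hc, hp, hq]
      field_simp
      ring
    rw [G_succ_tay, g1, h0]
    simp
  have g3 := hz 2 1 (by rw [ha, hc, hp, hq, vs]; field_simp; ring)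
  have g4 := hz 3 (κ * y) (by rw [ha, hc, hp, hq, vs]; field_simp; ring)
  have g5 := hz 4 (m4 y κ) (by rw [ha, hc, hp, hq, vs, m4]; field_simp; ring)
  have g6 := hz 5 (m5 y κ) (by rw [ha, hc, hp, hq, vs, m5]; field_simp; ring)
  have g7 := hz 6 (m6 y κ) (by rw [ha, hc, hp, hq, vs, m6]; field_simp; ring)
  have g8 := hz 7 (m7 y κ) (by rw [ha, hc, hp, hq, vs, m7]; field_simp; ring)
  have hn := fun n => G_le_tay a0 c0 p0 q0 n
  have b3 : a * p ^ 3 + c * q ^ 3 = vs y κ ν * t ^ 3 * be3 y κ := by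
    rw [ha, hc, hp, hq, vs, be3]; field_simp; ring
  rw [← g2, ← g3, ← g4, ← g5, ← g6, ← g7, ← g8]
  refine ⟨?_, (hn 2).trans (le_of_eq ?_), (hn 3).trans (le_of_eq ?_), ?_,
    (hn 4).trans (le_of_eq ?_), (hn 5).trans (le_of_eq ?_), (hn 6).trans (le_of_eq ?_),
    (hn 7).trans (le_of_eq ?_), (hn 8).trans (le_of_eq ?_)⟩
  · have hac : a + c ≤ 1 := by
      have h1 : a + c = 1 - 4 * ν / ((1 + κ) * (1 - κ)) := by
        rw [ha, hc]
        field_simp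
        ring
      have h2 : 0 ≤ 4 * ν / ((1 + κ) * (1 - κ)) := by
        have := h.n0
        positivity
      linarith
    have h3 : F0 (t * y) κ ν = ((1 - a - c : ℝ) : ℂ) + (a : ℂ) * Complex.exp ((p : ℂ) * Complex.I) +
        (c : ℂ) * Complex.exp (((-q : ℝ) : ℂ) * Complex.I) := by
      rw [hF]
      push_cast
      ring
    rw [h3]
    refine (norm_add₃_le).trans ?_
    rw [norm_mul, norm_mul, Complex.norm_exp_ofReal_mul_I, Complex.norm_exp_ofReal_mul_I,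
      Complex.norm_of_nonneg a0, Complex.norm_of_nonneg c0,
      Complex.norm_of_nonneg (by linarith : 0 ≤ 1 - a - c)]
    linarith
  · rw [ha, hc, hp, hq, vs]; simp only [Nat.factorial]; field_simp; ring
  · rw [b3]; simp only [Nat.factorial]; norm_num
  · rw [← b3]
    exact G4_le_tay a0 c0 p0 q0
  · rw [ha, hc, hp, hq, vs, m4]; simp only [Nat.factorial]; field_simp; ring
  · rw [ha, hc, hp, hq, vs, be5]; simp only [Nat.factorial]; field_simp; ring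
  · rw [ha, hc, hp, hq, vs, m6]; simp only [Nat.factorial]; field_simp; ring
  · rw [ha, hc, hp, hq, vs, be7]; simp only [Nat.factorial]; field_simp; ring
  · rw [ha, hc, hp, hq, vs, m8]; simp only [Nat.factorial]; field_simp; ring

end Pool.Agent.Lib.MP_33650d_pr.Y
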